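import Pool.Agent.V7H88.DZ.G1

/-! The sum over the zeros at the smaller height. -/

set_option autoImplicit false

open Complex Filter Topology Set MeasureTheory

namespace Pool.Agent.V7H88.DZ

open SG (hh nn dd dl ord NZ)
open SP (RHs ZZ mu wt Mk Par Eb PS chi qq tt)
open LG (fam nA yp ae prs QT tm IsQ)

theorem ev_mu (κ δ r m ε : ℝ) (hκ : 0 < κ) (hδ0 : 0 < δ) (hδ1 : δ < 1 - κ) (hr : 1 < r)
    (hm : 0 ≤ m) (hε : 0 < ε) : ∃ T0 : ℝ, 10 ≤ T0 ∧ ∀ T : ℝ, T0 ≤ T → ∀ D : ℝ, dd κ T / 3 ≤ D →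
    D ≤ dd κ T → T ^ m * Real.exp (-(Real.log T ^ 2 / 2)) ≤ ε ∧
    T ^ m * Real.exp (-((T / 20) ^ 2 / (4 * D ^ 2))) ≤ ε ∧
    T ^ m * Real.exp (-(D ^ 2 * (1 / (r * T) ^ δ) ^ 2 / 2)) ≤ ε := by
  have hr0 : 0 < r := by linarith
  have e1 : ∀ᶠ T : ℝ in atTop, T ^ m * Real.exp (-(1 / 1600) * T ^ κ) ≤ ε := by
    have h := SG.Deep.tendsto_pow_exp m (1 / 1600) (2 * κ) (by norm_num) (by linarith)
    have e : 2 * κ / 2 = κ := by ring
    rw [e] at h
    exact (h.eventually_lt_const hε).mono fun T hT => hT.le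
  have e2 : ∀ᶠ T : ℝ in atTop, T ^ m * Real.exp (-(1 / (18 * r ^ 2)) * T ^ κ) ≤ ε := by
    have h := SG.Deep.tendsto_pow_exp m (1 / (18 * r ^ 2)) (2 * κ) (by positivity) (by linarith)
    have e : 2 * κ / 2 = κ := by ring
    rw [e] at h
    exact (h.eventually_lt_const hε).mono fun T hT => hT.le
  have e3 : ∀ᶠ T : ℝ in atTop, T ^ m * Real.exp (-(Real.log T ^ 2 / 2)) ≤ ε := by
    filter_upwards [Real.tendsto_log_atTop.eventually_ge_atTop (2 * (m + 1)),
      eventually_ge_atTop (1 / ε), eventually_gt_atTop 1] with T h1 h2 h3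
    have hT0 : 0 < T := by linarith
    have h4 : Real.exp (-(Real.log T ^ 2 / 2)) ≤ T ^ (-(m + 1) : ℝ) := by
      rw [Real.rpow_def_of_pos hT0]
      apply Real.exp_le_exp.2
      have h5 : 0 < Real.log T := Real.log_pos h3
      nlinarith
    calc T ^ m * Real.exp (-(Real.log T ^ 2 / 2)) ≤ T ^ m * T ^ (-(m + 1) : ℝ) := by gcongr
      _ = T⁻¹ := by
          rw [← Real.rpow_add hT0, ← Real.rpow_neg_one]
          congr 1
          ring
      _ ≤ ε := by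
          rw [inv_le_comm₀ hT0 hε, ← one_div]
          exact h2
  obtain ⟨T0, hT0⟩ := Filter.eventually_atTop.1 (e1.and (e2.and e3))
  refine ⟨max 10 T0, le_max_left _ _, fun T hT D hD1 hD2 => ?_⟩
  obtain ⟨h1, h2, h3⟩ := hT0 T ((le_max_right _ _).trans hT)
  have hT10 : 10 ≤ T := (le_max_left _ _).trans hT
  have hTp : 0 < T := by linarith
  have hdd : dd κ T = T ^ (1 - κ / 2) := rfl
  have hdd0 : 0 < dd κ T := by rw [hdd]; positivity
  have hD0 : 0 < D := by linarith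
  have hdd2 : dd κ T ^ 2 = T ^ (2 - κ) := by
    rw [hdd, ← Real.rpow_natCast, ← Real.rpow_mul hTp.le]
    congr 1
    push_cast
    ring
  have hTm : 0 < T ^ m := by positivity
  refine ⟨h3, ?_, ?_⟩
  · refine le_trans ?_ h1
    apply mul_le_mul_of_nonneg_left _ hTm.le
    apply Real.exp_le_exp.2
    have h3 : (1 / 1600) * T ^ κ ≤ (T / 20) ^ 2 / (4 * D ^ 2) := by
      rw [le_div_iff₀ (by positivity)]
      have h4 : D ^ 2 ≤ T ^ (2 - κ) := by
        rw [← hdd2]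
        exact pow_le_pow_left₀ hD0.le hD2 2
      have h5 : T ^ κ * T ^ (2 - κ) = T ^ 2 := by
        rw [← Real.rpow_add hTp, ← Real.rpow_natCast]
        congr 1
        push_cast
        ring
      have h6 : T ^ κ * D ^ 2 ≤ T ^ 2 := by
        rw [← h5]
        gcongr
      nlinarith
    linarith
  · refine le_trans ?_ h2
    apply mul_le_mul_of_nonneg_left _ hTm.le
    apply Real.exp_le_exp.2
    have h3 : (1 / (18 * r ^ 2)) * T ^ κ ≤ D ^ 2 * (1 / (r * T) ^ δ) ^ 2 / 2 := by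
      have h4 : T ^ (2 - κ) / 9 ≤ D ^ 2 := by
        rw [← hdd2]
        have := pow_le_pow_left₀ (by positivity) hD1 2
        linarith [show (dd κ T / 3) ^ 2 = dd κ T ^ 2 / 9 by ring]
      have h5 : ((r * T) ^ δ) ^ 2 ≤ r ^ 2 * T ^ (2 * δ) := by
        rw [Real.mul_rpow hr0.le hTp.le, mul_pow]
        have h6 : r ^ δ ≤ r := by
          calc r ^ δ ≤ r ^ (1 : ℝ) := Real.rpow_le_rpow_of_exponent_le hr.le (by linarith)
            _ = r := Real.rpow_one r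
        have h7 : (T ^ δ) ^ 2 = T ^ (2 * δ) := by
          rw [← Real.rpow_natCast, ← Real.rpow_mul hTp.le]
          congr 1
          push_cast
          ring
        rw [h7]
        gcongr
      have h6 : T ^ κ * T ^ (2 * δ) ≤ T ^ (2 - κ) := by
        rw [← Real.rpow_add hTp]
        apply Real.rpow_le_rpow_of_exponent_le (by linarith)
        linarith
      have hX : 0 < (r * T) ^ δ := by positivity
      have e9 : D ^ 2 * (1 / (r * T) ^ δ) ^ 2 / 2 = D ^ 2 / (((r * T) ^ δ) ^ 2 * 2) := by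
        field_simp
      rw [e9, le_div_iff₀ (by positivity)]
      calc 1 / (18 * r ^ 2) * T ^ κ * (((r * T) ^ δ) ^ 2 * 2)
          ≤ 1 / (18 * r ^ 2) * T ^ κ * ((r ^ 2 * T ^ (2 * δ)) * 2) := by gcongr
        _ = (T ^ κ * T ^ (2 * δ)) / 9 := by
            field_simp
            norm_num
        _ ≤ T ^ (2 - κ) / 9 := by gcongr
        _ ≤ D ^ 2 := h4
    linarith

theorem log_nA_bd2 (P : Par) (B1 : ℕ) (δ T : ℝ) (hδ : (1 - P.κ) * B1 / P.B ≤ δ) (hT : 10 ≤ T)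
    {A : Finset ℕ} (hA : A ∈ fam P B1 T) :
    0 ≤ Real.log (nA A) ∧ Real.log (nA A) ≤ δ * Real.log T := by
  have h1 : (1 : ℝ) ≤ nA A := by exact_mod_cast nA_one_le hA
  refine ⟨Real.log_nonneg h1, ?_⟩
  rw [← Real.log_rpow (by linarith)]
  exact Real.log_le_log (by linarith) (nA_le P B1 δ T hδ hT hA)

/-- distance of the logarithms of distinct integers -/
theorem log_dist (a b : ℕ) (N : ℝ) (ha : 1 ≤ a) (hb : 1 ≤ b) (hab : a ≠ b) (haN : (a : ℝ) ≤ N)
    (hbN : (b : ℝ) ≤ N) : 1 / N ≤ |Real.log a - Real.log b| := by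
  have key : ∀ a b : ℕ, 1 ≤ a → 1 ≤ b → a < b → (b : ℝ) ≤ N →
      1 / N ≤ Real.log b - Real.log a := by
    intro a b ha hb hab hbN
    have ha0 : (0 : ℝ) < a := by exact_mod_cast ha
    have hb0 : (0 : ℝ) < b := by exact_mod_cast hb
    have h1 : (a : ℝ) + 1 ≤ b := by exact_mod_cast hab
    have h2 := Real.log_le_sub_one_of_pos (show 0 < (a : ℝ) / b by positivity)
    rw [Real.log_div ha0.ne' hb0.ne'] at h2
    have h3 : (a : ℝ) / b ≤ 1 - 1 / b := by
      rw [div_le_iff₀ hb0, sub_mul, one_mul, div_mul_cancel₀ _ hb0.ne']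
      linarith
    have h4 : 1 / N ≤ 1 / (b : ℝ) := one_div_le_one_div_of_le hb0 hbN
    linarith
  rcases lt_or_gt_of_ne hab with h | h
  · have := key a b ha hb h hbN
    rw [abs_sub_comm]
    exact this.trans (le_abs_self _)
  · exact (key b a hb ha h haN).trans (le_abs_self _)

open Classical in
/-- bound for the twisted mean values -/
theorem JJ_bound (F : Finset (Finset ℕ)) (c : Finset ℕ → ℂ) (r t0 D V1 V2 R β L : ℝ)
    (hD : 0 < D) (hR : 0 ≤ R) (hV : V1 ≤ V2) (h1 : V1 + R ≤ t0) (h2 : t0 + R ≤ V2) (hβ : 0 ≤ β)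
    (hL : 0 ≤ L) (hc : ∀ A ∈ F, ‖c A‖ ≤ β / Real.sqrt (nA A)) (n : ℕ) :
    ‖JJ F c (fun A => r * Real.log (nA A)) t0 D V1 V2 n‖ ≤
      3 * D * (β ^ 2 * ∑ q ∈ (F ×ˢ F).filter (fun q => near r (L / D) n q), pw q) +
      D * ((∑ A ∈ F, ‖c A‖) ^ 2 * (3 * Real.exp (-(L ^ 2 / 2)) +
        4 * Real.exp (-(R ^ 2 / (4 * D ^ 2))))) := by
  set l : Finset ℕ → ℝ := fun A => r * Real.log (nA A) with hl
  set M := (∑ A ∈ F, ‖c A‖) ^ 2 with hM
  have ht := trunc_gen F c l t0 D V1 V2 R (Real.log n) hD hR hV h1 h2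
  have hf := full_norm F c l t0 D (Real.log n) hD
  have hJ : JJ F c l t0 D V1 V2 n = ∫ t in V1..V2, ((wt t0 D t * ‖PP F c l t‖ ^ 2 : ℝ) : ℂ) *
      cexp (-(I * ((t * Real.log n : ℝ) : ℂ))) := rfl
  rw [← hJ] at ht
  have hsum : ∑ i ∈ F, ∑ j ∈ F, ‖c i‖ * ‖c j‖ *
        Real.exp (-(D ^ 2 * (l i - l j - Real.log n) ^ 2 / 2)) ≤
      β ^ 2 * ∑ q ∈ (F ×ˢ F).filter (fun q => near r (L / D) n q), pw q +
        M * Real.exp (-(L ^ 2 / 2)) := by
    have e1 : M * Real.exp (-(L ^ 2 / 2)) = ∑ q ∈ F ×ˢ F, ‖c q.1‖ * ‖c q.2‖ *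
        Real.exp (-(L ^ 2 / 2)) := by
      rw [Finset.sum_product, hM, sq, Finset.sum_mul_sum, Finset.sum_mul]
      refine Finset.sum_congr rfl fun i _ => ?_
      rw [Finset.sum_mul]
    rw [e1, Finset.mul_sum, Finset.sum_filter, ← Finset.sum_add_distrib,
      ← Finset.sum_product (s := F) (t := F) (f := fun q : Finset ℕ × Finset ℕ => ‖c q.1‖ * ‖c q.2‖ *
        Real.exp (-(D ^ 2 * (l q.1 - l q.2 - Real.log n) ^ 2 / 2)))]
    refine Finset.sum_le_sum fun q hq => ?_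
    rw [Finset.mem_product] at hq
    have hc1 := hc q.1 hq.1
    have hc2 := hc q.2 hq.2
    have hn0 : 0 ≤ ‖c q.1‖ * ‖c q.2‖ := by positivity
    have hprod : ‖c q.1‖ * ‖c q.2‖ ≤ β ^ 2 * pw q := by
      calc ‖c q.1‖ * ‖c q.2‖ ≤ (β / Real.sqrt (nA q.1)) * (β / Real.sqrt (nA q.2)) := by gcongr
        _ = β ^ 2 * pw q := by
            unfold pw
            ring
    split_ifs with h
    · have h3 : Real.exp (-(D ^ 2 * (l q.1 - l q.2 - Real.log n) ^ 2 / 2)) ≤ 1 := by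
        rw [Real.exp_le_one_iff]
        have : 0 ≤ D ^ 2 * (l q.1 - l q.2 - Real.log n) ^ 2 / 2 := by positivity
        linarith
      calc _ ≤ ‖c q.1‖ * ‖c q.2‖ * 1 := mul_le_mul_of_nonneg_left h3 hn0
        _ ≤ β ^ 2 * pw q + 0 := by
            rw [mul_one, add_zero]
            exact hprod
        _ ≤ _ := by
            gcongr
            positivity
    · rw [zero_add]
      apply mul_le_mul_of_nonneg_left _ hn0
      apply Real.exp_le_exp.2
      have h3 : L / D ≤ |l q.1 - l q.2 - Real.log n| := by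
        unfold near at h
        push Not at h
        have e2 : l q.1 - l q.2 - Real.log n =
            r * (Real.log (nA q.1) - Real.log (nA q.2)) - Real.log n := by
          rw [hl]
          ring
        rw [e2]
        exact h.le
      have h4 : (L / D) ^ 2 ≤ (l q.1 - l q.2 - Real.log n) ^ 2 := by
        rw [← sq_abs (l q.1 - l q.2 - Real.log n)]
        exact pow_le_pow_left₀ (by positivity) h3 2
      have h5 : L ^ 2 ≤ D ^ 2 * (l q.1 - l q.2 - Real.log n) ^ 2 := by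
        calc L ^ 2 = D ^ 2 * (L / D) ^ 2 := by field_simp
          _ ≤ _ := by gcongr
      linarith
  have hs := s2pi_le
  have hs0 : 0 ≤ Real.sqrt (2 * Real.pi) := Real.sqrt_nonneg _
  have hnn : 0 ≤ ∑ q ∈ (F ×ˢ F).filter (fun q => near r (L / D) n q), pw q :=
    Finset.sum_nonneg fun q _ => pw_nn q
  set Fu : ℂ := ∫ t : ℝ, ((wt t0 D t * ‖PP F c l t‖ ^ 2 : ℝ) : ℂ) *
      cexp (-(I * ((t * Real.log n : ℝ) : ℂ))) with hFu
  have h6 : ‖JJ F c l t0 D V1 V2 n‖ ≤ ‖JJ F c l t0 D V1 V2 n - Fu‖ + ‖Fu‖ := by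
    have := norm_add_le (JJ F c l t0 D V1 V2 n - Fu) Fu
    rwa [sub_add_cancel] at this
  have h7 : ‖Fu‖ ≤ 3 * D * (β ^ 2 * ∑ q ∈ (F ×ˢ F).filter (fun q => near r (L / D) n q), pw q +
        M * Real.exp (-(L ^ 2 / 2))) := by
    refine hf.trans ?_
    calc _ ≤ Real.sqrt (2 * Real.pi) * D *
          (β ^ 2 * ∑ q ∈ (F ×ˢ F).filter (fun q => near r (L / D) n q), pw q +
          M * Real.exp (-(L ^ 2 / 2))) := mul_le_mul_of_nonneg_left hsum (by positivity)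
      _ ≤ _ := by gcongr
  calc ‖JJ F c l t0 D V1 V2 n‖ ≤ M * (4 * D) * Real.exp (-(R ^ 2 / (4 * D ^ 2))) +
        3 * D * (β ^ 2 * ∑ q ∈ (F ×ˢ F).filter (fun q => near r (L / D) n q), pw q +
        M * Real.exp (-(L ^ 2 / 2))) := h6.trans (add_le_add ht h7)
    _ = _ := by ring

theorem c_sum (P : Par) (B1 : ℕ) (δ X β : ℝ) (hδ : (1 - P.κ) * B1 / P.B ≤ δ) (hX : 10 ≤ X)
    (hβ : 0 ≤ β) (c : Finset ℕ → ℂ) (hc : ∀ A ∈ fam P B1 X, ‖c A‖ ≤ β / Real.sqrt (nA A)) :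
    (∑ A ∈ fam P B1 X, ‖c A‖) ^ 2 ≤ 4 * β ^ 2 * X ^ δ := by
  have hX0 : 0 < X := by linarith
  have h1 : ∑ A ∈ fam P B1 X, ‖c A‖ ≤ β * (2 * X ^ (δ / 2)) := by
    calc _ ≤ ∑ A ∈ fam P B1 X, β * (1 / Real.sqrt (nA A)) := by
          refine Finset.sum_le_sum fun A hA => ?_
          rw [mul_one_div]
          exact hc A hA
      _ = β * ∑ A ∈ fam P B1 X, 1 / Real.sqrt (nA A) := by rw [Finset.mul_sum]
      _ ≤ _ := by
          gcongr
          exact fam_sqrt P B1 δ X hδ hX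
  calc _ ≤ (β * (2 * X ^ (δ / 2))) ^ 2 :=
        pow_le_pow_left₀ (Finset.sum_nonneg fun _ _ => norm_nonneg _) h1 2
    _ = 4 * β ^ 2 * X ^ δ := by
        have : (X ^ (δ / 2)) ^ 2 = X ^ δ := by
          rw [← Real.rpow_natCast, ← Real.rpow_mul hX0.le]
          congr 1
          push_cast
          ring
        rw [← this]
        ring

end Pool.Agent.V7H88.DZ
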