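import Pool.Agent.V7H88.DZ.B
import Pool.Agent.H382P.LocExp

/-! The local formula for the mean square of a polynomial over the zeros. -/

set_option autoImplicit false

open Complex Filter Topology Set MeasureTheory

namespace Pool.Agent.V7H88.DZ

open SG (hh nn dd dl ord NZ)
open SP (RHs ZZ mu wt Mk Par Eb PS chi qq tt)

theorem ZZ_count : ∃ C T0 : ℝ, 0 < C ∧ 10 ≤ T0 ∧ ∀ T : ℝ, T0 ≤ T →
    ∑ᶠ s ∈ ZZ T, (mu s : ℝ) ≤ C * (T * Real.log T) := by
  classical
  obtain ⟨C0, hC0, hz⟩ := SP.LocAux.AS_count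
  refine ⟨C0 * 8, 10, by positivity, le_rfl, fun T hT => ?_⟩
  have hT1 : (1 : ℝ) ≤ T := by linarith
  have hfin := ZZ_fin hT1
  rw [finsum_mem_eq_finite_toFinset_sum _ hfin]
  set N : ℕ := ⌈2 * T⌉₊ with hN
  have hNlt : (N : ℝ) < 2 * T + 1 := Nat.ceil_lt_add_one (by linarith)
  have h1 : ∀ s ∈ hfin.toFinset, (mu s : ℝ) ≤ ∑ k ∈ Finset.Icc 4 N,
      (if |s.im - (k : ℝ)| ≤ 1 then (mu s : ℝ) else 0) := by
    intro s hs
    rw [Set.Finite.mem_toFinset] at hs
    obtain ⟨a1, a2, a3, a4, a5⟩ := hs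
    have hk : ⌊s.im⌋₊ ∈ Finset.Icc 4 N := by
      rw [Finset.mem_Icc]
      constructor
      · apply Nat.le_floor
        push_cast
        linarith
      · rw [hN]
        exact (Nat.floor_le_ceil _).trans (Nat.ceil_le_ceil a4)
    have h2 := Finset.single_le_sum (f := fun k : ℕ =>
      (if |s.im - (k : ℝ)| ≤ 1 then (mu s : ℝ) else 0)) (fun k _ => by
        split_ifs
        · positivity
        · exact le_rfl) hk
    refine le_trans ?_ h2
    rw [if_pos]
    have h3 := Nat.floor_le (show 0 ≤ s.im by linarith)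
    have h4 := Nat.lt_floor_add_one s.im
    rw [abs_le]
    constructor <;> linarith
  refine (Finset.sum_le_sum h1).trans ?_
  rw [Finset.sum_comm]
  have h2 : ∀ k ∈ Finset.Icc 4 N, ∑ s ∈ hfin.toFinset,
      (if |s.im - (k : ℝ)| ≤ 1 then (mu s : ℝ) else 0) ≤ C0 * Real.log (T ^ 2) := by
    intro k hk
    rw [Finset.mem_Icc] at hk
    have hk4 : (4 : ℝ) ≤ k := by exact_mod_cast hk.1
    have hkN : (k : ℝ) ≤ N := by exact_mod_cast hk.2
    rw [← Finset.sum_filter]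
    have h3 : hfin.toFinset.filter (fun s => |s.im - (k : ℝ)| ≤ 1) = SP.LocAux.AS T k hT1 := by
      ext s
      rw [Finset.mem_filter, SP.LocAux.mem_AS, Set.Finite.mem_toFinset]
    rw [h3]
    refine (hz T k hT1 hk4).trans ?_
    apply mul_le_mul_of_nonneg_left _ hC0.le
    apply Real.log_le_log (by linarith)
    nlinarith
  refine (Finset.sum_le_sum h2).trans ?_
  rw [Finset.sum_const, nsmul_eq_mul, Nat.card_Icc, Real.log_pow]
  have h3 : ((N + 1 - 4 : ℕ) : ℝ) ≤ 2 * T + 1 := by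
    have : ((N + 1 - 4 : ℕ) : ℝ) ≤ N := by exact_mod_cast (by omega : N + 1 - 4 ≤ N)
    linarith
  have hL : 0 ≤ Real.log T := Real.log_nonneg hT1
  have h4 : (0 : ℝ) ≤ C0 * Real.log T := by positivity
  push_cast
  calc ((N + 1 - 4 : ℕ) : ℝ) * (C0 * (2 * Real.log T)) ≤ (2 * T + 1) * (C0 * (2 * Real.log T)) := by
        gcongr
    _ ≤ (4 * T) * (C0 * (2 * Real.log T)) := by
        gcongr
        linarith
    _ = _ := by ring

theorem ph_nn (Λ : ℝ) (hΛ : 0 ≤ Λ) (n : ℕ) : 0 ≤ ph Λ n := by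
  unfold ph
  have h1 := ArithmeticFunction.vonMangoldt_nonneg (n := n)
  have h2 : 0 ≤ ∫ u in (0 : ℝ)..Λ, Real.exp (-(u - Real.log n) ^ 2 / 2) :=
    intervalIntegral.integral_nonneg hΛ fun u _ => (Real.exp_pos _).le
  positivity

theorem ph_le (Λ : ℝ) (hΛ : 0 ≤ Λ) (n : ℕ) :
    ph Λ n ≤ Λ * Real.exp (Λ ^ 2 / 2) * SP.ppG (1 / 4) n := by
  rcases Nat.eq_zero_or_pos n with h | h
  · subst h
    have : ph Λ 0 = 0 := by simp [ph]
    rw [this]
    have := ppG_nn (1 / 4) 0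
    positivity
  have hn : (0 : ℝ) < n := by exact_mod_cast h
  have h0 : 0 ≤ ArithmeticFunction.vonMangoldt n * (n : ℝ) ^ (-(1 / 2) : ℝ) := by
    have := ArithmeticFunction.vonMangoldt_nonneg (n := n)
    positivity
  have hnorm : ‖SP.efa 0 n‖ = ArithmeticFunction.vonMangoldt n * (n : ℝ) ^ (-(1 / 2) : ℝ) := by
    rw [LG.ze_efa_eq, norm_mul, LG.MeanAux.norm_osc, mul_one, Complex.norm_real,
      Real.norm_of_nonneg h0]
  have h1 : ph Λ n = ∫ u in (0 : ℝ)..Λ, ‖SP.efa 0 n *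
      (Real.exp (-(u - Real.log n) ^ 2 / 2) : ℂ)‖ := by
    unfold ph
    rw [← hnorm, ← intervalIntegral.integral_const_mul]
    apply intervalIntegral.integral_congr
    intro u _
    simp only
    rw [norm_mul, Complex.norm_real, Real.norm_of_nonneg (Real.exp_pos _).le]
  rw [h1]
  have h2 : ∀ u ∈ Set.Icc 0 Λ, ‖SP.efa 0 n * (Real.exp (-(u - Real.log n) ^ 2 / 2) : ℂ)‖ ≤
      Real.exp (Λ ^ 2 / 2) * SP.ppG (1 / 4) n := fun u hu => SP.efa_bound 0 Λ u hu n
  calc _ ≤ ∫ u in (0 : ℝ)..Λ, Real.exp (Λ ^ 2 / 2) * SP.ppG (1 / 4) n := by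
        apply intervalIntegral.integral_mono_on hΛ _ _ h2
        · apply Continuous.intervalIntegrable
          fun_prop
        · exact intervalIntegrable_const
    _ = _ := by
        rw [intervalIntegral.integral_const, sub_zero, smul_eq_mul]
        ring

theorem ph_sum (Λ : ℝ) (hΛ : 0 ≤ Λ) : Summable (ph Λ) :=
  Summable.of_nonneg_of_le (ph_nn Λ hΛ) (ph_le Λ hΛ)
    ((SP.ppG_summable _ (by norm_num)).mul_left _)

/-- twisted mean value -/
noncomputable def JJ {ι : Type} (F : Finset ι) (c : ι → ℂ) (l : ι → ℝ) (t0 D V1 V2 : ℝ) (n : ℕ) : ℂ :=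
  ∫ t in V1..V2, ((wt t0 D t * ‖PP F c l t‖ ^ 2 : ℝ) : ℂ) *
    cexp (-(I * ((t * Real.log n : ℝ) : ℂ)))

theorem swap {ι : Type} (F : Finset ι) (c : ι → ℂ) (l : ι → ℝ) (t0 D V1 V2 Λ : ℝ) (hΛ : 0 ≤ Λ) :
    (∫ t in V1..V2, wt t0 D t * ‖PP F c l t‖ ^ 2 *
      (∑' n : ℕ, (ph Λ n : ℂ) * cexp (-(I * ((t * Real.log n : ℝ) : ℂ)))).re) =
      (∑' n : ℕ, (ph Λ n : ℂ) * JJ F c l t0 D V1 V2 n).re := by
  have hw := LG.MeanAux.wt_cont t0 D
  have hP := PP_cont F c l
  set w : ℝ → ℝ := wt t0 D with hwdef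
  have hw0 : ∀ t, 0 < w t := LG.MeanAux.wt_pos t0 D
  have hw1 : ∀ t, w t ≤ 1 := LG.MeanAux.wt_le_one t0 D
  set M : ℝ := (∑ i ∈ F, ‖c i‖) ^ 2 with hM
  set G : ℝ → ℝ := fun t => ‖PP F c l t‖ ^ 2 with hGdef
  have hG : Continuous G := by rw [hGdef]; fun_prop
  have hG0 : ∀ t, 0 ≤ G t := fun t => sq_nonneg _
  have hGM : ∀ t, G t ≤ M := fun t => pow_le_pow_left₀ (norm_nonneg _) (PP_le F c l t) 2
  have hlks := ph_sum Λ hΛ
  set S : ℝ → ℂ := fun t => ∑' n : ℕ, (ph Λ n : ℂ) * cexp (-(I * ((t * Real.log n : ℝ) : ℂ)))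
    with hS
  have hnorm : ∀ (n : ℕ) (t : ℝ), ‖(ph Λ n : ℂ) * cexp (-(I * ((t * Real.log n : ℝ) : ℂ)))‖ =
      ph Λ n := by
    intro n t
    rw [norm_mul, LG.MeanAux.norm_osc, mul_one, Complex.norm_real, Real.norm_of_nonneg
      (ph_nn Λ hΛ n)]
  have hSsum : ∀ t : ℝ, Summable fun n : ℕ =>
      (ph Λ n : ℂ) * cexp (-(I * ((t * Real.log n : ℝ) : ℂ))) := by
    intro t
    apply Summable.of_norm
    simp only [hnorm]
    exact hlks
  have hScont : Continuous S := by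
    rw [hS]
    apply continuous_tsum (u := fun n => ph Λ n) _ hlks
    · intro n t
      rw [hnorm]
    · intro n
      fun_prop
  set A : ℂ := ∫ t in V1..V2, ((w t * G t : ℝ) : ℂ) * S t with hA
  have hhas : HasSum (fun n : ℕ => (ph Λ n : ℂ) * JJ F c l t0 D V1 V2 n) A := by
    have h1 := intervalIntegral.hasSum_integral_of_dominated_convergence (a := V1) (b := V2)
      (μ := volume) (F := fun (n : ℕ) (t : ℝ) => ((w t * G t : ℝ) : ℂ) *
        ((ph Λ n : ℂ) * cexp (-(I * ((t * Real.log n : ℝ) : ℂ)))))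
      (f := fun t => ((w t * G t : ℝ) : ℂ) * S t) (fun n _ => M * ph Λ n)
      (fun n => by
        apply Continuous.aestronglyMeasurable
        fun_prop)
      (fun n => Eventually.of_forall fun t _ => by
        rw [norm_mul, hnorm, Complex.norm_real, Real.norm_eq_abs]
        apply mul_le_mul_of_nonneg_right _ (ph_nn Λ hΛ n)
        rw [abs_of_nonneg (mul_nonneg (hw0 t).le (hG0 t))]
        calc w t * G t ≤ 1 * M := mul_le_mul (hw1 t) (hGM t) (hG0 t) zero_le_one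
          _ = M := one_mul M)
      (Eventually.of_forall fun t _ => hlks.mul_left M)
      (intervalIntegrable_const)
      (Eventually.of_forall fun t _ => (hSsum t).hasSum.mul_left _)
    have h2 : (fun n : ℕ => (ph Λ n : ℂ) * JJ F c l t0 D V1 V2 n) = fun n : ℕ => ∫ t in V1..V2,
        ((w t * G t : ℝ) : ℂ) * ((ph Λ n : ℂ) * cexp (-(I * ((t * Real.log n : ℝ) : ℂ)))) := by
      funext n
      unfold JJ
      rw [← intervalIntegral.integral_const_mul]
      congr 1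
      funext t
      simp only [hwdef, hGdef]
      ring
    rw [h2]
    exact h1
  rw [hhas.tsum_eq]
  have hint : IntervalIntegrable (fun t => ((w t * G t : ℝ) : ℂ) * S t) volume V1 V2 := by
    apply Continuous.intervalIntegrable
    fun_prop
  have h1 := Complex.reCLM.intervalIntegral_comp_comm hint
  rw [hA]
  have h2 : (∫ t in V1..V2, w t * ‖PP F c l t‖ ^ 2 * (S t).re) =
      ∫ t in V1..V2, Complex.reCLM (((w t * G t : ℝ) : ℂ) * S t) := by
    congr 1
    funext t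
    rw [Complex.reCLM_apply, Complex.re_ofReal_mul]
  rw [h2, h1]
  rfl

/-- elementary asymptotics for the error terms -/
theorem ev_loc (κ σ C : ℝ) (hκ : 0 < κ) (hκ1 : κ ≤ 1) (hσ : σ < 1 - κ) (hC : 0 < C) :
    ∃ T0 : ℝ, 10 ≤ T0 ∧
    ∀ T : ℝ, T0 ≤ T → 4 ≤ Real.log T ∧ Real.log T ≤ T / 40 ∧ 3 ≤ dd κ T ∧
    C * (T * Real.log T) * (T ^ σ * (C * Real.log T * (4 * dd κ T) *
      Real.exp (-((T / 20) ^ 2 / (4 * dd κ T ^ 2))) + 24 * (C * Real.log T) / (dd κ T / 3) +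
      6 * Real.exp (-(Real.log T ^ 2 / 4)))) ≤ dd κ T := by
  have ev0 : ∀ᶠ T : ℝ in atTop, 4 ≤ Real.log T := Real.tendsto_log_atTop.eventually_ge_atTop _
  have ev6 : ∀ᶠ T : ℝ in atTop, Real.log T ≤ T / 40 := by
    have h := Real.isLittleO_log_id_atTop
    rw [Asymptotics.isLittleO_iff] at h
    filter_upwards [h (show (0 : ℝ) < 1 / 40 by norm_num), eventually_ge_atTop 1] with T hT h1
    simp only [id] at hT
    rw [Real.norm_of_nonneg (Real.log_nonneg h1), Real.norm_of_nonneg (by linarith)] at hT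
    linarith
  have ev2 : ∀ᶠ T : ℝ in atTop, 24 * 3 * (C * C) * (Real.log T) ^ 2 ≤
      (1 / 3) * T ^ (1 - κ - σ) := by
    have h := isLittleO_log_rpow_atTop (show 0 < (1 - κ - σ) / 2 by linarith)
    rw [Asymptotics.isLittleO_iff] at h
    set e : ℝ := Real.sqrt (1 / (3 * (24 * 3 * (C * C)))) with he
    have he0 : 0 < e := Real.sqrt_pos.2 (by positivity)
    have he2 : e ^ 2 = 1 / (3 * (24 * 3 * (C * C))) := Real.sq_sqrt (by positivity)
    filter_upwards [h he0, eventually_ge_atTop 1] with T hT h1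
    rw [Real.norm_of_nonneg (Real.log_nonneg h1),
      Real.norm_of_nonneg (Real.rpow_nonneg (by linarith) _)] at hT
    have h2 := pow_le_pow_left₀ (Real.log_nonneg h1) hT 2
    rw [mul_pow, he2, ← Real.rpow_natCast (T ^ ((1 - κ - σ) / 2)), ← Real.rpow_mul (by linarith)] at h2
    have e1 : (1 - κ - σ) / 2 * ((2 : ℕ) : ℝ) = 1 - κ - σ := by push_cast; ring
    rw [e1] at h2
    calc 24 * 3 * (C * C) * (Real.log T) ^ 2 ≤ 24 * 3 * (C * C) *
          (1 / (3 * (24 * 3 * (C * C))) * T ^ (1 - κ - σ)) := by gcongr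
      _ = _ := by field_simp
  have ev3 : ∀ᶠ T : ℝ in atTop, T ^ (1 + 1 + 1 + |σ| : ℝ) * Real.exp (-(1 / 1600) * T ^ κ) ≤
      1 / (12 * (C * C)) := by
    have h := SG.Deep.tendsto_pow_exp (1 + 1 + 1 + |σ|) (1 / 1600) (2 * κ) (by norm_num)
      (by linarith)
    have e : 2 * κ / 2 = κ := by ring
    rw [e] at h
    exact (h.eventually_lt_const (by positivity : (0:ℝ) < 1 / (12 * (C * C)))).mono fun T hT => hT.le
  have ev4 : ∀ᶠ T : ℝ in atTop, 6 * C * T ^ (1 + 1 + |σ| : ℝ) * Real.exp (-(Real.log T ^ 2 / 4)) ≤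
      1 / 3 := by
    have hlog := Real.tendsto_log_atTop
    filter_upwards [hlog.eventually_ge_atTop (4 * (1 + 1 + |σ| + 1)),
      eventually_ge_atTop (18 * C), eventually_gt_atTop 1] with T h1 h2 h3
    have hT0 : 0 < T := by linarith
    have h4 : Real.exp (-(Real.log T ^ 2 / 4)) ≤ T ^ (-(1 + 1 + |σ| + 1) : ℝ) := by
      rw [Real.rpow_def_of_pos hT0]
      apply Real.exp_le_exp.2
      have h5 : 0 < Real.log T := Real.log_pos h3
      nlinarith
    have h6 : T ^ (1 + 1 + |σ| : ℝ) * T ^ (-(1 + 1 + |σ| + 1) : ℝ) = T⁻¹ := by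
      rw [← Real.rpow_add hT0, ← Real.rpow_neg_one]
      congr 1
      ring
    calc 6 * C * T ^ (1 + 1 + |σ| : ℝ) * Real.exp (-(Real.log T ^ 2 / 4))
        ≤ 6 * C * T ^ (1 + 1 + |σ| : ℝ) * T ^ (-(1 + 1 + |σ| + 1) : ℝ) := by gcongr
      _ = 6 * C * (T ^ (1 + 1 + |σ| : ℝ) * T ^ (-(1 + 1 + |σ| + 1) : ℝ)) := by ring
      _ = 6 * C * T⁻¹ := by rw [h6]
      _ ≤ 1 / 3 := by
        rw [← div_eq_mul_inv, div_le_div_iff₀ hT0 (by norm_num)]
        linarith
  have ev5 : ∀ᶠ T : ℝ in atTop, 3 ≤ dd κ T := by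
    have h1 : Tendsto (fun T : ℝ => dd κ T) atTop atTop :=
      tendsto_rpow_atTop (show 0 < 1 - κ / 2 by linarith)
    exact h1.eventually_ge_atTop 3
  obtain ⟨T0, hT0⟩ := Filter.eventually_atTop.1 (ev0.and (ev6.and (ev2.and (ev3.and (ev4.and ev5)))))
  refine ⟨max 10 T0, le_max_left _ _, fun T hT => ?_⟩
  obtain ⟨h0, h6, h2, h3, h4, h5⟩ := hT0 T ((le_max_right _ _).trans hT)
  have hT10 : 10 ≤ T := (le_max_left _ _).trans hT
  have hTp : 0 < T := by linarith
  refine ⟨h0, h6, h5, ?_⟩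
  set L := Real.log T with hL
  set D := dd κ T with hD
  have hDv : D = T ^ (1 - κ / 2) := rfl
  have hDD : D * D = T ^ (2 - κ) := by
    rw [hDv, ← Real.rpow_add hTp]
    congr 1
    ring
  have hTσ : T ^ σ ≤ T ^ |σ| := Real.rpow_le_rpow_of_exponent_le (by linarith) (le_abs_self σ)
  have hTσ0 : 0 < T ^ σ := Real.rpow_pos_of_pos hTp _
  have hLT : L ≤ T := by linarith
  have hL0 : 0 < L := by linarith
  have hD0 : 0 < D := by linarith
  have e3 : T ^ (1 + 1 + 1 + |σ| : ℝ) = T * T * T * T ^ |σ| := by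
    rw [Real.rpow_add hTp, Real.rpow_add hTp, Real.rpow_add hTp, Real.rpow_one]
  have e2 : T ^ (1 + 1 + |σ| : ℝ) = T * T * T ^ |σ| := by
    rw [Real.rpow_add hTp, Real.rpow_add hTp, Real.rpow_one]
  rw [e3] at h3
  rw [e2] at h4
  -- first term
  have t1 : C * (T * L) * (T ^ σ * (C * L * (4 * D) * Real.exp (-((T / 20) ^ 2 / (4 * D ^ 2))))) ≤
      D / 3 := by
    have e4 : (T / 20) ^ 2 / (4 * D ^ 2) = (1 / 1600) * T ^ κ := by
      have h7 : T ^ 2 = D ^ 2 * T ^ κ := by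
        rw [sq D, hDD, ← Real.rpow_add hTp, ← Real.rpow_natCast]
        congr 1
        push_cast
        ring
      rw [div_pow, h7]
      field_simp
      norm_num
    rw [e4]
    have e5 : Real.exp (-(1 / 1600 * T ^ κ)) = Real.exp (-(1 / 1600) * T ^ κ) := by
      congr 1
      ring
    rw [e5]
    set E := Real.exp (-(1 / 1600) * T ^ κ) with hE
    have hE0 : 0 < E := Real.exp_pos _
    calc C * (T * L) * (T ^ σ * (C * L * (4 * D) * E))
        = 4 * (C * C) * D * (T * L * L * T ^ σ * E) := by ring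
      _ ≤ 4 * (C * C) * D * (T * T * T * T ^ |σ| * E) := by gcongr
      _ ≤ 4 * (C * C) * D * (1 / (12 * (C * C))) := by gcongr
      _ = D / 3 := by
        field_simp
        norm_num
  have t2 : C * (T * L) * (T ^ σ * (24 * (C * L) / (D / 3))) ≤ D / 3 := by
    have e4 : C * (T * L) * (T ^ σ * (24 * (C * L) / (D / 3))) =
        (24 * 3 * (C * C) * L ^ 2) * (T * T ^ σ) / D := by
      field_simp
    rw [e4, div_le_iff₀ hD0]
    calc (24 * 3 * (C * C) * L ^ 2) * (T * T ^ σ) ≤ (1 / 3) * T ^ (1 - κ - σ) * (T * T ^ σ) := by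
          gcongr
      _ = (1 / 3) * (D * D) := by
          rw [hDD, mul_assoc]
          congr 1
          have : T * T ^ σ = T ^ (1 + σ) := by
            rw [Real.rpow_add hTp, Real.rpow_one]
          rw [this, ← Real.rpow_add hTp]
          congr 1
          ring
      _ = D / 3 * D := by ring
  have t3 : C * (T * L) * (T ^ σ * (6 * Real.exp (-(L ^ 2 / 4)))) ≤ D / 3 := by
    calc C * (T * L) * (T ^ σ * (6 * Real.exp (-(L ^ 2 / 4))))
        = 6 * C * (T * L * T ^ σ) * Real.exp (-(L ^ 2 / 4)) := by ring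
      _ ≤ 6 * C * (T * T * T ^ |σ|) * Real.exp (-(L ^ 2 / 4)) := by gcongr
      _ ≤ 1 / 3 := h4
      _ ≤ D / 3 := by linarith
  calc _ = C * (T * L) * (T ^ σ * (C * L * (4 * D) * Real.exp (-((T / 20) ^ 2 / (4 * D ^ 2))))) +
        C * (T * L) * (T ^ σ * (24 * (C * L) / (D / 3))) +
        C * (T * L) * (T ^ σ * (6 * Real.exp (-(L ^ 2 / 4)))) := by ring
    _ ≤ D := by linarith

theorem half_gauss (Λ L : ℝ) (hL : 4 ≤ L) (hΛ : L ≤ Λ) :
    |L * ((1 / Real.sqrt (2 * Real.pi)) * ∫ u in (0 : ℝ)..Λ, Real.exp (-u ^ 2 / 2)) - L / 2| ≤ 1 := by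
  have h := g_tail (-Λ) Λ L (by linarith) (by linarith) hΛ
  have hs : ∫ v in (-Λ)..Λ, Real.exp (-v ^ 2 / 2) = 2 * ∫ u in (0 : ℝ)..Λ, Real.exp (-u ^ 2 / 2) := by
    rw [← intervalIntegral.integral_add_adjacent_intervals (b := 0)
      (by apply Continuous.intervalIntegrable; fun_prop)
      (by apply Continuous.intervalIntegrable; fun_prop)]
    have h1 : ∫ v in (-Λ)..0, Real.exp (-v ^ 2 / 2) = ∫ u in (0 : ℝ)..Λ, Real.exp (-u ^ 2 / 2) := by
      have := intervalIntegral.integral_comp_neg (a := 0) (b := Λ) (fun v => Real.exp (-v ^ 2 / 2))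
      rw [neg_zero] at this
      rw [← this]
      apply intervalIntegral.integral_congr
      intro u _
      simp
    rw [h1]
    ring
  rw [hs] at h
  set X := ∫ u in (0 : ℝ)..Λ, Real.exp (-u ^ 2 / 2) with hX
  set s := Real.sqrt (2 * Real.pi) with hsdef
  have hs2 : 2 ≤ s := s2pi_ge
  have hs0 : 0 < s := by linarith
  have e1 : L * ((1 / s) * X) - L / 2 = L / (2 * s) * (2 * X - s) := by
    field_simp
  rw [e1, abs_mul, abs_of_nonneg (by positivity)]
  have h2 : Real.exp (-(L ^ 2 / 4)) ≤ 1 / L := by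
    rw [Real.exp_neg, ← one_div]
    apply one_div_le_one_div_of_le (by linarith)
    have := Real.add_one_le_exp (L ^ 2 / 4)
    nlinarith
  calc L / (2 * s) * |2 * X - s| ≤ L / (2 * 2) * (4 * (1 / L)) := by
        gcongr
        exact h.trans (by linarith)
    _ = 1 := by
      field_simp
      norm_num

/-- the local formula -/
theorem loc (hRH : RHs) (κ σ K : ℝ) (hκ : 0 < κ) (hκ1 : κ ≤ 1) (hσ : σ < 1 - κ) (hK : 0 ≤ K) :
    ∃ C T0 : ℝ, 0 < C ∧ 10 ≤ T0 ∧ ∀ T : ℝ, T0 ≤ T →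
    ∀ (ι : Type) (F : Finset ι) (c : ι → ℂ) (l : ι → ℝ) (t0 D : ℝ),
    (∑ i ∈ F, ‖c i‖) ^ 2 ≤ T ^ σ → (∀ i ∈ F, ∀ j ∈ F, |l i - l j| ≤ K * Real.log T) →
    dd κ T / 3 ≤ D → D ≤ dd κ T → T + Real.log T + T / 20 ≤ t0 →
    t0 + T / 20 ≤ 2 * T - Real.log T →
    |Real.pi * (∑ᶠ s ∈ ZZ T, (mu s : ℝ) * (wt t0 D s.im * ‖PP F c l s.im‖ ^ 2)) -
      (Real.log T / 2 * (∫ t in (T + Real.log T)..(2 * T - Real.log T),
        wt t0 D t * ‖PP F c l t‖ ^ 2) -
      1 / Real.sqrt (2 * Real.pi) * (∑' n : ℕ, (ph ((K + 1) * Real.log T) n : ℂ) *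
        JJ F c l t0 D (T + Real.log T) (2 * T - Real.log T) n).re)| ≤
    C * ((∫ t in (T + Real.log T)..(2 * T - Real.log T), wt t0 D t * ‖PP F c l t‖ ^ 2) + D) := by
  classical
  obtain ⟨C1, T1, hC1, hT1, h1⟩ := efk hRH
  obtain ⟨C2, T2, hC2, hT2, h2⟩ := ZZ_count
  obtain ⟨T3, hT3, h3⟩ := ev_loc κ σ (max C2 (K + 1)) hκ hκ1 hσ (by positivity)
  refine ⟨C1 + 1 + 3, max (max T1 T2) (max T3 (Real.exp (16 * (K + 1)))), by positivity,
    hT1.trans ((le_max_left _ _).trans (le_max_left _ _)), ?_⟩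
  intro T hT ι F c l t0 D hc hl hD1 hD2 ht1 ht2
  simp only [max_le_iff] at hT
  obtain ⟨⟨hTT1, hTT2⟩, hTT3, hTe⟩ := hT
  obtain ⟨hL4, hLT, hdd3, herr⟩ := h3 T hTT3
  have hT10 : 10 ≤ T := hT1.trans hTT1
  have hTp : 0 < T := by linarith
  have hLe : 16 * (K + 1) ≤ Real.log T := by
    rw [Real.le_log_iff_exp_le hTp]
    exact hTe
  set L := Real.log T with hL
  have hL0 : 0 < L := by linarith
  set Λ := (K + 1) * L with hΛ
  have hΛL : L ≤ Λ := by
    rw [hΛ]
    nlinarith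
  have hΛ0 : 0 ≤ Λ := by linarith
  have hΛ2 : Λ ≤ L ^ 2 / 16 := by
    rw [hΛ]
    nlinarith
  have hD0 : 0 < D := by linarith
  set V1 := T + L with hV1
  set V2 := 2 * T - L with hV2
  have hV : V1 ≤ V2 := by
    rw [hV1, hV2]
    linarith
  have hwc := LG.MeanAux.wt_cont t0 D
  have hPc := PP_cont F c l
  set g : ℝ → ℝ := fun t => wt t0 D t * ‖PP F c l t‖ ^ 2 with hg
  have hgc : Continuous g := by
    rw [hg]
    fun_prop
  have hg0 : ∀ t, 0 ≤ g t := fun t =>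
    mul_nonneg (LG.MeanAux.wt_pos t0 D t).le (sq_nonneg _)
  set S : ℝ → ℝ := fun t =>
    (∑' n : ℕ, (ph Λ n : ℂ) * cexp (-(I * ((t * Real.log n : ℝ) : ℂ)))).re with hS
  have hSc : Continuous S := by
    rw [hS]
    apply Complex.continuous_re.comp
    apply continuous_tsum (u := fun n => ph Λ n) _ (ph_sum Λ hΛ0)
    · intro n t
      rw [norm_mul, LG.MeanAux.norm_osc, mul_one, Complex.norm_real,
        Real.norm_of_nonneg (ph_nn Λ hΛ0 n)]
    · intro n
      fun_prop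
  set a : ℝ := 1 / Real.sqrt (2 * Real.pi) with ha
  have hfin := ZZ_fin (show (1 : ℝ) ≤ T by linarith)
  set k : ℂ → ℝ → ℝ := fun s t => Real.exp (-(s.im - t) ^ 2 / 2) *
    ∫ u in (0 : ℝ)..Λ, Real.cos (u * (s.im - t)) with hk
  have hkc : ∀ s, Continuous (k s) := by
    intro s
    rw [hk]
    exact Continuous.mul (by fun_prop) ((cosint_cont Λ).comp (by fun_prop))
  have hzk : ∀ t, zk T Λ t = ∑ s ∈ hfin.toFinset, (mu s : ℝ) * k s t := by
    intro t
    unfold zk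
    rw [finsum_mem_eq_finite_toFinset_sum _ hfin]
    refine Finset.sum_congr rfl fun s _ => ?_
    rw [hk]
    ring
  have hzc : Continuous (fun t => zk T Λ t) := by
    simp_rw [hzk]
    apply continuous_finsetSum
    intro s _
    exact continuous_const.mul (hkc s)
  -- pointwise
  have hpt : ∀ t ∈ Set.Icc V1 V2, |zk T Λ t - (L / 2 - a * S t)| ≤ C1 + 1 := by
    intro t ht
    have h4 := (h1 T hTT1 Λ hΛ0 hΛ2 t ht.1 ht.2).1
    have h5 := half_gauss Λ L hL4 hΛL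
    have e : zk T Λ t - (L / 2 - a * S t) =
        (zk T Λ t - a * (L * (∫ u in (0 : ℝ)..Λ, Real.exp (-u ^ 2 / 2)) - S t)) +
        (L * (a * ∫ u in (0 : ℝ)..Λ, Real.exp (-u ^ 2 / 2)) - L / 2) := by ring
    rw [e]
    exact (abs_add_le _ _).trans (add_le_add h4 h5)
  set I0 : ℝ := ∫ t in V1..V2, g t with hI0
  have hI00 : 0 ≤ I0 := intervalIntegral.integral_nonneg hV fun t _ => hg0 t
  have hint1 : |(∫ t in V1..V2, g t * zk T Λ t) - (L / 2 * I0 -
      a * (∑' n : ℕ, (ph Λ n : ℂ) * JJ F c l t0 D V1 V2 n).re)| ≤ (C1 + 1) * I0 := by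
    have e1 : (∑' n : ℕ, (ph Λ n : ℂ) * JJ F c l t0 D V1 V2 n).re = ∫ t in V1..V2, g t * S t :=
      (swap F c l t0 D V1 V2 Λ hΛ0).symm
    rw [e1]
    have i1 : IntervalIntegrable (fun t => g t * zk T Λ t) volume V1 V2 :=
      (hgc.mul hzc).intervalIntegrable _ _
    have i2 : IntervalIntegrable (fun t => g t * (L / 2 - a * S t)) volume V1 V2 :=
      (hgc.mul (continuous_const.sub (continuous_const.mul hSc))).intervalIntegrable _ _
    have e2 : L / 2 * I0 - a * (∫ t in V1..V2, g t * S t) =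
        ∫ t in V1..V2, g t * (L / 2 - a * S t) := by
      rw [hI0, ← intervalIntegral.integral_const_mul, ← intervalIntegral.integral_const_mul,
        ← intervalIntegral.integral_sub]
      · apply intervalIntegral.integral_congr
        intro t _
        simp only
        ring
      · exact (continuous_const.mul hgc).intervalIntegrable _ _
      · exact (continuous_const.mul (hgc.mul hSc)).intervalIntegrable _ _
    rw [e2, ← intervalIntegral.integral_sub i1 i2, ← Real.norm_eq_abs]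
    have i3 : IntervalIntegrable (fun t => (C1 + 1) * g t) volume V1 V2 :=
      (continuous_const.mul hgc).intervalIntegrable _ _
    refine (intervalIntegral.norm_integral_le_of_norm_le hV
      (Eventually.of_forall fun t ht => ?_) i3).trans (le_of_eq ?_)
    · have e3 : g t * zk T Λ t - g t * (L / 2 - a * S t) =
          g t * (zk T Λ t - (L / 2 - a * S t)) := by ring
      rw [e3, Real.norm_eq_abs, abs_mul, abs_of_nonneg (hg0 t), mul_comm]
      exact mul_le_mul_of_nonneg_right (hpt t ⟨ht.1.le, ht.2⟩) (hg0 t)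
    · rw [intervalIntegral.integral_const_mul]
  -- zero side
  have hint2 : |(∫ t in V1..V2, g t * zk T Λ t) - Real.pi * (∑ᶠ s ∈ ZZ T,
      (mu s : ℝ) * (wt t0 D s.im * ‖PP F c l s.im‖ ^ 2))| ≤ 3 * D := by
    rw [finsum_mem_eq_finite_toFinset_sum _ hfin]
    have e1 : (∫ t in V1..V2, g t * zk T Λ t) =
        ∑ s ∈ hfin.toFinset, (mu s : ℝ) * ∫ t in V1..V2, g t * k s t := by
      simp_rw [hzk, Finset.mul_sum]
      rw [intervalIntegral.integral_finsetSum]
      · refine Finset.sum_congr rfl fun s _ => ?_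
        rw [← intervalIntegral.integral_const_mul]
        apply intervalIntegral.integral_congr
        intro t _
        simp only
        ring
      · intro s _
        exact (hgc.mul (continuous_const.mul (hkc s))).intervalIntegrable _ _
    rw [e1, Finset.mul_sum, ← Finset.sum_sub_distrib]
    have h6 : ∀ s ∈ hfin.toFinset, |(mu s : ℝ) * (∫ t in V1..V2, g t * k s t) -
        Real.pi * ((mu s : ℝ) * (wt t0 D s.im * ‖PP F c l s.im‖ ^ 2))| ≤
        (mu s : ℝ) * ((∑ i ∈ F, ‖c i‖) ^ 2 * (Λ * (4 * D) *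
          Real.exp (-((T / 20) ^ 2 / (4 * D ^ 2))) + 24 * Λ / D + 6 * Real.exp (-(L ^ 2 / 4)))) := by
      intro s _
      have h7 := zero_pt F c l t0 D Λ L s.im V1 V2 (T / 20) hD0 hΛ0 hL0.le (by
        intro i hi j hj
        have := hl i hi j hj
        rw [hΛ]
        linarith) (by positivity) hV ht1 ht2
      have e2 : (mu s : ℝ) * (∫ t in V1..V2, g t * k s t) -
        Real.pi * ((mu s : ℝ) * (wt t0 D s.im * ‖PP F c l s.im‖ ^ 2)) =
        (mu s : ℝ) * ((∫ t in V1..V2, g t * k s t) -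
        Real.pi * (wt t0 D s.im * ‖PP F c l s.im‖ ^ 2)) := by ring
      rw [e2, abs_mul, abs_of_nonneg (by positivity : (0 : ℝ) ≤ mu s)]
      exact mul_le_mul_of_nonneg_left h7 (by positivity)
    refine (Finset.abs_sum_le_sum_abs _ _).trans ((Finset.sum_le_sum h6).trans ?_)
    rw [← Finset.sum_mul]
    have h8 := h2 T hTT2
    rw [finsum_mem_eq_finite_toFinset_sum _ hfin] at h8
    have h9 : 0 ≤ Λ * (4 * D) * Real.exp (-((T / 20) ^ 2 / (4 * D ^ 2))) + 24 * Λ / D +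
        6 * Real.exp (-(L ^ 2 / 4)) := by positivity
    set Cm := max C2 (K + 1) with hCm
    have hCm1 : C2 ≤ Cm := le_max_left _ _
    have hCm2 : K + 1 ≤ Cm := le_max_right _ _
    have hCm0 : 0 < Cm := lt_of_lt_of_le hC2 hCm1
    have hTσ0 : 0 < T ^ σ := Real.rpow_pos_of_pos hTp _
    have hΛm : Λ ≤ Cm * L := by
      rw [hΛ]
      gcongr
    have hdd0 : 0 < dd κ T := by linarith
    calc (∑ s ∈ hfin.toFinset, (mu s : ℝ)) * ((∑ i ∈ F, ‖c i‖) ^ 2 * (Λ * (4 * D) *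
          Real.exp (-((T / 20) ^ 2 / (4 * D ^ 2))) + 24 * Λ / D + 6 * Real.exp (-(L ^ 2 / 4))))
        ≤ (Cm * (T * L)) * (T ^ σ * (Cm * L * (4 * dd κ T) *
          Real.exp (-((T / 20) ^ 2 / (4 * dd κ T ^ 2))) + 24 * (Cm * L) / (dd κ T / 3) +
            6 * Real.exp (-(L ^ 2 / 4)))) := by
          gcongr
          exact h8.trans (by gcongr)
      _ ≤ dd κ T := herr
      _ ≤ 3 * D := by linarith
  have e9 : Real.pi * (∑ᶠ s ∈ ZZ T, (mu s : ℝ) * (wt t0 D s.im * ‖PP F c l s.im‖ ^ 2)) -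
      (L / 2 * I0 - a * (∑' n : ℕ, (ph Λ n : ℂ) * JJ F c l t0 D V1 V2 n).re) =
      -((∫ t in V1..V2, g t * zk T Λ t) - Real.pi * (∑ᶠ s ∈ ZZ T,
      (mu s : ℝ) * (wt t0 D s.im * ‖PP F c l s.im‖ ^ 2))) +
      ((∫ t in V1..V2, g t * zk T Λ t) - (L / 2 * I0 -
      a * (∑' n : ℕ, (ph Λ n : ℂ) * JJ F c l t0 D V1 V2 n).re)) := by ring
  rw [e9]
  refine (abs_add_le _ _).trans ?_
  rw [abs_neg]
  have h10 : 0 ≤ C1 * D := by positivity
  nlinarith [hint1, hint2]

end Pool.Agent.V7H88.DZ
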