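import Pool.Agent.V7H88.DZ.H2

/-! The fourth moment over the zeros. -/

set_option autoImplicit false

open Complex Filter Topology Set MeasureTheory

namespace Pool.Agent.V7H88.DZ

open SG (hh nn dd dl ord NZ)
open SP (RHs ZZ mu wt Mk Ya Par Eb PS chi qq tt)
open LG (fam nA yp prs QT tm IsQ)

/-- the number of zeros near a point -/
theorem near_count (T t h : ℝ) (hT : 1 ≤ T) (hL : 1 ≤ Real.log T) (hh : h ≤ 1 / Real.log T)
    (F : Finset ℂ) (hF : ∀ s ∈ F, s ∈ ZZ T ∧ |s.im - t| ≤ h) :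
    ∑ s ∈ F, (mu s : ℝ) ≤ 4 * Mk T 1 t := by
  rw [SP.ExpAux.Mk_eq hT, Finset.mul_sum]
  have hsub : F ⊆ (SP.ExpAux.ZZ_finite hT).toFinset := by
    intro s hs
    rw [Set.Finite.mem_toFinset]
    exact (hF s hs).1
  refine le_trans (Finset.sum_le_sum fun s hs => ?_)
    (Finset.sum_le_sum_of_subset_of_nonneg hsub fun s _ _ => by positivity)
  obtain ⟨-, h1⟩ := hF s hs
  have hL0 : 0 < Real.log T := by linarith
  have h2 : |s.im - t| ≤ 1 / Real.log T := h1.trans hh
  have h3 : (Real.log T * (s.im - t) / 1) ^ 2 ≤ 1 := by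
    rw [div_one, ← sq_abs, abs_mul, abs_of_pos hL0]
    apply pow_le_one₀ (by positivity)
    rw [le_div_iff₀ hL0] at h2
    linarith
  have h4 : (s.im - t) ^ 2 ≤ 1 := by
    rw [← sq_abs]
    apply pow_le_one₀ (by positivity)
    refine h2.trans ?_
    rw [div_le_one hL0]
    exact hL
  have h5 : 1 / 2 ≤ Real.exp (-(s.im - t) ^ 2 / 2) := by
    have := Real.add_one_le_exp (-(s.im - t) ^ 2 / 2)
    linarith
  have hm : (0 : ℝ) ≤ (mu s : ℝ) := by positivity
  rw [← mul_div_assoc, le_div_iff₀ (by positivity)]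
  calc (mu s : ℝ) * (1 + (Real.log T * (s.im - t) / 1) ^ 2) ≤ (mu s : ℝ) * (1 + 1) := by gcongr
    _ = 4 * ((mu s : ℝ) * (1 / 2)) := by ring
    _ ≤ 4 * ((mu s : ℝ) * Real.exp (-(s.im - t) ^ 2 / 2)) := by gcongr

theorem sum_sq_le {ι : Type*} (F : Finset ι) (f : ι → ℝ) (hf : ∀ i ∈ F, 0 ≤ f i) :
    ∑ i ∈ F, f i ^ 2 ≤ (∑ i ∈ F, f i) ^ 2 := by
  rw [sq, Finset.sum_mul]
  refine Finset.sum_le_sum fun i hi => ?_
  rw [sq]
  exact mul_le_mul_of_nonneg_left (Finset.single_le_sum hf hi) (hf i hi)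

/-- from a sum over points to an integral -/
theorem disc_cont (F : Finset ℂ) (m : ℂ → ℝ) (f : ℂ → ℝ) (g N : ℝ → ℝ) (h V1 V2 : ℝ) (hh : 0 < h)
    (hV : V1 ≤ V2) (hg : Continuous g) (hN : Continuous N) (hg0 : ∀ t, 0 ≤ g t)
    (hm : ∀ s ∈ F, 0 ≤ m s)
    (hF : ∀ s ∈ F, V1 ≤ s.im - h ∧ s.im + h ≤ V2)
    (hf : ∀ s ∈ F, ∀ t, |s.im - t| ≤ h → f s ≤ m s ^ 2 * g t)
    (hN0 : ∀ t, ∑ s ∈ F.filter (fun s => |s.im - t| ≤ h), m s ≤ N t) :
    2 * h * ∑ s ∈ F, f s ≤ ∫ t in V1..V2, g t * N t ^ 2 := by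
  classical
  rw [Finset.mul_sum]
  have h1 : ∀ s ∈ F, 2 * h * f s ≤ ∫ t in Ioc V1 V2,
      (Ioc (s.im - h) (s.im + h)).indicator (fun t => m s ^ 2 * g t) t := by
    intro s hs
    rw [setIntegral_indicator measurableSet_Ioc]
    have e1 : Ioc V1 V2 ∩ Ioc (s.im - h) (s.im + h) = Ioc (s.im - h) (s.im + h) := by
      rw [Set.inter_eq_right]
      exact Ioc_subset_Ioc (hF s hs).1 (hF s hs).2
    rw [e1, ← intervalIntegral.integral_of_le (by linarith)]
    calc 2 * h * f s = ∫ _t in (s.im - h)..(s.im + h), f s := by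
          rw [intervalIntegral.integral_const, smul_eq_mul]
          ring
      _ ≤ _ := by
          refine intervalIntegral.integral_mono_on (by linarith) (by simp)
            ((continuous_const.mul hg).intervalIntegrable _ _) fun t ht => ?_
          refine hf s hs t ?_
          rw [abs_le]
          constructor <;> linarith [ht.1, ht.2]
  refine (Finset.sum_le_sum h1).trans ?_
  have hint : ∀ s ∈ F, Integrable (fun t => (Ioc (s.im - h) (s.im + h)).indicator
      (fun t => m s ^ 2 * g t) t) (volume.restrict (Ioc V1 V2)) := by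
    intro s _
    apply Integrable.indicator _ measurableSet_Ioc
    exact ((continuous_const.mul hg).integrableOn_Icc (a := V1) (b := V2)).mono_set Ioc_subset_Icc_self
  rw [← integral_finsetSum _ hint, intervalIntegral.integral_of_le hV]
  refine setIntegral_mono_on (integrable_finsetSum _ hint)
    (((hg.mul (hN.pow 2)).integrableOn_Icc (a := V1) (b := V2)).mono_set Ioc_subset_Icc_self)
    measurableSet_Ioc fun t _ => ?_
  calc ∑ s ∈ F, (Ioc (s.im - h) (s.im + h)).indicator (fun t => m s ^ 2 * g t) t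
      ≤ ∑ s ∈ F.filter (fun s => |s.im - t| ≤ h), m s ^ 2 * g t := by
        rw [Finset.sum_filter]
        refine Finset.sum_le_sum fun s hs => ?_
        by_cases hst : t ∈ Ioc (s.im - h) (s.im + h)
        · rw [Set.indicator_of_mem hst, if_pos]
          rw [abs_le]
          constructor <;> linarith [hst.1, hst.2]
        · rw [Set.indicator_of_notMem hst]
          split_ifs
          · exact mul_nonneg (sq_nonneg _) (hg0 t)
          · exact le_rfl
    _ = (∑ s ∈ F.filter (fun s => |s.im - t| ≤ h), m s ^ 2) * g t := by rw [Finset.sum_mul]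
    _ ≤ (∑ s ∈ F.filter (fun s => |s.im - t| ≤ h), m s) ^ 2 * g t := by
        refine mul_le_mul_of_nonneg_right (sum_sq_le _ _ fun s hs => ?_) (hg0 t)
        exact hm s (Finset.mem_filter.1 hs).1
    _ ≤ N t ^ 2 * g t := by
        refine mul_le_mul_of_nonneg_right (pow_le_pow_left₀ ?_ (hN0 t) 2) (hg0 t)
        exact Finset.sum_nonneg fun s hs => hm s (Finset.mem_filter.1 hs).1
    _ = g t * N t ^ 2 := mul_comm _ _

theorem pt_bound (K x y b : ℝ) (B1 : ℕ) (hK : 0 ≤ K) (hy : 0 ≤ y) (hx : 0 ≤ x)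
    (hxy : x ≤ 9 * y + 1) (hb0 : 0 ≤ b) (hb : b ≤ K * (1 + x) ^ B1) :
    b ^ 4 ≤ K ^ 4 * 9 ^ (4 * B1) * Real.exp (4 * B1 * y) := by
  have h1 : 1 + x ≤ 9 * Real.exp y := by
    have := Real.add_one_le_exp y
    linarith
  have h2 : b ≤ K * (9 * Real.exp y) ^ B1 := by
    refine hb.trans (mul_le_mul_of_nonneg_left (pow_le_pow_left₀ (by linarith) h1 _) hK)
  calc b ^ 4 ≤ (K * (9 * Real.exp y) ^ B1) ^ 4 := pow_le_pow_left₀ hb0 h2 4
    _ = K ^ 4 * 9 ^ (4 * B1) * (Real.exp y) ^ (4 * B1) := by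
        rw [mul_pow, ← pow_mul, mul_pow, mul_comm B1 4]
        ring
    _ = _ := by
        rw [← Real.exp_nat_mul]
        push_cast
        ring_nf

/-- the fourth moment over the zeros -/
theorem mom_disc (hRH : RHs) {P : Par} {B0 B1 : ℕ} {δ : ℝ} (hP : Dat P B0 B1 δ) (r c : ℝ)
    (hr : 1 < r) (hr3 : r < 3) : ∃ C T0 : ℝ, 0 < C ∧ 100 ≤ T0 ∧ ∀ T : ℝ, T0 ≤ T → ∀ t0 : ℝ,
    T ≤ t0 → t0 ≤ 2 * T → ∀ F : Finset ℂ,
    (∀ s ∈ F, s ∈ ZZ T ∧ T + T / 40 ≤ s.im ∧ s.im ≤ 2 * T - T / 40) →
    ∑ s ∈ F, (mu s : ℝ) ^ 2 * (wt t0 (dd P.κ (r * T) / r) s.im *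
      ‖Qn P B1 (r * T) (r * s.im + c)‖ ^ 4) ≤ C * dd P.κ T * Real.log T := by
  obtain ⟨K, T1, hK, hT1, hQ⟩ := qn_bound hRH hP
  obtain ⟨T2, hT2, hslow⟩ := mk_slow
  obtain ⟨T3, hT3, hwin⟩ := ev_win P.κ r c P.hκ P.hκ1 hr hr3
  set q : ℝ := 4 * B1 + 2 with hq
  have hq0 : 0 < q := by positivity
  obtain ⟨C4, T4, hC4, hT4, hmom⟩ := mom_cont hRH P.κ P.hκ P.hκ1 r c q hr hr3 hq0
  set A : ℝ := 3 * (K ^ 4 * 9 ^ (4 * B1)) with hA
  have hA0 : 0 < A := by positivity
  refine ⟨48 * A * C4, max (max T1 T2) (max T3 T4), by positivity,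
    hT3.trans ((le_max_left _ _).trans (le_max_right _ _)), ?_⟩
  intro T hT t0 ht0 ht0' F hF
  simp only [max_le_iff] at hT
  obtain ⟨⟨hTT1, hTT2⟩, hTT3, hTT4⟩ := hT
  obtain ⟨w1, w2, w3, w4, w5, w6, w7, w8⟩ := hwin T hTT3
  have hT100 : 100 ≤ T := hT3.trans hTT3
  have hr0 : 0 < r := by linarith
  have hTp : 0 < T := by linarith
  have hrT : T ≤ r * T := by nlinarith
  have hrT2 : r * T ≤ 3 * T := by nlinarith
  have hc0 : 0 ≤ |c| := abs_nonneg c
  have hc1 : -|c| ≤ c := neg_abs_le c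
  have hc2 : c ≤ |c| := le_abs_self c
  set X := r * T with hX
  set D := dd P.κ X / r with hD
  have hD0 : 0 < D := by linarith
  have hlX : 0 < Real.log X := by linarith
  set h := 1 / (r * Real.log X) with hh
  have hh0 : 0 < h := by positivity
  have hh1 : h ≤ 1 / Real.log T := by
    rw [hh]
    apply one_div_le_one_div_of_le (by linarith)
    nlinarith
  have hh2 : h ≤ 1 := by
    refine hh1.trans ?_
    rw [div_le_one (by linarith)]
    linarith
  have hD2 : 100 * T ≤ D ^ 2 := by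
    have h1 : (dd P.κ T / 3) ^ 2 ≤ D ^ 2 := pow_le_pow_left₀ (by positivity) w5 2
    have h2 : (dd P.κ T / 3) ^ 2 = dd P.κ T ^ 2 / 9 := by ring
    rw [h2] at h1
    linarith
  have hT1' : (1 : ℝ) ≤ T := by linarith
  have hX1' : (1 : ℝ) ≤ X := by linarith
  have c1 := SP.ExpAux.Mk_cont hT1' 1
  have c2 := SP.ExpAux.Mk_cont hX1' 1
  have cw : Continuous (wt t0 D) := SP.ExpAux.wt_cont _ _
  have cc : Continuous (fun t : ℝ => r * t + c) := by fun_prop
  have cg : Continuous (fun t : ℝ => A * (wt t0 D t * Real.exp (4 * B1 * Mk X 1 (r * t + c)))) :=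
    continuous_const.mul (cw.mul (Real.continuous_exp.comp (continuous_const.mul (c2.comp cc))))
  have key := disc_cont F (fun s => (mu s : ℝ)) (fun s => (mu s : ℝ) ^ 2 * (wt t0 D s.im *
      ‖Qn P B1 X (r * s.im + c)‖ ^ 4))
      (fun t => A * (wt t0 D t * Real.exp (4 * B1 * Mk X 1 (r * t + c))))
      (fun t => 4 * Mk T 1 t) h (T + T / 50) (2 * T - T / 50) hh0 (by linarith) cg
      (continuous_const.mul c1) (fun t => mul_nonneg hA0.le (mul_nonneg (Real.exp_pos _).le
        (Real.exp_pos _).le)) (fun s _ => by positivity) (fun s hs => by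
        obtain ⟨-, h1, h2⟩ := hF s hs
        constructor <;> linarith) (fun s hs t hst => by
        obtain ⟨hz, h1, h2⟩ := hF s hs
        have hst2 := abs_le.1 hst
        refine mul_le_mul_of_nonneg_left ?_ (sq_nonneg _)
        have k1 : wt t0 D s.im ≤ 3 * wt t0 D t := by
          have k2 := wt_near t0 D s.im t h T hD0 hst (by rw [abs_le]; constructor <;> linarith)
            (by rw [abs_le]; constructor <;> linarith)
          refine k2.trans (mul_le_mul_of_nonneg_right ?_ (Real.exp_pos _).le)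
          have k3 : h * T / D ^ 2 ≤ 1 := by
            rw [div_le_one (by positivity)]
            nlinarith
          calc Real.exp (h * T / D ^ 2) ≤ Real.exp 1 := Real.exp_le_exp.2 k3
            _ ≤ 3 := by
              have := Real.exp_one_lt_d9
              linarith
        have k4 : Mk X 1 (r * s.im + c) ≤ 9 * Mk X 1 (r * t + c) + 1 := by
          refine hslow X (hTT2.trans hrT) _ _ ?_
          have e1 : r * s.im + c - (r * t + c) = r * (s.im - t) := by ring
          rw [e1, abs_mul, abs_of_pos hr0]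
          calc r * |s.im - t| ≤ r * h := mul_le_mul_of_nonneg_left hst hr0.le
            _ = 1 / Real.log X := by
              rw [hh]
              field_simp
        have k5 := hQ X (hTT1.trans hrT) (r * s.im + c) (by
          rw [hX] at w3 ⊢
          nlinarith) (by
          rw [hX] at w3 ⊢
          nlinarith)
        have k6 := pt_bound K _ _ _ B1 (by linarith) (SP.DpB_Mk_nonneg X 1 (r * t + c))
          (SP.DpB_Mk_nonneg X 1 (r * s.im + c)) k4 (norm_nonneg _) k5
        calc wt t0 D s.im * ‖Qn P B1 X (r * s.im + c)‖ ^ 4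
            ≤ (3 * wt t0 D t) * (K ^ 4 * 9 ^ (4 * B1) * Real.exp (4 * B1 * Mk X 1 (r * t + c))) :=
              mul_le_mul k1 k6 (by positivity) (by
                have := (Real.exp_pos (-(t - t0) ^ 2 / (2 * D ^ 2))).le
                exact mul_nonneg (by norm_num) this)
          _ = _ := by
              rw [hA]
              ring) (fun t => by
        refine near_count T t h hT1' (by linarith) hh1 _ fun s hs => ?_
        rw [Finset.mem_filter] at hs
        exact ⟨(hF s hs.1).1, hs.2⟩)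
  have key2 : (∫ t in (T + T / 50)..(2 * T - T / 50),
      A * (wt t0 D t * Real.exp (4 * B1 * Mk X 1 (r * t + c))) * (4 * Mk T 1 t) ^ 2) ≤
      16 * A * (C4 * dd P.κ T) := by
    have k1 := hmom T hTT4 t0
    calc _ ≤ ∫ t in (T + T / 50)..(2 * T - T / 50), 16 * A * (wt t0 D t *
          (Real.exp (q * Mk T 1 t) * Real.exp (q * Mk X 1 (r * t + c)))) := by
          refine intervalIntegral.integral_mono_on (by linarith)
            ((cg.mul ((continuous_const.mul c1).pow 2)).intervalIntegrable _ _)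
            ((continuous_const.mul (cw.mul ((Real.continuous_exp.comp (continuous_const.mul
              c1)).mul (Real.continuous_exp.comp (continuous_const.mul
                (c2.comp cc)))))).intervalIntegrable _ _) fun t _ => ?_
          set a := Mk T 1 t with ha
          set b := Mk X 1 (r * t + c) with hb
          have ha0 : 0 ≤ a := SP.DpB_Mk_nonneg _ _ _
          have hb0 : 0 ≤ b := SP.DpB_Mk_nonneg _ _ _
          have k2 : a ^ 2 ≤ Real.exp (q * a) := by
            have k3 : a ≤ Real.exp a := by linarith [Real.add_one_le_exp a]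
            calc a ^ 2 ≤ Real.exp a ^ 2 := pow_le_pow_left₀ ha0 k3 2
              _ = Real.exp (2 * a) := by
                rw [← Real.exp_nat_mul]
                push_cast
                rfl
              _ ≤ _ := by
                apply Real.exp_le_exp.2
                have : (0 : ℝ) ≤ B1 := by positivity
                nlinarith
          have k4 : Real.exp (4 * B1 * b) ≤ Real.exp (q * b) := by
            apply Real.exp_le_exp.2
            nlinarith
          have hw0 : 0 ≤ wt t0 D t := (Real.exp_pos _).le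
          calc A * (wt t0 D t * Real.exp (4 * B1 * b)) * (4 * a) ^ 2
              = 16 * A * (wt t0 D t * (a ^ 2 * Real.exp (4 * B1 * b))) := by ring
            _ ≤ _ := by gcongr
      _ = 16 * A * ∫ t in (T + T / 50)..(2 * T - T / 50), (wt t0 D t *
          (Real.exp (q * Mk T 1 t) * Real.exp (q * Mk X 1 (r * t + c)))) := by
          rw [intervalIntegral.integral_const_mul]
      _ ≤ _ := by gcongr
  set S := ∑ s ∈ F, (mu s : ℝ) ^ 2 * (wt t0 D s.im *
      ‖Qn P B1 X (r * s.im + c)‖ ^ 4) with hS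
  have key3 : 2 * h * S ≤ 16 * A * (C4 * dd P.κ T) := key.trans key2
  have key4 : S = (2 * h * S) * (r * Real.log X / 2) := by
    rw [hh]
    field_simp
  rw [key4]
  calc (2 * h * S) * (r * Real.log X / 2) ≤
        (16 * A * (C4 * dd P.κ T)) * (3 * (2 * Real.log T) / 2) := by gcongr
    _ = _ := by ring

end Pool.Agent.V7H88.DZ
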