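import Pool.Agent.V7H88.DZ.I6
import Pool.Agent.V7H88.DZ.H3

/-! The number of the zeros which cannot be matched. -/

set_option autoImplicit false

open Complex Filter Topology Set MeasureTheory

namespace Pool.Agent.V7H88.DZ

open SG (hh nn dd dl ord NZ)
open SP (RHs ZZ mu wt Mk Ya Par Eb PS chi qq tt)
open LG (fam nA yp prs QT tm IsQ)

theorem wt_swap (t0 D x : ℝ) : wt t0 D x = wt x D t0 := by
  unfold wt
  congr 1
  ring

theorem wt_int3 (x D a b : ℝ) (hD : 0 < D) (hab : a ≤ b) : ∫ t0 in a..b, wt t0 D x ≤ 3 * D := by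
  have h1 : ∀ t0, wt t0 D x = wt x D t0 := fun t0 => wt_swap t0 D x
  simp_rw [h1]
  rw [intervalIntegral.integral_of_le hab]
  exact (setIntegral_le_integral (SP.ExpAux.wt_integrable hD)
    (Filter.Eventually.of_forall fun t => SP.ExpAux.wt_nonneg x D t)).trans
    (SP.ExpAux.wt_integral_le hD)

/-- Cauchy-Schwarz -/
theorem cs_sum (G : Finset ℂ) (m w q : ℂ → ℝ) (hw : ∀ s, 0 ≤ w s) :
    (∑ s ∈ G, m s * (w s * q s ^ 2)) ^ 2 ≤
      (∑ s ∈ G, w s) * ∑ s ∈ G, m s ^ 2 * (w s * q s ^ 4) := by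
  have h := Finset.sum_mul_sq_le_sq_mul_sq G (fun s => Real.sqrt (w s))
    (fun s => m s * (Real.sqrt (w s) * q s ^ 2))
  have e1 : ∑ s ∈ G, Real.sqrt (w s) * (m s * (Real.sqrt (w s) * q s ^ 2)) =
      ∑ s ∈ G, m s * (w s * q s ^ 2) := by
    refine Finset.sum_congr rfl fun s _ => ?_
    have := Real.mul_self_sqrt (hw s)
    calc Real.sqrt (w s) * (m s * (Real.sqrt (w s) * q s ^ 2)) =
          m s * ((Real.sqrt (w s) * Real.sqrt (w s)) * q s ^ 2) := by ring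
      _ = _ := by rw [this]
  have e2 : ∑ s ∈ G, Real.sqrt (w s) ^ 2 = ∑ s ∈ G, w s :=
    Finset.sum_congr rfl fun s _ => Real.sq_sqrt (hw s)
  have e3 : ∑ s ∈ G, (m s * (Real.sqrt (w s) * q s ^ 2)) ^ 2 =
      ∑ s ∈ G, m s ^ 2 * (w s * q s ^ 4) := by
    refine Finset.sum_congr rfl fun s _ => ?_
    have := Real.sq_sqrt (hw s)
    calc (m s * (Real.sqrt (w s) * q s ^ 2)) ^ 2 =
          m s ^ 2 * ((Real.sqrt (w s)) ^ 2 * q s ^ 4) := by ring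
      _ = _ := by rw [this]
  rw [e1, e2, e3] at h
  exact h

/-- a positive proportion of the zeros cannot be matched -/
theorem good_count (hRH : RHs) (r c : ℝ) (hr : 1 < r) (hr2 : r < 1 + Real.sqrt 2) :
    ∃ κ1 κ2 T0 : ℝ, 0 < κ1 ∧ κ1 ≤ 1 ∧ 0 < κ2 ∧ 100 ≤ T0 ∧ ∀ T : ℝ, T0 ≤ T →
    ∀ Bk A : Finset ℂ, (∀ s, s ∈ Bk ↔ s ∈ ZZ T ∧ T + T / 40 ≤ s.im ∧ s.im ≤ 2 * T - T / 40) →
    A ⊆ Bk → ∀ σ : ℂ × ℕ → ℂ × ℕ,
    (∀ s ∈ A, ∀ j < mu s, ∀ s' ∈ A, ∀ j' < mu s', σ (s, j) = σ (s', j') → s = s' ∧ j = j') →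
    (∀ s ∈ A, ∀ j < mu s, (σ (s, j)).1.re = 1 / 2 ∧ (σ (s, j)).2 < mu (σ (s, j)).1 ∧
      |(σ (s, j)).1.im - (r * s.im + c)| ≤ κ1 / Real.log T) →
    κ2 * (T * Real.log T) ≤ ((Bk \ A).card : ℝ) := by
  classical
  obtain ⟨P, B0, B1, δ, hP, c0, κ1, T1, hc0, hκ1, hκ1', hT1, hmass⟩ := good_mass hRH r c hr hr2
  have hs2 : Real.sqrt 2 ≤ 2 := by
    rw [Real.sqrt_le_left (by norm_num)]
    norm_num
  have hr3 : r < 3 := by linarith
  have hr0 : 0 < r := by linarith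
  obtain ⟨C, T2, hC, hT2, hmom⟩ := mom_disc hRH hP r c hr hr3
  obtain ⟨T3, hT3, hwin⟩ := ev_win P.κ r c P.hκ P.hκ1 hr hr3
  refine ⟨κ1, c0 ^ 2 / (4 * C), max (max T1 T2) T3, hκ1, hκ1', by positivity,
    hT1.trans ((le_max_left _ _).trans (le_max_left _ _)), ?_⟩
  intro T hT Bk A hBk hAB σ hinj hσ
  simp only [max_le_iff] at hT
  obtain ⟨⟨hTT1, hTT2⟩, hTT3⟩ := hT
  obtain ⟨w1, -, -, -, w5, w6, -, w8⟩ := hwin T hTT3
  have hT100 : 100 ≤ T := hT1.trans hTT1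
  set L := Real.log T with hL
  set d := dd P.κ T with hd
  set D := dd P.κ (r * T) / r with hD
  have hD0 : 0 < D := by linarith
  have hL0 : 0 < L := by linarith
  set G := Bk \ A with hG
  have hGB : ∀ s ∈ G, s ∈ ZZ T ∧ T + T / 40 ≤ s.im ∧ s.im ≤ 2 * T - T / 40 := fun s hs =>
    (hBk s).1 (Finset.mem_sdiff.1 hs).1
  have key : ∀ t0 ∈ Icc (T + T / 10) (2 * T - T / 10),
      c0 ^ 2 / C * (d * L) ≤ ∑ s ∈ G, wt t0 D s.im := by
    intro t0 ht0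
    have h1 := hmass T hTT1 t0 ht0.1 ht0.2 Bk A hBk hAB σ hinj hσ
    have h2 := hmom T hTT2 t0 (by linarith [ht0.1]) (by linarith [ht0.2]) G hGB
    have h3 := cs_sum G (fun s => (mu s : ℝ)) (fun s => wt t0 D s.im)
      (fun s => ‖Qn P B1 (r * T) (r * s.im + c)‖) (fun s => (Real.exp_pos _).le)
    have hW0 : 0 ≤ ∑ s ∈ G, wt t0 D s.im := Finset.sum_nonneg fun s _ => (Real.exp_pos _).le
    have hdL : 0 < d * L := mul_pos w8 hL0
    have h4 : (c0 * (d * L)) ^ 2 ≤ (∑ s ∈ G, wt t0 D s.im) * (C * d * L) := by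
      calc (c0 * (d * L)) ^ 2 ≤ (∑ s ∈ G, (mu s : ℝ) *
            (wt t0 D s.im * ‖Qn P B1 (r * T) (r * s.im + c)‖ ^ 2)) ^ 2 :=
            pow_le_pow_left₀ (by positivity) h1 2
        _ ≤ _ := h3
        _ ≤ _ := mul_le_mul_of_nonneg_left h2 hW0
    have h5 : c0 ^ 2 * (d * L) * (d * L) ≤ ((∑ s ∈ G, wt t0 D s.im) * C) * (d * L) := by
      calc c0 ^ 2 * (d * L) * (d * L) = (c0 * (d * L)) ^ 2 := by ring
        _ ≤ _ := h4
        _ = _ := by ring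
    have h6 := le_of_mul_le_mul_right h5 hdL
    rw [div_mul_eq_mul_div, div_le_iff₀ hC]
    exact h6
  have hab : T + T / 10 ≤ 2 * T - T / 10 := by linarith
  have hcont : ∀ s ∈ G, Continuous (fun t0 : ℝ => wt t0 D s.im) := by
    intro s _
    unfold wt
    fun_prop
  have hint1 : ∫ _t0 in (T + T / 10)..(2 * T - T / 10), c0 ^ 2 / C * (d * L) ≤
      ∫ t0 in (T + T / 10)..(2 * T - T / 10), ∑ s ∈ G, wt t0 D s.im :=
    intervalIntegral.integral_mono_on hab (by simp)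
      ((continuous_finsetSum _ hcont).intervalIntegrable _ _) key
  rw [intervalIntegral.integral_const, smul_eq_mul,
    intervalIntegral.integral_finsetSum (fun s hs => (hcont s hs).intervalIntegrable _ _)] at hint1
  have hint2 : ∑ s ∈ G, ∫ t0 in (T + T / 10)..(2 * T - T / 10), wt t0 D s.im ≤
      G.card * (3 * D) := by
    rw [← nsmul_eq_mul]
    exact Finset.sum_le_card_nsmul _ _ _ fun s _ => wt_int3 s.im D _ _ hD0 hab
  have h7 : (2 * T - T / 10 - (T + T / 10)) * (c0 ^ 2 / C * (d * L)) ≤ G.card * (3 * d) := by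
    refine (hint1.trans hint2).trans ?_
    gcongr
  have h8 : (4 / 5 * (c0 ^ 2 / C) * (T * L)) * d ≤ (3 * (G.card : ℝ)) * d := by
    calc (4 / 5 * (c0 ^ 2 / C) * (T * L)) * d =
          (2 * T - T / 10 - (T + T / 10)) * (c0 ^ 2 / C * (d * L)) := by ring
      _ ≤ G.card * (3 * d) := h7
      _ = _ := by ring
  have h9 := le_of_mul_le_mul_right h8 w8
  have h10 : c0 ^ 2 / (4 * C) * (T * L) = 1 / 4 * (c0 ^ 2 / C) * (T * L) := by
    field_simp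
  rw [h10]
  have h11 : 0 ≤ (c0 ^ 2 / C) * (T * L) := by positivity
  linarith

end Pool.Agent.V7H88.DZ
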