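import Pool.Agent.H880R2.LG.Mean

/-! The explicit formula with a sharp cutoff of the frequencies. -/

set_option autoImplicit false

open Complex Filter Topology Set MeasureTheory

namespace Pool.Agent.V7H88.DZ

open SG (hh nn dd dl ord NZ)
open SP (RHs ZZ mu wt Mk Par Eb PS chi qq tt)
open LG (ze_efa_eq ze_exp_re)

/-- zero side -/
noncomputable def zk (T Λ t : ℝ) : ℝ :=
  ∑ᶠ s ∈ ZZ T, (mu s : ℝ) * Real.exp (-(s.im - t) ^ 2 / 2) *
    ∫ u in (0 : ℝ)..Λ, Real.cos (u * (s.im - t))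

/-- coefficients of the prime side -/
noncomputable def ph (Λ : ℝ) (n : ℕ) : ℝ :=
  ArithmeticFunction.vonMangoldt n * (n : ℝ) ^ (-(1 / 2) : ℝ) *
    ∫ u in (0 : ℝ)..Λ, Real.exp (-(u - Real.log n) ^ 2 / 2)

theorem ZZ_fin {T : ℝ} (hT : 1 ≤ T) : (ZZ T).Finite :=
  H370.zset_finite H370.good_zeta T (2 * T) hT

theorem ppG_nn (c : ℝ) (n : ℕ) : 0 ≤ SP.ppG c n := by
  unfold SP.ppG
  have : 0 ≤ Real.log n := Real.log_natCast_nonneg n
  positivity

theorem ppG_sum_nn (c : ℝ) : 0 ≤ ∑' n, SP.ppG c n := tsum_nonneg (ppG_nn c)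

theorem efk (hRH : RHs) : ∃ C T0 : ℝ, 0 < C ∧ 10 ≤ T0 ∧
    ∀ T : ℝ, T0 ≤ T → ∀ Λ : ℝ, 0 ≤ Λ → Λ ≤ Real.log T ^ 2 / 16 →
    ∀ t : ℝ, T + Real.log T ≤ t → t ≤ 2 * T - Real.log T →
    |zk T Λ t - (1 / Real.sqrt (2 * Real.pi)) *
      (Real.log T * (∫ u in (0 : ℝ)..Λ, Real.exp (-u ^ 2 / 2)) -
      (∑' n : ℕ, (ph Λ n : ℂ) * cexp (-(I * ((t * Real.log n : ℝ) : ℂ)))).re)| ≤ C ∧
    ∑ᶠ s ∈ ZZ T, (mu s : ℝ) * Real.exp (-(s.im - t) ^ 2 / 2) ≤ C * Real.log T := by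
  classical
  obtain ⟨C0, T0, hC0, hT0, hEF⟩ := LG.EFX hRH
  have hG : Summable (SP.ppG (1 / 4)) := SP.ppG_summable _ (by norm_num)
  set G0 : ℝ := ∑' n, SP.ppG (1 / 4) n with hG0
  have hG0' : 0 ≤ G0 := ppG_sum_nn _
  refine ⟨C0 + 1 + G0, max T0 (Real.exp 4), by positivity,
    hT0.trans (le_max_left _ _), ?_⟩
  intro T hT Λ hΛ0 hΛ t ht1 ht2
  have hTT0 : T0 ≤ T := (le_max_left _ _).trans hT
  have hT10 : 10 ≤ T := hT0.trans hTT0
  have hL4 : 4 ≤ Real.log T := by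
    rw [Real.le_log_iff_exp_le (by linarith)]
    exact (le_max_right _ _).trans hT
  set L : ℝ := Real.log T with hLdef
  have hL0 : 0 < L := by linarith
  -- zero side
  have hfin : (ZZ T).Finite := H370.zset_finite H370.good_zeta T (2 * T) (by linarith)
  set w : ℂ → ℝ := fun s => (mu s : ℝ) * Real.exp (-(s.im - t) ^ 2 / 2) with hw
  have hw0 : ∀ s, 0 ≤ w s := fun s => by positivity
  set Z : ℝ → ℂ := fun u => ∑ s ∈ hfin.toFinset, (mu s : ℂ) *
      (Real.exp (-(s.im - t) ^ 2 / 2) : ℂ) * cexp (I * ((u * (s.im - t) : ℝ) : ℂ)) with hZ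
  have hZsum : ∀ u, (∑ᶠ s ∈ ZZ T, (mu s : ℂ) * (Real.exp (-(s.im - t) ^ 2 / 2) : ℂ) *
        cexp (I * ((u * (s.im - t) : ℝ) : ℂ))) = Z u := by
    intro u
    exact finsum_mem_eq_finite_toFinset_sum _ hfin
  have hZc : Continuous Z := by
    rw [hZ]
    fun_prop
  have hZre : ∀ u, (Z u).re = ∑ s ∈ hfin.toFinset, w s * Real.cos (u * (s.im - t)) := by
    intro u
    rw [hZ, Complex.re_sum]
    apply Finset.sum_congr rfl
    intro s _
    have : (mu s : ℂ) * (Real.exp (-(s.im - t) ^ 2 / 2) : ℂ) = ((w s : ℝ) : ℂ) := by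
      rw [hw]
      push_cast
      ring
    rw [this, Complex.re_ofReal_mul, ze_exp_re]
  -- prime side
  set P : ℝ → ℂ := fun u => ∑' n : ℕ, SP.efa t n * (Real.exp (-(u - Real.log n) ^ 2 / 2) : ℂ)
    with hP
  have hBs : Summable (fun n => Real.exp (Λ ^ 2 / 2) * SP.ppG (1 / 4) n) := hG.mul_left _
  have hPsum : ∀ u ∈ Set.Icc 0 Λ, Summable (fun n : ℕ => SP.efa t n *
      (Real.exp (-(u - Real.log n) ^ 2 / 2) : ℂ)) := fun u hu =>
    Summable.of_norm_bounded hBs (fun n => SP.efa_bound t Λ u hu n)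
  have hPc : ContinuousOn P (Set.Icc 0 Λ) := by
    apply continuousOn_tsum (u := fun n => Real.exp (Λ ^ 2 / 2) * SP.ppG (1 / 4) n)
    · intro n
      apply Continuous.continuousOn
      fun_prop
    · exact hBs
    · intro n u hu
      exact SP.efa_bound t Λ u hu n
  have hEF' : ∀ u ∈ Set.Icc 0 Λ, ‖Z u - (1 / Real.sqrt (2 * Real.pi) : ℝ) *
      ((L * Real.exp (-u ^ 2 / 2) : ℝ) - P u)‖ ≤ C0 * Real.exp (-u) := by
    intro u hu
    have := hEF T hTT0 u t hu.1 (hu.2.trans hΛ) ht1 ht2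
    rw [hZsum] at this
    exact this
  -- the total mass
  set M0 : ℝ := ∑ s ∈ hfin.toFinset, w s with hM0
  have hM0' : 0 ≤ M0 := Finset.sum_nonneg fun s _ => hw0 s
  have hM0L : M0 ≤ (C0 + 1 + G0) * L := by
    have h1 := hEF' 0 ⟨le_rfl, hΛ0⟩
    have h2 : (Z 0).re = M0 := by
      rw [hZre]
      simp [hM0]
    have h3 : ‖P 0‖ ≤ G0 := by
      rw [hP, hG0]
      apply tsum_of_norm_bounded hG.hasSum
      intro n
      have := SP.efa_bound t 0 0 ⟨le_rfl, le_rfl⟩ n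
      simpa using this
    have h4 : M0 ≤ ‖Z 0‖ := by
      rw [← h2]
      exact (le_abs_self _).trans (Complex.abs_re_le_norm _)
    have h5 : ‖Z 0‖ ≤ ‖Z 0 - (1 / Real.sqrt (2 * Real.pi) : ℝ) *
      ((L * Real.exp (-(0:ℝ) ^ 2 / 2) : ℝ) - P 0)‖ + ‖((1 / Real.sqrt (2 * Real.pi) : ℝ) : ℂ) *
      ((L * Real.exp (-(0:ℝ) ^ 2 / 2) : ℝ) - P 0)‖ := by
      have := norm_add_le (Z 0 - (1 / Real.sqrt (2 * Real.pi) : ℝ) *
        ((L * Real.exp (-(0:ℝ) ^ 2 / 2) : ℝ) - P 0)) (((1 / Real.sqrt (2 * Real.pi) : ℝ) : ℂ) *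
        ((L * Real.exp (-(0:ℝ) ^ 2 / 2) : ℝ) - P 0))
      rwa [sub_add_cancel] at this
    have h6 : ‖((1 / Real.sqrt (2 * Real.pi) : ℝ) : ℂ) *
      ((L * Real.exp (-(0:ℝ) ^ 2 / 2) : ℝ) - P 0)‖ ≤ L + G0 := by
      rw [norm_mul, Complex.norm_real, Real.norm_of_nonneg (by positivity)]
      have h7 : ‖(((L * Real.exp (-(0:ℝ) ^ 2 / 2) : ℝ) : ℂ) - P 0)‖ ≤ L + G0 := by
        refine (norm_sub_le _ _).trans (add_le_add ?_ h3)
        rw [Complex.norm_real, Real.norm_of_nonneg (by positivity)]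
        simp
      have h8 := SP.pp_inv_sqrt_le
      have h9 := norm_nonneg (((L * Real.exp (-(0:ℝ) ^ 2 / 2) : ℝ) : ℂ) - P 0)
      calc 1 / Real.sqrt (2 * Real.pi) * ‖(((L * Real.exp (-(0:ℝ) ^ 2 / 2) : ℝ) : ℂ) - P 0)‖
          ≤ 1 * ‖(((L * Real.exp (-(0:ℝ) ^ 2 / 2) : ℝ) : ℂ) - P 0)‖ :=
            mul_le_mul_of_nonneg_right h8 h9
        _ ≤ L + G0 := by rw [one_mul]; exact h7
    have h10 : C0 * Real.exp (-(0:ℝ)) = C0 := by simp
    rw [h10] at h1
    have : C0 ≤ C0 * L := by nlinarith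
    have : G0 ≤ G0 * L := by nlinarith
    nlinarith
  have hmass : ∑ᶠ s ∈ ZZ T, (mu s : ℝ) * Real.exp (-(s.im - t) ^ 2 / 2) = M0 :=
    finsum_mem_eq_finite_toFinset_sum _ hfin
  refine ⟨?_, by rw [hmass]; exact hM0L⟩
  have hZs : zk T Λ t = ∑ s ∈ hfin.toFinset, w s * ∫ u in (0 : ℝ)..Λ, Real.cos (u * (s.im - t)) := by
    unfold zk
    exact finsum_mem_eq_finite_toFinset_sum _ hfin
  have hint : ∫ u in (0 : ℝ)..Λ, (Z u).re =
      ∑ s ∈ hfin.toFinset, w s * ∫ u in (0 : ℝ)..Λ, Real.cos (u * (s.im - t)) := by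
    simp_rw [hZre]
    rw [intervalIntegral.integral_finsetSum]
    · apply Finset.sum_congr rfl
      intro s _
      rw [intervalIntegral.integral_const_mul]
    · intro s _
      apply Continuous.intervalIntegrable
      fun_prop
  -- step 2: the explicit formula
  have hps : ((∑' n : ℕ, (ph Λ n : ℂ) * cexp (-(I * ((t * Real.log n : ℝ) : ℂ))))) =
      ∫ u in (0 : ℝ)..Λ, P u := by
    have h1 : HasSum (fun n : ℕ => ∫ u in (0 : ℝ)..Λ,
        (SP.efa t n * (Real.exp (-(u - Real.log n) ^ 2 / 2) : ℂ)))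
        (∫ u in (0 : ℝ)..Λ, P u) := by
      apply intervalIntegral.hasSum_integral_of_dominated_convergence
        (bound := fun n _ => (Real.exp (Λ ^ 2 / 2) * SP.ppG (1 / 4) n))
      · intro n
        apply Continuous.aestronglyMeasurable
        fun_prop
      · intro n
        refine Eventually.of_forall fun u hu => ?_
        rw [Set.uIoc_of_le hΛ0] at hu
        exact (SP.efa_bound t Λ u ⟨hu.1.le, hu.2⟩ n)
      · exact Eventually.of_forall fun u _ => hBs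
      · exact intervalIntegrable_const
      · refine Eventually.of_forall fun u hu => ?_
        rw [Set.uIoc_of_le hΛ0] at hu
        exact (hPsum u ⟨hu.1.le, hu.2⟩).hasSum
    rw [← h1.tsum_eq]
    apply tsum_congr
    intro n
    rw [intervalIntegral.integral_const_mul, intervalIntegral.integral_ofReal, ze_efa_eq]
    unfold ph
    push_cast
    ring
  have hI1 : IntervalIntegrable (fun u => Z u) volume 0 Λ := by
    apply Continuous.intervalIntegrable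
    fun_prop
  have hI2 : IntervalIntegrable (fun u => (1 / Real.sqrt (2 * Real.pi) : ℝ) * P u) volume 0 Λ := by
    apply ContinuousOn.intervalIntegrable
    rw [Set.uIcc_of_le hΛ0]
    exact continuousOn_const.mul hPc
  have hI3 : IntervalIntegrable (fun u => ((((1 / Real.sqrt (2 * Real.pi)) *
      (L * Real.exp (-u ^ 2 / 2)) : ℝ)) : ℂ)) volume 0 Λ := by
    apply Continuous.intervalIntegrable
    fun_prop
  have hstep2 : ‖(∫ u in (0 : ℝ)..Λ, Z u) -
      ((∫ u in (0 : ℝ)..Λ, ((((1 / Real.sqrt (2 * Real.pi)) *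
      (L * Real.exp (-u ^ 2 / 2)) : ℝ)) : ℂ)) -
      ∫ u in (0 : ℝ)..Λ, (1 / Real.sqrt (2 * Real.pi) : ℝ) * P u)‖ ≤ C0 := by
    rw [← intervalIntegral.integral_sub hI3 hI2, ← intervalIntegral.integral_sub hI1 (hI3.sub hI2)]
    have hpt : ∀ u ∈ Set.Icc 0 Λ, ‖Z u -
        (((((1 / Real.sqrt (2 * Real.pi)) *
      (L * Real.exp (-u ^ 2 / 2)) : ℝ)) : ℂ) -
        (1 / Real.sqrt (2 * Real.pi) : ℝ) * P u)‖ ≤
        C0 * Real.exp (-u) := by
      intro u hu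
      have h1 : Z u -
        (((((1 / Real.sqrt (2 * Real.pi)) *
        (L * Real.exp (-u ^ 2 / 2)) : ℝ)) : ℂ) -
        (1 / Real.sqrt (2 * Real.pi) : ℝ) * P u) =
        (Z u - (1 / Real.sqrt (2 * Real.pi) : ℝ) *
          ((L * Real.exp (-u ^ 2 / 2) : ℝ) - P u)) := by
        push_cast
        ring
      rw [h1]
      exact hEF' u hu
    have hIb : IntervalIntegrable (fun u => C0 * Real.exp (-u)) volume 0 Λ := by
      apply Continuous.intervalIntegrable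
      fun_prop
    refine (intervalIntegral.norm_integral_le_of_norm_le hΛ0
      (Eventually.of_forall fun u hu => hpt u ⟨hu.1.le, hu.2⟩) hIb).trans ?_
    rw [intervalIntegral.integral_const_mul]
    have : ∫ u in (0 : ℝ)..Λ, Real.exp (-u) ≤ 1 := by
      rw [intervalIntegral.integral_comp_neg (fun u => Real.exp u), integral_exp]
      have := Real.exp_pos (-Λ)
      simp
      exact this.le
    nlinarith
  -- real parts
  have hre1 : (∫ u in (0 : ℝ)..Λ, Z u).re = ∫ u in (0 : ℝ)..Λ, (Z u).re := by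
    rw [← Complex.reCLM_apply, ← Complex.reCLM.intervalIntegral_comp_comm hI1]
    apply intervalIntegral.integral_congr
    intro u _
    simp [Complex.reCLM_apply]
  have hre2 : ((∫ u in (0 : ℝ)..Λ, ((((1 / Real.sqrt (2 * Real.pi)) *
      (L * Real.exp (-u ^ 2 / 2)) : ℝ)) : ℂ)) : ℂ) =
      (((1 / Real.sqrt (2 * Real.pi)) * (L * ∫ u in (0 : ℝ)..Λ,
        Real.exp (-u ^ 2 / 2)) : ℝ) : ℂ) := by
    rw [intervalIntegral.integral_ofReal, intervalIntegral.integral_const_mul,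
      intervalIntegral.integral_const_mul]
  have hre3 : (∫ u in (0 : ℝ)..Λ, (1 / Real.sqrt (2 * Real.pi) : ℝ) * P u) =
      (1 / Real.sqrt (2 * Real.pi) : ℝ) * ∑' n : ℕ, (ph Λ n : ℂ) *
        cexp (-(I * ((t * Real.log n : ℝ) : ℂ))) := by
    rw [intervalIntegral.integral_const_mul, hps]
  rw [hre3, hre2] at hstep2
  have hstep3 := (Complex.abs_re_le_norm _).trans hstep2
  rw [Complex.sub_re, Complex.sub_re, Complex.ofReal_re, hre1, Complex.re_ofReal_mul, hint,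
    ← hZs] at hstep3
  have e : zk T Λ t - (1 / Real.sqrt (2 * Real.pi)) *
      (L * (∫ u in (0 : ℝ)..Λ, Real.exp (-u ^ 2 / 2)) -
      (∑' n : ℕ, (ph Λ n : ℂ) * cexp (-(I * ((t * Real.log n : ℝ) : ℂ)))).re) =
      zk T Λ t - (1 / Real.sqrt (2 * Real.pi) *
      (L * (∫ u in (0 : ℝ)..Λ, Real.exp (-u ^ 2 / 2))) - 1 / Real.sqrt (2 * Real.pi) *
      (∑' n : ℕ, (ph Λ n : ℂ) * cexp (-(I * ((t * Real.log n : ℝ) : ℂ)))).re) := by ring
  rw [e]
  exact hstep3.trans (by linarith)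

end Pool.Agent.V7H88.DZ
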