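import Pool.Agent.V7H88.DZ.A

/-! The reproducing property of the kernel: the zero side of the local formula. -/

set_option autoImplicit false

open Complex Filter Topology Set MeasureTheory

namespace Pool.Agent.V7H88.DZ

open SG (hh nn dd dl ord NZ)
open SP (RHs ZZ mu wt Mk Par Eb PS chi qq tt)

/-- generalised trigonometric polynomial -/
noncomputable def PP {ι : Type*} (F : Finset ι) (c : ι → ℂ) (l : ι → ℝ) (t : ℝ) : ℂ :=
  ∑ i ∈ F, c i * cexp (I * ((t * l i : ℝ) : ℂ))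

theorem PP_cont {ι : Type*} (F : Finset ι) (c : ι → ℂ) (l : ι → ℝ) : Continuous (PP F c l) := by
  unfold PP
  fun_prop

theorem norm_e (x : ℝ) : ‖cexp (I * (x : ℂ))‖ = 1 := by
  rw [mul_comm, Complex.norm_exp_ofReal_mul_I]

theorem PP_le {ι : Type*} (F : Finset ι) (c : ι → ℂ) (l : ι → ℝ) (t : ℝ) :
    ‖PP F c l t‖ ≤ ∑ i ∈ F, ‖c i‖ := by
  unfold PP
  refine (norm_sum_le _ _).trans (Finset.sum_le_sum fun i _ => ?_)
  rw [norm_mul, norm_e, mul_one]

theorem PP_sq {ι : Type*} (F : Finset ι) (c : ι → ℂ) (l : ι → ℝ) (t : ℝ) :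
    ((‖PP F c l t‖ ^ 2 : ℝ) : ℂ) = ∑ i ∈ F, ∑ j ∈ F, (c i * (starRingEnd ℂ) (c j)) *
      cexp (I * ((l i - l j : ℝ) : ℂ) * t) := by
  have h1 : ((‖PP F c l t‖ ^ 2 : ℝ) : ℂ) = PP F c l t * (starRingEnd ℂ) (PP F c l t) := by
    rw [Complex.mul_conj, Complex.normSq_eq_norm_sq]
  rw [h1]
  unfold PP
  rw [map_sum, Finset.sum_mul_sum]
  refine Finset.sum_congr rfl fun i _ => Finset.sum_congr rfl fun j _ => ?_
  rw [map_mul, ← Complex.exp_conj, map_mul, Complex.conj_I, Complex.conj_ofReal]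
  have : cexp (I * ((l i - l j : ℝ) : ℂ) * t) =
      cexp (I * ((t * l i : ℝ) : ℂ)) * cexp (-I * ((t * l j : ℝ) : ℂ)) := by
    rw [← Complex.exp_add]
    congr 1
    push_cast
    ring
  rw [this]
  ring

theorem gl (a b : ℝ) : |Real.exp (-a ^ 2 / 2) - Real.exp (-b ^ 2 / 2)| ≤ |a - b| := by
  have hd : ∀ x : ℝ, HasDerivAt (fun x : ℝ => Real.exp (-x ^ 2 / 2))
      (Real.exp (-x ^ 2 / 2) * (-x)) x := by
    intro x
    have h1 : HasDerivAt (fun x : ℝ => -x ^ 2 / 2) (-x) x := by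
      have := ((hasDerivAt_pow 2 x).neg).div_const 2
      refine this.congr_deriv ?_
      simp
      ring
    exact h1.exp
  have hb : ∀ x : ℝ, ‖Real.exp (-x ^ 2 / 2) * (-x)‖ ≤ 1 := by
    intro x
    rw [norm_mul, Real.norm_eq_abs, Real.norm_eq_abs, Real.abs_exp, abs_neg]
    have h1 : |x| ≤ Real.exp (x ^ 2 / 2) := by
      have h2 := Real.add_one_le_exp (x ^ 2 / 2)
      have h3 : |x| ≤ x ^ 2 / 2 + 1 := by
        rw [← sq_abs x]
        nlinarith [sq_nonneg (|x| - 1)]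
      linarith
    have h4 : Real.exp (-x ^ 2 / 2) * Real.exp (x ^ 2 / 2) = 1 := by
      rw [← Real.exp_add]
      have : -x ^ 2 / 2 + x ^ 2 / 2 = 0 := by ring
      rw [this, Real.exp_zero]
    calc Real.exp (-x ^ 2 / 2) * |x| ≤ Real.exp (-x ^ 2 / 2) * Real.exp (x ^ 2 / 2) := by gcongr
      _ = 1 := h4
  have := Convex.norm_image_sub_le_of_norm_hasDerivWithin_le (C := 1)
    (f := fun x : ℝ => Real.exp (-x ^ 2 / 2)) (s := Set.univ)
    (fun x _ => (hd x).hasDerivWithinAt) (fun x _ => hb x) convex_univ (Set.mem_univ b)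
    (Set.mem_univ a)
  simpa [Real.norm_eq_abs] using this

theorem wt_lip (t0 D t γ : ℝ) (hD : 0 < D) : |wt t0 D t - wt t0 D γ| ≤ |t - γ| / D := by
  have h := gl ((t - t0) / D) ((γ - t0) / D)
  have e : ∀ x : ℝ, Real.exp (-((x - t0) / D) ^ 2 / 2) = wt t0 D x := by
    intro x
    unfold wt
    congr 1
    field_simp
  rw [e, e] at h
  refine h.trans (le_of_eq ?_)
  rw [← sub_div, abs_div, abs_of_pos hD]
  congr 2
  ring

theorem g1_int : Integrable (fun y : ℝ => Real.exp (-y ^ 2 / 2)) := by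
  have h := SG.Deep.gauss_integrable 1 0 one_pos
  refine h.congr (Eventually.of_forall fun y => ?_)
  simp only
  congr 1
  ring

theorem g1_val : ∫ y : ℝ, Real.exp (-y ^ 2 / 2) = Real.sqrt (2 * Real.pi) := by
  have h := SG.Deep.gauss_integral 1 0 one_pos
  have e : (fun y : ℝ => Real.exp (-y ^ 2 / 2)) =
      fun t : ℝ => Real.exp (-(t - 0) ^ 2 / (2 * 1 ^ 2)) := by
    funext y
    congr 1
    ring
  rw [e, h, one_mul]

theorem s2pi_le : Real.sqrt (2 * Real.pi) ≤ 3 := by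
  rw [Real.sqrt_le_left (by norm_num)]
  have := Real.pi_lt_d2
  linarith

theorem s2pi_ge : 2 ≤ Real.sqrt (2 * Real.pi) := by
  apply Real.le_sqrt_of_sq_le
  have := Real.pi_gt_three
  linarith

theorem e1_val (lam : ℝ) : ∫ y : ℝ, ((Real.exp (-y ^ 2 / 2) : ℝ) : ℂ) * cexp (I * lam * y) =
    ((Real.sqrt (2 * Real.pi) * Real.exp (-lam ^ 2 / 2) : ℝ) : ℂ) := by
  have h := SG.MVaux.ek_val 1 0 lam one_pos
  have e : (fun y : ℝ => ((Real.exp (-y ^ 2 / 2) : ℝ) : ℂ) * cexp (I * lam * y)) =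
      fun t : ℝ => (Real.exp (-(t - 0) ^ 2 / (2 * 1 ^ 2)) : ℂ) * cexp (I * lam * t) := by
    funext y
    congr 2
    congr 1
    ring
  rw [e, h]
  simp only [Complex.ofReal_zero, mul_zero, Complex.exp_zero, one_mul, one_pow]
  rw [← Complex.ofReal_mul]
  congr 2
  ring

theorem e1_int (lam : ℝ) :
    Integrable (fun y : ℝ => ((Real.exp (-y ^ 2 / 2) : ℝ) : ℂ) * cexp (I * lam * y)) := by
  have h := SG.MVaux.ek_int 1 0 lam one_pos
  refine h.congr (Eventually.of_forall fun y => ?_)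
  simp only
  congr 2
  congr 1
  ring

/-- the Fourier transform of the kernel -/
theorem kap_val (Λ lam : ℝ) (hΛ : 0 ≤ Λ) :
    ∫ y : ℝ, ((Real.exp (-y ^ 2 / 2) : ℝ) : ℂ) * cexp (I * lam * y) *
      ((∫ u in (0 : ℝ)..Λ, Real.cos (u * y) : ℝ) : ℂ) =
    ((Real.sqrt (2 * Real.pi) / 2 * ∫ v in (lam - Λ)..(lam + Λ), Real.exp (-v ^ 2 / 2) : ℝ) : ℂ) := by
  set f : ℝ → ℝ → ℂ := fun y u => ((Real.exp (-y ^ 2 / 2) : ℝ) : ℂ) * cexp (I * lam * y) *
    ((Real.cos (u * y) : ℝ) : ℂ) with hf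
  have h1 : ∀ y : ℝ, ((Real.exp (-y ^ 2 / 2) : ℝ) : ℂ) * cexp (I * lam * y) *
      ((∫ u in (0 : ℝ)..Λ, Real.cos (u * y) : ℝ) : ℂ) = ∫ u in Set.Ioc 0 Λ, f y u := by
    intro y
    rw [← intervalIntegral.integral_ofReal, ← intervalIntegral.integral_const_mul,
      intervalIntegral.integral_of_le hΛ]
  simp_rw [h1]
  have hint : Integrable (Function.uncurry f) (volume.prod (volume.restrict (Set.Ioc 0 Λ))) := by
    have h2 : Integrable (fun p : ℝ × ℝ => Real.exp (-p.1 ^ 2 / 2) * (1 : ℝ))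
        (volume.prod (volume.restrict (Set.Ioc 0 Λ))) :=
      Integrable.mul_prod (f := fun y : ℝ => Real.exp (-y ^ 2 / 2)) (g := fun _ : ℝ => (1 : ℝ))
        g1_int (integrable_const (1 : ℝ))
    refine h2.mono' ?_ (Eventually.of_forall fun p => ?_)
    · apply Continuous.aestronglyMeasurable
      rw [hf]
      unfold Function.uncurry
      fun_prop
    · unfold Function.uncurry
      simp only [hf]
      rw [norm_mul, norm_mul, Complex.norm_real, Complex.norm_real, Real.norm_eq_abs,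
        Real.norm_eq_abs, Real.abs_exp]
      have e1 : ‖cexp (I * lam * p.1)‖ = 1 := by
        rw [mul_assoc, ← Complex.ofReal_mul, norm_e]
      rw [e1, mul_one]
      exact mul_le_of_le_one_right (Real.exp_pos _).le (Real.abs_cos_le_one _)
  rw [integral_integral_swap hint]
  have h3 : ∀ u : ℝ, ∫ y : ℝ, f y u = (((Real.sqrt (2 * Real.pi) / 2) *
      (Real.exp (-(lam + u) ^ 2 / 2) + Real.exp (-(lam - u) ^ 2 / 2)) : ℝ) : ℂ) := by
    intro u
    have e : ∀ y : ℝ, f y u = (1 / 2 : ℂ) *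
        (((Real.exp (-y ^ 2 / 2) : ℝ) : ℂ) * cexp (I * ((lam + u : ℝ) : ℂ) * y)) +
        (1 / 2 : ℂ) * (((Real.exp (-y ^ 2 / 2) : ℝ) : ℂ) * cexp (I * ((lam - u : ℝ) : ℂ) * y)) := by
      intro y
      rw [hf]
      simp only
      rw [Complex.ofReal_cos, Complex.cos]
      have e1 : cexp (I * ((lam + u : ℝ) : ℂ) * y) = cexp (I * lam * y) *
          cexp (((u * y : ℝ) : ℂ) * I) := by
        rw [← Complex.exp_add]
        congr 1
        push_cast
        ring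
      have e2 : cexp (I * ((lam - u : ℝ) : ℂ) * y) = cexp (I * lam * y) *
          cexp (-((u * y : ℝ) : ℂ) * I) := by
        rw [← Complex.exp_add]
        congr 1
        push_cast
        ring
      rw [e1, e2]
      ring
    simp_rw [e]
    rw [integral_add ((e1_int _).const_mul _) ((e1_int _).const_mul _), integral_const_mul,
      integral_const_mul, e1_val, e1_val]
    push_cast
    ring
  simp_rw [h3]
  rw [← intervalIntegral.integral_of_le hΛ, intervalIntegral.integral_ofReal]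
  congr 1
  rw [intervalIntegral.integral_const_mul]
  congr 1
  rw [intervalIntegral.integral_add (by apply Continuous.intervalIntegrable; fun_prop)
    (by apply Continuous.intervalIntegrable; fun_prop)]
  have i1 : ∫ u in (0 : ℝ)..Λ, Real.exp (-(lam + u) ^ 2 / 2) =
      ∫ v in lam..(lam + Λ), Real.exp (-v ^ 2 / 2) := by
    have := intervalIntegral.integral_comp_add_left (a := 0) (b := Λ)
      (fun v => Real.exp (-v ^ 2 / 2)) lam
    rw [this, add_zero]
  have i2 : ∫ u in (0 : ℝ)..Λ, Real.exp (-(lam - u) ^ 2 / 2) =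
      ∫ v in (lam - Λ)..lam, Real.exp (-v ^ 2 / 2) := by
    have := intervalIntegral.integral_comp_sub_left (a := 0) (b := Λ)
      (fun v => Real.exp (-v ^ 2 / 2)) lam
    rw [this, sub_zero]
  rw [i1, i2, add_comm, intervalIntegral.integral_add_adjacent_intervals]
  · apply Continuous.intervalIntegrable; fun_prop
  · apply Continuous.intervalIntegrable; fun_prop

/-- the Gaussian mass outside `[-x, y]` -/
theorem g_tail (a b d : ℝ) (hd : 0 ≤ d) (ha : a ≤ -d) (hb : d ≤ b) :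
    |(∫ v in a..b, Real.exp (-v ^ 2 / 2)) - Real.sqrt (2 * Real.pi)| ≤
      4 * Real.exp (-(d ^ 2 / 4)) := by
  have hab : a ≤ b := by linarith
  have hs : MeasurableSet (Set.Ioc a b) := measurableSet_Ioc
  have e1 := integral_add_compl hs g1_int
  rw [g1_val] at e1
  rw [intervalIntegral.integral_of_le hab, ← e1, sub_add_cancel_left, abs_neg]
  have h0 : 0 ≤ ∫ v in (Set.Ioc a b)ᶜ, Real.exp (-v ^ 2 / 2) :=
    setIntegral_nonneg hs.compl fun v _ => (Real.exp_pos _).le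
  rw [abs_of_nonneg h0]
  have h1 := LG.KerAux.tail (1 / 2) 0 (d ^ 2) (by norm_num) (Set.Ioc a b)ᶜ hs.compl (by
    intro u hu
    rw [Set.mem_compl_iff, Set.mem_Ioc, not_and_or, not_lt, not_le] at hu
    rw [sub_zero]
    rcases hu with h | h
    · nlinarith
    · nlinarith)
  have e2 : ∀ v : ℝ, Real.exp (-(1 / 2 * (v - 0) ^ 2)) = Real.exp (-v ^ 2 / 2) := by
    intro v
    congr 1
    ring
  simp_rw [e2] at h1
  refine h1.trans ?_
  have e3 : -(1 / 2 / 2 * d ^ 2) = -(d ^ 2 / 4) := by ring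
  rw [e3, mul_comm]
  apply mul_le_mul_of_nonneg_right _ (Real.exp_pos _).le
  rw [Real.sqrt_le_left (by norm_num)]
  have := Real.pi_lt_four
  norm_num
  linarith

theorem kap_pi (Λ lam d : ℝ) (hΛ : 0 ≤ Λ) (hd : 0 ≤ d) (h : |lam| + d ≤ Λ) :
    ‖(∫ y : ℝ, ((Real.exp (-y ^ 2 / 2) : ℝ) : ℂ) * cexp (I * lam * y) *
      ((∫ u in (0 : ℝ)..Λ, Real.cos (u * y) : ℝ) : ℂ)) - (Real.pi : ℂ)‖ ≤
      6 * Real.exp (-(d ^ 2 / 4)) := by
  rw [kap_val Λ lam hΛ, ← Complex.ofReal_sub, Complex.norm_real, Real.norm_eq_abs]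
  have h1 := g_tail (lam - Λ) (lam + Λ) d hd (by linarith [le_abs_self lam])
    (by linarith [neg_abs_le lam])
  have h2 : Real.sqrt (2 * Real.pi) / 2 * (∫ v in (lam - Λ)..(lam + Λ), Real.exp (-v ^ 2 / 2)) -
      Real.pi = Real.sqrt (2 * Real.pi) / 2 *
      ((∫ v in (lam - Λ)..(lam + Λ), Real.exp (-v ^ 2 / 2)) - Real.sqrt (2 * Real.pi)) := by
    have : Real.sqrt (2 * Real.pi) * Real.sqrt (2 * Real.pi) = 2 * Real.pi :=
      Real.mul_self_sqrt (by positivity)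
    linear_combination (1 / 2) * this
  rw [h2, abs_mul, abs_of_nonneg (by positivity)]
  have := s2pi_le
  calc _ ≤ (3 / 2) * (4 * Real.exp (-(d ^ 2 / 4))) := by
        apply mul_le_mul (by linarith) h1 (abs_nonneg _) (by norm_num)
    _ = _ := by ring

theorem cosint_le (Λ y : ℝ) (hΛ : 0 ≤ Λ) : |∫ u in (0 : ℝ)..Λ, Real.cos (u * y)| ≤ Λ := by
  have := intervalIntegral.norm_integral_le_of_norm_le_const (a := 0) (b := Λ) (C := 1)
    (f := fun u => Real.cos (u * y)) (fun u _ => by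
      rw [Real.norm_eq_abs]
      exact Real.abs_cos_le_one _)
  rw [Real.norm_eq_abs, sub_zero, abs_of_nonneg hΛ, one_mul] at this
  exact this

theorem cosint_cont (Λ : ℝ) : Continuous (fun y : ℝ => ∫ u in (0 : ℝ)..Λ, Real.cos (u * y)) := by
  apply intervalIntegral.continuous_parametric_intervalIntegral_of_continuous'
  unfold Function.uncurry
  fun_prop

theorem absg_int : Integrable (fun y : ℝ => |y| * Real.exp (-y ^ 2 / 2)) := by
  have h := (SG.Deep.gauss_integrable 2 0 (by norm_num)).const_mul 4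
  refine h.mono' (by apply Continuous.aestronglyMeasurable; fun_prop)
    (Eventually.of_forall fun y => ?_)
  rw [Real.norm_eq_abs, abs_mul, abs_abs, Real.abs_exp]
  have e1 : Real.exp (-y ^ 2 / 2) = Real.exp (-(y - 0) ^ 2 / (2 * 2 ^ 2)) *
      Real.exp (-(3 * y ^ 2 / 8)) := by
    rw [← Real.exp_add]
    congr 1
    ring
  rw [e1]
  have h1 : |y| ≤ 4 * Real.exp (3 * y ^ 2 / 8) := by
    have h2 := Real.add_one_le_exp (3 * y ^ 2 / 8)
    have h3 : |y| ≤ 4 * (3 * y ^ 2 / 8 + 1) := by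
      rw [← sq_abs y]
      nlinarith [sq_nonneg (|y| - 1), abs_nonneg y]
    linarith
  have h4 : Real.exp (3 * y ^ 2 / 8) * Real.exp (-(3 * y ^ 2 / 8)) = 1 := by
    rw [← Real.exp_add, add_neg_cancel, Real.exp_zero]
  calc |y| * (Real.exp (-(y - 0) ^ 2 / (2 * 2 ^ 2)) * Real.exp (-(3 * y ^ 2 / 8)))
      ≤ (4 * Real.exp (3 * y ^ 2 / 8)) * (Real.exp (-(y - 0) ^ 2 / (2 * 2 ^ 2)) *
        Real.exp (-(3 * y ^ 2 / 8))) := by gcongr
    _ = 4 * Real.exp (-(y - 0) ^ 2 / (2 * 2 ^ 2)) * (Real.exp (3 * y ^ 2 / 8) *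
        Real.exp (-(3 * y ^ 2 / 8))) := by ring
    _ = _ := by rw [h4, mul_one]

theorem absg_val : ∫ y : ℝ, |y| * Real.exp (-y ^ 2 / 2) ≤ 24 := by
  have h := (SG.Deep.gauss_integrable 2 0 (by norm_num)).const_mul 4
  have hv := SG.Deep.gauss_integral 2 0 (by norm_num)
  calc ∫ y : ℝ, |y| * Real.exp (-y ^ 2 / 2) ≤ ∫ y : ℝ, 4 * Real.exp (-(y - 0) ^ 2 / (2 * 2 ^ 2)) := by
        apply integral_mono absg_int h
        intro y
        simp only
        have h1 : |y| ≤ 4 * Real.exp (3 * y ^ 2 / 8) := by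
          have h2 := Real.add_one_le_exp (3 * y ^ 2 / 8)
          have h3 : |y| ≤ 4 * (3 * y ^ 2 / 8 + 1) := by
            rw [← sq_abs y]
            nlinarith [sq_nonneg (|y| - 1), abs_nonneg y]
          linarith
        have h5 : Real.exp (3 * y ^ 2 / 8) * Real.exp (-y ^ 2 / 2) =
            Real.exp (-(y - 0) ^ 2 / (2 * 2 ^ 2)) := by
          rw [← Real.exp_add]
          congr 1
          ring
        calc |y| * Real.exp (-y ^ 2 / 2) ≤ (4 * Real.exp (3 * y ^ 2 / 8)) *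
              Real.exp (-y ^ 2 / 2) := by gcongr
          _ = 4 * (Real.exp (3 * y ^ 2 / 8) * Real.exp (-y ^ 2 / 2)) := by ring
          _ = _ := by rw [h5]
    _ = 4 * (2 * Real.sqrt (2 * Real.pi)) := by rw [integral_const_mul, hv]
    _ ≤ 24 := by linarith [s2pi_le]

/-- the reproducing property -/
theorem zero_pt {ι : Type*} (F : Finset ι) (c : ι → ℂ) (l : ι → ℝ) (t0 D Λ d γ V1 V2 R : ℝ)
    (hD : 0 < D) (hΛ : 0 ≤ Λ) (hd : 0 ≤ d) (hl : ∀ i ∈ F, ∀ j ∈ F, |l i - l j| + d ≤ Λ)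
    (hR : 0 ≤ R) (hV : V1 ≤ V2) (h1 : V1 + R ≤ t0) (h2 : t0 + R ≤ V2) :
    |(∫ t in V1..V2, wt t0 D t * ‖PP F c l t‖ ^ 2 * (Real.exp (-(γ - t) ^ 2 / 2) *
      ∫ u in (0 : ℝ)..Λ, Real.cos (u * (γ - t)))) - Real.pi * (wt t0 D γ * ‖PP F c l γ‖ ^ 2)| ≤
    (∑ i ∈ F, ‖c i‖) ^ 2 * (Λ * (4 * D) * Real.exp (-(R ^ 2 / (4 * D ^ 2))) + 24 * Λ / D +
      6 * Real.exp (-(d ^ 2 / 4))) := by
  set M : ℝ := (∑ i ∈ F, ‖c i‖) ^ 2 with hM
  have hM0 : 0 ≤ M := sq_nonneg _
  have hPM : ∀ t, ‖PP F c l t‖ ^ 2 ≤ M := fun t =>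
    pow_le_pow_left₀ (norm_nonneg _) (PP_le F c l t) 2
  set K : ℝ → ℝ := fun y => Real.exp (-y ^ 2 / 2) * ∫ u in (0 : ℝ)..Λ, Real.cos (u * y) with hK
  have hKc : Continuous K := by
    rw [hK]
    exact Continuous.mul (by fun_prop) (cosint_cont Λ)
  have hKle : ∀ y, |K y| ≤ Λ * Real.exp (-y ^ 2 / 2) := by
    intro y
    rw [hK]
    simp only
    rw [abs_mul, Real.abs_exp, mul_comm]
    exact mul_le_mul_of_nonneg_right (cosint_le Λ y hΛ) (Real.exp_pos _).le
  have hKle1 : ∀ y, |K y| ≤ Λ := by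
    intro y
    refine (hKle y).trans ?_
    have : Real.exp (-y ^ 2 / 2) ≤ 1 := by
      rw [Real.exp_le_one_iff]
      nlinarith [sq_nonneg y]
    nlinarith
  have hwc := LG.MeanAux.wt_cont t0 D
  have hPc := PP_cont F c l
  -- step 1
  have s1 := LG.MeanAux.tail_int (fun t => ((wt t0 D t * ‖PP F c l t‖ ^ 2 * K (γ - t) : ℝ) : ℂ))
    t0 D V1 V2 R (M * Λ) hD hR hV h1 h2 (by fun_prop) (by positivity) (by
      intro t
      rw [Complex.norm_real, Real.norm_eq_abs, abs_mul, abs_mul,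
        abs_of_pos (LG.MeanAux.wt_pos t0 D t), abs_of_nonneg (sq_nonneg _)]
      have hw := (LG.MeanAux.wt_pos t0 D t).le
      calc wt t0 D t * ‖PP F c l t‖ ^ 2 * |K (γ - t)| ≤ wt t0 D t * M * Λ := by
            gcongr
            · exact hPM t
            · exact hKle1 _
        _ = M * Λ * wt t0 D t := by ring)
  have hwi : Integrable (fun t : ℝ => wt t0 D t) := SG.Deep.gauss_integrable D t0 hD
  rw [intervalIntegral.integral_ofReal, integral_complex_ofReal, ← Complex.ofReal_sub,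
    Complex.norm_real, Real.norm_eq_abs] at s1
  -- step 2: substitute
  have hK1 : Integrable (fun y : ℝ => Λ * Real.exp (-y ^ 2 / 2)) := g1_int.const_mul _
  have hi1 : Integrable (fun t : ℝ => wt t0 D t * ‖PP F c l t‖ ^ 2 * K (γ - t)) := by
    refine (hwi.const_mul (M * Λ)).mono' (by apply Continuous.aestronglyMeasurable; fun_prop)
      (Eventually.of_forall fun t => ?_)
    rw [Real.norm_eq_abs, abs_mul, abs_mul,
        abs_of_pos (LG.MeanAux.wt_pos t0 D t), abs_of_nonneg (sq_nonneg _)]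
    have hw := (LG.MeanAux.wt_pos t0 D t).le
    calc wt t0 D t * ‖PP F c l t‖ ^ 2 * |K (γ - t)| ≤ wt t0 D t * M * Λ := by
            gcongr
            · exact hPM t
            · exact hKle1 _
        _ = M * Λ * wt t0 D t := by ring
  have hKsh : Integrable (fun t : ℝ => Λ * Real.exp (-(γ - t) ^ 2 / 2)) := by
    have h3 := (SG.Deep.gauss_integrable 1 γ one_pos).const_mul Λ
    refine h3.congr (Eventually.of_forall fun t => ?_)
    simp only
    congr 2
    ring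
  have hi2 : Integrable (fun t : ℝ => wt t0 D γ * ‖PP F c l t‖ ^ 2 * K (γ - t)) := by
    refine (hKsh.const_mul M).mono' (by apply Continuous.aestronglyMeasurable; fun_prop)
      (Eventually.of_forall fun t => ?_)
    rw [Real.norm_eq_abs, abs_mul, abs_mul,
        abs_of_pos (LG.MeanAux.wt_pos t0 D γ), abs_of_nonneg (sq_nonneg _)]
    have hw := LG.MeanAux.wt_le_one t0 D γ
    have hw0 := (LG.MeanAux.wt_pos t0 D γ).le
    calc wt t0 D γ * ‖PP F c l t‖ ^ 2 * |K (γ - t)| ≤ 1 * M *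
          (Λ * Real.exp (-(γ - t) ^ 2 / 2)) := by
            gcongr
            · exact hPM t
            · exact hKle _
        _ = _ := by ring
  have s2 : |(∫ t : ℝ, wt t0 D t * ‖PP F c l t‖ ^ 2 * K (γ - t)) -
      ∫ t : ℝ, wt t0 D γ * ‖PP F c l t‖ ^ 2 * K (γ - t)| ≤ M * (24 * Λ / D) := by
    rw [← integral_sub hi1 hi2, ← Real.norm_eq_abs]
    have hb : Integrable (fun t : ℝ => M * (Λ / D) * (|t - γ| * Real.exp (-(t - γ) ^ 2 / 2))) :=
      (absg_int.comp_sub_right γ).const_mul _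
    refine (norm_integral_le_of_norm_le hb (Eventually.of_forall fun t => ?_)).trans ?_
    · have e1 : wt t0 D t * ‖PP F c l t‖ ^ 2 * K (γ - t) - wt t0 D γ * ‖PP F c l t‖ ^ 2 * K (γ - t)
        = (wt t0 D t - wt t0 D γ) * ‖PP F c l t‖ ^ 2 * K (γ - t) := by ring
      rw [e1, Real.norm_eq_abs, abs_mul, abs_mul, abs_of_nonneg (sq_nonneg ‖PP F c l t‖)]
      have e2 : Real.exp (-(γ - t) ^ 2 / 2) = Real.exp (-(t - γ) ^ 2 / 2) := by
        congr 1
        ring
      have h3 := hKle (γ - t)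
      rw [e2] at h3
      calc |wt t0 D t - wt t0 D γ| * ‖PP F c l t‖ ^ 2 * |K (γ - t)|
          ≤ (|t - γ| / D) * M * (Λ * Real.exp (-(t - γ) ^ 2 / 2)) := by
            gcongr
            · exact wt_lip t0 D t γ hD
            · exact hPM t
        _ = _ := by ring
    · rw [integral_const_mul]
      have e3 : ∫ t : ℝ, |t - γ| * Real.exp (-(t - γ) ^ 2 / 2) =
          ∫ y : ℝ, |y| * Real.exp (-y ^ 2 / 2) :=
        integral_sub_right_eq_self (fun y : ℝ => |y| * Real.exp (-y ^ 2 / 2)) γ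
      rw [e3]
      have := absg_val
      calc M * (Λ / D) * _ ≤ M * (Λ / D) * 24 := by gcongr
        _ = _ := by ring
  -- step 3: exact evaluation
  have s3 : |(∫ t : ℝ, wt t0 D γ * ‖PP F c l t‖ ^ 2 * K (γ - t)) -
      Real.pi * (wt t0 D γ * ‖PP F c l γ‖ ^ 2)| ≤ M * (6 * Real.exp (-(d ^ 2 / 4))) := by
    have e1 : (∫ t : ℝ, wt t0 D γ * ‖PP F c l t‖ ^ 2 * K (γ - t)) =
        wt t0 D γ * ∫ y : ℝ, ‖PP F c l (γ + y)‖ ^ 2 * K y := by
      have h3 : ∀ t : ℝ, wt t0 D γ * ‖PP F c l t‖ ^ 2 * K (γ - t) =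
          (fun y : ℝ => wt t0 D γ * (‖PP F c l (γ + y)‖ ^ 2 * K y)) (t - γ) := by
        intro t
        simp only
        have : K (γ - t) = K (t - γ) := by
          rw [hK]
          simp only
          have e4 : (γ - t) ^ 2 = (t - γ) ^ 2 := by ring
          rw [e4]
          congr 1
          apply intervalIntegral.integral_congr
          intro u _
          simp only
          rw [← Real.cos_neg]
          congr 1
          ring
        rw [this, add_sub_cancel]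
        ring
      simp_rw [h3]
      rw [integral_sub_right_eq_self (fun y : ℝ => wt t0 D γ * (‖PP F c l (γ + y)‖ ^ 2 * K y)) γ,
        integral_const_mul]
    have e2 : ((∫ y : ℝ, ‖PP F c l (γ + y)‖ ^ 2 * K y : ℝ) : ℂ) =
        ∑ i ∈ F, ∑ j ∈ F, (c i * (starRingEnd ℂ) (c j)) * cexp (I * ((l i - l j : ℝ) : ℂ) * γ) *
          ∫ y : ℝ, ((Real.exp (-y ^ 2 / 2) : ℝ) : ℂ) * cexp (I * ((l i - l j : ℝ) : ℂ) * y) *
      ((∫ u in (0 : ℝ)..Λ, Real.cos (u * y) : ℝ) : ℂ) := by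
      rw [← integral_complex_ofReal]
      have h3 : ∀ y : ℝ, ((‖PP F c l (γ + y)‖ ^ 2 * K y : ℝ) : ℂ) =
          ∑ i ∈ F, ∑ j ∈ F, (c i * (starRingEnd ℂ) (c j)) *
            cexp (I * ((l i - l j : ℝ) : ℂ) * γ) *
            (((Real.exp (-y ^ 2 / 2) : ℝ) : ℂ) * cexp (I * ((l i - l j : ℝ) : ℂ) * y) *
      ((∫ u in (0 : ℝ)..Λ, Real.cos (u * y) : ℝ) : ℂ)) := by
        intro y
        rw [Complex.ofReal_mul, PP_sq, Finset.sum_mul]
        refine Finset.sum_congr rfl fun i _ => ?_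
        rw [Finset.sum_mul]
        refine Finset.sum_congr rfl fun j _ => ?_
        have e4 : cexp (I * ((l i - l j : ℝ) : ℂ) * ((γ + y : ℝ) : ℂ)) =
            cexp (I * ((l i - l j : ℝ) : ℂ) * γ) * cexp (I * ((l i - l j : ℝ) : ℂ) * y) := by
          rw [← Complex.exp_add]
          congr 1
          push_cast
          ring
        rw [e4, hK]
        push_cast
        ring
      simp_rw [h3]
      have hii : ∀ lam : ℝ, Integrable (fun y : ℝ => ((Real.exp (-y ^ 2 / 2) : ℝ) : ℂ) *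
          cexp (I * (lam : ℂ) * y) * ((∫ u in (0 : ℝ)..Λ, Real.cos (u * y) : ℝ) : ℂ)) := by
        intro lam
        refine hK1.mono' ?_ (Eventually.of_forall fun y => ?_)
        · apply Continuous.aestronglyMeasurable
          have := cosint_cont Λ
          fun_prop
        · rw [norm_mul, norm_mul, Complex.norm_real, Complex.norm_real, Real.norm_eq_abs,
            Real.norm_eq_abs, Real.abs_exp]
          have e4 : ‖cexp (I * lam * y)‖ = 1 := by
            rw [mul_assoc, ← Complex.ofReal_mul, norm_e]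
          rw [e4, mul_one, mul_comm]
          exact mul_le_mul_of_nonneg_right (cosint_le Λ y hΛ) (Real.exp_pos _).le
      rw [integral_finsetSum _ fun i _ => integrable_finsetSum _ fun j _ =>
        (hii _).const_mul _]
      refine Finset.sum_congr rfl fun i _ => ?_
      rw [integral_finsetSum _ fun j _ => (hii _).const_mul _]
      refine Finset.sum_congr rfl fun j _ => ?_
      rw [integral_const_mul]
    have e3 : |(∫ y : ℝ, ‖PP F c l (γ + y)‖ ^ 2 * K y) - Real.pi * ‖PP F c l γ‖ ^ 2| ≤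
        M * (6 * Real.exp (-(d ^ 2 / 4))) := by
      rw [← Real.norm_eq_abs, ← Complex.norm_real, Complex.ofReal_sub, e2, Complex.ofReal_mul,
        PP_sq, Finset.mul_sum, ← Finset.sum_sub_distrib]
      have h3 : M * (6 * Real.exp (-(d ^ 2 / 4))) = ∑ i ∈ F, ∑ j ∈ F,
          ‖c i‖ * ‖c j‖ * (6 * Real.exp (-(d ^ 2 / 4))) := by
        rw [hM, sq, Finset.sum_mul_sum, Finset.sum_mul]
        refine Finset.sum_congr rfl fun i _ => ?_
        rw [Finset.sum_mul]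
      rw [h3]
      refine norm_sum_le_of_le _ fun i hi => ?_
      rw [Finset.mul_sum, ← Finset.sum_sub_distrib]
      refine norm_sum_le_of_le _ fun j hj => ?_
      have e5 : (c i * (starRingEnd ℂ) (c j)) * cexp (I * ((l i - l j : ℝ) : ℂ) * γ) *
          (∫ y : ℝ, ((Real.exp (-y ^ 2 / 2) : ℝ) : ℂ) * cexp (I * ((l i - l j : ℝ) : ℂ) * y) *
          ((∫ u in (0 : ℝ)..Λ, Real.cos (u * y) : ℝ) : ℂ)) -
          (Real.pi : ℂ) * ((c i * (starRingEnd ℂ) (c j)) *
            cexp (I * ((l i - l j : ℝ) : ℂ) * γ)) =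
          ((c i * (starRingEnd ℂ) (c j)) * cexp (I * ((l i - l j : ℝ) : ℂ) * γ)) *
          ((∫ y : ℝ, ((Real.exp (-y ^ 2 / 2) : ℝ) : ℂ) * cexp (I * ((l i - l j : ℝ) : ℂ) * y) *
          ((∫ u in (0 : ℝ)..Λ, Real.cos (u * y) : ℝ) : ℂ)) - (Real.pi : ℂ)) := by ring
      rw [e5, norm_mul, norm_mul, norm_mul, RCLike.norm_conj]
      have e6 : ‖cexp (I * ((l i - l j : ℝ) : ℂ) * γ)‖ = 1 := by
        rw [mul_assoc, ← Complex.ofReal_mul, norm_e]
      rw [e6, mul_one]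
      exact mul_le_mul_of_nonneg_left (kap_pi Λ (l i - l j) d hΛ hd (hl i hi j hj)) (by positivity)
    rw [e1]
    have e7 : wt t0 D γ * (∫ y : ℝ, ‖PP F c l (γ + y)‖ ^ 2 * K y) -
        Real.pi * (wt t0 D γ * ‖PP F c l γ‖ ^ 2) =
        wt t0 D γ * ((∫ y : ℝ, ‖PP F c l (γ + y)‖ ^ 2 * K y) - Real.pi * ‖PP F c l γ‖ ^ 2) := by
      ring
    rw [e7, abs_mul, abs_of_pos (LG.MeanAux.wt_pos t0 D γ)]
    have hw := LG.MeanAux.wt_le_one t0 D γ
    calc _ ≤ 1 * (M * (6 * Real.exp (-(d ^ 2 / 4)))) := by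
          apply mul_le_mul hw e3 (abs_nonneg _) (by norm_num)
      _ = _ := one_mul _
  have hfin : (∫ t in V1..V2, wt t0 D t * ‖PP F c l t‖ ^ 2 * (Real.exp (-(γ - t) ^ 2 / 2) *
      ∫ u in (0 : ℝ)..Λ, Real.cos (u * (γ - t)))) =
      ∫ t in V1..V2, wt t0 D t * ‖PP F c l t‖ ^ 2 * K (γ - t) := rfl
  rw [hfin]
  have htri := abs_add_three
    ((∫ t in V1..V2, wt t0 D t * ‖PP F c l t‖ ^ 2 * K (γ - t)) -
      ∫ t : ℝ, wt t0 D t * ‖PP F c l t‖ ^ 2 * K (γ - t))
    ((∫ t : ℝ, wt t0 D t * ‖PP F c l t‖ ^ 2 * K (γ - t)) -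
      ∫ t : ℝ, wt t0 D γ * ‖PP F c l t‖ ^ 2 * K (γ - t))
    ((∫ t : ℝ, wt t0 D γ * ‖PP F c l t‖ ^ 2 * K (γ - t)) -
      Real.pi * (wt t0 D γ * ‖PP F c l γ‖ ^ 2))
  have e8 : (∫ t in V1..V2, wt t0 D t * ‖PP F c l t‖ ^ 2 * K (γ - t)) -
      Real.pi * (wt t0 D γ * ‖PP F c l γ‖ ^ 2) =
      ((∫ t in V1..V2, wt t0 D t * ‖PP F c l t‖ ^ 2 * K (γ - t)) -
      ∫ t : ℝ, wt t0 D t * ‖PP F c l t‖ ^ 2 * K (γ - t)) +
    ((∫ t : ℝ, wt t0 D t * ‖PP F c l t‖ ^ 2 * K (γ - t)) -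
      ∫ t : ℝ, wt t0 D γ * ‖PP F c l t‖ ^ 2 * K (γ - t)) +
    ((∫ t : ℝ, wt t0 D γ * ‖PP F c l t‖ ^ 2 * K (γ - t)) -
      Real.pi * (wt t0 D γ * ‖PP F c l γ‖ ^ 2)) := by ring
  rw [e8]
  refine htri.trans ?_
  nlinarith [s1, s2, s3]

end Pool.Agent.V7H88.DZ
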