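import Pool.Agent.H613R2.LG.QLim
import Pool.Agent.H851R2.LG.Sets
import Pool.Agent.H778R2.LG.Par
import Pool.Agent.H297R2.LG.Mom1

/-! Choice of the parameters and the gain of the resonator. -/

set_option autoImplicit false

open Complex Filter Topology Set MeasureTheory

namespace Pool.Agent.V7H88.DZ

open SG (hh nn dd dl ord NZ)
open SP (RHs ZZ mu wt Mk Par Eb PS chi qq tt)
open LG (fam nA yp ae prs QT tm IsQ)
open SP.ChooseAux (bump bump_nonneg bump_le_one bump_zero_left bump_zero_right bump_one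
  bump_contDiff div_contDiff)

/-! ### the parameters -/

/-- the parameters: full bins -/
noncomputable def PK (κ ε : ℝ) (B : ℕ) (hκ : 0 < κ) (hκ1 : κ < 1 / 2) (hε : 0 < ε) (hB : 2 ≤ B) :
    Par where
  c := 3 / 4
  a := 1
  κ := κ
  m := ε
  B := B
  b := fun j u => if 2 ≤ j ∧ j ≤ B then
    bump (((j : ℝ) - 1) * (1 - κ) / B) (j * (1 - κ) / B) ε u / u else 0
  hc := by norm_num
  hc1 := by norm_num
  ha := by norm_num
  ha1 := by norm_num
  hκ := hκ
  hκ1 := hκ1
  hB := hB
  hm := hε
  hb := by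
    intro j
    by_cases hj : 2 ≤ j ∧ j ≤ B
    · simp only [hj, and_self, if_true]
      apply div_contDiff _ hε
      have h1 : (2 : ℝ) ≤ j := by exact_mod_cast hj.1
      have h2 : (0 : ℝ) < B := by positivity
      have : 0 < 1 - κ := by linarith
      have : 0 < (j : ℝ) - 1 := by linarith
      positivity
    · simp only [hj, if_false]
      exact contDiff_const
  hb0 := by
    intro j u hne
    by_cases hj : 2 ≤ j ∧ j ≤ B
    · rw [if_pos hj] at hne
      refine ⟨hj.1, hj.2, ?_, ?_⟩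
      · by_contra hcon
        push Not at hcon
        apply hne
        rw [bump_zero_left hε hcon.le, zero_div]
      · by_contra hcon
        push Not at hcon
        apply hne
        rw [bump_zero_right hε hcon.le, zero_div]
    · rw [if_neg hj] at hne
      exact absurd rfl hne
  hb1 := by
    intro j u
    by_cases hj : 2 ≤ j ∧ j ≤ B
    · rw [if_pos hj]
      by_cases hu : u ≤ 0
      · rw [bump_zero_left hε]
        · simp
        · have h1 : (2 : ℝ) ≤ j := by exact_mod_cast hj.1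
          have h2 : (0 : ℝ) < B := by positivity
          have : 0 < 1 - κ := by linarith
          have : 0 < (j : ℝ) - 1 := by linarith
          have : 0 < ((j : ℝ) - 1) * (1 - κ) / B := by positivity
          linarith
      · push Not at hu
        refine ⟨div_nonneg (bump_nonneg _ _ _ _) hu.le, ?_⟩
        rw [mul_div_cancel₀ _ hu.ne']
        exact bump_le_one _ _ _ _
    · rw [if_neg hj]
      simp

section
variable {κ ε : ℝ} {B : ℕ} (hκ : 0 < κ) (hκ1 : κ < 1 / 2) (hε : 0 < ε) (hB : 2 ≤ B)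

theorem PK_b {j : ℕ} (hj : 2 ≤ j) (hj' : j ≤ B) (u : ℝ) :
    (PK κ ε B hκ hκ1 hε hB).b j u =
      bump (((j : ℝ) - 1) * (1 - κ) / B) (j * (1 - κ) / B) ε u / u := by
  change (if 2 ≤ j ∧ j ≤ B then _ else _) = _
  rw [if_pos ⟨hj, hj'⟩]

theorem PK_b0 {j : ℕ} (hj : j < 2) (u : ℝ) :
    (PK κ ε B hκ hκ1 hε hB).b j u = 0 := by
  change (if 2 ≤ j ∧ j ≤ B then _ else _) = _
  rw [if_neg (by omega)]

/-- the integral of `u b_j(u)` -/
noncomputable def sI (P : Par) (m : ℕ) : ℝ := ∫ u in (0 : ℝ)..1, u * P.b m u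

include hκ hκ1 hε hB in
theorem sI_ge {j : ℕ} (hj : 2 ≤ j) (hj' : j ≤ B) (hε2 : 4 * ε ≤ (1 - κ) / B) :
    (1 - κ) / B - 4 * ε ≤ sI (PK κ ε B hκ hκ1 hε hB) j := by
  have hBr : (0 : ℝ) < B := by positivity
  have hj2 : (2 : ℝ) ≤ j := by exact_mod_cast hj
  have hjB : (j : ℝ) ≤ B := by exact_mod_cast hj'
  set l : ℝ := ((j : ℝ) - 1) * (1 - κ) / B with hl
  set r : ℝ := j * (1 - κ) / B with hr
  have hk : 0 < 1 - κ := by linarith
  have hl0 : 0 < l := by
    have : 0 < (j : ℝ) - 1 := by linarith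
    positivity
  have hlr : l + (1 - κ) / B = r := by
    rw [hl, hr]
    ring
  have hr1 : r ≤ 1 := by
    rw [hr, div_le_one hBr]
    nlinarith
  set P := PK κ ε B hκ hκ1 hε hB with hP
  have hcont : Continuous (fun u : ℝ => u * P.b j u) := by
    have := (P.hb j).continuous
    fun_prop
  have h1 : ∫ u in (l + 2 * ε)..(r - 2 * ε), (1 : ℝ) ≤ ∫ u in (l + 2 * ε)..(r - 2 * ε), u * P.b j u := by
    apply intervalIntegral.integral_mono_on (by linarith) intervalIntegrable_const
      (hcont.intervalIntegrable _ _)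
    intro u hu
    rw [hP, PK_b hκ hκ1 hε hB hj hj' u]
    have hu0 : 0 < u := by linarith [hu.1]
    rw [mul_div_cancel₀ _ hu0.ne', bump_one hε hu.1 hu.2]
  have h2 : ∫ u in (l + 2 * ε)..(r - 2 * ε), u * P.b j u ≤ ∫ u in (0 : ℝ)..1, u * P.b j u := by
    apply intervalIntegral.integral_mono_interval (by linarith) (by linarith) (by linarith) _
      (hcont.intervalIntegrable _ _)
    filter_upwards [ae_restrict_mem measurableSet_Ioc] with u hu
    exact mul_nonneg hu.1.le (P.hb1 j u).1
  rw [intervalIntegral.integral_const, smul_eq_mul, mul_one] at h1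
  unfold sI
  linarith

include hκ hκ1 hε hB in
theorem tm_le {j : ℕ} (hj : 2 ≤ j) (hj' : j ≤ B) :
    tm (PK κ ε B hκ hκ1 hε hB) 1 j ≤ 1 + 1 / ((j : ℝ) - 1) := by
  have hBr : (0 : ℝ) < B := by positivity
  have hj2 : (2 : ℝ) ≤ j := by exact_mod_cast hj
  have hjB : (j : ℝ) ≤ B := by exact_mod_cast hj'
  set l : ℝ := ((j : ℝ) - 1) * (1 - κ) / B with hl
  set r : ℝ := j * (1 - κ) / B with hr
  have hk : 0 < 1 - κ := by linarith
  have hj1 : 0 < (j : ℝ) - 1 := by linarith
  have hl0 : 0 < l := by positivity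
  have hlr : l + (1 - κ) / B = r := by
    rw [hl, hr]
    ring
  have hr1 : r ≤ 1 := by
    rw [hr, div_le_one hBr]
    nlinarith
  have hlr' : l < r := by
    have : 0 < (1 - κ) / B := by positivity
    linarith
  set P := PK κ ε B hκ hκ1 hε hB with hP
  have hcont : Continuous (fun u : ℝ => u * P.b j u ^ 2) := by
    have := (P.hb j).continuous
    fun_prop
  have hsupp : Function.support (fun u => u * P.b j u ^ 2) ⊆ Set.Ioc l r := by
    intro u hu
    rw [Function.mem_support] at hu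
    by_contra hcon
    apply hu
    rw [Set.mem_Ioc, not_and_or, not_lt, not_le] at hcon
    have h0 : P.b j u = 0 := by
      rw [hP, PK_b hκ hκ1 hε hB hj hj' u]
      rcases hcon with h | h
      · rw [bump_zero_left hε (by linarith), zero_div]
      · rw [bump_zero_right hε (by linarith), zero_div]
    rw [h0]
    simp
  have h1 : ∫ u in (0 : ℝ)..1, u * P.b j u ^ 2 = ∫ u in l..r, u * P.b j u ^ 2 := by
    rw [intervalIntegral.integral_eq_integral_of_support_subset hsupp,
      intervalIntegral.integral_eq_integral_of_support_subset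
        (hsupp.trans (Set.Ioc_subset_Ioc hl0.le hr1))]
  have h2 : ∫ u in l..r, u * P.b j u ^ 2 ≤ ∫ u in l..r, 1 / l := by
    apply intervalIntegral.integral_mono_on hlr'.le (hcont.intervalIntegrable _ _)
      intervalIntegrable_const
    intro u hu
    have hu0 : 0 < u := by linarith [hu.1]
    have h3 := P.hb1 j u
    have h4 : P.b j u ≤ 1 / l := by
      rw [le_div_iff₀ hl0]
      calc P.b j u * l ≤ P.b j u * u := mul_le_mul_of_nonneg_left hu.1 h3.1
        _ = u * P.b j u := mul_comm _ _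
        _ ≤ 1 := h3.2
    calc u * P.b j u ^ 2 = (u * P.b j u) * P.b j u := by ring
      _ ≤ 1 * P.b j u := mul_le_mul_of_nonneg_right h3.2 h3.1
      _ ≤ 1 / l := by rw [one_mul]; exact h4
  rw [intervalIntegral.integral_const, smul_eq_mul] at h2
  unfold tm
  rw [h1]
  have h5 : (r - l) * (1 / l) = 1 / ((j : ℝ) - 1) := by
    have : r - l = (1 - κ) / B := by linarith
    rw [this, hl]
    field_simp
  rw [h5] at h2
  calc (j : ℝ) * 1 ^ 2 * ∫ u in l..r, u * P.b j u ^ 2 ≤ (j : ℝ) * 1 ^ 2 * (1 / ((j : ℝ) - 1)) := by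
        gcongr
    _ = 1 + 1 / ((j : ℝ) - 1) := by
        field_simp
        ring

theorem tm_zero {j : ℕ} (hj : j < 2) : tm (PK κ ε B hκ hκ1 hε hB) 1 j = 0 := by
  unfold tm
  simp only [PK_b0 hκ hκ1 hε hB hj]
  simp

end

/-! ### limits -/

theorem qlim (P : Par) (B1 : ℕ) (r : ℝ) (q : ℕ → ℝ)
    (hq : IsQ B1 (tm P r) q) (n : ℕ) (hn : n ≤ B1) :
    Tendsto (fun T : ℝ => QT P r T n) atTop (𝓝 (q n)) := by
  have hnew := fun T : ℝ => SP.newton (PS P T) (Eb P T) (fun p hp => by
    unfold PS at hp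
    rw [Finset.mem_filter] at hp
    omega) (LG.QLimAux.y2 P r T)
  have key : ∀ n : ℕ, n ≤ B1 → Tendsto (fun T : ℝ => qq (PS P T) (Eb P T)
      (LG.QLimAux.y2 P r T) n) atTop (𝓝 ((q n : ℝ) : ℂ)) := by
    intro n
    induction n using Nat.strong_induction_on with
    | _ n ih =>
      intro hn
      rcases Nat.eq_zero_or_pos n with h0 | h0
      · subst h0
        rw [hq.1]
        simp only [(hnew _).1]
        simp
      · have hn0 : (n : ℂ) ≠ 0 := by exact_mod_cast (show n ≠ 0 by omega)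
        have e1 : ∀ T : ℝ, qq (PS P T) (Eb P T) (LG.QLimAux.y2 P r T) n = (n : ℂ)⁻¹ *
            ∑ m ∈ Finset.Icc 1 n, tt (PS P T) (Eb P T) (LG.QLimAux.y2 P r T) m *
              qq (PS P T) (Eb P T) (LG.QLimAux.y2 P r T) (n - m) := by
          intro T
          rw [← (hnew T).2 n h0, ← mul_assoc, inv_mul_cancel₀ hn0, one_mul]
        have e2 : ((q n : ℝ) : ℂ) = (n : ℂ)⁻¹ *
            ∑ m ∈ Finset.Icc 1 n, ((tm P r m : ℝ) : ℂ) * ((q (n - m) : ℝ) : ℂ) := by
          have := hq.2 n h0 hn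
          have h2 : (n : ℂ) * ((q n : ℝ) : ℂ) =
              ∑ m ∈ Finset.Icc 1 n, ((tm P r m : ℝ) : ℂ) * ((q (n - m) : ℝ) : ℂ) := by
            exact_mod_cast this
          rw [← h2, ← mul_assoc, inv_mul_cancel₀ hn0, one_mul]
        rw [e2]
        simp only [e1]
        apply Tendsto.const_mul
        apply tendsto_finsetSum
        intro m hm
        rw [Finset.mem_Icc] at hm
        exact (LG.QLimAux.tt_lim2 P r m hm.1).mul (ih (n - m) (by omega) (by omega))
  have h := key n hn
  simp only [LG.QLimAux.qq_QT] at h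
  have h2 := (Complex.continuous_re.tendsto _).comp h
  refine h2.congr fun T => ?_
  simp only [Function.comp, Complex.ofReal_re]

theorem QT_nn (P : Par) (r T : ℝ) (n : ℕ) : 0 ≤ QT P r T n := by
  unfold QT
  exact Finset.sum_nonneg fun A _ => Finset.prod_nonneg fun p _ => sq_nonneg _

end Pool.Agent.V7H88.DZ
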