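import Pool.Agent.V7H88.DZ.D

/-! The gain: the algebra and the limit of the prime sums. -/

set_option autoImplicit false

open Complex Filter Topology Set MeasureTheory

namespace Pool.Agent.V7H88.DZ

open SG (hh nn dd dl ord NZ)
open SP (RHs ZZ mu wt Mk Par Eb PS chi qq tt)
open LG (fam nA yp ae prs QT tm IsQ)

/-! ### algebra -/

theorem conv1 (q t S : ℕ → ℝ) (hS : ∀ k, S k = ∑ n ∈ Finset.range (k + 1), q n) (N : ℕ)
    (h : ∀ n : ℕ, 1 ≤ n → n ≤ N → (n : ℝ) * q n = ∑ m ∈ Finset.Icc 1 n, t m * q (n - m)) :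
    ∑ n ∈ Finset.range (N + 1), (n : ℝ) * q n = ∑ m ∈ Finset.Icc 1 N, t m * S (N - m) := by
  induction N with
  | zero => simp
  | succ N ih =>
    rw [Finset.sum_range_succ, ih (fun n h1 h2 => h n h1 (by omega)), h (N + 1) (by omega) le_rfl,
      Finset.sum_Icc_succ_top (by omega), Finset.sum_Icc_succ_top (by omega)]
    have h0 : S (N + 1 - (N + 1)) = q (N + 1 - (N + 1)) := by
      rw [Nat.sub_self, hS]
      simp
    rw [h0, ← add_assoc, ← Finset.sum_add_distrib]
    congr 1
    refine Finset.sum_congr rfl fun m hm => ?_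
    rw [Finset.mem_Icc] at hm
    have : S (N + 1 - m) = S (N - m) + q (N + 1 - m) := by
      have e : N + 1 - m = (N - m) + 1 := by omega
      rw [e, hS, hS, Finset.sum_range_succ]
    rw [this]
    ring

theorem conv2 (q S : ℕ → ℝ) (hS : ∀ k, S k = ∑ n ∈ Finset.range (k + 1), q n) (N : ℕ) :
    ∑ k ∈ Finset.range N, S k = ∑ n ∈ Finset.range (N + 1), ((N : ℝ) - n) * q n := by
  induction N with
  | zero => simp
  | succ N ih =>
    rw [Finset.sum_range_succ, ih, hS N, Finset.sum_range_succ _ (N + 1),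
      ← Finset.sum_add_distrib]
    push_cast
    rw [sub_self, zero_mul, add_zero]
    refine Finset.sum_congr rfl fun m _ => ?_
    ring

theorem conv3 (S : ℕ → ℝ) (N : ℕ) (hN : 1 ≤ N) :
    ∑ m ∈ Finset.Icc 2 N, S (N - m) = ∑ k ∈ Finset.range (N - 1), S k := by
  refine Finset.sum_nbij' (fun m => N - m) (fun k => N - k) ?_ ?_ ?_ ?_ ?_
  · intro m hm
    rw [Finset.mem_Icc] at hm
    rw [Finset.mem_range]
    omega
  · intro k hk
    rw [Finset.mem_range] at hk
    rw [Finset.mem_Icc]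
    omega
  · intro m hm
    rw [Finset.mem_Icc] at hm
    omega
  · intro k hk
    rw [Finset.mem_range] at hk
    omega
  · intro m _
    rfl

theorem alg (N : ℕ) (hN : 2 ≤ N) (q t s S : ℕ → ℝ)
    (hS : ∀ k, S k = ∑ n ∈ Finset.range (k + 1), q n) (hq0 : ∀ n, n ≤ N → 0 ≤ q n)
    (hq : IsQ N t q) (ht1 : t 1 ≤ 0)
    (ht : ∀ m : ℕ, 2 ≤ m → m ≤ N → t m ≤ 1 + 1 / ((m : ℝ) - 1)) (v : ℝ) (hv : 0 ≤ v)
    (hs : ∀ m, 2 ≤ m → m ≤ N → v ≤ s m) :
    v * ((N : ℝ) - 1 - ∑ m ∈ Finset.Icc 2 N, 1 / ((m : ℝ) - 1)) * S N ≤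
      2 * ∑ m ∈ Finset.Icc 2 N, s m * S (N - m) := by
  have hSm : ∀ k l, k ≤ l → l ≤ N → S k ≤ S l := by
    intro k l hkl hl
    rw [hS, hS]
    apply Finset.sum_le_sum_of_subset_of_nonneg
    · intro x hx
      rw [Finset.mem_range] at hx ⊢
      omega
    · intro x hx _
      rw [Finset.mem_range] at hx
      exact hq0 x (by omega)
  have hS0 : ∀ k, k ≤ N → 0 ≤ S k := by
    intro k hk
    rw [hS]
    apply Finset.sum_nonneg
    intro x hx
    rw [Finset.mem_range] at hx
    exact hq0 x (by omega)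
  set W := ∑ m ∈ Finset.Icc 2 N, S (N - m) with hW
  set H := ∑ m ∈ Finset.Icc 2 N, 1 / ((m : ℝ) - 1) with hH
  have e1 := conv1 q t S hS N hq.2
  have e2 := conv2 q S hS N
  have e3 := conv3 S N (by omega)
  have e4 : ∑ k ∈ Finset.range N, S k = W + S (N - 1) := by
    rw [hW, e3]
    obtain ⟨M, rfl⟩ : ∃ M, N = M + 1 := ⟨N - 1, by omega⟩
    rw [Nat.add_sub_cancel, Finset.sum_range_succ]
  have e5 : ∑ n ∈ Finset.range (N + 1), ((N : ℝ) - n) * q n =
      N * S N - ∑ n ∈ Finset.range (N + 1), (n : ℝ) * q n := by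
    rw [hS N, Finset.mul_sum, ← Finset.sum_sub_distrib]
    refine Finset.sum_congr rfl fun m _ => ?_
    ring
  have e6 : ∑ m ∈ Finset.Icc 1 N, t m * S (N - m) ≤ W + H * S N := by
    have e7 : Finset.Icc 1 N = insert 1 (Finset.Icc 2 N) := by
      ext x
      rw [Finset.mem_insert, Finset.mem_Icc, Finset.mem_Icc]
      omega
    rw [e7, Finset.sum_insert (by simp), hW, hH, Finset.sum_mul, ← Finset.sum_add_distrib]
    have e8 : t 1 * S (N - 1) ≤ 0 := mul_nonpos_of_nonpos_of_nonneg ht1 (hS0 _ (by omega))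
    have e9 : ∑ m ∈ Finset.Icc 2 N, t m * S (N - m) ≤
        ∑ m ∈ Finset.Icc 2 N, (S (N - m) + 1 / ((m : ℝ) - 1) * S N) := by
      refine Finset.sum_le_sum fun m hm => ?_
      rw [Finset.mem_Icc] at hm
      have h1 := ht m hm.1 hm.2
      have h2 : 0 ≤ S (N - m) := hS0 _ (by omega)
      have h3 : S (N - m) ≤ S N := hSm _ _ (by omega) le_rfl
      have h4 : (2 : ℝ) ≤ m := by exact_mod_cast hm.1
      have h5 : 0 ≤ 1 / ((m : ℝ) - 1) := by
        apply div_nonneg zero_le_one
        linarith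
      calc t m * S (N - m) ≤ (1 + 1 / ((m : ℝ) - 1)) * S (N - m) :=
            mul_le_mul_of_nonneg_right h1 h2
        _ = S (N - m) + 1 / ((m : ℝ) - 1) * S (N - m) := by ring
        _ ≤ _ := by
          have := mul_le_mul_of_nonneg_left h3 h5
          linarith
    linarith
  have e10 : ((N : ℝ) - 1 - H) * S N ≤ 2 * W := by
    have h1 : S (N - 1) ≤ S N := hSm _ _ (by omega) le_rfl
    nlinarith
  have e11 : v * W ≤ ∑ m ∈ Finset.Icc 2 N, s m * S (N - m) := by
    rw [hW, Finset.mul_sum]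
    refine Finset.sum_le_sum fun m hm => ?_
    rw [Finset.mem_Icc] at hm
    exact mul_le_mul_of_nonneg_right (hs m hm.1 hm.2) (hS0 _ (by omega))
  calc v * ((N : ℝ) - 1 - H) * S N = v * (((N : ℝ) - 1 - H) * S N) := by ring
    _ ≤ v * (2 * W) := mul_le_mul_of_nonneg_left e10 hv
    _ = 2 * (v * W) := by ring
    _ ≤ _ := by linarith

theorem harm (N : ℕ) (hN : 1 ≤ N) :
    ∑ m ∈ Finset.Icc 2 N, 1 / ((m : ℝ) - 1) ≤ 2 * Real.sqrt N := by
  have h1 : ∑ m ∈ Finset.Icc 2 N, 1 / ((m : ℝ) - 1) = ∑ k ∈ Finset.range (N - 1), 1 / ((k : ℝ) + 1) := by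
    symm
    refine Finset.sum_nbij' (fun k => k + 2) (fun m => m - 2) ?_ ?_ ?_ ?_ ?_
    · intro k hk
      rw [Finset.mem_range] at hk
      rw [Finset.mem_Icc]
      omega
    · intro m hm
      rw [Finset.mem_Icc] at hm
      rw [Finset.mem_range]
      omega
    · intro k _
      omega
    · intro m hm
      rw [Finset.mem_Icc] at hm
      omega
    · intro k _
      push_cast
      congr 1
      ring
  rw [h1]
  have h2 : ∑ k ∈ Finset.range (N - 1), 1 / ((k : ℝ) + 1) ≤ 2 * Real.sqrt ((N - 1 : ℕ) : ℝ) := by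
    generalize N - 1 = M
    induction M with
    | zero => simp
    | succ M ih =>
      rw [Finset.sum_range_succ]
      have h3 : Real.sqrt ((M + 1 : ℕ) : ℝ) ^ 2 = M + 1 := by
        rw [Real.sq_sqrt (by positivity)]
        push_cast
        ring
      have h4 : Real.sqrt (M : ℝ) ^ 2 = M := Real.sq_sqrt (by positivity)
      set x := Real.sqrt ((M + 1 : ℕ) : ℝ) with hx
      set y := Real.sqrt (M : ℝ) with hy
      have hx0 : 0 ≤ x := Real.sqrt_nonneg _
      have hy0 : 0 ≤ y := Real.sqrt_nonneg _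
      have hx1 : 1 ≤ x := by
        rw [hx]
        apply Real.le_sqrt_of_sq_le
        push_cast
        have : (0 : ℝ) ≤ M := by positivity
        linarith
      have h5 : 1 / ((M : ℝ) + 1) ≤ 2 * (x - y) := by
        rw [div_le_iff₀ (by positivity), ← h3]
        have h6 : x ^ 2 - y ^ 2 = 1 := by rw [h3, h4]; ring
        have h7 : y ≤ x := by nlinarith
        nlinarith [mul_nonneg hx0 (sub_nonneg.2 h7)]
      linarith
  refine h2.trans ?_
  gcongr
  exact Nat.sub_le _ _

/-! ### prime sums -/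

theorem psum (P : Par) (m : ℕ) :
    Tendsto (fun T : ℝ => ∑ p ∈ (PS P T).filter (fun p => Eb P T p = m),
      Real.log p / Real.log T * chi P T p / p) atTop (𝓝 (sI P m)) := by
  obtain ⟨C1, T1, hC1, hT1, hchi⟩ := SP.chi_approx P
  have hbd : ContDiff ℝ 1 (fun u : ℝ => ((u * P.b m u : ℝ) : ℂ)) := by
    have hb : ContDiff ℝ 1 (P.b m) := (P.hb m).of_le (by norm_num)
    exact ofRealCLM.contDiff.comp (contDiff_id.mul hb)
  have hz : ∀ u : ℝ, (1 ≤ u ∨ u ≤ 0) → ((u * P.b m u : ℝ) : ℂ) = 0 := by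
    intro u hu
    rw [LG.QLimAux.b_zero P m u hu]
    simp
  obtain ⟨K, hK⟩ : ∃ K : NNReal, LipschitzWith K (fun u : ℝ => ((u * P.b m u : ℝ) : ℂ)) := by
    apply ContDiff.lipschitzWith_of_hasCompactSupport (n := 1) _ hbd (by norm_num)
    apply HasCompactSupport.intro (isCompact_Icc (a := (0 : ℝ)) (b := 1))
    intro u hu
    apply hz
    rw [mem_Icc, not_and_or, not_le, not_le] at hu
    rcases hu with h | h
    · right; exact h.le
    · left; exact h.le
  obtain ⟨C2, hC2, hmert⟩ := SP.mert (fun u : ℝ => ((u * P.b m u : ℝ) : ℂ)) K hK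
    (fun u hu => hz u (Or.inl hu))
  have hsI : ((sI P m : ℝ) : ℂ) = ∫ u in (0 : ℝ)..1, ((u * P.b m u : ℝ) : ℂ) := by
    rw [intervalIntegral.integral_ofReal]
    rfl
  rw [tendsto_iff_norm_sub_tendsto_zero]
  have hbound : ∀ᶠ T : ℝ in atTop, ‖(∑ p ∈ (PS P T).filter (fun p => Eb P T p = m),
      Real.log p / Real.log T * chi P T p / p) - sI P m‖ ≤
      (C1 * C1 + C2) * (Real.log T)⁻¹ := by
    filter_upwards [eventually_ge_atTop T1, eventually_ge_atTop (10 : ℝ)] with T hTT1 hT10
    obtain ⟨hc1, hs⟩ := hchi T hTT1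
    have hL := SP.TTAux.log_pos' hT10
    have hA1 : |(∑ p ∈ (PS P T).filter (fun p => Eb P T p = m),
        Real.log p / Real.log T * chi P T p / p) -
        ∑ p ∈ (PS P T).filter (fun p => Eb P T p = m),
          1 / Real.log T * (Real.log p / p * (Real.log p / Real.log T *
            P.b m (Real.log p / Real.log T)))| ≤
        C1 * C1 * (Real.log T)⁻¹ := by
      rw [← Finset.sum_sub_distrib]
      refine (Finset.abs_sum_le_sum_abs _ _).trans ?_
      calc _ ≤ ∑ p ∈ (PS P T).filter (fun p => Eb P T p = m),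
            C1 / Real.log T * (1 / p : ℝ) := by
            apply Finset.sum_le_sum
            intro p hp
            rw [Finset.mem_filter] at hp
            obtain ⟨-, hp0, hp1, -⟩ := SP.MertAux.Eb_le P T hT10 p hp.1
            have hpp : (0 : ℝ) < p := by
              have := SP.TTAux.lower P T hT10 p hp.1
              have h3 : 0 < T ^ ((1 - P.κ) / P.B) := by positivity
              linarith
            have h1 := (hc1 p hp.1).2.1
            rw [hp.2] at h1
            set u := Real.log p / Real.log T with hu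
            have hu0 : 0 ≤ u := div_nonneg hp0 hL.le
            have hu1 : u ≤ 1 := (div_le_one hL).mpr hp1
            have e : u * chi P T p / p - 1 / Real.log T * (Real.log p / p * (u * P.b m u)) =
                u * (chi P T p - u * P.b m u) * (1 / p) := by
              rw [hu]
              field_simp
            rw [e, abs_mul, abs_mul, abs_of_nonneg hu0, abs_of_pos (by positivity : (0:ℝ) < 1 / p)]
            apply mul_le_mul_of_nonneg_right _ (by positivity)
            calc u * |chi P T p - u * P.b m u| ≤ 1 * (C1 / Real.log T) :=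
                  mul_le_mul hu1 h1 (abs_nonneg _) zero_le_one
              _ = _ := one_mul _
        _ ≤ ∑ p ∈ PS P T, C1 / Real.log T * (1 / p : ℝ) := by
            apply Finset.sum_le_sum_of_subset_of_nonneg (Finset.filter_subset _ _)
            intro p hp _
            positivity
        _ = C1 / Real.log T * ∑ p ∈ PS P T, (1 / p : ℝ) := by rw [Finset.mul_sum]
        _ ≤ C1 / Real.log T * C1 := by gcongr
        _ = _ := by ring
    have hsum : ∑ p ∈ (PS P T).filter (fun p => Eb P T p = m),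
          1 / Real.log T * (Real.log p / p * (Real.log p / Real.log T *
            P.b m (Real.log p / Real.log T))) =
        1 / Real.log T * ∑ p ∈ (Finset.Icc 1 ⌊T⌋₊).filter Nat.Prime,
            (Real.log p / p) * (Real.log p / Real.log T * P.b m (Real.log p / Real.log T)) := by
      rw [Finset.mul_sum]
      apply Finset.sum_subset
      · exact (Finset.filter_subset _ _).trans (SP.TTAux.PS_sub P T hT10)
      · intro p hp hp'
        rw [Finset.mem_filter] at hp
        have : P.b m (Real.log p / Real.log T) = 0 := by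
          by_contra h
          exact hp' (Finset.mem_filter.mpr (SP.TTAux.mem_of_b P T hT10 p m hp.2 h))
        simp [this]
    have hC : |(1 / Real.log T * ∑ p ∈ (Finset.Icc 1 ⌊T⌋₊).filter Nat.Prime,
            (Real.log p / p) * (Real.log p / Real.log T * P.b m (Real.log p / Real.log T))) -
              sI P m| ≤ C2 / Real.log T := by
      have h1 := hmert T hT10
      have h2 : ((1 / Real.log T : ℝ) : ℂ) * ∑ p ∈ (Finset.Icc 1 ⌊T⌋₊).filter Nat.Prime,
          ((Real.log p / p : ℝ) : ℂ) * ((Real.log p / Real.log T *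
            P.b m (Real.log p / Real.log T) : ℝ) : ℂ) -
          ∫ u in (0 : ℝ)..1, ((u * P.b m u : ℝ) : ℂ) =
          (((1 / Real.log T * ∑ p ∈ (Finset.Icc 1 ⌊T⌋₊).filter Nat.Prime,
            (Real.log p / p) * (Real.log p / Real.log T * P.b m (Real.log p / Real.log T))) -
              sI P m : ℝ) : ℂ) := by
        rw [← hsI]
        push_cast
        rfl
      rw [h2, Complex.norm_real, Real.norm_eq_abs] at h1
      exact h1
    rw [hsum] at hA1
    rw [Real.norm_eq_abs]
    refine (abs_sub_le _ _ _).trans ((add_le_add hA1 hC).trans (le_of_eq ?_))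
    ring
  have hlim : Tendsto (fun T : ℝ => (C1 * C1 + C2) * (Real.log T)⁻¹)
      atTop (𝓝 0) := by
    have h2 := (Real.tendsto_log_atTop.inv_tendsto_atTop).const_mul (C1 * C1 + C2)
    simpa using h2
  exact squeeze_zero' (Eventually.of_forall fun _ => norm_nonneg _) hbound hlim

/-! ### the diagonal -/

/-- weight of a set -/
noncomputable def wA (P : Par) (T : ℝ) (A : Finset ℕ) : ℝ := ∏ p ∈ A, yp P 1 T p ^ 2

theorem wA_nn (P : Par) (T : ℝ) (A : Finset ℕ) : 0 ≤ wA P T A :=
  Finset.prod_nonneg fun p _ => sq_nonneg _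

/-- the diagonal -/
noncomputable def Gd (P : Par) (B1 : ℕ) (T : ℝ) : ℝ := ∑ A ∈ fam P B1 T, wA P T A

/-- the sum giving the gain -/
noncomputable def Num (P : Par) (B1 : ℕ) (T : ℝ) : ℝ :=
  ∑ p ∈ PS P T, Real.log p * chi P T p / p *
    ∑ A ∈ (fam P B1 T).filter (fun A => p ∉ A ∧ (∑ x ∈ A, Eb P T x) + Eb P T p ≤ B1), wA P T A

theorem Gd_QT (P : Par) (B1 : ℕ) (T : ℝ) : Gd P B1 T = ∑ n ∈ Finset.range (B1 + 1), QT P 1 T n := by
  unfold Gd QT
  rw [← Finset.sum_fiberwise_of_maps_to (s := fam P B1 T) (t := Finset.range (B1 + 1))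
    (g := fun A => ∑ p ∈ A, Eb P T p)]
  · refine Finset.sum_congr rfl fun n hn => ?_
    rw [Finset.mem_range] at hn
    have : (fam P B1 T).filter (fun A => ∑ p ∈ A, Eb P T p = n) =
        (PS P T).powerset.filter (fun A => ∑ p ∈ A, Eb P T p = n) := by
      ext A
      unfold fam
      rw [Finset.mem_filter, Finset.mem_filter, Finset.mem_filter]
      constructor
      · rintro ⟨⟨h1, h2⟩, h3⟩
        exact ⟨h1, h3⟩
      · rintro ⟨h1, h3⟩
        exact ⟨⟨h1, by omega⟩, h3⟩
    rw [this]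
    rfl
  · intro A hA
    unfold fam at hA
    rw [Finset.mem_filter] at hA
    rw [Finset.mem_range]
    omega

theorem Gd_nn (P : Par) (B1 : ℕ) (T : ℝ) : 0 ≤ Gd P B1 T :=
  Finset.sum_nonneg fun A _ => wA_nn P T A

theorem Gd_mono (P : Par) {B1 B2 : ℕ} (h : B1 ≤ B2) (T : ℝ) : Gd P B1 T ≤ Gd P B2 T := by
  unfold Gd
  apply Finset.sum_le_sum_of_subset_of_nonneg
  · intro A hA
    unfold fam at hA ⊢
    rw [Finset.mem_filter] at hA ⊢
    exact ⟨hA.1, hA.2.trans h⟩
  · intro A _ _
    exact wA_nn P T A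

theorem Gd_one (P : Par) (B1 : ℕ) (T : ℝ) : 1 ≤ Gd P B1 T := by
  have h : (∅ : Finset ℕ) ∈ fam P B1 T := by
    unfold fam
    simp
  have := Finset.single_le_sum (f := fun A => wA P T A) (fun A _ => wA_nn P T A) h
  unfold Gd
  refine le_trans ?_ this
  simp [wA]

theorem inner_ge (P : Par) (B1 : ℕ) (T : ℝ) (p : ℕ) (hp : p ∈ PS P T) (hE : Eb P T p ≤ B1) :
    Gd P (B1 - Eb P T p) T - yp P 1 T p ^ 2 * Gd P B1 T ≤
    ∑ A ∈ (fam P B1 T).filter (fun A => p ∉ A ∧ (∑ x ∈ A, Eb P T x) + Eb P T p ≤ B1), wA P T A := by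
  have h1 : (fam P B1 T).filter (fun A => p ∉ A ∧ (∑ x ∈ A, Eb P T x) + Eb P T p ≤ B1) =
      (fam P (B1 - Eb P T p) T).filter (fun A => p ∉ A) := by
    ext A
    unfold fam
    simp only [Finset.mem_filter]
    constructor
    · rintro ⟨⟨h1, h2⟩, h3, h4⟩
      exact ⟨⟨h1, by omega⟩, h3⟩
    · rintro ⟨⟨h1, h2⟩, h3⟩
      exact ⟨⟨h1, by omega⟩, h3, by omega⟩
  rw [h1]
  have h2 := Finset.sum_filter_add_sum_filter_not (fam P (B1 - Eb P T p) T) (fun A => p ∉ A)
    (fun A => wA P T A)
  have h3 : ∑ A ∈ (fam P (B1 - Eb P T p) T).filter (fun A => ¬ p ∉ A), wA P T A ≤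
      yp P 1 T p ^ 2 * Gd P B1 T := by
    have h4 : ∀ A ∈ (fam P (B1 - Eb P T p) T).filter (fun A => ¬ p ∉ A),
        wA P T A = yp P 1 T p ^ 2 * wA P T (A.erase p) := by
      intro A hA
      rw [Finset.mem_filter, not_not] at hA
      unfold wA
      rw [Finset.mul_prod_erase A (fun p => yp P 1 T p ^ 2) hA.2]
    rw [Finset.sum_congr rfl h4, ← Finset.mul_sum]
    apply mul_le_mul_of_nonneg_left _ (sq_nonneg _)
    rw [← Finset.sum_image (f := fun A => wA P T A) (g := fun A : Finset ℕ => A.erase p)]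
    · apply Finset.sum_le_sum_of_subset_of_nonneg
      · intro A' hA'
        rw [Finset.mem_image] at hA'
        obtain ⟨A, hA, rfl⟩ := hA'
        rw [Finset.mem_filter] at hA
        unfold fam at hA ⊢
        rw [Finset.mem_filter, Finset.mem_powerset] at hA ⊢
        refine ⟨(Finset.erase_subset _ _).trans hA.1.1, ?_⟩
        have := Finset.sum_le_sum_of_subset (f := Eb P T) (Finset.erase_subset p A)
        omega
      · intro A _ _
        exact wA_nn P T A
    · intro A hA A' hA' h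
      rw [Finset.mem_coe, Finset.mem_filter, not_not] at hA hA'
      dsimp only at h
      rw [← Finset.insert_erase hA.2, h, Finset.insert_erase hA'.2]
  have h5 : Gd P (B1 - Eb P T p) T = ∑ A ∈ fam P (B1 - Eb P T p) T, wA P T A := rfl
  rw [h5, ← h2]
  linarith

theorem chi_nn (P : Par) (T : ℝ) (hT : 10 ≤ T) (p : ℕ) (hp : 1 ≤ p) : 0 ≤ chi P T p := by
  have hL := SP.TTAux.log_pos' hT
  unfold chi
  have h1 : 0 ≤ Real.log p := Real.log_nonneg (by exact_mod_cast hp)
  apply mul_nonneg (div_nonneg h1 hL.le)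
  apply mul_nonneg (by positivity)
  apply intervalIntegral.integral_nonneg hL.le
  intro u _
  exact mul_nonneg (P.hb1 _ _).1 (Real.exp_pos _).le

end Pool.Agent.V7H88.DZ
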