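import Pool.Agent.V7H88.DZ.D2

/-! The gain: choice of the parameters. -/

set_option autoImplicit false

open Complex Filter Topology Set MeasureTheory

namespace Pool.Agent.V7H88.DZ

open SG (hh nn dd dl ord NZ)
open SP (RHs ZZ mu wt Mk Par Eb PS chi qq tt)
open LG (fam nA yp ae prs QT tm IsQ)

theorem num_ge (P : Par) (B0 : ℕ) (hB : P.B = 2 * B0) (B1 : ℕ) :
    ∃ C T0 : ℝ, 0 < C ∧ 10 ≤ T0 ∧ ∀ T : ℝ, T0 ≤ T →
    Real.log T * ∑ m ∈ Finset.Icc 2 B1, (∑ p ∈ (PS P T).filter (fun p => Eb P T p = m),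
      Real.log p / Real.log T * chi P T p / p) *
      (Gd P (B1 - m) T - C * T ^ (-(1 / (4 * (B0 : ℝ)))) * Gd P B1 T) ≤ Num P B1 T := by
  obtain ⟨C, T0, hC, hT0, h⟩ := LG.fam_facts P B0 hB 1 (fun _ => 1)
  refine ⟨C, T0, hC, hT0, fun T hT => ?_⟩
  have hT10 : 10 ≤ T := hT0.trans hT
  obtain ⟨-, hy, -, -⟩ := h T hT
  have hL := SP.TTAux.log_pos' hT10
  set inn : ℕ → ℝ := fun p => ∑ A ∈ (fam P B1 T).filter
    (fun A => p ∉ A ∧ (∑ x ∈ A, Eb P T x) + Eb P T p ≤ B1), wA P T A with hinn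
  have hinn0 : ∀ p, 0 ≤ inn p := fun p => Finset.sum_nonneg fun A _ => wA_nn P T A
  have hc : ∀ p ∈ PS P T, 0 ≤ Real.log p * chi P T p / p := by
    intro p hp
    have h1 := (LG.MomA.prime_of_mem hp).1.one_lt.le
    have h2 := chi_nn P T hT10 p h1
    have h3 : 0 ≤ Real.log p := Real.log_nonneg (by exact_mod_cast h1)
    positivity
  have e1 : ∑ m ∈ Finset.Icc 2 B1, ∑ p ∈ (PS P T).filter (fun p => Eb P T p = m),
      Real.log p * chi P T p / p * inn p ≤ Num P B1 T := by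
    have h4 : ∑ m ∈ Finset.Icc 2 B1, ∑ p ∈ (PS P T).filter (fun p => Eb P T p = m),
        Real.log p * chi P T p / p * inn p =
        ∑ p ∈ (PS P T).filter (fun p => Eb P T p ∈ Finset.Icc 2 B1),
          Real.log p * chi P T p / p * inn p := by
      rw [← Finset.sum_fiberwise_of_maps_to
        (s := (PS P T).filter (fun p => Eb P T p ∈ Finset.Icc 2 B1)) (t := Finset.Icc 2 B1)
        (g := fun p => Eb P T p)]
      · refine Finset.sum_congr rfl fun m hm => Finset.sum_congr ?_ fun _ _ => rfl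
        ext p
        simp only [Finset.mem_filter]
        constructor
        · rintro ⟨h1, h2⟩
          exact ⟨⟨h1, by rw [h2]; exact hm⟩, h2⟩
        · rintro ⟨⟨h1, h2⟩, h3⟩
          exact ⟨h1, h3⟩
      · intro p hp
        exact (Finset.mem_filter.1 hp).2
    rw [h4]
    unfold Num
    apply Finset.sum_le_sum_of_subset_of_nonneg (Finset.filter_subset _ _)
    intro p hp _
    exact mul_nonneg (hc p hp) (hinn0 p)
  refine le_trans ?_ e1
  rw [Finset.mul_sum]
  refine Finset.sum_le_sum fun m hm => ?_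
  rw [Finset.mem_Icc] at hm
  rw [← mul_assoc, Finset.mul_sum, Finset.sum_mul]
  refine Finset.sum_le_sum fun p hp => ?_
  rw [Finset.mem_filter] at hp
  have h1 := hc p hp.1
  have h2 : Gd P (B1 - m) T - yp P 1 T p ^ 2 * Gd P B1 T ≤ inn p := by
    rw [← hp.2]
    exact inner_ge P B1 T p hp.1 (by omega)
  have h3 : Gd P (B1 - m) T - C * T ^ (-(1 / (4 * (B0 : ℝ)))) * Gd P B1 T ≤ inn p := by
    refine le_trans ?_ h2
    have h4 := (hy p hp.1).2.2
    have h5 := mul_le_mul_of_nonneg_right h4 (Gd_nn P B1 T)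
    linarith
  have e2 : Real.log T * (Real.log p / Real.log T * chi P T p / p) =
      Real.log p * chi P T p / p := by
    field_simp
  rw [e2]
  exact mul_le_mul_of_nonneg_left h3 h1

theorem gain (κ δ η : ℝ) (hκ : 0 < κ) (hκ1 : κ < 1 / 2) (hδ0 : 0 < δ) (hδ : δ ≤ 1 - κ)
    (hη : 0 < η) : ∃ (P : Par) (B0 B1 : ℕ), P.B = 2 * B0 ∧ P.κ = κ ∧ B1 ≤ P.B ∧
    (1 - κ) * B1 / P.B ≤ δ ∧ ∃ T0 : ℝ, 10 ≤ T0 ∧ ∀ T : ℝ, T0 ≤ T →
    (δ - η) * (Real.log T * Gd P B1 T) ≤ 2 * Num P B1 T := by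
  obtain ⟨B0, hB0⟩ := exists_nat_ge (max (max 2 (2 / δ)) ((10 / η) ^ 2))
  simp only [max_le_iff] at hB0
  obtain ⟨⟨hb1, hb2⟩, hb3⟩ := hB0
  have hB02 : 2 ≤ B0 := by exact_mod_cast hb1
  set B : ℕ := 2 * B0 with hBdef
  have hB2 : 2 ≤ B := by omega
  have hBr : (B : ℝ) = 2 * B0 := by rw [hBdef]; push_cast; ring
  have hBB0 : (B0 : ℝ) ≤ B := by rw [hBr]; linarith
  have hBp : (0 : ℝ) < B := by linarith
  have hk : 0 < 1 - κ := by linarith
  set w : ℝ := (1 - κ) / B with hw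
  have hw0 : 0 < w := by positivity
  have hwB : w ≤ 1 / B := by
    rw [hw]
    gcongr
    linarith
  set B1 : ℕ := ⌊δ / w⌋₊ with hB1
  have hdw : δ / w ≤ B := by
    rw [div_le_iff₀ hw0, hw]
    field_simp
    exact hδ
  have hB1B : (B1 : ℝ) ≤ B := (Nat.floor_le (by positivity)).trans hdw
  have hB1B' : B1 ≤ B := by exact_mod_cast hB1B
  have hwB1 : w * B1 ≤ δ := by
    have : (B1 : ℝ) ≤ δ / w := Nat.floor_le (by positivity)
    rw [le_div_iff₀ hw0] at this
    linarith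
  have hwB1' : δ - w ≤ w * B1 := by
    have : δ / w < B1 + 1 := Nat.lt_floor_add_one _
    rw [div_lt_iff₀ hw0] at this
    linarith
  have hB12 : 2 ≤ B1 := by
    apply Nat.le_floor
    rw [le_div_iff₀ hw0]
    push_cast
    have h1 : 2 / δ ≤ B := hb2.trans hBB0
    rw [div_le_iff₀ hδ0] at h1
    have h2 : w * B ≤ 1 := by
      rw [hw]
      field_simp
      linarith
    nlinarith
  set ε : ℝ := w / (4 * B) with hε
  have hε0 : 0 < ε := by positivity
  have hB1' : (1 : ℝ) ≤ B := by linarith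
  have hε4 : 4 * ε = w / B := by
    rw [hε]
    field_simp
  have hε4' : 4 * ε ≤ (1 - κ) / B := by
    rw [hε4, ← hw]
    exact div_le_self hw0.le hB1'
  set P := PK κ ε B hκ hκ1 hε0 hB2 with hP
  have hPB : P.B = 2 * B0 := rfl
  refine ⟨P, B0, B1, hPB, rfl, hB1B', ?_, ?_⟩
  · have : (1 - κ) * (B1 : ℝ) / (P.B : ℝ) = w * B1 := by
      have : (P.B : ℝ) = B := rfl
      rw [this, hw]
      ring
    rw [this]
    exact hwB1
  set q : ℕ → ℝ := LG.ParAux.qr (tm P 1) with hq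
  have hQ : IsQ B1 (tm P 1) q := LG.ParAux.isQ_qr _ _
  set S : ℕ → ℝ := fun k => ∑ n ∈ Finset.range (k + 1), q n with hS
  have hql := fun n hn => qlim P B1 1 q hQ n hn
  have hq0 : ∀ n, n ≤ B1 → 0 ≤ q n := fun n hn =>
    ge_of_tendsto' (hql n hn) fun T => QT_nn P 1 T n
  have hS1 : 1 ≤ S B1 := by
    have h0 := Finset.single_le_sum (f := q) (s := Finset.range (B1 + 1)) (fun n hn => by
      rw [Finset.mem_range] at hn
      exact hq0 n (by omega)) (Finset.mem_range.2 (Nat.succ_pos B1))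
    rw [hQ.1] at h0
    exact h0
  set H := ∑ m ∈ Finset.Icc 2 B1, 1 / ((m : ℝ) - 1) with hH
  have hHle : H ≤ 2 * Real.sqrt B := (harm B1 (by omega)).trans (by gcongr)
  have hH0 : 0 ≤ H := by
    apply Finset.sum_nonneg
    intro m hm
    rw [Finset.mem_Icc] at hm
    have : (2 : ℝ) ≤ m := by exact_mod_cast hm.1
    apply div_nonneg zero_le_one
    linarith
  have halg := alg B1 hB12 q (tm P 1) (sI P) S (fun k => rfl) hq0 hQ
    (tm_zero hκ hκ1 hε0 hB2 (by norm_num)).le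
    (fun m h1 h2 => tm_le hκ hκ1 hε0 hB2 h1 (by omega)) (w - 4 * ε) (by
      rw [hε4]
      have := div_le_self hw0.le hB1'
      linarith)
    (fun m h1 h2 => sI_ge hκ hκ1 hε0 hB2 h1 (by omega) hε4')
  rw [← hH] at halg
  set N8 := ∑ m ∈ Finset.Icc 2 B1, sI P m * S (B1 - m) with hN8
  have hgain : δ - η / 2 ≤ (w - 4 * ε) * ((B1 : ℝ) - 1 - H) := by
    rw [hε4]
    have hs := Real.sqrt_nonneg (B : ℝ)
    have hs2 : Real.sqrt (B : ℝ) ^ 2 = B := Real.sq_sqrt hBp.le
    have hs10 : 10 / η ≤ Real.sqrt B := by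
      apply Real.le_sqrt_of_sq_le
      exact hb3.trans hBB0
    have hs1 : 1 ≤ Real.sqrt B := by
      apply Real.le_sqrt_of_sq_le
      linarith
    set sB := Real.sqrt (B : ℝ) with hsB
    have h1 : (w - w / B) * ((B1 : ℝ) - 1 - H) = w * (B1 - 1 - H) - (w / B) * (B1 - 1 - H) := by
      ring
    have h2 : (w / B) * (B1 - 1 - H) ≤ w := by
      calc (w / B) * (B1 - 1 - H) ≤ (w / B) * B := by
            apply mul_le_mul_of_nonneg_left _ (by positivity)
            linarith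
        _ = w := by field_simp
    have h3 : w * (3 + H) ≤ η / 2 := by
      have h4 : 3 + H ≤ 5 * sB := by linarith
      have h5 : w * (3 + H) ≤ 1 / B * (5 * sB) :=
        mul_le_mul hwB h4 (by linarith) (by positivity)
      have h6 : 1 / (B : ℝ) * (5 * sB) = 5 / sB := by
        rw [← hs2]
        field_simp
      rw [h6] at h5
      refine h5.trans ?_
      rw [div_le_iff₀ (by linarith)]
      rw [div_le_iff₀ hη] at hs10
      linarith
    rw [h1]
    nlinarith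
  have hmain : (δ - η) * S B1 < 2 * N8 := by
    have h1 : (δ - η / 2) * S B1 ≤ (w - 4 * ε) * ((B1 : ℝ) - 1 - H) * S B1 :=
      mul_le_mul_of_nonneg_right hgain (by linarith)
    have h2 : 0 < η / 2 * S B1 := by positivity
    linarith
  -- limits
  obtain ⟨C, T1, hC, hT1, hnum⟩ := num_ge P B0 hPB B1
  have hGd : ∀ k, k ≤ B1 → Tendsto (fun T => Gd P k T) atTop (𝓝 (S k)) := by
    intro k hk
    simp only [Gd_QT]
    apply tendsto_finsetSum
    intro n hn
    rw [Finset.mem_range] at hn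
    exact hql n (by omega)
  have he : Tendsto (fun T : ℝ => C * T ^ (-(1 / (4 * (B0 : ℝ))))) atTop (𝓝 0) := by
    have := (tendsto_rpow_neg_atTop (show (0 : ℝ) < 1 / (4 * (B0 : ℝ)) by positivity)).const_mul C
    simpa using this
  have hV : Tendsto (fun T : ℝ => ∑ m ∈ Finset.Icc 2 B1,
      (∑ p ∈ (PS P T).filter (fun p => Eb P T p = m), Real.log p / Real.log T * chi P T p / p) *
      (Gd P (B1 - m) T - C * T ^ (-(1 / (4 * (B0 : ℝ)))) * Gd P B1 T)) atTop (𝓝 N8) := by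
    apply tendsto_finsetSum
    intro m hm
    have h1 := (psum P m).mul ((hGd (B1 - m) (Nat.sub_le _ _)).sub (he.mul (hGd B1 le_rfl)))
    simpa using h1
  have h1 := (hV.const_mul 2).sub ((hGd B1 le_rfl).const_mul (δ - η))
  have h2 := h1.eventually (lt_mem_nhds (show (0 : ℝ) < 2 * N8 - (δ - η) * S B1 by linarith))
  obtain ⟨T2, hT2⟩ := Filter.eventually_atTop.1 h2
  refine ⟨max T1 T2, hT1.trans (le_max_left _ _), fun T hT => ?_⟩
  have h3 := hT2 T ((le_max_right _ _).trans hT)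
  have h4 := hnum T ((le_max_left _ _).trans hT)
  have hT10 : 10 ≤ T := hT1.trans ((le_max_left _ _).trans hT)
  have hL := SP.TTAux.log_pos' hT10
  set V := ∑ m ∈ Finset.Icc 2 B1,
      (∑ p ∈ (PS P T).filter (fun p => Eb P T p = m), Real.log p / Real.log T * chi P T p / p) *
      (Gd P (B1 - m) T - C * T ^ (-(1 / (4 * (B0 : ℝ)))) * Gd P B1 T) with hVd
  calc (δ - η) * (Real.log T * Gd P B1 T) = Real.log T * ((δ - η) * Gd P B1 T) := by ring
    _ ≤ Real.log T * (2 * V) := by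
        apply mul_le_mul_of_nonneg_left _ hL.le
        linarith
    _ = 2 * (Real.log T * V) := by ring
    _ ≤ 2 * Num P B1 T := by linarith

end Pool.Agent.V7H88.DZ
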