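import Pool.Agent.V7H88.DZ.C
import Pool.Agent.V7H88.DZ.D3

/-! The family of sets of primes: elementary facts. -/

set_option autoImplicit false

open Complex Filter Topology Set MeasureTheory

namespace Pool.Agent.V7H88.DZ

open SG (hh nn dd dl ord NZ)
open SP (RHs ZZ mu wt Mk Par Eb PS chi qq tt)
open LG (fam nA yp ae prs QT tm IsQ)

/-- coefficient of a set of primes -/
noncomputable def av (P : Par) (T : ℝ) (A : Finset ℕ) : ℝ := ∏ p ∈ A, yp P 1 T p

theorem av_sq (P : Par) (T : ℝ) (A : Finset ℕ) : av P T A ^ 2 = wA P T A := by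
  unfold av wA
  rw [Finset.prod_pow]

theorem mem_fam {P : Par} {B1 : ℕ} {T : ℝ} {A : Finset ℕ} :
    A ∈ fam P B1 T ↔ A ⊆ PS P T ∧ ∑ p ∈ A, Eb P T p ≤ B1 := by
  unfold fam
  rw [Finset.mem_filter, Finset.mem_powerset]

theorem fam_prime {P : Par} {B1 : ℕ} {T : ℝ} {A : Finset ℕ} (hA : A ∈ fam P B1 T) :
    ∀ p ∈ A, p.Prime := fun _ hp => (LG.MomA.prime_of_mem ((mem_fam.1 hA).1 hp)).1

theorem fam_sub {P : Par} {B1 : ℕ} {T : ℝ} {A A' : Finset ℕ} (hA : A ∈ fam P B1 T)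
    (h : A' ⊆ A) : A' ∈ fam P B1 T := by
  rw [mem_fam] at hA ⊢
  exact ⟨h.trans hA.1, (Finset.sum_le_sum_of_subset h).trans hA.2⟩

theorem fam_card_le {P : Par} {B1 : ℕ} {T : ℝ} {A : Finset ℕ} (hA : A ∈ fam P B1 T) :
    A.card ≤ B1 := by
  rw [mem_fam] at hA
  refine le_trans ?_ hA.2
  rw [Finset.card_eq_sum_ones]
  apply Finset.sum_le_sum
  intro p hp
  have := (LG.MomA.prime_of_mem (hA.1 hp)).2
  omega

theorem nA_inj (P : Par) (B1 : ℕ) (T : ℝ) : Set.InjOn nA (fam P B1 T : Set (Finset ℕ)) :=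
  LG.nA_inj P B1 T

theorem nA_one_le {P : Par} {B1 : ℕ} {T : ℝ} {A : Finset ℕ} (hA : A ∈ fam P B1 T) : 1 ≤ nA A :=
  LG.nA_pos P B1 T A hA

theorem nA_le (P : Par) (B1 : ℕ) (δ T : ℝ) (hδ : (1 - P.κ) * B1 / P.B ≤ δ) (hT : 10 ≤ T)
    {A : Finset ℕ} (hA : A ∈ fam P B1 T) : (nA A : ℝ) ≤ T ^ δ := by
  have hκ1 := P.hκ1
  have hL : 0 < Real.log T := Real.log_pos (by linarith)
  have hBpos : (0 : ℝ) < P.B := by have := P.hB; positivity
  have h1 := nA_one_le hA
  have hn : (0 : ℝ) < nA A := by exact_mod_cast h1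
  have hA' := mem_fam.1 hA
  rw [← Real.log_le_log_iff hn (by positivity), Real.log_rpow (by linarith),
    LG.MomA.log_nA hA'.1]
  have h2 : ∀ p : ℕ, Real.log p ≤ (Eb P T p : ℝ) * ((1 - P.κ) * Real.log T / P.B) := by
    intro p
    have h := Nat.le_ceil ((P.B : ℝ) * Real.log p / ((1 - P.κ) * Real.log T))
    change (P.B : ℝ) * Real.log p / ((1 - P.κ) * Real.log T) ≤ (Eb P T p : ℝ) at h
    have hpos : 0 < (1 - P.κ) * Real.log T := mul_pos (by linarith) hL
    rw [div_le_iff₀ hpos] at h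
    rw [← mul_div_assoc, le_div_iff₀ hBpos]
    linarith
  calc ∑ p ∈ A, Real.log p ≤ ∑ p ∈ A, (Eb P T p : ℝ) * ((1 - P.κ) * Real.log T / P.B) :=
        Finset.sum_le_sum (fun p _ => h2 p)
    _ = ((∑ p ∈ A, Eb P T p : ℕ) : ℝ) * ((1 - P.κ) * Real.log T / P.B) := by
        rw [← Finset.sum_mul]; push_cast; rfl
    _ ≤ (B1 : ℝ) * ((1 - P.κ) * Real.log T / P.B) := by
        apply mul_le_mul_of_nonneg_right
        · exact_mod_cast hA'.2
        · apply div_nonneg (mul_nonneg (by linarith) hL.le) hBpos.le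
    _ = ((1 - P.κ) * B1 / P.B) * Real.log T := by ring
    _ ≤ δ * Real.log T := by gcongr

theorem sum_inv_sqrt (N : ℕ) : ∑ n ∈ Finset.Icc 1 N, 1 / Real.sqrt n ≤ 2 * Real.sqrt N := by
  induction N with
  | zero => simp
  | succ N ih =>
    rw [Finset.sum_Icc_succ_top (by omega)]
    have h3 : Real.sqrt ((N + 1 : ℕ) : ℝ) ^ 2 = N + 1 := by
      rw [Real.sq_sqrt (by positivity)]
      push_cast
      ring
    have h4 : Real.sqrt (N : ℝ) ^ 2 = N := Real.sq_sqrt (by positivity)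
    set x := Real.sqrt ((N + 1 : ℕ) : ℝ) with hx
    set y := Real.sqrt (N : ℝ) with hy
    have hx0 : 0 < x := Real.sqrt_pos.2 (by positivity)
    have hy0 : 0 ≤ y := Real.sqrt_nonneg _
    have h5 : 1 / x ≤ 2 * (x - y) := by
      rw [div_le_iff₀ hx0]
      have h6 : x ^ 2 - y ^ 2 = 1 := by rw [h3, h4]; ring
      have h7 : y ≤ x := by nlinarith
      nlinarith [sub_nonneg.2 h7]
    linarith

/-- `∑ n_A^{-1/2} ≤ 2 T^{δ/2}` -/
theorem fam_sqrt (P : Par) (B1 : ℕ) (δ T : ℝ) (hδ : (1 - P.κ) * B1 / P.B ≤ δ) (hT : 10 ≤ T) :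
    ∑ A ∈ fam P B1 T, 1 / Real.sqrt (nA A) ≤ 2 * T ^ (δ / 2) := by
  have hT0 : 0 < T := by linarith
  have h1 : ∑ A ∈ fam P B1 T, 1 / Real.sqrt (nA A) =
      ∑ n ∈ (fam P B1 T).image nA, 1 / Real.sqrt (n : ℝ) :=
    (Finset.sum_image (f := fun n : ℕ => 1 / Real.sqrt (n : ℝ)) (nA_inj P B1 T)).symm
  rw [h1]
  calc ∑ n ∈ (fam P B1 T).image nA, 1 / Real.sqrt (n : ℝ)
      ≤ ∑ n ∈ Finset.Icc 1 ⌊T ^ δ⌋₊, 1 / Real.sqrt (n : ℝ) := by
        apply Finset.sum_le_sum_of_subset_of_nonneg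
        · intro n hn
          rw [Finset.mem_image] at hn
          obtain ⟨A, hA, rfl⟩ := hn
          rw [Finset.mem_Icc]
          exact ⟨nA_one_le hA, Nat.le_floor (nA_le P B1 δ T hδ hT hA)⟩
        · intro n _ _
          positivity
    _ ≤ 2 * Real.sqrt (⌊T ^ δ⌋₊ : ℝ) := sum_inv_sqrt _
    _ ≤ 2 * Real.sqrt (T ^ δ) := by
        gcongr
        exact Nat.floor_le (by positivity)
    _ = 2 * T ^ (δ / 2) := by
        rw [Real.sqrt_eq_rpow, ← Real.rpow_mul hT0.le]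
        congr 2
        ring

theorem nA_cast (A : Finset ℕ) : (nA A : ℝ) = ∏ p ∈ A, (p : ℝ) := by
  unfold nA
  push_cast
  rfl

theorem sqrt_prod' (A : Finset ℕ) :
    Real.sqrt (∏ p ∈ A, (p : ℝ)) = ∏ p ∈ A, Real.sqrt p := by
  rw [Real.sqrt_eq_rpow, ← Real.finsetProd_rpow A (fun p => (p : ℝ)) (fun p _ => by positivity)]
  refine Finset.prod_congr rfl fun p _ => ?_
  rw [Real.sqrt_eq_rpow]

theorem av_facts (P : Par) (B1 : ℕ) : ∃ T0 : ℝ, 10 ≤ T0 ∧ ∀ T : ℝ, T0 ≤ T → ∀ A ∈ fam P B1 T,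
    0 ≤ av P T A ∧ av P T A ≤ 2 ^ B1 / Real.sqrt (nA A) := by
  obtain ⟨C1, T1, hC1, hT1, hchi⟩ := SP.chi_approx P
  refine ⟨T1, hT1, fun T hT A hA => ?_⟩
  have hT10 : 10 ≤ T := hT1.trans hT
  have hsub := (mem_fam.1 hA).1
  have hp1 : ∀ p ∈ A, 1 ≤ p := fun p hp => (fam_prime hA p hp).one_lt.le
  have hyp : ∀ p ∈ A, 0 ≤ yp P 1 T p ∧ yp P 1 T p ≤ 2 * (1 / Real.sqrt p) := by
    intro p hp
    have h1 := chi_nn P T hT10 p (hp1 p hp)
    have h2 := ((hchi T hT).1 p (hsub hp)).2.2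
    rw [abs_of_nonneg h1] at h2
    unfold yp
    rw [one_mul]
    constructor
    · positivity
    · rw [mul_one_div]
      gcongr
  constructor
  · exact Finset.prod_nonneg fun p hp => (hyp p hp).1
  · calc av P T A ≤ ∏ p ∈ A, 2 * (1 / Real.sqrt p) :=
        Finset.prod_le_prod (fun p hp => (hyp p hp).1) fun p hp => (hyp p hp).2
      _ = 2 ^ A.card * (1 / Real.sqrt (nA A)) := by
        rw [Finset.prod_mul_distrib, Finset.prod_const, Finset.prod_div_distrib, Finset.prod_const_one,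
          nA_cast, sqrt_prod']
      _ ≤ 2 ^ B1 * (1 / Real.sqrt (nA A)) := by
        gcongr
        · norm_num
        · exact fam_card_le hA
      _ = _ := by ring

theorem Gd_le (P : Par) (B1 : ℕ) : ∃ C T0 : ℝ, 0 < C ∧ 10 ≤ T0 ∧ ∀ T : ℝ, T0 ≤ T →
    Gd P B1 T ≤ C ∧ ∑ A ∈ fam P B1 T, 1 / (nA A : ℝ) ≤ C := by
  obtain ⟨C1, T1, hC1, hT1, hchi⟩ := SP.chi_approx P
  refine ⟨Real.exp (4 * C1), T1, Real.exp_pos _, hT1, fun T hT => ?_⟩
  obtain ⟨hchi1, hsum⟩ := hchi T hT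
  have hp0 : ∀ p ∈ PS P T, (0 : ℝ) < p := by
    intro p hp
    exact_mod_cast (LG.MomA.prime_of_mem hp).1.pos
  have key : ∀ f : ℕ → ℝ, (∀ p ∈ PS P T, 0 ≤ f p ∧ f p ≤ 4 / p) →
      ∑ A ∈ fam P B1 T, ∏ p ∈ A, f p ≤ Real.exp (4 * C1) := by
    intro f hf
    calc ∑ A ∈ fam P B1 T, ∏ p ∈ A, f p
        ≤ ∑ A ∈ (PS P T).powerset, ∏ p ∈ A, f p := by
          apply Finset.sum_le_sum_of_subset_of_nonneg (Finset.filter_subset _ _)
          intro A hA _
          rw [Finset.mem_powerset] at hA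
          exact Finset.prod_nonneg fun i hi => (hf i (hA hi)).1
      _ = ∏ p ∈ PS P T, (1 + f p) := by rw [Finset.prod_one_add]
      _ ≤ ∏ p ∈ PS P T, Real.exp (f p) := by
          apply Finset.prod_le_prod
          · intro i hi
            linarith [(hf i hi).1]
          · intro i _
            linarith [Real.add_one_le_exp (f i)]
      _ = Real.exp (∑ p ∈ PS P T, f p) := by rw [Real.exp_sum]
      _ ≤ Real.exp (4 * C1) := by
          apply Real.exp_le_exp.mpr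
          calc ∑ p ∈ PS P T, f p ≤ ∑ p ∈ PS P T, 4 * (1 / p : ℝ) := by
                apply Finset.sum_le_sum
                intro p hp
                rw [mul_one_div]
                exact (hf p hp).2
            _ = 4 * ∑ p ∈ PS P T, (1 / p : ℝ) := by rw [Finset.mul_sum]
            _ ≤ 4 * C1 := mul_le_mul_of_nonneg_left hsum (by norm_num)
  constructor
  · unfold Gd wA
    apply key
    intro p hp
    refine ⟨sq_nonneg _, ?_⟩
    have h1 := hp0 p hp
    have h2 := (hchi1 p hp).2.2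
    have h3 : chi P T p ^ 2 ≤ 4 := by
      have := sq_abs (chi P T p)
      have h4 := abs_nonneg (chi P T p)
      nlinarith
    rw [yp, div_pow, Real.sq_sqrt h1.le, one_mul]
    gcongr
  · have : ∀ A ∈ fam P B1 T, 1 / (nA A : ℝ) = ∏ p ∈ A, (1 / (p : ℝ)) := by
      intro A _
      rw [nA_cast, Finset.prod_div_distrib, Finset.prod_const_one]
    rw [Finset.sum_congr rfl this]
    apply key
    intro p hp
    have h1 := hp0 p hp
    refine ⟨by positivity, ?_⟩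
    gcongr
    norm_num

/-- total mass of the coefficients of the prime side -/
theorem ph_tot : ∃ C : ℝ, 0 < C ∧ ∀ Λ : ℝ, 0 ≤ Λ → ∑' n, ph Λ n ≤ C * Real.exp (4 * Λ) := by
  have hs : Summable (fun n : ℕ => 1 / (n : ℝ) ^ 2) := Real.summable_one_div_nat_pow.2 (by norm_num)
  have hs0 : 0 ≤ ∑' n : ℕ, 1 / (n : ℝ) ^ 2 := tsum_nonneg fun n => by positivity
  refine ⟨Real.exp 4 * (∑' n : ℕ, 1 / (n : ℝ) ^ 2 + 1), by positivity, fun Λ hΛ => ?_⟩
  have hle : ∀ n : ℕ, ph Λ n ≤ (Real.exp 4 * Real.exp (4 * Λ)) * (1 / (n : ℝ) ^ 2) := by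
    intro n
    rcases Nat.eq_zero_or_pos n with h | h
    · subst h
      simp [ph]
    have hn : (0 : ℝ) < n := by exact_mod_cast h
    have hn1 : (1 : ℝ) ≤ n := by exact_mod_cast h
    set v := Real.log n with hv
    have h1 : ∫ u in (0 : ℝ)..Λ, Real.exp (-(u - v) ^ 2 / 2) ≤
        ∫ u in (0 : ℝ)..Λ, Real.exp (5 / 2 * Λ + 25 / 8) * Real.exp (-(5 / 2 * v)) := by
      apply intervalIntegral.integral_mono_on hΛ
        (by apply Continuous.intervalIntegrable; fun_prop) intervalIntegrable_const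
      intro u hu
      rw [← Real.exp_add]
      apply Real.exp_le_exp.2
      nlinarith [sq_nonneg (u - v + 5 / 2), hu.1, hu.2]
    rw [intervalIntegral.integral_const, sub_zero, smul_eq_mul] at h1
    have h2 : ArithmeticFunction.vonMangoldt n ≤ n := by
      refine ArithmeticFunction.vonMangoldt_le_log.trans ?_
      have := Real.log_le_sub_one_of_pos hn
      linarith
    have h3 := ArithmeticFunction.vonMangoldt_nonneg (n := n)
    have h4 : (n : ℝ) = Real.exp v := (Real.exp_log hn).symm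
    have h5 : (n : ℝ) ^ (-(1 / 2) : ℝ) = Real.exp (-(v / 2)) := by
      rw [Real.rpow_def_of_pos hn]
      congr 1
      rw [← hv]
      ring
    have h6 : Λ ≤ Real.exp Λ := by linarith [Real.add_one_le_exp Λ]
    have h7 : 0 ≤ ∫ u in (0 : ℝ)..Λ, Real.exp (-(u - v) ^ 2 / 2) :=
      intervalIntegral.integral_nonneg hΛ fun u _ => (Real.exp_pos _).le
    unfold ph
    calc ArithmeticFunction.vonMangoldt n * (n : ℝ) ^ (-(1 / 2) : ℝ) *
          ∫ u in (0 : ℝ)..Λ, Real.exp (-(u - v) ^ 2 / 2)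
        ≤ (Real.exp v * Real.exp (-(v / 2))) *
          (Real.exp Λ * (Real.exp (5 / 2 * Λ + 25 / 8) * Real.exp (-(5 / 2 * v)))) := by
          rw [h5]
          gcongr
          · exact h2.trans h4.le
          · refine h1.trans ?_
            gcongr
      _ = Real.exp (7 / 2 * Λ + 25 / 8) * Real.exp (-(2 * v)) := by
          rw [← Real.exp_add, ← Real.exp_add, ← Real.exp_add, ← Real.exp_add, ← Real.exp_add]
          congr 1
          ring
      _ ≤ (Real.exp 4 * Real.exp (4 * Λ)) * (1 / (n : ℝ) ^ 2) := by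
          have h8 : 1 / (n : ℝ) ^ 2 = Real.exp (-(2 * v)) := by
            rw [h4, ← Real.exp_nat_mul, Real.exp_neg, one_div]
            push_cast
            rfl
          rw [h8, ← Real.exp_add 4 (4 * Λ)]
          exact mul_le_mul_of_nonneg_right (Real.exp_le_exp.2 (by linarith)) (Real.exp_pos _).le
  calc ∑' n, ph Λ n ≤ ∑' n : ℕ, (Real.exp 4 * Real.exp (4 * Λ)) * (1 / (n : ℝ) ^ 2) :=
        Summable.tsum_le_tsum hle (ph_sum Λ hΛ) (hs.mul_left _)
    _ = (Real.exp 4 * Real.exp (4 * Λ)) * ∑' n : ℕ, (1 / (n : ℝ) ^ 2) := tsum_mul_left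
    _ ≤ _ := by
        have := mul_pos (Real.exp_pos 4) (Real.exp_pos (4 * Λ))
        nlinarith

end Pool.Agent.V7H88.DZ
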