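import Pool.Agent.V7H88.DZ.E

/-! Mean values of the resonator. -/

set_option autoImplicit false

open Complex Filter Topology Set MeasureTheory

namespace Pool.Agent.V7H88.DZ

open SG (hh nn dd dl ord NZ)
open SP (RHs ZZ mu wt Mk Par Eb PS chi qq tt)
open LG (fam nA yp ae prs QT tm IsQ)

/-- the standing hypotheses on the parameters -/
structure Dat (P : Par) (B0 B1 : ℕ) (δ : ℝ) : Prop where
  hB : P.B = 2 * B0
  hB1 : B1 ≤ P.B
  hδ : (1 - P.κ) * B1 / P.B ≤ δ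
  hδ0 : 0 < δ
  hδ1 : δ < 1 - P.κ

/-- the resonator -/
noncomputable def Qn (P : Par) (B1 : ℕ) (T t : ℝ) : ℂ :=
  PP (fam P B1 T) (fun A => (av P T A : ℂ)) (fun A => Real.log (nA A)) t

/-- the diagonal sums -/
noncomputable def Cn (P : Par) (B1 : ℕ) (T : ℝ) (n : ℕ) : ℝ :=
  ∑ A ∈ fam P B1 T, ∑ A' ∈ fam P B1 T, if nA A = n * nA A' then av P T A * av P T A' else 0

theorem Cn_one (P : Par) (B1 : ℕ) (T : ℝ) : Cn P B1 T 1 = Gd P B1 T := by
  unfold Cn Gd
  refine Finset.sum_congr rfl fun A hA => ?_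
  rw [Finset.sum_eq_single A]
  · rw [one_mul, if_pos rfl, ← sq, av_sq]
  · intro A' hA' hne
    rw [one_mul, if_neg]
    intro h
    exact hne (nA_inj P B1 T hA hA' h).symm
  · intro h
    exact absurd hA h

theorem Cn_nn {P : Par} {B1 : ℕ} {T : ℝ} (h : ∀ A ∈ fam P B1 T, 0 ≤ av P T A) (n : ℕ) :
    0 ≤ Cn P B1 T n := by
  unfold Cn
  refine Finset.sum_nonneg fun A hA => Finset.sum_nonneg fun A' hA' => ?_
  split_ifs
  · exact mul_nonneg (h A hA) (h A' hA')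
  · exact le_rfl

theorem Cn_prime {P : Par} {B1 : ℕ} {T : ℝ} (h : ∀ A ∈ fam P B1 T, 0 ≤ av P T A) (p : ℕ)
    (hp : p ∈ PS P T) : yp P 1 T p * ∑ A ∈ (fam P B1 T).filter
      (fun A => p ∉ A ∧ (∑ x ∈ A, Eb P T x) + Eb P T p ≤ B1), wA P T A ≤ Cn P B1 T p := by
  unfold Cn
  rw [Finset.sum_comm, Finset.mul_sum]
  calc ∑ A ∈ (fam P B1 T).filter (fun A => p ∉ A ∧ (∑ x ∈ A, Eb P T x) + Eb P T p ≤ B1),
        yp P 1 T p * wA P T A
      ≤ ∑ A' ∈ (fam P B1 T).filter (fun A => p ∉ A ∧ (∑ x ∈ A, Eb P T x) + Eb P T p ≤ B1),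
        ∑ A ∈ fam P B1 T, if nA A = p * nA A' then av P T A * av P T A' else 0 := by
        refine Finset.sum_le_sum fun A' hA' => ?_
        rw [Finset.mem_filter] at hA'
        obtain ⟨h1, h2, h3⟩ := hA'
        have h4 : insert p A' ∈ fam P B1 T := by
          rw [mem_fam] at h1 ⊢
          refine ⟨Finset.insert_subset hp h1.1, ?_⟩
          rw [Finset.sum_insert h2]
          omega
        refine le_trans (le_of_eq ?_) (Finset.single_le_sum (f := fun A =>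
          if nA A = p * nA A' then av P T A * av P T A' else 0) (fun A hA => ?_) h4)
        · have h5 : nA (insert p A') = p * nA A' := by
            unfold LG.nA
            rw [Finset.prod_insert h2]
          have h6 : av P T (insert p A') = yp P 1 T p * av P T A' := by
            unfold av
            rw [Finset.prod_insert h2]
          rw [if_pos h5, h6, ← av_sq]
          ring
        · split_ifs
          · exact mul_nonneg (h A hA) (h A' h1)
          · exact le_rfl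
    _ ≤ _ := by
        apply Finset.sum_le_sum_of_subset_of_nonneg (Finset.filter_subset _ _)
        intro A' hA' _
        refine Finset.sum_nonneg fun A hA => ?_
        split_ifs
        · exact mul_nonneg (h A hA) (h A' hA')
        · exact le_rfl

/-- mean value over the whole line -/
theorem full_val (P : Par) (B1 : ℕ) (δ T t0 D : ℝ) (hδ : (1 - P.κ) * B1 / P.B ≤ δ) (hT : 10 ≤ T)
    (hδ0 : 0 < δ) (hD : 0 < D) (n : ℕ) (hn : 1 ≤ n) :
    ‖(∫ t : ℝ, ((wt t0 D t * ‖Qn P B1 T t‖ ^ 2 : ℝ) : ℂ) *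
        cexp (-(I * ((t * Real.log n : ℝ) : ℂ)))) -
      ((Real.sqrt (2 * Real.pi) * D * Cn P B1 T n : ℝ) : ℂ)‖ ≤
      Real.sqrt (2 * Real.pi) * D * (∑ A ∈ fam P B1 T, |av P T A|) ^ 2 *
        Real.exp (-(D ^ 2 / (8 * (T ^ δ) ^ 2))) := by
  have h := LG.GMV (fam P B1 T) (av P T) nA (fun _ => 1) D t0 (T ^ δ) n hD
    (Real.one_le_rpow (by linarith) hδ0.le) (fun A hA => nA_one_le hA) (fun _ _ => le_rfl)
    (fun A hA A' _ => by
      rw [Nat.cast_one, mul_one]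
      exact nA_le P B1 δ T hδ hT hA) hn
  simp only [Nat.cast_one, Real.log_one, sub_zero, mul_one, one_mul] at h
  have e : ∀ t : ℝ, ((wt t0 D t * ‖Qn P B1 T t‖ ^ 2 : ℝ) : ℂ) *
        cexp (-(I * ((t * Real.log n : ℝ) : ℂ))) =
      (wt t0 D t : ℂ) * ((‖∑ i ∈ fam P B1 T, (av P T i : ℂ) *
        cexp (I * ((t * Real.log (nA i) : ℝ) : ℂ))‖ ^ 2 : ℝ) : ℂ) *
        cexp (-(I * ((t * Real.log n : ℝ) : ℂ))) := by
    intro t
    unfold Qn PP
    push_cast
    ring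
  simp_rw [e]
  exact h

/-- truncated mean values -/
theorem trunc_val (P : Par) (B1 : ℕ) (δ T t0 D : ℝ) (hδ : (1 - P.κ) * B1 / P.B ≤ δ) (hT : 10 ≤ T)
    (hδ0 : 0 < δ) (hD : 0 < D) (hV : T + Real.log T ≤ 2 * T - Real.log T)
    (h1 : T + Real.log T + T / 20 ≤ t0) (h2 : t0 + T / 20 ≤ 2 * T - Real.log T)
    (n : ℕ) (hn : 1 ≤ n) :
    Real.sqrt (2 * Real.pi) * D * Cn P B1 T n -
      (∑ A ∈ fam P B1 T, |av P T A|) ^ 2 * (4 * D * Real.exp (-((T / 20) ^ 2 / (4 * D ^ 2))) +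
        Real.sqrt (2 * Real.pi) * D * Real.exp (-(D ^ 2 / (8 * (T ^ δ) ^ 2)))) ≤
    (JJ (fam P B1 T) (fun A => (av P T A : ℂ)) (fun A => Real.log (nA A)) t0 D
      (T + Real.log T) (2 * T - Real.log T) n).re := by
  have hf := full_val P B1 δ T t0 D hδ hT hδ0 hD n hn
  have hnorm : ∑ A ∈ fam P B1 T, ‖(av P T A : ℂ)‖ = ∑ A ∈ fam P B1 T, |av P T A| :=
    Finset.sum_congr rfl fun A _ => by rw [Complex.norm_real, Real.norm_eq_abs]
  have ht := LG.MeanAux.tail_int (fun t => ((wt t0 D t * ‖Qn P B1 T t‖ ^ 2 : ℝ) : ℂ) *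
        cexp (-(I * ((t * Real.log n : ℝ) : ℂ)))) t0 D (T + Real.log T) (2 * T - Real.log T)
    (T / 20) ((∑ A ∈ fam P B1 T, |av P T A|) ^ 2) hD (by linarith) hV h1 h2 (by
      have h3 := LG.MeanAux.wt_cont t0 D
      have h4 : Continuous (Qn P B1 T) := PP_cont _ _ _
      fun_prop) (sq_nonneg _) (by
      intro t
      rw [norm_mul, LG.MeanAux.norm_osc, mul_one, Complex.norm_real, Real.norm_eq_abs,
        abs_mul, abs_of_pos (LG.MeanAux.wt_pos t0 D t), abs_of_nonneg (sq_nonneg _), mul_comm]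
      apply mul_le_mul_of_nonneg_right _ (LG.MeanAux.wt_pos t0 D t).le
      rw [← hnorm]
      exact pow_le_pow_left₀ (norm_nonneg _) (PP_le _ _ _ t) 2)
  set J : ℂ := JJ (fam P B1 T) (fun A => (av P T A : ℂ)) (fun A => Real.log (nA A)) t0 D
      (T + Real.log T) (2 * T - Real.log T) n with hJ
  have hJe : J = ∫ t in (T + Real.log T)..(2 * T - Real.log T),
      ((wt t0 D t * ‖Qn P B1 T t‖ ^ 2 : ℝ) : ℂ) * cexp (-(I * ((t * Real.log n : ℝ) : ℂ))) := rfl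
  rw [← hJe] at ht
  set F : ℂ := ∫ t : ℝ, ((wt t0 D t * ‖Qn P B1 T t‖ ^ 2 : ℝ) : ℂ) *
        cexp (-(I * ((t * Real.log n : ℝ) : ℂ))) with hF
  have h5 := (Complex.abs_re_le_norm _).trans ht
  have h6 := (Complex.abs_re_le_norm _).trans hf
  rw [Complex.sub_re, abs_le] at h5 h6
  rw [Complex.ofReal_re] at h6
  have h7 := h5.1
  have h8 := h6.1
  nlinarith [h7, h8]

/-- truncated mean square -/
theorem trunc_sq (P : Par) (B1 : ℕ) (δ T t0 D : ℝ) (hδ : (1 - P.κ) * B1 / P.B ≤ δ) (hT : 10 ≤ T)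
    (hδ0 : 0 < δ) (hD : 0 < D) (hV : T + Real.log T ≤ 2 * T - Real.log T) :
    (∫ t in (T + Real.log T)..(2 * T - Real.log T), wt t0 D t * ‖Qn P B1 T t‖ ^ 2) ≤
      Real.sqrt (2 * Real.pi) * D * (Gd P B1 T + (∑ A ∈ fam P B1 T, |av P T A|) ^ 2 *
        Real.exp (-(D ^ 2 / (8 * (T ^ δ) ^ 2)))) := by
  have hf := full_val P B1 δ T t0 D hδ hT hδ0 hD 1 le_rfl
  have hQc : Continuous (Qn P B1 T) := PP_cont _ _ _
  have hwc := LG.MeanAux.wt_cont t0 D
  have hnorm : ∑ A ∈ fam P B1 T, ‖(av P T A : ℂ)‖ = ∑ A ∈ fam P B1 T, |av P T A| :=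
    Finset.sum_congr rfl fun A _ => by rw [Complex.norm_real, Real.norm_eq_abs]
  have hwi : Integrable (fun t : ℝ => wt t0 D t) := SG.Deep.gauss_integrable D t0 hD
  have hint : Integrable (fun t : ℝ => wt t0 D t * ‖Qn P B1 T t‖ ^ 2) := by
    refine (hwi.const_mul ((∑ A ∈ fam P B1 T, |av P T A|) ^ 2)).mono'
      (by apply Continuous.aestronglyMeasurable; fun_prop) (Eventually.of_forall fun t => ?_)
    rw [Real.norm_eq_abs, abs_mul, abs_of_pos (LG.MeanAux.wt_pos t0 D t),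
      abs_of_nonneg (sq_nonneg _), mul_comm]
    apply mul_le_mul_of_nonneg_right _ (LG.MeanAux.wt_pos t0 D t).le
    rw [← hnorm]
    exact pow_le_pow_left₀ (norm_nonneg _) (PP_le _ _ _ t) 2
  have h1 : (∫ t in (T + Real.log T)..(2 * T - Real.log T), wt t0 D t * ‖Qn P B1 T t‖ ^ 2) ≤
      ∫ t : ℝ, wt t0 D t * ‖Qn P B1 T t‖ ^ 2 := by
    rw [intervalIntegral.integral_of_le hV]
    exact setIntegral_le_integral hint (Eventually.of_forall fun t =>
      mul_nonneg (LG.MeanAux.wt_pos t0 D t).le (sq_nonneg _))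
  refine h1.trans ?_
  rw [Cn_one] at hf
  have e : (∫ t : ℝ, ((wt t0 D t * ‖Qn P B1 T t‖ ^ 2 : ℝ) : ℂ) *
        cexp (-(I * ((t * Real.log (1 : ℕ) : ℝ) : ℂ)))) =
      ((∫ t : ℝ, wt t0 D t * ‖Qn P B1 T t‖ ^ 2 : ℝ) : ℂ) := by
    rw [← integral_complex_ofReal]
    congr 1
    funext t
    simp
  rw [e, ← Complex.ofReal_sub, Complex.norm_real, Real.norm_eq_abs, abs_le] at hf
  nlinarith [hf.2]

end Pool.Agent.V7H88.DZ
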