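import Pool.Agent.V7H88.DZ.E2

/-! The upper bound for the sum over the zeros at the larger height. -/

set_option autoImplicit false

open Complex Filter Topology Set MeasureTheory

namespace Pool.Agent.V7H88.DZ

open SG (hh nn dd dl ord NZ)
open SP (RHs ZZ mu wt Mk Par Eb PS chi qq tt)
open LG (fam nA yp ae prs QT tm IsQ)

/-- the square of the sum of the coefficients -/
theorem av_sum (P : Par) (B1 : ℕ) (δ σ : ℝ) (hδ : (1 - P.κ) * B1 / P.B ≤ δ) (hσ : δ < σ) :
    ∃ T0 : ℝ, 10 ≤ T0 ∧ ∀ T : ℝ, T0 ≤ T → (∑ A ∈ fam P B1 T, |av P T A|) ^ 2 ≤ T ^ σ := by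
  obtain ⟨T1, hT1, h1⟩ := av_facts P B1
  have h2 : Tendsto (fun T : ℝ => T ^ (σ - δ)) atTop atTop := tendsto_rpow_atTop (by linarith)
  obtain ⟨T2, hT2⟩ := Filter.eventually_atTop.1 (h2.eventually_ge_atTop ((2 ^ B1 * 2) ^ 2))
  refine ⟨max T1 T2, hT1.trans (le_max_left _ _), fun T hT => ?_⟩
  have hTT1 : T1 ≤ T := (le_max_left _ _).trans hT
  have hT10 : 10 ≤ T := hT1.trans hTT1
  have hT0 : 0 < T := by linarith
  have h3 := hT2 T ((le_max_right _ _).trans hT)
  have h4 : ∑ A ∈ fam P B1 T, |av P T A| ≤ 2 ^ B1 * (2 * T ^ (δ / 2)) := by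
    calc ∑ A ∈ fam P B1 T, |av P T A| ≤ ∑ A ∈ fam P B1 T, 2 ^ B1 * (1 / Real.sqrt (nA A)) := by
          refine Finset.sum_le_sum fun A hA => ?_
          obtain ⟨h5, h6⟩ := h1 T hTT1 A hA
          rw [abs_of_nonneg h5, mul_one_div]
          exact h6
      _ = 2 ^ B1 * ∑ A ∈ fam P B1 T, 1 / Real.sqrt (nA A) := by rw [Finset.mul_sum]
      _ ≤ _ := by
          gcongr
          exact fam_sqrt P B1 δ T hδ hT10
  calc (∑ A ∈ fam P B1 T, |av P T A|) ^ 2 ≤ (2 ^ B1 * (2 * T ^ (δ / 2))) ^ 2 :=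
        pow_le_pow_left₀ (Finset.sum_nonneg fun _ _ => abs_nonneg _) h4 2
    _ = (2 ^ B1 * 2) ^ 2 * T ^ δ := by
        have : (T ^ (δ / 2)) ^ 2 = T ^ δ := by
          rw [← Real.rpow_natCast, ← Real.rpow_mul hT0.le]
          congr 1
          push_cast
          ring
        rw [← this]
        ring
    _ ≤ T ^ (σ - δ) * T ^ δ := by gcongr
    _ = T ^ σ := by
        rw [← Real.rpow_add hT0]
        congr 1
        ring

/-- the error terms are small -/
theorem ev_err (κ δ σ C : ℝ) (hκ : 0 < κ) (hκ1 : κ < 1) (hδ0 : 0 < δ) (hδ1 : δ < 1 - κ)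
    (hσ : σ ≤ 1) (hC : 0 < C) : ∃ T0 : ℝ, 10 ≤ T0 ∧ ∀ T : ℝ, T0 ≤ T → ∀ D : ℝ, dd κ T / 3 ≤ D →
    D ≤ dd κ T →
    T ^ σ * (4 * D * Real.exp (-((T / 20) ^ 2 / (4 * D ^ 2))) +
      Real.sqrt (2 * Real.pi) * D * Real.exp (-(D ^ 2 / (8 * (T ^ δ) ^ 2)))) * (C * T ^ (8 : ℝ)) ≤ D ∧
    Real.log T * (T ^ σ * Real.exp (-(D ^ 2 / (8 * (T ^ δ) ^ 2)))) ≤ 1 := by
  have e1 : ∀ᶠ T : ℝ in atTop, T ^ (10 : ℝ) * Real.exp (-(1 / 1600) * T ^ κ) ≤ 1 / (8 * C) := by
    have h := SG.Deep.tendsto_pow_exp 10 (1 / 1600) (2 * κ) (by norm_num) (by linarith)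
    have e : 2 * κ / 2 = κ := by ring
    rw [e] at h
    exact (h.eventually_lt_const (by positivity : (0:ℝ) < 1 / (8 * C))).mono fun T hT => hT.le
  have e2 : ∀ᶠ T : ℝ in atTop, T ^ (10 : ℝ) * Real.exp (-(1 / 72) * T ^ κ) ≤ min (1 / (8 * C)) 1 := by
    have h := SG.Deep.tendsto_pow_exp 10 (1 / 72) (2 * κ) (by norm_num) (by linarith)
    have e : 2 * κ / 2 = κ := by ring
    rw [e] at h
    exact (h.eventually_lt_const (by positivity : (0:ℝ) < min (1 / (8 * C)) 1)).mono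
      fun T hT => hT.le
  obtain ⟨T0, hT0⟩ := Filter.eventually_atTop.1 (e1.and e2)
  refine ⟨max 10 T0, le_max_left _ _, fun T hT D hD1 hD2 => ?_⟩
  obtain ⟨h1, h2⟩ := hT0 T ((le_max_right _ _).trans hT)
  have hT10 : 10 ≤ T := (le_max_left _ _).trans hT
  have hTp : 0 < T := by linarith
  have hdd : dd κ T = T ^ (1 - κ / 2) := rfl
  have hdd0 : 0 < dd κ T := by rw [hdd]; positivity
  have hD0 : 0 < D := by linarith
  have hdd2 : dd κ T ^ 2 = T ^ (2 - κ) := by
    rw [hdd, ← Real.rpow_natCast, ← Real.rpow_mul hTp.le]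
    congr 1
    push_cast
    ring
  have x1 : Real.exp (-((T / 20) ^ 2 / (4 * D ^ 2))) ≤ Real.exp (-(1 / 1600) * T ^ κ) := by
    apply Real.exp_le_exp.2
    have h3 : (1 / 1600) * T ^ κ ≤ (T / 20) ^ 2 / (4 * D ^ 2) := by
      rw [le_div_iff₀ (by positivity)]
      have h4 : D ^ 2 ≤ T ^ (2 - κ) := by
        rw [← hdd2]
        exact pow_le_pow_left₀ hD0.le hD2 2
      have h5 : T ^ κ * T ^ (2 - κ) = T ^ 2 := by
        rw [← Real.rpow_add hTp, ← Real.rpow_natCast]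
        congr 1
        push_cast
        ring
      have h6 : T ^ κ * D ^ 2 ≤ T ^ 2 := by
        rw [← h5]
        gcongr
      nlinarith
    linarith
  have x2 : Real.exp (-(D ^ 2 / (8 * (T ^ δ) ^ 2))) ≤ Real.exp (-(1 / 72) * T ^ κ) := by
    apply Real.exp_le_exp.2
    have h3 : (1 / 72) * T ^ κ ≤ D ^ 2 / (8 * (T ^ δ) ^ 2) := by
      rw [le_div_iff₀ (by positivity)]
      have h4 : T ^ (2 - κ) / 9 ≤ D ^ 2 := by
        rw [← hdd2]
        have := pow_le_pow_left₀ (by positivity) hD1 2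
        linarith [show (dd κ T / 3) ^ 2 = dd κ T ^ 2 / 9 by ring]
      have h5 : T ^ κ * (T ^ δ) ^ 2 ≤ T ^ (2 - κ) := by
        rw [← Real.rpow_natCast (T ^ δ), ← Real.rpow_mul hTp.le, ← Real.rpow_add hTp]
        apply Real.rpow_le_rpow_of_exponent_le (by linarith)
        push_cast
        linarith
      nlinarith
    linarith
  have hs := s2pi_le
  have hTσ : T ^ σ ≤ T := by
    calc T ^ σ ≤ T ^ (1 : ℝ) := Real.rpow_le_rpow_of_exponent_le (by linarith) hσ
      _ = T := Real.rpow_one T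
  have hTσ0 : 0 < T ^ σ := by positivity
  have hT10' : T ^ (10 : ℝ) = T * T * T ^ (8 : ℝ) := by
    have : (10 : ℝ) = 1 + 1 + 8 := by norm_num
    rw [this, Real.rpow_add hTp, Real.rpow_add hTp, Real.rpow_one]
  rw [hT10'] at h1 h2
  have hT8 : 1 ≤ T ^ (8 : ℝ) := Real.one_le_rpow (by linarith) (by norm_num)
  have h3 : T * T * T ^ (8 : ℝ) * Real.exp (-(1 / 72) * T ^ κ) ≤ 1 / (8 * C) :=
    h2.trans (min_le_left _ _)
  have h4 : T * T * T ^ (8 : ℝ) * Real.exp (-(1 / 72) * T ^ κ) ≤ 1 := h2.trans (min_le_right _ _)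
  set E1 := Real.exp (-(1 / 1600) * T ^ κ) with hE1
  set E2 := Real.exp (-(1 / 72) * T ^ κ) with hE2
  have hE10 : 0 < E1 := Real.exp_pos _
  have hE20 : 0 < E2 := Real.exp_pos _
  constructor
  · calc T ^ σ * (4 * D * Real.exp (-((T / 20) ^ 2 / (4 * D ^ 2))) +
      Real.sqrt (2 * Real.pi) * D * Real.exp (-(D ^ 2 / (8 * (T ^ δ) ^ 2)))) * (C * T ^ (8 : ℝ))
        ≤ (T * T) * (4 * D * E1 + 4 * D * E2) * (C * T ^ (8 : ℝ)) := by
          gcongr
          · nlinarith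
          · linarith
      _ = 4 * C * D * (T * T * T ^ (8 : ℝ) * E1) + 4 * C * D * (T * T * T ^ (8 : ℝ) * E2) := by ring
      _ ≤ 4 * C * D * (1 / (8 * C)) + 4 * C * D * (1 / (8 * C)) := by gcongr
      _ = D := by
          field_simp
          norm_num
  · have hlog : Real.log T ≤ T := by
      have := Real.log_le_sub_one_of_pos hTp
      linarith
    have hlog0 : 0 ≤ Real.log T := Real.log_nonneg (by linarith)
    calc Real.log T * (T ^ σ * Real.exp (-(D ^ 2 / (8 * (T ^ δ) ^ 2)))) ≤ T * (T * E2) := by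
          gcongr
      _ = T * T * 1 * E2 := by ring
      _ ≤ T * T * T ^ (8 : ℝ) * E2 := by gcongr
      _ ≤ 1 := h4

/-- the coefficient of a prime -/
theorem ph_prime (Λ d : ℝ) (p : ℕ) (hp : p.Prime) (hd0 : 0 ≤ d) (hd : d ≤ Real.log p)
    (hd2 : Real.log p + d ≤ Λ) : Real.log p * (1 / Real.sqrt p) *
      (Real.sqrt (2 * Real.pi) * (1 - 2 * Real.exp (-(d ^ 2 / 4)))) ≤ ph Λ p := by
  have hpp : (0 : ℝ) < p := by exact_mod_cast hp.pos
  unfold ph
  rw [ArithmeticFunction.vonMangoldt_apply_prime hp]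
  have h1 : (p : ℝ) ^ (-(1 / 2) : ℝ) = 1 / Real.sqrt p := by
    rw [Real.rpow_neg hpp.le, ← Real.sqrt_eq_rpow, one_div]
  rw [h1]
  have h2 : ∫ u in (0 : ℝ)..Λ, Real.exp (-(u - Real.log p) ^ 2 / 2) =
      ∫ v in (0 - Real.log p)..(Λ - Real.log p), Real.exp (-v ^ 2 / 2) :=
    intervalIntegral.integral_comp_sub_right (fun v => Real.exp (-v ^ 2 / 2)) _
  rw [h2]
  have h3 := g_tail (0 - Real.log p) (Λ - Real.log p) d hd0 (by linarith) (by linarith)
  rw [abs_le] at h3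
  have h4 := s2pi_ge
  have h5 : 0 ≤ Real.log p * (1 / Real.sqrt p) := by
    have : 0 ≤ Real.log p := by linarith
    positivity
  apply mul_le_mul_of_nonneg_left _ h5
  have h6 := Real.exp_pos (-(d ^ 2 / 4))
  nlinarith [h3.1]

/-- the prime side is at least the gain -/
theorem prime_side (hRH : RHs) {P : Par} {B0 B1 : ℕ} {δ : ℝ} (hP : Dat P B0 B1 δ) (η : ℝ)
    (hη : 0 < η) : ∃ T0 : ℝ, 10 ≤ T0 ∧ ∀ T : ℝ, T0 ≤ T → ∀ t0 D : ℝ,
    dd P.κ T / 3 ≤ D → D ≤ dd P.κ T → T + Real.log T + T / 20 ≤ t0 →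
    t0 + T / 20 ≤ 2 * T - Real.log T →
    Real.sqrt (2 * Real.pi) * D * ((1 - η) * Num P B1 T) - D ≤
      1 / Real.sqrt (2 * Real.pi) * (∑' n : ℕ, (ph ((1 + 1) * Real.log T) n : ℂ) *
        JJ (fam P B1 T) (fun A => (av P T A : ℂ)) (fun A => Real.log (nA A)) t0 D
        (T + Real.log T) (2 * T - Real.log T) n).re := by
  have _ := hRH
  obtain ⟨C, hC, htot⟩ := ph_tot
  obtain ⟨T1, hT1, hav⟩ := av_facts P B1
  obtain ⟨T2, hT2, hsum⟩ := av_sum P B1 δ 1 hP.hδ (by linarith [hP.hδ1, P.hκ])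
  obtain ⟨T3, hT3, herr⟩ := ev_err P.κ δ 1 C P.hκ (by linarith [P.hκ1]) hP.hδ0 hP.hδ1 le_rfl hC
  have hBpos : (0 : ℝ) < P.B := by have := P.hB; positivity
  have hk : 0 < 1 - P.κ := by linarith [P.hκ1]
  set w : ℝ := (1 - P.κ) / P.B with hw
  have hw0 : 0 < w := by positivity
  have hw1 : w ≤ 1 := by
    rw [hw, div_le_one hBpos]
    have : (2 : ℝ) ≤ P.B := by exact_mod_cast P.hB
    linarith [P.hκ]
  have ev : ∀ᶠ T : ℝ in atTop, 2 * Real.exp (-((w * Real.log T) ^ 2 / 4)) ≤ η ∧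
      40 * Real.log T ≤ T := by
    have h1 : Tendsto (fun T : ℝ => 2 * Real.exp (-((w * Real.log T) ^ 2 / 4))) atTop (𝓝 0) := by
      have h2 : Tendsto (fun T : ℝ => (w * Real.log T) ^ 2 / 4) atTop atTop :=
        ((tendsto_pow_atTop (n := 2) (by norm_num)).comp
          (Real.tendsto_log_atTop.const_mul_atTop hw0)).atTop_div_const (by norm_num)
      have h3 := (Real.tendsto_exp_neg_atTop_nhds_zero.comp h2).const_mul 2
      simpa using h3
    have h4 := Real.isLittleO_log_id_atTop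
    rw [Asymptotics.isLittleO_iff] at h4
    filter_upwards [h1.eventually_lt_const hη, h4 (show (0 : ℝ) < 1 / 40 by norm_num),
      eventually_ge_atTop 1] with T h5 h6 h7
    simp only [id] at h6
    rw [Real.norm_of_nonneg (Real.log_nonneg h7), Real.norm_of_nonneg (by linarith)] at h6
    exact ⟨h5.le, by linarith⟩
  obtain ⟨T4, hT4⟩ := Filter.eventually_atTop.1 ev
  refine ⟨max (max T1 T2) (max T3 T4), hT1.trans ((le_max_left _ _).trans (le_max_left _ _)), ?_⟩
  intro T hT t0 D hD1 hD2 ht1 ht2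
  simp only [max_le_iff] at hT
  obtain ⟨⟨hTT1, hTT2⟩, hTT3, hTT4⟩ := hT
  have hT10 : 10 ≤ T := hT1.trans hTT1
  have hTp : 0 < T := by linarith
  obtain ⟨hev1, hev2⟩ := hT4 T hTT4
  have hL := SP.TTAux.log_pos' hT10
  set L := Real.log T with hLd
  have hdd0 : 0 < dd P.κ T := Real.rpow_pos_of_pos hTp _
  have hD0 : 0 < D := by linarith
  have hV : T + L ≤ 2 * T - L := by linarith
  have hav' := hav T hTT1
  set M := (∑ A ∈ fam P B1 T, |av P T A|) ^ 2 with hM
  have hM1 : M ≤ T ^ (1 : ℝ) := hsum T hTT2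
  have hM0 : 0 ≤ M := sq_nonneg _
  obtain ⟨he1, -⟩ := herr T hTT3 D hD1 hD2
  set s := Real.sqrt (2 * Real.pi) with hs
  have hs2 : 2 ≤ s := s2pi_ge
  have hs0 : 0 < s := by linarith
  set err := M * (4 * D * Real.exp (-((T / 20) ^ 2 / (4 * D ^ 2))) +
        s * D * Real.exp (-(D ^ 2 / (8 * (T ^ δ) ^ 2)))) with herrd
  have herr0 : 0 ≤ err := by positivity
  set J : ℕ → ℂ := JJ (fam P B1 T) (fun A => (av P T A : ℂ)) (fun A => Real.log (nA A)) t0 D
      (T + L) (2 * T - L) with hJ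
  have hJ1 : ∀ n, 1 ≤ n → s * D * Cn P B1 T n - err ≤ (J n).re := by
    intro n hn
    have := trunc_val P B1 δ T t0 D hP.hδ hT10 hP.hδ0 hD0 hV ht1 ht2 n hn
    rw [← hLd, ← hs, ← hM] at this
    exact this
  set Λ := (1 + 1) * L with hΛ
  have hΛ0 : 0 ≤ Λ := by positivity
  have hphs := ph_sum Λ hΛ0
  have hph0 := ph_nn Λ hΛ0
  -- norm of J
  have hJn : ∀ n, ‖J n‖ ≤ M * |2 * T - L - (T + L)| := by
    intro n
    have := intervalIntegral.norm_integral_le_of_norm_le_const (a := T + L) (b := 2 * T - L)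
      (C := M) (f := fun t => ((wt t0 D t * ‖PP (fam P B1 T) (fun A => (av P T A : ℂ))
        (fun A => Real.log (nA A)) t‖ ^ 2 : ℝ) : ℂ) * cexp (-(I * ((t * Real.log n : ℝ) : ℂ))))
      (fun t _ => by
        rw [norm_mul, LG.MeanAux.norm_osc, mul_one, Complex.norm_real, Real.norm_eq_abs,
          abs_mul, abs_of_pos (LG.MeanAux.wt_pos t0 D t), abs_of_nonneg (sq_nonneg _)]
        have h1 := LG.MeanAux.wt_le_one t0 D t
        have h2 := PP_le (fam P B1 T) (fun A => (av P T A : ℂ)) (fun A => Real.log (nA A)) t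
        have h3 : ∑ A ∈ fam P B1 T, ‖(av P T A : ℂ)‖ = ∑ A ∈ fam P B1 T, |av P T A| :=
          Finset.sum_congr rfl fun A _ => by rw [Complex.norm_real, Real.norm_eq_abs]
        rw [h3] at h2
        calc _ ≤ 1 * M := by
              apply mul_le_mul h1 (pow_le_pow_left₀ (norm_nonneg _) h2 2) (sq_nonneg _) zero_le_one
          _ = M := one_mul M)
    exact this
  have hsumm : Summable (fun n : ℕ => (ph Λ n : ℂ) * J n) := by
    apply Summable.of_norm_bounded (hphs.mul_left (M * |2 * T - L - (T + L)|))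
    intro n
    rw [norm_mul, Complex.norm_real, Real.norm_of_nonneg (hph0 n), mul_comm]
    exact mul_le_mul_of_nonneg_right (hJn n) (hph0 n)
  have hre : (∑' n : ℕ, (ph Λ n : ℂ) * J n).re = ∑' n : ℕ, ph Λ n * (J n).re := by
    rw [Complex.re_tsum hsumm]
    refine tsum_congr fun n => ?_
    rw [Complex.re_ofReal_mul]
  have hsr : Summable (fun n : ℕ => ph Λ n * (J n).re) := by
    have h1 := (Complex.hasSum_re hsumm.hasSum).summable
    refine h1.congr fun n => ?_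
    rw [Complex.re_ofReal_mul]
  have hph00 : ph Λ 0 = 0 := by simp [ph]
  have hf : ∑ p ∈ PS P T, ph Λ p * ((J p).re + err) ≤ ∑' n : ℕ, ph Λ n * ((J n).re + err) := by
    have hsf : Summable (fun n : ℕ => ph Λ n * ((J n).re + err)) := by
      have := hsr.add (hphs.mul_right err)
      refine this.congr fun n => ?_
      ring
    apply hsf.sum_le_tsum
    intro n _
    rcases Nat.eq_zero_or_pos n with h | h
    · rw [h, hph00, zero_mul]
    · have h1 := hJ1 n h
      have h2 := Cn_nn (fun A hA => (hav' A hA).1) n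
      have h3 : 0 ≤ s * D * Cn P B1 T n := by positivity
      exact mul_nonneg (hph0 n) (by linarith)
  have hsplit : ∑' n : ℕ, ph Λ n * ((J n).re + err) =
      (∑' n : ℕ, ph Λ n * (J n).re) + (∑' n, ph Λ n) * err := by
    rw [← tsum_mul_right, ← hsr.tsum_add (hphs.mul_right err)]
    refine tsum_congr fun n => ?_
    ring
  have htotal : (∑' n, ph Λ n) * err ≤ D := by
    have h1 := htot Λ hΛ0
    have h2 : Real.exp (4 * Λ) = T ^ (8 : ℝ) := by
      rw [Real.rpow_def_of_pos hTp, hΛ]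
      congr 1
      ring
    rw [h2] at h1
    calc (∑' n, ph Λ n) * err ≤ (C * T ^ (8 : ℝ)) * err := mul_le_mul_of_nonneg_right h1 herr0
      _ = err * (C * T ^ (8 : ℝ)) := by ring
      _ ≤ T ^ (1 : ℝ) * (4 * D * Real.exp (-((T / 20) ^ 2 / (4 * D ^ 2))) +
        s * D * Real.exp (-(D ^ 2 / (8 * (T ^ δ) ^ 2)))) * (C * T ^ (8 : ℝ)) := by
          rw [herrd]
          gcongr
      _ ≤ D := he1
  -- the primes
  have hprimes : s * (s * D * ((1 - η) * Num P B1 T)) ≤ ∑ p ∈ PS P T, ph Λ p * ((J p).re + err) := by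
    unfold Num
    rw [Finset.mul_sum, Finset.mul_sum, Finset.mul_sum]
    refine Finset.sum_le_sum fun p hp => ?_
    obtain ⟨-, hp0, hp1, hp2⟩ := SP.MertAux.Eb_le P T hT10 p hp
    have hpp := (LG.MomA.prime_of_mem hp).1
    have hpos : (0 : ℝ) < p := by exact_mod_cast hpp.pos
    have h1 := hJ1 p hpp.one_lt.le
    have h2 := Cn_prime (fun A hA => (hav' A hA).1) p hp
    set inn := ∑ A ∈ (fam P B1 T).filter
      (fun A => p ∉ A ∧ (∑ x ∈ A, Eb P T x) + Eb P T p ≤ B1), wA P T A with hinn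
    have hinn0 : 0 ≤ inn := Finset.sum_nonneg fun A _ => wA_nn P T A
    have hchi := chi_nn P T hT10 p hpp.one_lt.le
    have hy : yp P 1 T p = chi P T p / Real.sqrt p := by
      unfold yp
      rw [one_mul]
    have hwL : w * L ≤ Real.log p := by
      rw [hw]
      have : (1 - P.κ) / P.B * L = (1 - P.κ) * Real.log T / P.B := by
        rw [← hLd]
        ring
      rw [this]
      exact hp2.le
    have h3 := ph_prime Λ (w * L) p hpp (by positivity) hwL (by
      rw [hΛ]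
      have : w * L ≤ 1 * L := mul_le_mul_of_nonneg_right hw1 hL.le
      linarith)
    rw [← hs] at h3
    have h4 : Real.log p * (1 / Real.sqrt p) * (s * (1 - η)) ≤ ph Λ p := by
      refine le_trans ?_ h3
      have h5 : 1 - η ≤ 1 - 2 * Real.exp (-((w * L) ^ 2 / 4)) := by linarith
      gcongr
    have h6 : s * D * (yp P 1 T p * inn) ≤ (J p).re + err := by
      have := mul_le_mul_of_nonneg_left h2 (show 0 ≤ s * D by positivity)
      linarith
    have h7 : 0 ≤ s * D * (yp P 1 T p * inn) := by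
      rw [hy]
      positivity
    have hsq : Real.sqrt (p : ℝ) * Real.sqrt p = p := Real.mul_self_sqrt hpos.le
    have hdiv : chi P T p / Real.sqrt p * (1 / Real.sqrt p) = chi P T p / p := by
      rw [div_mul_div_comm, mul_one, hsq]
    calc s * (s * D * ((1 - η) * (Real.log p * chi P T p / p * inn)))
        = (Real.log p * (s * (1 - η)) * s * D * inn) * (chi P T p / p) := by ring
      _ = (Real.log p * (s * (1 - η)) * s * D * inn) *
          (chi P T p / Real.sqrt p * (1 / Real.sqrt p)) := by rw [hdiv]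
      _ = (Real.log p * (1 / Real.sqrt p) * (s * (1 - η))) * (s * D * (yp P 1 T p * inn)) := by
          rw [hy]
          ring
      _ ≤ ph Λ p * (s * D * (yp P 1 T p * inn)) := mul_le_mul_of_nonneg_right h4 h7
      _ ≤ ph Λ p * ((J p).re + err) := mul_le_mul_of_nonneg_left h6 (hph0 p)
  have hmain : s * (s * D * ((1 - η) * Num P B1 T)) - D ≤ (∑' n : ℕ, (ph Λ n : ℂ) * J n).re := by
    rw [hre]
    linarith
  have h8 : 1 / s * (s * (s * D * ((1 - η) * Num P B1 T)) - D) =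
      s * D * ((1 - η) * Num P B1 T) - D / s := by
    field_simp
  have h9 : D / s ≤ D := div_le_self hD0.le (by linarith)
  calc s * D * ((1 - η) * Num P B1 T) - D ≤ s * D * ((1 - η) * Num P B1 T) - D / s := by linarith
    _ = 1 / s * (s * (s * D * ((1 - η) * Num P B1 T)) - D) := h8.symm
    _ ≤ 1 / s * (∑' n : ℕ, (ph Λ n : ℂ) * J n).re :=
        mul_le_mul_of_nonneg_left hmain (by positivity)

end Pool.Agent.V7H88.DZ
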