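import Pool.Agent.V7H88.DZ.E3

/-! The upper bound for the sum over the zeros at the larger height. -/

set_option autoImplicit false

open Complex Filter Topology Set MeasureTheory

namespace Pool.Agent.V7H88.DZ

open SG (hh nn dd dl ord NZ)
open SP (RHs ZZ mu wt Mk Par Eb PS chi qq tt)
open LG (fam nA yp ae prs QT tm IsQ)

theorem log_nA_bd (P : Par) (B1 : ℕ) (δ T : ℝ) (hδ : (1 - P.κ) * B1 / P.B ≤ δ) (hT : 10 ≤ T)
    {A : Finset ℕ} (hA : A ∈ fam P B1 T) :
    0 ≤ Real.log (nA A) ∧ Real.log (nA A) ≤ δ * Real.log T := by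
  have h1 : (1 : ℝ) ≤ nA A := by exact_mod_cast nA_one_le hA
  refine ⟨Real.log_nonneg h1, ?_⟩
  rw [← Real.log_rpow (by linarith)]
  exact Real.log_le_log (by linarith) (nA_le P B1 δ T hδ hT hA)

theorem nu_side (hRH : RHs) {P : Par} {B0 B1 : ℕ} {δ : ℝ} (hP : Dat P B0 B1 δ) (ρ : ℝ)
    (hρ0 : 0 ≤ ρ) (hρ1 : ρ ≤ 1)
    (hg : ∃ T0 : ℝ, ∀ T : ℝ, T0 ≤ T → ρ * (Real.log T * Gd P B1 T) ≤ 2 * Num P B1 T) (η : ℝ)
    (hη : 0 < η) : ∃ T0 : ℝ, 10 ≤ T0 ∧ ∀ T : ℝ, T0 ≤ T → ∀ t0 D : ℝ,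
    dd P.κ T / 3 ≤ D → D ≤ dd P.κ T → T + Real.log T + T / 20 ≤ t0 →
    t0 + T / 20 ≤ 2 * T - Real.log T →
    Real.pi * (∑ᶠ s ∈ ZZ T, (mu s : ℝ) * (wt t0 D s.im * ‖Qn P B1 T s.im‖ ^ 2)) ≤
      Real.sqrt (2 * Real.pi) * D * (Real.log T / 2) * Gd P B1 T * (1 - ρ + η) := by
  have hκ := P.hκ
  have hκ1 := P.hκ1
  have hδ1 := hP.hδ1
  have hδ0 := hP.hδ0
  set σ : ℝ := (δ + (1 - P.κ)) / 2 with hσ
  obtain ⟨C, T1, hC, hT1, hloc⟩ := loc hRH P.κ σ 1 hκ (by linarith) (by linarith) zero_le_one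
  obtain ⟨T2, hT2, hsum⟩ := av_sum P B1 δ σ hP.hδ (by linarith)
  obtain ⟨T3, hT3, herr⟩ := ev_err P.κ δ σ 1 hκ (by linarith) hδ0 hδ1 (by linarith) one_pos
  obtain ⟨T4, hT4, hpr⟩ := prime_side hRH hP (min (η / 2) 1) (by positivity)
  obtain ⟨T5, hT5⟩ := hg
  refine ⟨max (max (max T1 T2) (max T3 T4)) (max T5 (Real.exp (4 * (3 * C + 2) / η + 1))),
    hT1.trans ((le_max_left _ _).trans ((le_max_left _ _).trans (le_max_left _ _))), ?_⟩
  intro T hT t0 D hD1 hD2 ht1 ht2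
  simp only [max_le_iff] at hT
  obtain ⟨⟨⟨hTT1, hTT2⟩, hTT3, hTT4⟩, hTT5, hTe⟩ := hT
  have hT10 : 10 ≤ T := hT1.trans hTT1
  have hTp : 0 < T := by linarith
  have hLe : 4 * (3 * C + 2) / η + 1 ≤ Real.log T := by
    rw [Real.le_log_iff_exp_le hTp]
    exact hTe
  have hnum := hT5 T hTT5
  have h1 := hpr T hTT4 t0 D hD1 hD2 ht1 ht2
  obtain ⟨-, h2⟩ := herr T hTT3 D hD1 hD2
  have hdd0 : 0 < dd P.κ T := Real.rpow_pos_of_pos hTp _
  have hD0 : 0 < D := by linarith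
  have hnorm : ∑ A ∈ fam P B1 T, ‖(av P T A : ℂ)‖ = ∑ A ∈ fam P B1 T, |av P T A| :=
    Finset.sum_congr rfl fun A _ => by rw [Complex.norm_real, Real.norm_eq_abs]
  have h3 := hloc T hTT1 (Finset ℕ) (fam P B1 T) (fun A => (av P T A : ℂ))
    (fun A => Real.log (nA A)) t0 D (by rw [hnorm]; exact hsum T hTT2) (by
      intro A hA A' hA'
      have h4 := log_nA_bd P B1 δ T hP.hδ hT10 hA
      have h5 := log_nA_bd P B1 δ T hP.hδ hT10 hA'
      have hL0 : 0 < Real.log T := SP.TTAux.log_pos' hT10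
      have h6 : δ * Real.log T ≤ 1 * Real.log T := by
        apply mul_le_mul_of_nonneg_right _ hL0.le
        linarith
      rw [abs_le]
      constructor <;> linarith) hD1 hD2 ht1 ht2
  have hL : 0 < Real.log T := SP.TTAux.log_pos' hT10
  set L := Real.log T with hLd
  have hV : T + L ≤ 2 * T - L := by linarith
  have h4 := trunc_sq P B1 δ T t0 D hP.hδ hT10 hδ0 hD0 hV
  rw [← hLd] at h4
  set M := (∑ A ∈ fam P B1 T, |av P T A|) ^ 2 with hM
  have hMσ : M ≤ T ^ σ := hsum T hTT2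
  set E := Real.exp (-(D ^ 2 / (8 * (T ^ δ) ^ 2))) with hE
  have hE0 : 0 < E := Real.exp_pos _
  have hL1 : 1 ≤ L := by
    have : 0 < 4 * (3 * C + 2) / η := by positivity
    linarith
  have hME : L * (M * E) ≤ 1 := by
    refine le_trans ?_ h2
    gcongr
  have hME0 : 0 ≤ M * E := mul_nonneg (sq_nonneg _) hE0.le
  have hME1 : M * E ≤ 1 := (le_mul_of_one_le_left hME0 hL1).trans hME
  clear_value E M
  set s := Real.sqrt (2 * Real.pi) with hs
  have hs2 : 2 ≤ s := s2pi_ge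
  have hG1 := Gd_one P B1 T
  set G := Gd P B1 T with hG
  set I0 := ∫ t in (T + L)..(2 * T - L), wt t0 D t * ‖Qn P B1 T t‖ ^ 2 with hI0
  set η1 := min (η / 2) 1 with hη1
  have hη10 : 0 < η1 := by positivity
  have hη11 : η1 ≤ 1 := min_le_right _ _
  have hη12 : η1 ≤ η / 2 := min_le_left _ _
  set N := Num P B1 T with hN
  have hsum3 := (abs_le.1 h3).2
  change Real.pi * (∑ᶠ s ∈ ZZ T, (mu s : ℝ) * (wt t0 D s.im * ‖Qn P B1 T s.im‖ ^ 2)) -
    (L / 2 * I0 - 1 / s * _) ≤ C * (I0 + D) at hsum3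
  set Z := Real.pi * (∑ᶠ s ∈ ZZ T, (mu s : ℝ) * (wt t0 D s.im * ‖Qn P B1 T s.im‖ ^ 2)) with hZ
  set X := 1 / s * (∑' n : ℕ, (ph ((1 + 1) * L) n : ℂ) *
        JJ (fam P B1 T) (fun A => (av P T A : ℂ)) (fun A => Real.log (nA A)) t0 D
        (T + L) (2 * T - L) n).re with hX
  have hz1 : Z ≤ L / 2 * I0 - X + C * (I0 + D) := by linarith
  have hsD : 0 < s * D := mul_pos (by linarith only [hs2]) hD0
  have hG0 : 0 ≤ G := by linarith only [hG1]
  clear_value Z X I0 N G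
  have hz2 : L / 2 * I0 ≤ s * D * (L / 2) * G + s * D / 2 := by
    calc L / 2 * I0 ≤ L / 2 * (s * D * (G + M * E)) := by gcongr
      _ = s * D * (L / 2) * G + s * D / 2 * (L * (M * E)) := by ring
      _ ≤ s * D * (L / 2) * G + s * D / 2 * 1 := by gcongr
      _ = _ := by ring
  have hz3 : C * (I0 + D) ≤ C * (3 * (s * D * G)) := by
    have h5 : I0 ≤ s * D * (G + 1) := h4.trans (by gcongr)
    have h6 : s * D * (G + 1) ≤ 2 * (s * D * G) := by
      calc s * D * (G + 1) ≤ s * D * (2 * G) :=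
            mul_le_mul_of_nonneg_left (by linarith only [hG1]) hsD.le
        _ = 2 * (s * D * G) := by ring
    have h7 : D ≤ s * D * G := by
      calc D = 1 * D * 1 := by ring
        _ ≤ s * D * G := by gcongr; linarith
    gcongr
    linarith
  have hz4 : s * D * (1 - η1) * (ρ * (L * G) / 2) - D ≤ X := by
    refine le_trans ?_ h1
    have h8 : ρ * (L * G) / 2 ≤ N := by linarith
    have h9 : 0 ≤ s * D * (1 - η1) := mul_nonneg hsD.le (by linarith)
    have := mul_le_mul_of_nonneg_left h8 h9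
    linarith
  have hz5 : D ≤ s * D * G := by
    calc D = 1 * D * 1 := by ring
      _ ≤ s * D * G := by gcongr; linarith
  have hz6 : s * D / 2 ≤ s * D * G := by
    have := mul_le_mul_of_nonneg_left hG1 hsD.le
    linarith only [this, hsD]
  have hz7 : s * D * G * (3 * C + 2) ≤ s * D * G * (L / 2 * (η / 2)) := by
    have h10 : 4 * (3 * C + 2) / η ≤ L := by linarith
    rw [div_le_iff₀ hη] at h10
    have h11 : 3 * C + 2 ≤ L / 2 * (η / 2) := by linarith
    have : 0 ≤ s * D * G := mul_nonneg hsD.le hG0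
    exact mul_le_mul_of_nonneg_left h11 this
  have hz8 : s * D * (L / 2) * G * (η1 * ρ) ≤ s * D * (L / 2) * G * (η / 2) := by
    have h12 : η1 * ρ ≤ η / 2 := by
      have := mul_le_mul_of_nonneg_left hρ1 hη10.le
      linarith only [this, hη12]
    have : 0 ≤ s * D * (L / 2) * G :=
      mul_nonneg (mul_nonneg hsD.le (by linarith only [hL])) hG0
    exact mul_le_mul_of_nonneg_left h12 this
  calc Z ≤ L / 2 * I0 - X + C * (I0 + D) := hz1
    _ ≤ (s * D * (L / 2) * G + s * D / 2) - (s * D * (1 - η1) * (ρ * (L * G) / 2) - D) +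
        C * (3 * (s * D * G)) := by linarith only [hz2, hz3, hz4]
    _ ≤ s * D * (L / 2) * G * (1 - ρ) + s * D * (L / 2) * G * (η1 * ρ) +
        s * D * G * (3 * C + 2) := by
        have e1 : s * D * (1 - η1) * (ρ * (L * G) / 2) =
          s * D * (L / 2) * G * ρ - s * D * (L / 2) * G * (η1 * ρ) := by ring
        have e2 : s * D * G * (3 * C + 2) = C * (3 * (s * D * G)) + 2 * (s * D * G) := by ring
        have e3 : s * D * (L / 2) * G * (1 - ρ) =
          s * D * (L / 2) * G - s * D * (L / 2) * G * ρ := by ring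
        linarith only [e1, e2, e3, hz5, hz6]
    _ ≤ s * D * (L / 2) * G * (1 - ρ + η) := by
        have e4 : s * D * G * (L / 2 * (η / 2)) = s * D * (L / 2) * G * (η / 2) := by ring
        have e5 : s * D * (L / 2) * G * (1 - ρ + η) =
          s * D * (L / 2) * G * (1 - ρ) + 2 * (s * D * (L / 2) * G * (η / 2)) := by ring
        linarith only [e4, e5, hz7, hz8]

end Pool.Agent.V7H88.DZ
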