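import Pool.Agent.V7H88.DZ.E

/-! Sums over primes and over products of primes. -/

set_option autoImplicit false

open Complex Filter Topology Set MeasureTheory

namespace Pool.Agent.V7H88.DZ

open SG (hh nn dd dl ord NZ)
open SP (RHs ZZ mu wt Mk Par Eb PS chi qq tt)
open LG (fam nA yp ae prs QT tm IsQ)

theorem sum_union_le {ι : Type*} [DecidableEq ι] (A B : Finset ι) (f : ι → ℝ)
    (hf : ∀ i, 0 ≤ f i) : ∑ i ∈ A ∪ B, f i ≤ ∑ i ∈ A, f i + ∑ i ∈ B, f i := by
  rw [← Finset.sum_union_inter]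
  have : 0 ≤ ∑ i ∈ A ∩ B, f i := Finset.sum_nonneg fun i _ => hf i
  linarith

theorem block (s z : ℝ) (hs : 0 ≤ s) (hz : 1 ≤ z) (Z : ℕ) :
    ∑ p ∈ (Finset.Icc 1 Z).filter (fun p : ℕ => p.Prime ∧ z ≤ p ∧ (p : ℝ) < 2 * z),
      Real.log p * (p : ℝ) ^ (-s) ≤ 2 * Real.log 4 * z ^ (1 - s) := by
  have hz0 : 0 < z := by linarith
  calc ∑ p ∈ (Finset.Icc 1 Z).filter (fun p : ℕ => p.Prime ∧ z ≤ p ∧ (p : ℝ) < 2 * z),
      Real.log p * (p : ℝ) ^ (-s)
      ≤ ∑ p ∈ (Finset.Icc 1 Z).filter (fun p : ℕ => p.Prime ∧ z ≤ p ∧ (p : ℝ) < 2 * z),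
        Real.log p * z ^ (-s) := by
        refine Finset.sum_le_sum fun p hp => ?_
        rw [Finset.mem_filter, Finset.mem_Icc] at hp
        have h1 : 0 ≤ Real.log p := Real.log_natCast_nonneg p
        apply mul_le_mul_of_nonneg_left _ h1
        exact Real.rpow_le_rpow_of_nonpos hz0 hp.2.2.1 (by linarith)
    _ = (∑ p ∈ (Finset.Icc 1 Z).filter (fun p : ℕ => p.Prime ∧ z ≤ p ∧ (p : ℝ) < 2 * z),
        Real.log p) * z ^ (-s) := by rw [Finset.sum_mul]
    _ ≤ Chebyshev.theta (2 * z) * z ^ (-s) := by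
        apply mul_le_mul_of_nonneg_right _ (by positivity)
        unfold Chebyshev.theta
        apply Finset.sum_le_sum_of_subset_of_nonneg
        · intro p hp
          rw [Finset.mem_filter, Finset.mem_Icc] at hp
          rw [Finset.mem_filter, Finset.mem_Ioc]
          exact ⟨⟨by omega, Nat.le_floor hp.2.2.2.le⟩, hp.2.1⟩
        · intro p _ _
          exact Real.log_natCast_nonneg p
    _ ≤ (Real.log 4 * (2 * z)) * z ^ (-s) := by
        apply mul_le_mul_of_nonneg_right _ (by positivity)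
        exact Chebyshev.theta_le_log4_mul_x (by linarith)
    _ = 2 * Real.log 4 * z ^ (1 - s) := by
        have : z ^ (1 - s) = z * z ^ (-s) := by
          rw [sub_eq_add_neg, Real.rpow_add hz0, Real.rpow_one]
        rw [this]
        ring

theorem ptail (s : ℝ) (hs : 1 < s) : ∃ C : ℝ, 0 < C ∧ ∀ y : ℝ, 1 ≤ y → ∀ Z : ℕ,
    ∑ p ∈ (Finset.Icc 1 Z).filter (fun p : ℕ => p.Prime ∧ y ≤ p),
      Real.log p * (p : ℝ) ^ (-s) ≤ C * y ^ (1 - s) := by
  set q : ℝ := 2 ^ (1 - s) with hq
  have hq0 : 0 < q := by positivity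
  have hq1 : q < 1 := Real.rpow_lt_one_of_one_lt_of_neg (by norm_num) (by linarith)
  have hl4 : 0 < Real.log 4 := Real.log_pos (by norm_num)
  refine ⟨2 * Real.log 4 * (1 / (1 - q)), by
    have : 0 < 1 - q := by linarith
    positivity, fun y hy Z => ?_⟩
  have hy0 : 0 < y := by linarith
  have key : ∀ k : ℕ, ∑ p ∈ (Finset.Icc 1 Z).filter (fun p : ℕ => p.Prime ∧ y ≤ p ∧
      (p : ℝ) < 2 ^ k * y), Real.log p * (p : ℝ) ^ (-s) ≤
      2 * Real.log 4 * y ^ (1 - s) * ∑ j ∈ Finset.range k, q ^ j := by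
    intro k
    induction k with
    | zero =>
      rw [Finset.filter_false_of_mem]
      · simp
      · intro p _ h
        rw [pow_zero, one_mul] at h
        linarith [h.2.1, h.2.2]
    | succ k ih =>
      have hz : 1 ≤ 2 ^ k * y := by
        have : (1 : ℝ) ≤ 2 ^ k := one_le_pow₀ (by norm_num)
        nlinarith
      have hb := block s (2 ^ k * y) (by linarith) hz Z
      have he : (2 ^ k * y) ^ (1 - s) = y ^ (1 - s) * q ^ k := by
        rw [Real.mul_rpow (by positivity) hy0.le, hq, ← Real.rpow_natCast, ← Real.rpow_natCast,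
          ← Real.rpow_mul (by norm_num), ← Real.rpow_mul (by norm_num), mul_comm (y ^ (1 - s))]
        congr 2
        ring
      rw [he] at hb
      rw [Finset.sum_range_succ]
      calc ∑ p ∈ (Finset.Icc 1 Z).filter (fun p : ℕ => p.Prime ∧ y ≤ p ∧
            (p : ℝ) < 2 ^ (k + 1) * y), Real.log p * (p : ℝ) ^ (-s)
          ≤ ∑ p ∈ (Finset.Icc 1 Z).filter (fun p : ℕ => p.Prime ∧ y ≤ p ∧ (p : ℝ) < 2 ^ k * y) ∪
            (Finset.Icc 1 Z).filter (fun p : ℕ => p.Prime ∧ 2 ^ k * y ≤ p ∧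
              (p : ℝ) < 2 * (2 ^ k * y)), Real.log p * (p : ℝ) ^ (-s) := by
            apply Finset.sum_le_sum_of_subset_of_nonneg
            · intro p hp
              rw [Finset.mem_union, Finset.mem_filter, Finset.mem_filter]
              rw [Finset.mem_filter] at hp
              obtain ⟨h1, h2, h3, h4⟩ := hp
              rcases lt_or_ge (p : ℝ) (2 ^ k * y) with h | h
              · exact Or.inl ⟨h1, h2, h3, h⟩
              · refine Or.inr ⟨h1, h2, h, ?_⟩
                rw [pow_succ] at h4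
                linarith
            · intro p _ _
              have h1 : 0 ≤ Real.log p := Real.log_natCast_nonneg p
              positivity
        _ ≤ _ := sum_union_le _ _ _ (fun p => by
              have h1 : 0 ≤ Real.log p := Real.log_natCast_nonneg p
              positivity)
        _ ≤ _ := by linarith
  obtain ⟨k, hk⟩ := pow_unbounded_of_one_lt (Z : ℝ) (show (1 : ℝ) < 2 by norm_num)
  have h1 : (Finset.Icc 1 Z).filter (fun p : ℕ => p.Prime ∧ y ≤ p) ⊆
      (Finset.Icc 1 Z).filter (fun p : ℕ => p.Prime ∧ y ≤ p ∧ (p : ℝ) < 2 ^ k * y) := by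
    intro p hp
    rw [Finset.mem_filter] at hp ⊢
    refine ⟨hp.1, hp.2.1, hp.2.2, ?_⟩
    rw [Finset.mem_Icc] at hp
    have h2 : (p : ℝ) ≤ Z := by exact_mod_cast hp.1.2
    have h3 : (2 : ℝ) ^ k ≤ 2 ^ k * y := by
      have : (0 : ℝ) < 2 ^ k := by positivity
      nlinarith
    linarith
  have hgeo : ∑ j ∈ Finset.range k, q ^ j ≤ 1 / (1 - q) := by
    rw [one_div, ← tsum_geometric_of_lt_one hq0.le hq1]
    exact (summable_geometric_of_lt_one hq0.le hq1).sum_le_tsum _ fun j _ => by positivity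
  calc _ ≤ ∑ p ∈ (Finset.Icc 1 Z).filter (fun p : ℕ => p.Prime ∧ y ≤ p ∧ (p : ℝ) < 2 ^ k * y),
        Real.log p * (p : ℝ) ^ (-s) := by
        apply Finset.sum_le_sum_of_subset_of_nonneg h1
        intro p _ _
        have h1 : 0 ≤ Real.log p := Real.log_natCast_nonneg p
        positivity
    _ ≤ _ := key k
    _ ≤ 2 * Real.log 4 * y ^ (1 - s) * (1 / (1 - q)) := by gcongr
    _ = _ := by ring

/-- prime sums over the primes used -/
theorem ps_tail (P : Par) (s : ℝ) (hs : 1 < s) : ∃ C : ℝ, 0 < C ∧ ∀ T : ℝ, 10 ≤ T → ∀ y : ℝ,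
    0 < y → ∑ p ∈ (PS P T).filter (fun p : ℕ => y ≤ p), (p : ℝ) ^ (-s) ≤
      C / Real.log T * y ^ (1 - s) := by
  obtain ⟨C, hC, h⟩ := ptail s hs
  have hBpos : (0 : ℝ) < P.B := by have := P.hB; positivity
  have hk : 0 < 1 - P.κ := by linarith [P.hκ1]
  set w : ℝ := (1 - P.κ) / P.B with hw
  have hw0 : 0 < w := by positivity
  refine ⟨C / w, by positivity, fun T hT y hy => ?_⟩
  have hL := SP.TTAux.log_pos' hT
  have hTp : 0 < T := by linarith
  set y' : ℝ := max y (T ^ w) with hy'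
  have hTw : 1 ≤ T ^ w := Real.one_le_rpow (by linarith) hw0.le
  have hy1 : 1 ≤ y' := hTw.trans (le_max_right _ _)
  calc ∑ p ∈ (PS P T).filter (fun p : ℕ => y ≤ p), (p : ℝ) ^ (-s)
      ≤ ∑ p ∈ (PS P T).filter (fun p : ℕ => y ≤ p),
        1 / (w * Real.log T) * (Real.log p * (p : ℝ) ^ (-s)) := by
        refine Finset.sum_le_sum fun p hp => ?_
        rw [Finset.mem_filter] at hp
        obtain ⟨-, hp0, hp1, hp2⟩ := SP.MertAux.Eb_le P T hT p hp.1
        have h1 : w * Real.log T ≤ Real.log p := by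
          rw [hw, div_mul_eq_mul_div]
          exact hp2.le
        have h2 : 0 ≤ (p : ℝ) ^ (-s) := by positivity
        rw [← mul_assoc, one_div]
        have h3 : 1 ≤ (w * Real.log T)⁻¹ * Real.log p := by
          rw [← div_eq_inv_mul, one_le_div (by positivity)]
          exact h1
        calc (p : ℝ) ^ (-s) = 1 * (p : ℝ) ^ (-s) := (one_mul _).symm
          _ ≤ _ := mul_le_mul_of_nonneg_right h3 h2
    _ = 1 / (w * Real.log T) * ∑ p ∈ (PS P T).filter (fun p : ℕ => y ≤ p),
        Real.log p * (p : ℝ) ^ (-s) := by rw [Finset.mul_sum]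
    _ ≤ 1 / (w * Real.log T) * (C * y' ^ (1 - s)) := by
        apply mul_le_mul_of_nonneg_left _ (by positivity)
        refine le_trans ?_ (h y' hy1 ⌊T⌋₊)
        apply Finset.sum_le_sum_of_subset_of_nonneg
        · intro p hp
          rw [Finset.mem_filter] at hp
          have h1 := SP.TTAux.PS_sub P T hT hp.1
          rw [Finset.mem_filter] at h1 ⊢
          refine ⟨h1.1, h1.2, max_le hp.2 ?_⟩
          exact SP.TTAux.lower P T hT p hp.1
        · intro p _ _
          have h1 : 0 ≤ Real.log p := Real.log_natCast_nonneg p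
          positivity
    _ ≤ 1 / (w * Real.log T) * (C * y ^ (1 - s)) := by
        have h5 : y' ^ (1 - s) ≤ y ^ (1 - s) :=
          Real.rpow_le_rpow_of_nonpos hy (le_max_left y (T ^ w)) (by linarith : 1 - s ≤ 0)
        exact mul_le_mul_of_nonneg_left (mul_le_mul_of_nonneg_left h5 hC.le) (by positivity)
    _ = C / w / Real.log T * y ^ (1 - s) := by
        field_simp

/-- sums over products of primes -/
theorem rough (P : Par) (B1 : ℕ) (s : ℝ) (hs : 1 < s) : ∃ C T0 : ℝ, 0 < C ∧ 10 ≤ T0 ∧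
    ∀ T : ℝ, T0 ≤ T → ∀ x : ℝ, 0 < x →
    ∑ A ∈ (fam P B1 T).filter (fun A => A.Nonempty ∧ x ≤ nA A), (nA A : ℝ) ^ (-s) ≤
      C / Real.log T * x ^ (1 - s) := by
  classical
  obtain ⟨C1, hC1, h1⟩ := ps_tail P s hs
  obtain ⟨C2, T2, hC2, hT2, h2⟩ := Gd_le P B1
  refine ⟨C1 * C2, T2, by positivity, hT2, fun T hT x hx => ?_⟩
  have hT10 : 10 ≤ T := hT2.trans hT
  have hL := SP.TTAux.log_pos' hT10
  have hpos : ∀ A ∈ fam P B1 T, (0 : ℝ) < nA A := fun A hA => by
    exact_mod_cast nA_one_le hA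
  -- the map
  set φ : Finset ℕ → ℕ × Finset ℕ := fun A => if h : A.Nonempty then (A.max' h, A.erase (A.max' h))
    else (0, ∅) with hφ
  set S := (fam P B1 T).filter (fun A => A.Nonempty ∧ x ≤ nA A) with hS
  have hφ' : ∀ A ∈ S, (φ A).1 ∈ A ∧ (φ A).2 = A.erase (φ A).1 := by
    intro A hA
    rw [hS, Finset.mem_filter] at hA
    simp only [hφ, dif_pos hA.2.1]
    exact ⟨A.max'_mem _, trivial⟩
  have hinj : Set.InjOn φ (S : Set (Finset ℕ)) := by
    intro A hA A' hA' h
    obtain ⟨a1, a2⟩ := hφ' A hA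
    obtain ⟨b1, b2⟩ := hφ' A' hA'
    rw [← Finset.insert_erase a1, ← Finset.insert_erase b1, ← a2, ← b2, h]
  set f : ℕ × Finset ℕ → ℝ := fun q => (q.1 : ℝ) ^ (-s) * (nA q.2 : ℝ) ^ (-s) with hf
  have hval : ∀ A ∈ S, (nA A : ℝ) ^ (-s) = f (φ A) := by
    intro A hA
    obtain ⟨a1, a2⟩ := hφ' A hA
    have h3 : nA A = (φ A).1 * nA (φ A).2 := by
      rw [a2]
      unfold LG.nA
      exact (Finset.mul_prod_erase A (fun p => p) a1).symm
    simp only [hf]
    rw [← Real.mul_rpow (by positivity) (by positivity), h3]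
    push_cast
    rfl
  calc ∑ A ∈ S, (nA A : ℝ) ^ (-s) = ∑ A ∈ S, f (φ A) := Finset.sum_congr rfl hval
    _ = ∑ q ∈ S.image φ, f q := (Finset.sum_image hinj).symm
    _ ≤ ∑ q ∈ ((PS P T) ×ˢ (fam P B1 T)).filter (fun q => x ≤ (q.1 : ℝ) * nA q.2), f q := by
        apply Finset.sum_le_sum_of_subset_of_nonneg
        · intro q hq
          rw [Finset.mem_image] at hq
          obtain ⟨A, hA, rfl⟩ := hq
          obtain ⟨a1, a2⟩ := hφ' A hA
          have hA' := hA
          rw [hS, Finset.mem_filter] at hA'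
          have h3 : nA A = (φ A).1 * nA (φ A).2 := by
            rw [a2]
            unfold LG.nA
            exact (Finset.mul_prod_erase A (fun p => p) a1).symm
          rw [Finset.mem_filter, Finset.mem_product]
          refine ⟨⟨(mem_fam.1 hA'.1).1 a1, ?_⟩, ?_⟩
          · rw [a2]
            exact fam_sub hA'.1 (Finset.erase_subset _ _)
          · have := hA'.2.2
            rw [h3] at this
            push_cast at this
            exact this
        · intro q _ _
          simp only [hf]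
          positivity
    _ = ∑ A ∈ fam P B1 T, (nA A : ℝ) ^ (-s) *
          ∑ p ∈ (PS P T).filter (fun p : ℕ => x / nA A ≤ p), (p : ℝ) ^ (-s) := by
        rw [Finset.sum_filter, Finset.sum_product_right]
        refine Finset.sum_congr rfl fun A hA => ?_
        rw [Finset.mul_sum, Finset.sum_filter]
        refine Finset.sum_congr rfl fun p _ => ?_
        simp only [hf, div_le_iff₀ (hpos A hA)]
        split_ifs
        · ring
        · rfl
    _ ≤ ∑ A ∈ fam P B1 T, (nA A : ℝ) ^ (-s) * (C1 / Real.log T * (x / nA A) ^ (1 - s)) := by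
        refine Finset.sum_le_sum fun A hA => ?_
        have hA0 := hpos A hA
        gcongr
        exact h1 T hT10 (x / nA A) (by positivity)
    _ = C1 / Real.log T * x ^ (1 - s) * ∑ A ∈ fam P B1 T, 1 / (nA A : ℝ) := by
        rw [Finset.mul_sum]
        refine Finset.sum_congr rfl fun A hA => ?_
        have hA0 := hpos A hA
        rw [Real.div_rpow hx.le hA0.le]
        have e : (nA A : ℝ) ^ (-s) / (nA A : ℝ) ^ (1 - s) = 1 / (nA A : ℝ) := by
          rw [← Real.rpow_sub hA0, one_div, ← Real.rpow_neg_one]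
          congr 1
          ring
        calc _ = C1 / Real.log T * x ^ (1 - s) * ((nA A : ℝ) ^ (-s) / (nA A : ℝ) ^ (1 - s)) := by
              ring
          _ = _ := by rw [e]
    _ ≤ C1 / Real.log T * x ^ (1 - s) * C2 := by
        gcongr
        exact (h2 T hT).2
    _ = _ := by ring

end Pool.Agent.V7H88.DZ
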