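import Pool.Agent.V7H88.DZ.F1

/-! Near coincidences of powers of fractions with integers: local bounds. -/

set_option autoImplicit false

open Complex Filter Topology Set MeasureTheory

namespace Pool.Agent.V7H88.DZ

/-- spaced fractions -/
theorem spacing {ι : Type*} [DecidableEq ι] (S : Finset ι) (a b : ι → ℕ)
    (hb : ∀ i ∈ S, 1 ≤ b i) (hne : ∀ i ∈ S, ∀ j ∈ S, i ≠ j → a i * b j ≠ a j * b i)
    (M lo hi ε : ℝ) (hε : 0 ≤ ε) (hM : ∀ i ∈ S, (b i : ℝ) ≤ M)
    (he : ∀ i ∈ S, 1 / (b i : ℝ) ≤ ε) (hlo : ∀ i ∈ S, lo ≤ (a i : ℝ) / b i)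
    (hhi : ∀ i ∈ S, (a i : ℝ) / b i ≤ hi) (hM0 : 0 ≤ M) (hlh : lo ≤ hi) :
    ∑ i ∈ S, 1 / (b i : ℝ) ≤ ε + M * (hi - lo) := by
  set x : ι → ℝ := fun i => (a i : ℝ) / b i with hx
  have key : ∀ s : Finset ι, s ⊆ S → ∀ j ∈ s, (∀ i ∈ s, x i ≤ x j) →
      ∑ i ∈ s, 1 / (b i : ℝ) ≤ 1 / (b j : ℝ) + M * (x j - lo) := by
    intro s
    induction s using Finset.induction_on_max_value x with
    | empty => intro _ j hj; simp at hj
    | insert c s hc hmax ih =>
      intro hs j hj hjmax
      have hcS : c ∈ S := hs (Finset.mem_insert_self _ _)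
      have hsS : s ⊆ S := (Finset.subset_insert _ _).trans hs
      have hjS : j ∈ S := hs hj
      have hbc : (0 : ℝ) < b c := by exact_mod_cast hb c hcS
      -- `j = c`
      have hjc : j = c := by
        by_contra hcon
        have hjs : j ∈ s := by
          rw [Finset.mem_insert] at hj
          exact hj.resolve_left hcon
        have h1 : x j ≤ x c := hmax j hjs
        have h2 : x c ≤ x j := hjmax c (Finset.mem_insert_self _ _)
        have h3 : x j = x c := le_antisymm h1 h2
        have hbj : (0 : ℝ) < b j := by exact_mod_cast hb j hjS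
        simp only [hx] at h3
        rw [div_eq_div_iff hbj.ne' hbc.ne'] at h3
        exact hne j hjS c hcS hcon (by exact_mod_cast h3)
      subst hjc
      rw [Finset.sum_insert hc]
      rcases s.eq_empty_or_nonempty with h0 | h0
      · subst h0
        rw [Finset.sum_empty, add_zero]
        have := mul_nonneg hM0 (sub_nonneg.2 (hlo j hjS))
        linarith
      · obtain ⟨k, hk, hkmax⟩ := Finset.exists_max_image s x h0
        have h1 := ih hsS k hk hkmax
        have hkS := hsS hk
        have hbk : (0 : ℝ) < b k := by exact_mod_cast hb k hkS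
        have hkj : k ≠ j := fun h => hc (h ▸ hk)
        have h2 : x k ≤ x j := hmax k hk
        have h3 : 1 / (b k : ℝ) ≤ M * (x j - x k) := by
          have h4 : x j - x k = ((a j : ℝ) * b k - a k * b j) / (b j * b k) := by
            simp only [hx]
            field_simp
          have h5 : (a k : ℝ) * b j ≤ a j * b k := by
            simp only [hx] at h2
            rwa [div_le_div_iff₀ hbk hbc] at h2
          have h6 : a k * b j < a j * b k := by
            have h7 : a k * b j ≤ a j * b k := by exact_mod_cast h5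
            exact lt_of_le_of_ne h7 (hne k hkS j hjS hkj)
          have h7 : (1 : ℝ) ≤ (a j : ℝ) * b k - a k * b j := by
            have : (a k * b j + 1 : ℕ) ≤ a j * b k := h6
            have h8 : ((a k * b j + 1 : ℕ) : ℝ) ≤ ((a j * b k : ℕ) : ℝ) := by exact_mod_cast this
            push_cast at h8
            linarith
          rw [h4]
          calc 1 / (b k : ℝ) = b j * (1 / (b j * b k)) := by field_simp
            _ ≤ M * (((a j : ℝ) * b k - a k * b j) / (b j * b k)) := by
                gcongr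
                exact hM j hjS
        linarith
  rcases S.eq_empty_or_nonempty with h0 | h0
  · subst h0
    rw [Finset.sum_empty]
    have := mul_nonneg hM0 (sub_nonneg.2 hlh)
    linarith
  · obtain ⟨k, hk, hkmax⟩ := Finset.exists_max_image S x h0
    have h1 := key S (Finset.Subset.refl _) k hk hkmax
    have h2 : M * (x k - lo) ≤ M * (hi - lo) := by
      apply mul_le_mul_of_nonneg_left _ hM0
      linarith [hhi k hk]
    linarith [he k hk]

/-- number of integers in an interval -/
theorem cnt (N : ℕ) (u v : ℝ) (hu : 0 ≤ u) (huv : u ≤ v) :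
    (((Finset.Icc 2 N).filter (fun n : ℕ => u ≤ n ∧ (n : ℝ) ≤ v)).card : ℝ) ≤ v - u + 1 := by
  have h1 : (Finset.Icc 2 N).filter (fun n : ℕ => u ≤ n ∧ (n : ℝ) ≤ v) ⊆
      Finset.Icc ⌈u⌉₊ ⌊v⌋₊ := by
    intro n hn
    rw [Finset.mem_filter] at hn
    rw [Finset.mem_Icc]
    exact ⟨Nat.ceil_le.2 hn.2.1, Nat.le_floor hn.2.2⟩
  have h2 := Finset.card_le_card h1
  rw [Nat.card_Icc] at h2
  have h3 : (((Finset.Icc 2 N).filter (fun n : ℕ => u ≤ n ∧ (n : ℝ) ≤ v)).card : ℝ) ≤
      ((⌊v⌋₊ + 1 - ⌈u⌉₊ : ℕ) : ℝ) := by exact_mod_cast h2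
  refine h3.trans ?_
  rcases le_or_gt ⌈u⌉₊ (⌊v⌋₊ + 1) with h | h
  · rw [Nat.cast_sub h]
    push_cast
    have h4 := Nat.floor_le (hu.trans huv)
    have h5 := Nat.le_ceil u
    linarith
  · have : ⌊v⌋₊ + 1 - ⌈u⌉₊ = 0 := by omega
    rw [this]
    push_cast
    linarith

theorem exp_two (x : ℝ) (hx0 : 0 ≤ x) (hx1 : x ≤ 1) : Real.exp x - Real.exp (-x) ≤ 4 * x ∧
    Real.exp x ≤ 3 := by
  have h1 : Real.exp x ≤ 1 + 2 * x := by
    have h2 := Real.abs_exp_sub_one_le (x := x) (by rw [abs_of_nonneg hx0]; exact hx1)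
    rw [abs_of_nonneg hx0] at h2
    have := (abs_le.1 h2).2
    linarith
  have h3 := Real.add_one_le_exp (-x)
  constructor <;> linarith

/-- one pair, all the integers near -/
theorem near_pair (N : ℕ) (r a b θ Lm : ℝ) (ha : 0 < a) (hb : 0 < b) (hθ : 0 ≤ θ)
    (hθ1 : θ ≤ 1) (hLm : Real.log N ≤ Lm) (hLm0 : 0 ≤ Lm) :
    ∑ n ∈ (Finset.Icc 2 N).filter (fun n : ℕ => |r * (Real.log a - Real.log b) - Real.log n| ≤ θ),
      ArithmeticFunction.vonMangoldt n / Real.sqrt n ≤
    Lm * (2 * (Real.exp (-(r * (Real.log a - Real.log b)) / 2) +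
      4 * θ * Real.exp (r * (Real.log a - Real.log b) / 2))) := by
  have _ := ha
  have _ := hb
  set v := r * (Real.log a - Real.log b) with hv
  have h1 : ∀ n ∈ (Finset.Icc 2 N).filter (fun n : ℕ => |v - Real.log n| ≤ θ),
      ArithmeticFunction.vonMangoldt n / Real.sqrt n ≤ Lm * (2 * Real.exp (-v / 2)) := by
    intro n hn
    rw [Finset.mem_filter, Finset.mem_Icc] at hn
    obtain ⟨⟨h2, hN⟩, h3⟩ := hn
    have hn0 : (0 : ℝ) < n := by exact_mod_cast (by omega : 0 < n)
    rw [abs_le] at h3
    have h4 : ArithmeticFunction.vonMangoldt n ≤ Lm := by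
      refine ArithmeticFunction.vonMangoldt_le_log.trans (le_trans ?_ hLm)
      apply Real.log_le_log hn0
      exact_mod_cast hN
    have h5 : 1 / Real.sqrt n ≤ 2 * Real.exp (-v / 2) := by
      have h6 : Real.exp (Real.log n / 2) = Real.sqrt n := by
        rw [Real.sqrt_eq_rpow, Real.rpow_def_of_pos hn0]
        congr 1
        ring
      rw [← h6, one_div, ← Real.exp_neg]
      have h7 : (2 : ℝ) ≥ Real.exp (1 / 2) := by
        have h8 : Real.exp (1 / 2) ^ 2 ≤ 2 ^ 2 := by
          rw [← Real.exp_nat_mul]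
          push_cast
          rw [show (2 : ℝ) * (1 / 2) = 1 by norm_num]
          have := Real.exp_one_lt_d9
          linarith
        exact le_of_sq_le_sq h8 (by norm_num)
      calc Real.exp (-(Real.log n / 2)) ≤ Real.exp (1 / 2 + -v / 2) := by
            apply Real.exp_le_exp.2
            linarith
        _ = Real.exp (1 / 2) * Real.exp (-v / 2) := Real.exp_add _ _
        _ ≤ 2 * Real.exp (-v / 2) := by gcongr
    rw [div_eq_mul_one_div]
    exact mul_le_mul h4 h5 (by positivity) hLm0
  have h2 : (((Finset.Icc 2 N).filter (fun n : ℕ => |v - Real.log n| ≤ θ)).card : ℝ) ≤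
      1 + 4 * θ * Real.exp v := by
    have h3 : (Finset.Icc 2 N).filter (fun n : ℕ => |v - Real.log n| ≤ θ) ⊆
        (Finset.Icc 2 N).filter (fun n : ℕ => Real.exp (v - θ) ≤ n ∧ (n : ℝ) ≤ Real.exp (v + θ)) := by
      intro n hn
      rw [Finset.mem_filter] at hn ⊢
      have hn0 : (0 : ℝ) < n := by
        have := (Finset.mem_Icc.1 hn.1).1
        exact_mod_cast (by omega : 0 < n)
      obtain ⟨h5, h6⟩ := abs_le.1 hn.2
      refine ⟨hn.1, ?_, ?_⟩
      · rw [← Real.le_log_iff_exp_le hn0]
        linarith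
      · rw [← Real.log_le_iff_le_exp hn0]
        linarith
    have h4 := Finset.card_le_card h3
    have h5 := cnt N (Real.exp (v - θ)) (Real.exp (v + θ)) (Real.exp_pos _).le
      (Real.exp_le_exp.2 (by linarith))
    have h6 : (((Finset.Icc 2 N).filter (fun n : ℕ => |v - Real.log n| ≤ θ)).card : ℝ) ≤
        Real.exp (v + θ) - Real.exp (v - θ) + 1 := le_trans (by exact_mod_cast h4) h5
    have h7 : Real.exp (v + θ) - Real.exp (v - θ) = Real.exp v * (Real.exp θ - Real.exp (-θ)) := by
      rw [Real.exp_add, sub_eq_add_neg v, Real.exp_add]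
      ring
    rw [h7] at h6
    have h8 := mul_le_mul_of_nonneg_left (exp_two θ hθ hθ1).1 (Real.exp_pos v).le
    linarith
  calc _ ≤ ∑ n ∈ (Finset.Icc 2 N).filter (fun n : ℕ => |v - Real.log n| ≤ θ),
        Lm * (2 * Real.exp (-v / 2)) := Finset.sum_le_sum h1
    _ = (((Finset.Icc 2 N).filter (fun n : ℕ => |v - Real.log n| ≤ θ)).card : ℝ) *
        (Lm * (2 * Real.exp (-v / 2))) := by rw [Finset.sum_const, nsmul_eq_mul]
    _ ≤ (1 + 4 * θ * Real.exp v) * (Lm * (2 * Real.exp (-v / 2))) := by gcongr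
    _ = Lm * (2 * (Real.exp (-v / 2) + 4 * θ * (Real.exp v * Real.exp (-v / 2)))) := by ring
    _ = _ := by
        rw [← Real.exp_add]
        congr 5
        ring

/-- one integer, many fractions -/
theorem near_int {ι : Type*} [DecidableEq ι] (S : Finset ι) (a b : ι → ℕ)
    (ha : ∀ i ∈ S, 1 ≤ a i) (hb : ∀ i ∈ S, 1 ≤ b i)
    (hne : ∀ i ∈ S, ∀ j ∈ S, i ≠ j → a i * b j ≠ a j * b i) (r θ K N : ℝ) (n : ℕ)
    (hr : 1 < r) (hθ : 0 ≤ θ) (hθ1 : θ ≤ 1) (hθr : (r - 1) / 2 * θ ≤ 1) (hK : 0 < K) (hN : 0 < N) (hn : 1 ≤ n)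
    (haN : ∀ i ∈ S, (a i : ℝ) ≤ N)
    (hnear : ∀ i ∈ S, |r * (Real.log (a i) - Real.log (b i)) - Real.log n| ≤ θ)
    (hreg : ∀ i ∈ S, Real.log K + ((r - 1) / 2) * Real.log (a i) ≤ ((r + 1) / 2) * Real.log (b i)) :
    ∑ i ∈ S, 1 / Real.sqrt (a i) * (1 / Real.sqrt (b i)) ≤
      2 * Real.exp (-(Real.log n / (2 * r))) *
        (3 / K * Real.exp (-((r - 1) / (2 * r) * Real.log n)) + 12 * N * θ) := by
  have hr0 : 0 < r := by linarith
  set v := Real.log n / r with hv
  have hlogn : Real.log n = r * v := by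
    rw [hv]
    field_simp
  have hpos : ∀ i ∈ S, (0 : ℝ) < a i ∧ (0 : ℝ) < b i := fun i hi =>
    ⟨by exact_mod_cast ha i hi, by exact_mod_cast hb i hi⟩
  -- location of the fractions
  have hx : ∀ i ∈ S, v - θ ≤ Real.log (a i) - Real.log (b i) ∧
      Real.log (a i) - Real.log (b i) ≤ v + θ := by
    intro i hi
    have h1 := abs_le.1 (hnear i hi)
    rw [hlogn] at h1
    have h2 : r * (Real.log (a i) - Real.log (b i) - v) ≤ θ := by linarith [h1.2]
    have h3 : -θ ≤ r * (Real.log (a i) - Real.log (b i) - v) := by linarith [h1.1]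
    constructor
    · by_contra hcon
      push Not at hcon
      nlinarith
    · by_contra hcon
      push Not at hcon
      nlinarith
  have h1 : ∀ i ∈ S, 1 / Real.sqrt (a i) * (1 / Real.sqrt (b i)) ≤
      2 * Real.exp (-(Real.log n / (2 * r))) * (1 / (b i : ℝ)) := by
    intro i hi
    obtain ⟨h2, h3⟩ := hpos i hi
    have e1 : ∀ x : ℝ, 0 < x → 1 / Real.sqrt x = Real.exp (-(Real.log x / 2)) := by
      intro x hx
      rw [Real.sqrt_eq_rpow, Real.rpow_def_of_pos hx, one_div, ← Real.exp_neg]
      congr 1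
      ring
    have e2 : 1 / (b i : ℝ) = Real.exp (-Real.log (b i)) := by
      rw [Real.exp_neg, Real.exp_log h3, one_div]
    rw [e1 _ h2, e1 _ h3, e2, ← Real.exp_add]
    have h4 : Real.exp (1 / 2) ≤ 2 := by
      have h8 : Real.exp (1 / 2) ^ 2 ≤ 2 ^ 2 := by
        rw [← Real.exp_nat_mul]
        push_cast
        rw [show (2 : ℝ) * (1 / 2) = 1 by norm_num]
        have := Real.exp_one_lt_d9
        linarith
      exact le_of_sq_le_sq h8 (by norm_num)
    have h5 : Real.log n / (2 * r) = v / 2 := by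
      rw [hv]
      field_simp
    rw [h5]
    calc Real.exp (-(Real.log (a i) / 2) + -(Real.log (b i) / 2))
        ≤ Real.exp (1 / 2 + -(v / 2) + -Real.log (b i)) := by
          apply Real.exp_le_exp.2
          have := (hx i hi).1
          linarith
      _ = Real.exp (1 / 2) * Real.exp (-(v / 2)) * Real.exp (-Real.log (b i)) := by
          rw [Real.exp_add, Real.exp_add]
      _ ≤ 2 * Real.exp (-(v / 2)) * Real.exp (-Real.log (b i)) := by gcongr
  refine (Finset.sum_le_sum h1).trans ?_
  rw [← Finset.mul_sum]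
  apply mul_le_mul_of_nonneg_left _ (by positivity)
  have hexp := exp_two θ hθ hθ1
  have hfrac : ∀ i ∈ S, (a i : ℝ) / b i = Real.exp (Real.log (a i) - Real.log (b i)) := by
    intro i hi
    obtain ⟨h2, h3⟩ := hpos i hi
    rw [Real.exp_sub, Real.exp_log h2, Real.exp_log h3]
  have h2 := spacing S a b hb hne (3 * N * Real.exp (-v)) (Real.exp (v - θ)) (Real.exp (v + θ))
    (3 / K * Real.exp (-((r - 1) / (2 * r) * Real.log n))) (by positivity) (by
      intro i hi
      obtain ⟨h3, h4⟩ := hpos i hi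
      have h5 : (b i : ℝ) = a i * Real.exp (-(Real.log (a i) - Real.log (b i))) := by
        rw [neg_sub, Real.exp_sub, Real.exp_log h3, Real.exp_log h4]
        field_simp
      rw [h5]
      calc (a i : ℝ) * Real.exp (-(Real.log (a i) - Real.log (b i)))
          ≤ N * Real.exp (θ + -v) := by
            gcongr
            · exact haN i hi
            · linarith [(hx i hi).1]
        _ = N * (Real.exp θ * Real.exp (-v)) := by rw [Real.exp_add]
        _ ≤ N * (3 * Real.exp (-v)) := by
            gcongr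
            exact hexp.2
        _ = _ := by ring) (by
      intro i hi
      obtain ⟨h3, h4⟩ := hpos i hi
      have h5 := hreg i hi
      have h6 := (hx i hi).1
      have h7 : Real.log K + (r - 1) / 2 * (v - θ) ≤ Real.log (b i) := by
        have h8 : (r - 1) / 2 * (v - θ) ≤ (r - 1) / 2 * (Real.log (a i) - Real.log (b i)) :=
          mul_le_mul_of_nonneg_left h6 (by linarith)
        have h9 : (r + 1) / 2 * Real.log (b i) = (r - 1) / 2 * Real.log (b i) + Real.log (b i) := by
          ring
        linarith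
      have h10 : 1 / (b i : ℝ) = Real.exp (-Real.log (b i)) := by
        rw [Real.exp_neg, Real.exp_log h4, one_div]
      rw [h10]
      have h11 : (r - 1) / (2 * r) * Real.log n = (r - 1) / 2 * v := by
        rw [hlogn]
        field_simp
      rw [h11]
      have h12 : 1 / K = Real.exp (-Real.log K) := by
        rw [Real.exp_neg, Real.exp_log hK, one_div]
      have h13 : Real.exp 1 ≤ 3 := by
        have := Real.exp_one_lt_d9
        linarith
      calc Real.exp (-Real.log (b i)) ≤ Real.exp (1 + -Real.log K + -((r - 1) / 2 * v)) := by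
            apply Real.exp_le_exp.2
            linarith
        _ = Real.exp 1 * Real.exp (-Real.log K) * Real.exp (-((r - 1) / 2 * v)) := by
            rw [Real.exp_add, Real.exp_add]
        _ ≤ 3 * Real.exp (-Real.log K) * Real.exp (-((r - 1) / 2 * v)) := by gcongr
        _ = 3 / K * Real.exp (-((r - 1) / 2 * v)) := by
            rw [← h12]
            ring) (by
      intro i hi
      rw [hfrac i hi]
      exact Real.exp_le_exp.2 (hx i hi).1) (by
      intro i hi
      rw [hfrac i hi]
      exact Real.exp_le_exp.2 (hx i hi).2) (by positivity) (Real.exp_le_exp.2 (by linarith))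
  refine h2.trans ?_
  have h3 : Real.exp (v + θ) - Real.exp (v - θ) = Real.exp v * (Real.exp θ - Real.exp (-θ)) := by
    rw [Real.exp_add, sub_eq_add_neg v, Real.exp_add]
    ring
  rw [h3]
  have h4 : 3 * N * Real.exp (-v) * (Real.exp v * (Real.exp θ - Real.exp (-θ))) ≤ 12 * N * θ := by
    have h5 : Real.exp (-v) * Real.exp v = 1 := by
      rw [← Real.exp_add, neg_add_cancel, Real.exp_zero]
    calc 3 * N * Real.exp (-v) * (Real.exp v * (Real.exp θ - Real.exp (-θ)))
        = 3 * N * (Real.exp (-v) * Real.exp v) * (Real.exp θ - Real.exp (-θ)) := by ring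
      _ ≤ 3 * N * 1 * (4 * θ) := by
          rw [h5]
          exact mul_le_mul_of_nonneg_left hexp.1 (by positivity)
      _ = _ := by ring
  linarith

end Pool.Agent.V7H88.DZ
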