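import Pool.Agent.V7H88.DZ.F2

/-! Near coincidences: the sum over all triples. -/

set_option autoImplicit false

open Complex Filter Topology Set MeasureTheory

namespace Pool.Agent.V7H88.DZ

open SG (hh nn dd dl ord NZ)
open SP (RHs ZZ mu wt Mk Par Eb PS chi qq tt)
open LG (fam nA yp ae prs QT tm IsQ)

/-! ### first Mertens theorem for `Λ` -/

theorem mert_id (N : ℕ) (f A : ℕ → ℝ) (hA : ∀ n, A n = ∑ k ∈ Finset.Icc 1 n, f k) :
    ∑ n ∈ Finset.Icc 1 N, f n / n = A N / (N + 1) +
      ∑ n ∈ Finset.Icc 1 N, A n / ((n : ℝ) * (n + 1)) := by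
  induction N with
  | zero => simp [hA]
  | succ N ih =>
    rw [Finset.sum_Icc_succ_top (by omega), Finset.sum_Icc_succ_top (by omega), ih]
    have h1 : A (N + 1) = A N + f (N + 1) := by
      rw [hA, hA, Finset.sum_Icc_succ_top (by omega)]
    have h2 : f (N + 1) = A (N + 1) - A N := by linarith
    rw [h2]
    push_cast
    field_simp
    ring

theorem lam_mert : ∃ C : ℝ, 0 < C ∧ ∀ (N : ℕ) (Lm : ℝ), Real.log N ≤ Lm → 0 ≤ Lm →
    ∑ n ∈ Finset.Icc 2 N, ArithmeticFunction.vonMangoldt n / (n : ℝ) ≤ C * (1 + Lm) := by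
  refine ⟨2 * (Real.log 4 + 4), by
    have : 0 < Real.log 4 := Real.log_pos (by norm_num)
    positivity, fun N Lm hLm hLm0 => ?_⟩
  have hl4 : 0 < Real.log 4 := Real.log_pos (by norm_num)
  set c := Real.log 4 + 4 with hc
  have hc0 : 0 < c := by positivity
  set A : ℕ → ℝ := fun n => ∑ k ∈ Finset.Icc 1 n, ArithmeticFunction.vonMangoldt k with hA
  have hAle : ∀ n : ℕ, A n ≤ c * n := by
    intro n
    have h1 := Chebyshev.psi_le_const_mul_self (x := (n : ℝ)) (by positivity)
    have h2 : Chebyshev.psi (n : ℝ) = A n := by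
      rw [hA]
      unfold Chebyshev.psi
      rw [Nat.floor_natCast]
      rfl
    rw [← h2]
    exact h1
  have hid := mert_id N (fun n => ArithmeticFunction.vonMangoldt n) A (fun n => rfl)
  have h1 : ∑ n ∈ Finset.Icc 2 N, ArithmeticFunction.vonMangoldt n / (n : ℝ) ≤
      ∑ n ∈ Finset.Icc 1 N, ArithmeticFunction.vonMangoldt n / (n : ℝ) := by
    apply Finset.sum_le_sum_of_subset_of_nonneg
    · exact Finset.Icc_subset_Icc (by norm_num) le_rfl
    · intro n _ _
      have := ArithmeticFunction.vonMangoldt_nonneg (n := n)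
      positivity
  refine h1.trans ?_
  rw [hid]
  have h2 : A N / (N + 1) ≤ c := by
    rw [div_le_iff₀ (by positivity)]
    have := hAle N
    nlinarith
  have h3 : ∑ n ∈ Finset.Icc 1 N, A n / ((n : ℝ) * (n + 1)) ≤ c * (1 + Lm) := by
    calc ∑ n ∈ Finset.Icc 1 N, A n / ((n : ℝ) * (n + 1)) ≤ ∑ n ∈ Finset.Icc 1 N, c * (n : ℝ)⁻¹ := by
          refine Finset.sum_le_sum fun n hn => ?_
          rw [Finset.mem_Icc] at hn
          have hn0 : (0 : ℝ) < n := by exact_mod_cast hn.1
          rw [div_le_iff₀ (by positivity)]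
          have h4 := hAle n
          have h5 : c * (n : ℝ)⁻¹ * (n * (n + 1)) = c * n + c := by
            field_simp
          rw [h5]
          linarith
      _ = c * ((harmonic N : ℚ) : ℝ) := by
          rw [← Finset.mul_sum, harmonic_eq_sum_Icc]
          push_cast
          rfl
      _ ≤ c * (1 + Lm) := by
          gcongr
          exact (harmonic_le_one_add_log N).trans (by linarith)
  nlinarith

/-! ### coprimality -/

theorem nA_coprime {A B : Finset ℕ} (hA : ∀ p ∈ A, p.Prime) (hB : ∀ p ∈ B, p.Prime)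
    (h : Disjoint A B) : Nat.Coprime (nA A) (nA B) := by
  unfold LG.nA
  apply Nat.Coprime.prod_left
  intro p hp
  apply Nat.Coprime.prod_right
  intro q hq
  rw [Nat.coprime_primes (hA p hp) (hB q hq)]
  rintro rfl
  exact (Finset.disjoint_left.1 h) hp hq

theorem frac_ne {P : Par} {B1 : ℕ} {T : ℝ} (q q' : Finset ℕ × Finset ℕ)
    (h1 : q.1 ∈ fam P B1 T) (h2 : q.2 ∈ fam P B1 T) (h3 : Disjoint q.1 q.2)
    (h1' : q'.1 ∈ fam P B1 T) (h2' : q'.2 ∈ fam P B1 T) (h3' : Disjoint q'.1 q'.2)
    (hne : q ≠ q') : nA q.1 * nA q'.2 ≠ nA q'.1 * nA q.2 := by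
  intro h
  have c1 := nA_coprime (fam_prime h1) (fam_prime h2) h3
  have c2 := nA_coprime (fam_prime h1') (fam_prime h2') h3'
  have d1 : nA q.1 ∣ nA q'.1 := by
    apply c1.dvd_of_dvd_mul_right
    rw [← h]
    exact dvd_mul_right _ _
  have d2 : nA q'.1 ∣ nA q.1 := by
    apply c2.dvd_of_dvd_mul_right
    rw [h]
    exact dvd_mul_right _ _
  have e1 : nA q.1 = nA q'.1 := Nat.dvd_antisymm d1 d2
  have e2 : nA q.2 = nA q'.2 := by
    rw [e1] at h
    exact (Nat.eq_of_mul_eq_mul_left (nA_one_le h1') h).symm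
  exact hne (Prod.ext (nA_inj P B1 T h1 h1' e1) (nA_inj P B1 T h2 h2' e2))

/-- the weight of a pair -/
noncomputable def pw (q : Finset ℕ × Finset ℕ) : ℝ :=
  1 / Real.sqrt (nA q.1) * (1 / Real.sqrt (nA q.2))

theorem pw_nn (q : Finset ℕ × Finset ℕ) : 0 ≤ pw q := by
  unfold pw
  positivity

/-- the pair is near `n` -/
def near (r θ : ℝ) (n : ℕ) (q : Finset ℕ × Finset ℕ) : Prop :=
  |r * (Real.log (nA q.1) - Real.log (nA q.2)) - Real.log n| ≤ θ

theorem inv_sqrt_exp (x : ℝ) (hx : 0 < x) : 1 / Real.sqrt x = Real.exp (-(Real.log x / 2)) := by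
  rw [Real.sqrt_eq_rpow, Real.rpow_def_of_pos hx, one_div, ← Real.exp_neg]
  congr 1
  ring

open Classical in
theorem nc_disj (P : Par) (B1 : ℕ) (r : ℝ) (hr : 1 < r) : ∃ C T0 : ℝ, 0 < C ∧ 10 ≤ T0 ∧
    ∀ X : ℝ, T0 ≤ X → ∀ (θ K N Lm : ℝ) (N1 : ℕ), 0 ≤ θ → θ ≤ 1 / 2 → (r - 1) / 2 * θ ≤ 1 →
    0 < K → 1 ≤ N → (∀ A ∈ fam P B1 X, (nA A : ℝ) ≤ N) → Real.log N1 ≤ Lm → 0 ≤ Lm →
    ∑ n ∈ Finset.Icc 2 N1, ArithmeticFunction.vonMangoldt n / Real.sqrt n *
      ∑ q ∈ (fam P B1 X ×ˢ fam P B1 X).filter (fun q => Disjoint q.1 q.2 ∧ near r θ n q), pw q ≤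
    C * (Lm * K / Real.log X + Lm * θ * Real.exp ((r + 1) / 2 * Real.log N)) +
      (6 / K + 24 * N * θ * Real.exp ((r - 1) / (2 * r) * Lm)) *
        ∑ n ∈ Finset.Icc 2 N1, ArithmeticFunction.vonMangoldt n / (n : ℝ) := by
  have hr0 : 0 < r := by linarith
  obtain ⟨C1, T1, hC1, hT1, h1⟩ := rough P B1 ((r + 1) / 2) (by linarith)
  obtain ⟨C2, T2, hC2, hT2, h2⟩ := Gd_le P B1
  refine ⟨2 * C1 * C2 + 8 * C2 ^ 2, max T1 T2, by positivity, hT1.trans (le_max_left _ _), ?_⟩
  intro X hX θ K N Lm N1 hθ hθ1 hθr hK hN hfN hLm hLm0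
  have hX10 : 10 ≤ X := hT1.trans ((le_max_left _ _).trans hX)
  have hL := SP.TTAux.log_pos' hX10
  have hsum2 := (h2 X ((le_max_right _ _).trans hX)).2
  set F := fam P B1 X with hF
  have hpos : ∀ A ∈ F, (1 : ℝ) ≤ nA A := fun A hA => by exact_mod_cast nA_one_le hA
  set reg : Finset ℕ × Finset ℕ → Prop := fun q =>
    Real.log K + ((r - 1) / 2) * Real.log (nA q.1) ≤ ((r + 1) / 2) * Real.log (nA q.2) with hreg
  set D := (F ×ˢ F).filter (fun q => Disjoint q.1 q.2) with hD
  have hΛ0 : ∀ n : ℕ, 0 ≤ ArithmeticFunction.vonMangoldt n / Real.sqrt n := fun n => by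
    have := ArithmeticFunction.vonMangoldt_nonneg (n := n)
    positivity
  -- split
  have hsplit : ∀ n : ℕ, ∑ q ∈ (F ×ˢ F).filter (fun q => Disjoint q.1 q.2 ∧ near r θ n q), pw q =
      (∑ q ∈ D.filter (fun q => near r θ n q ∧ ¬ reg q), pw q) +
      ∑ q ∈ D.filter (fun q => near r θ n q ∧ reg q), pw q := by
    intro n
    have e1 : (F ×ˢ F).filter (fun q => Disjoint q.1 q.2 ∧ near r θ n q) =
        D.filter (fun q => near r θ n q) := by
      rw [hD, Finset.filter_filter]
    have e2 : (D.filter (fun q => near r θ n q)).filter reg =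
        D.filter (fun q => near r θ n q ∧ reg q) := Finset.filter_filter _ _ _
    have e3 : (D.filter (fun q => near r θ n q)).filter (fun q => ¬ reg q) =
        D.filter (fun q => near r θ n q ∧ ¬ reg q) := Finset.filter_filter _ _ _
    rw [e1, ← Finset.sum_filter_add_sum_filter_not (D.filter (fun q => near r θ n q)) reg,
      e2, e3, add_comm]
  simp_rw [hsplit, mul_add]
  rw [Finset.sum_add_distrib]
  apply add_le_add
  · -- region I
    have e1 : ∑ n ∈ Finset.Icc 2 N1, ArithmeticFunction.vonMangoldt n / Real.sqrt n *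
        ∑ q ∈ D.filter (fun q => near r θ n q ∧ ¬ reg q), pw q =
        ∑ q ∈ D.filter (fun q => ¬ reg q), pw q *
          ∑ n ∈ (Finset.Icc 2 N1).filter (fun n => near r θ n q),
            ArithmeticFunction.vonMangoldt n / Real.sqrt n := by
      simp_rw [Finset.mul_sum]
      simp_rw [Finset.sum_filter]
      rw [Finset.sum_comm]
      refine Finset.sum_congr rfl fun q _ => ?_
      by_cases h : reg q
      · simp [h]
      · simp only [h, not_false_eq_true, and_true, if_true]
        refine Finset.sum_congr rfl fun n _ => ?_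
        split_ifs
        · ring
        · rfl
    rw [e1]
    have e2 : ∀ q ∈ D.filter (fun q => ¬ reg q), pw q *
          ∑ n ∈ (Finset.Icc 2 N1).filter (fun n => near r θ n q),
            ArithmeticFunction.vonMangoldt n / Real.sqrt n ≤
        2 * Lm * ((if q.1.Nonempty then (nA q.1 : ℝ) ^ (-((r + 1) / 2)) *
          (nA q.2 : ℝ) ^ ((r + 1) / 2 - 1) else 0)) +
        8 * Lm * θ * (Real.exp ((r + 1) / 2 * Real.log N) * ((1 / (nA q.1 : ℝ)) *
          (1 / (nA q.2 : ℝ)))) := by
      intro q hq
      rw [Finset.mem_filter, hD, Finset.mem_filter, Finset.mem_product] at hq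
      obtain ⟨⟨⟨hq1, hq2⟩, hdis⟩, hnr⟩ := hq
      have ha := hpos _ hq1
      have hb := hpos _ hq2
      have ha0 : (0 : ℝ) < nA q.1 := by linarith
      have hb0 : (0 : ℝ) < nA q.2 := by linarith
      rcases q.1.eq_empty_or_nonempty with h0 | h0
      · have e3 : (Finset.Icc 2 N1).filter (fun n => near r θ n q) = ∅ := by
          rw [Finset.filter_eq_empty_iff]
          intro n hn hnear
          rw [Finset.mem_Icc] at hn
          unfold near at hnear
          rw [h0] at hnear
          have e4 : nA (∅ : Finset ℕ) = 1 := by simp [LG.nA]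
          rw [e4, Nat.cast_one, Real.log_one, abs_le] at hnear
          have h5 : Real.log 2 ≤ Real.log n := by
            apply Real.log_le_log (by norm_num)
            exact_mod_cast hn.1
          have h6 : 0 ≤ Real.log (nA q.2) := Real.log_nonneg hb
          have h7 : 0 ≤ r * Real.log (nA q.2) := by positivity
          have h8 := Real.log_two_gt_d9
          have h9 := hnear.1
          linarith
        rw [e3, Finset.sum_empty, mul_zero, if_neg (by rw [h0]; simp)]
        positivity
      · rw [if_pos h0]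
        have h3 := near_pair N1 r (nA q.1) (nA q.2) θ Lm ha0 hb0 hθ (by linarith) hLm hLm0
        have h4 := mul_le_mul_of_nonneg_left h3 (pw_nn q)
        refine h4.trans (le_of_eq_of_le ?_ (add_le_add le_rfl (?_ : 8 * Lm * θ *
          (Real.exp (((r + 1) / 2 - 1) * Real.log (nA q.1)) *
            Real.exp (-((r + 1) / 2 * Real.log (nA q.2)))) ≤ _)))
        · have e5 : pw q = Real.exp (-(Real.log (nA q.1) / 2)) *
              Real.exp (-(Real.log (nA q.2) / 2)) := by
            unfold pw
            rw [inv_sqrt_exp _ ha0, inv_sqrt_exp _ hb0]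
          have e6 : (nA q.1 : ℝ) ^ (-((r + 1) / 2)) * (nA q.2 : ℝ) ^ ((r + 1) / 2 - 1) =
              Real.exp (-(Real.log (nA q.1) / 2)) * Real.exp (-(Real.log (nA q.2) / 2)) *
              Real.exp (-(r * (Real.log (nA q.1) - Real.log (nA q.2))) / 2) := by
            rw [Real.rpow_def_of_pos ha0, Real.rpow_def_of_pos hb0, ← Real.exp_add,
              ← Real.exp_add, ← Real.exp_add]
            congr 1
            ring
          have e7 : Real.exp (((r + 1) / 2 - 1) * Real.log (nA q.1)) *
              Real.exp (-((r + 1) / 2 * Real.log (nA q.2))) =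
              Real.exp (-(Real.log (nA q.1) / 2)) * Real.exp (-(Real.log (nA q.2) / 2)) *
              Real.exp (r * (Real.log (nA q.1) - Real.log (nA q.2)) / 2) := by
            rw [← Real.exp_add, ← Real.exp_add, ← Real.exp_add]
            congr 1
            ring
          rw [e6, e7, e5]
          ring
        · apply mul_le_mul_of_nonneg_left _ (by positivity)
          have e8 : 1 / (nA q.1 : ℝ) = Real.exp (-Real.log (nA q.1)) := by
            rw [Real.exp_neg, Real.exp_log ha0, one_div]
          have e9 : 1 / (nA q.2 : ℝ) = Real.exp (-Real.log (nA q.2)) := by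
            rw [Real.exp_neg, Real.exp_log hb0, one_div]
          rw [e8, e9, ← Real.exp_add, ← Real.exp_add, ← Real.exp_add]
          apply Real.exp_le_exp.2
          have h5 : Real.log (nA q.1) ≤ Real.log N := Real.log_le_log ha0 (hfN _ hq1)
          have h6 : 0 ≤ Real.log (nA q.2) := Real.log_nonneg hb
          nlinarith
    refine (Finset.sum_le_sum e2).trans ?_
    rw [Finset.sum_add_distrib, ← Finset.mul_sum, ← Finset.mul_sum, ← Finset.mul_sum]
    have e3 : ∑ q ∈ D.filter (fun q => ¬ reg q), ((1 / (nA q.1 : ℝ)) * (1 / (nA q.2 : ℝ))) ≤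
        C2 ^ 2 := by
      calc _ ≤ ∑ q ∈ F ×ˢ F, ((1 / (nA q.1 : ℝ)) * (1 / (nA q.2 : ℝ))) := by
            apply Finset.sum_le_sum_of_subset_of_nonneg
            · exact (Finset.filter_subset _ _).trans (Finset.filter_subset _ _)
            · intro q _ _
              positivity
        _ = (∑ A ∈ F, 1 / (nA A : ℝ)) * ∑ A ∈ F, 1 / (nA A : ℝ) := by
            rw [Finset.sum_product, Finset.sum_mul_sum]
        _ ≤ C2 * C2 := by
            have : 0 ≤ ∑ A ∈ F, 1 / (nA A : ℝ) := Finset.sum_nonneg fun _ _ => by positivity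
            gcongr
        _ = C2 ^ 2 := by ring
    have e4 : ∑ q ∈ D.filter (fun q => ¬ reg q), (if q.1.Nonempty then
        (nA q.1 : ℝ) ^ (-((r + 1) / 2)) * (nA q.2 : ℝ) ^ ((r + 1) / 2 - 1) else 0) ≤
        C1 * C2 * K / Real.log X := by
      calc _ ≤ ∑ q ∈ (F ×ˢ F).filter (fun q => ¬ reg q), (if q.1.Nonempty then
            (nA q.1 : ℝ) ^ (-((r + 1) / 2)) * (nA q.2 : ℝ) ^ ((r + 1) / 2 - 1) else 0) := by
            apply Finset.sum_le_sum_of_subset_of_nonneg
            · exact Finset.filter_subset_filter _ (Finset.filter_subset _ _)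
            · intro q _ _
              split_ifs <;> positivity
        _ = ∑ B ∈ F, ∑ A ∈ F, (if ¬ reg (A, B) then (if A.Nonempty then
            (nA A : ℝ) ^ (-((r + 1) / 2)) * (nA B : ℝ) ^ ((r + 1) / 2 - 1) else 0) else 0) := by
            rw [Finset.sum_filter, Finset.sum_product_right]
        _ ≤ ∑ B ∈ F, C1 * K / Real.log X * (1 / (nA B : ℝ)) := by
            refine Finset.sum_le_sum fun B hB => ?_
            have hb := hpos B hB
            have hb0 : (0 : ℝ) < nA B := by linarith
            set x : ℝ := Real.exp ((((r + 1) / 2) * Real.log (nA B) - Real.log K) / ((r - 1) / 2))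
              with hx
            have h3 := h1 X ((le_max_left _ _).trans hX) x (Real.exp_pos _)
            have h4 : ∀ A ∈ F, (if ¬ reg (A, B) then (if A.Nonempty then
                (nA A : ℝ) ^ (-((r + 1) / 2)) * (nA B : ℝ) ^ ((r + 1) / 2 - 1) else 0) else 0) ≤
                (nA B : ℝ) ^ ((r + 1) / 2 - 1) * (if A.Nonempty ∧ x ≤ nA A then
                  (nA A : ℝ) ^ (-((r + 1) / 2)) else 0) := by
              intro A hA
              have ha0 : (0 : ℝ) < nA A := by linarith [hpos A hA]
              by_cases h5 : reg (A, B)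
              · rw [if_neg (not_not.2 h5)]
                split_ifs
                · positivity
                · simp
              · rw [if_pos h5]
                by_cases h6 : A.Nonempty
                · have h7 : x ≤ nA A := by
                    rw [hx, ← Real.le_log_iff_exp_le ha0, div_le_iff₀ (by linarith)]
                    simp only [hreg, not_le] at h5
                    linarith
                  rw [if_pos h6, if_pos ⟨h6, h7⟩]
                  exact le_of_eq (mul_comm _ _)
                · rw [if_neg h6, if_neg (fun h => h6 h.1)]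
                  simp
            refine (Finset.sum_le_sum h4).trans ?_
            rw [← Finset.mul_sum, ← Finset.sum_filter]
            have h5 : x ^ (1 - (r + 1) / 2) = K * (nA B : ℝ) ^ (-((r + 1) / 2)) := by
              rw [hx, ← Real.exp_mul, Real.rpow_def_of_pos hb0]
              have hKe : ∀ z : ℝ, K * Real.exp z = Real.exp (Real.log K + z) := by
                intro z
                rw [Real.exp_add, Real.exp_log hK]
              rw [hKe]
              congr 1
              have : (r - 1) / 2 ≠ 0 := by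
                have : 0 < (r - 1) / 2 := by linarith
                exact this.ne'
              have hr1 : r - 1 ≠ 0 := by
                have : 0 < r - 1 := by linarith
                exact this.ne'
              field_simp
              ring
            rw [h5] at h3
            have h6 : (nA B : ℝ) ^ ((r + 1) / 2 - 1) * (nA B : ℝ) ^ (-((r + 1) / 2)) =
                1 / (nA B : ℝ) := by
              rw [← Real.rpow_add hb0, one_div, ← Real.rpow_neg_one]
              congr 1
              ring
            calc _ ≤ (nA B : ℝ) ^ ((r + 1) / 2 - 1) *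
                  (C1 / Real.log X * (K * (nA B : ℝ) ^ (-((r + 1) / 2)))) := by
                  apply mul_le_mul_of_nonneg_left h3 (by positivity)
              _ = C1 * K / Real.log X * ((nA B : ℝ) ^ ((r + 1) / 2 - 1) *
                  (nA B : ℝ) ^ (-((r + 1) / 2))) := by ring
              _ = _ := by rw [h6]
        _ = C1 * K / Real.log X * ∑ B ∈ F, (1 / (nA B : ℝ)) := by rw [Finset.mul_sum]
        _ ≤ C1 * K / Real.log X * C2 := by gcongr
        _ = _ := by ring
    calc _ ≤ 2 * Lm * (C1 * C2 * K / Real.log X) +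
          8 * Lm * θ * (Real.exp ((r + 1) / 2 * Real.log N) * C2 ^ 2) := by gcongr
      _ ≤ _ := by
        have x1 : 0 ≤ Lm * K / Real.log X := by positivity
        have x2 : 0 ≤ Lm * θ * Real.exp ((r + 1) / 2 * Real.log N) := by positivity
        have x3 : 0 ≤ C1 * C2 := by positivity
        have x4 : 0 ≤ C2 ^ 2 := by positivity
        have e5 : 2 * Lm * (C1 * C2 * K / Real.log X) = 2 * (C1 * C2) * (Lm * K / Real.log X) := by
          ring
        rw [e5]
        nlinarith [mul_nonneg x3 x2, mul_nonneg x4 x1]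
  · -- region II
    rw [Finset.mul_sum]
    refine Finset.sum_le_sum fun n hn => ?_
    rw [Finset.mem_Icc] at hn
    have hn0 : (0 : ℝ) < n := by exact_mod_cast (by omega : 0 < n)
    have hmem : ∀ q ∈ D.filter (fun q => near r θ n q ∧ reg q), q.1 ∈ F ∧ q.2 ∈ F ∧
        Disjoint q.1 q.2 ∧ near r θ n q ∧ reg q := by
      intro q hq
      rw [Finset.mem_filter, hD, Finset.mem_filter, Finset.mem_product] at hq
      exact ⟨hq.1.1.1, hq.1.1.2, hq.1.2, hq.2.1, hq.2.2⟩
    have h3 := near_int (D.filter (fun q => near r θ n q ∧ reg q)) (fun q => nA q.1)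
      (fun q => nA q.2) (fun q hq => nA_one_le (hmem q hq).1) (fun q hq => nA_one_le (hmem q hq).2.1)
      (fun q hq q' hq' hne => frac_ne q q' (hmem q hq).1 (hmem q hq).2.1 (hmem q hq).2.2.1
        (hmem q' hq').1 (hmem q' hq').2.1 (hmem q' hq').2.2.1 hne) r θ K N n hr hθ (by linarith)
      hθr hK (by linarith) (by omega) (fun q hq => hfN _ (hmem q hq).1)
      (fun q hq => (hmem q hq).2.2.2.1) (fun q hq => (hmem q hq).2.2.2.2)
    have h4 := mul_le_mul_of_nonneg_left h3 (hΛ0 n)
    refine h4.trans ?_
    have hΛn := ArithmeticFunction.vonMangoldt_nonneg (n := n)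
    have e1 : ArithmeticFunction.vonMangoldt n / Real.sqrt n =
        ArithmeticFunction.vonMangoldt n * Real.exp (-(Real.log n / 2)) := by
      rw [← inv_sqrt_exp _ hn0, mul_one_div]
    have e2 : ArithmeticFunction.vonMangoldt n / (n : ℝ) =
        ArithmeticFunction.vonMangoldt n * Real.exp (-Real.log n) := by
      rw [Real.exp_neg, Real.exp_log hn0, div_eq_mul_inv]
    rw [e1, e2]
    have hlogn : Real.log n ≤ Lm := by
      refine le_trans (Real.log_le_log hn0 ?_) hLm
      exact_mod_cast hn.2
    have x1 : Real.exp (-(Real.log n / 2)) * Real.exp (-(Real.log n / (2 * r))) *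
        Real.exp (-((r - 1) / (2 * r) * Real.log n)) = Real.exp (-Real.log n) := by
      rw [← Real.exp_add, ← Real.exp_add]
      congr 1
      field_simp
      ring
    have x2 : Real.exp (-(Real.log n / 2)) * Real.exp (-(Real.log n / (2 * r))) ≤
        Real.exp ((r - 1) / (2 * r) * Lm) * Real.exp (-Real.log n) := by
      rw [← Real.exp_add, ← Real.exp_add]
      apply Real.exp_le_exp.2
      have h5 : (r - 1) / (2 * r) * Real.log n ≤ (r - 1) / (2 * r) * Lm := by
        apply mul_le_mul_of_nonneg_left hlogn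
        apply div_nonneg <;> linarith
      have h6 : (r - 1) / (2 * r) * Real.log n = Real.log n - Real.log n / 2 -
          Real.log n / (2 * r) := by
        field_simp
        ring
      linarith
    set E1 := Real.exp (-(Real.log n / 2)) with hE1
    set E2 := Real.exp (-(Real.log n / (2 * r))) with hE2
    set E3 := Real.exp (-((r - 1) / (2 * r) * Real.log n)) with hE3
    set E4 := Real.exp (-Real.log n) with hE4
    set E5 := Real.exp ((r - 1) / (2 * r) * Lm) with hE5
    have hNθ : 0 ≤ 24 * N * θ := by positivity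
    calc ArithmeticFunction.vonMangoldt n * E1 * (2 * E2 * (3 / K * E3 + 12 * N * θ))
        = ArithmeticFunction.vonMangoldt n * (6 / K * (E1 * E2 * E3) + 24 * N * θ * (E1 * E2)) := by
          ring
      _ ≤ ArithmeticFunction.vonMangoldt n * (6 / K * E4 + 24 * N * θ * (E5 * E4)) := by
          rw [x1]
          gcongr
      _ = _ := by ring

end Pool.Agent.V7H88.DZ
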