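import Pool.Agent.V7H88.DZ.F3
import Pool.Agent.V7H88.DZ.E2

/-! Near coincidences: the final bound. -/

set_option autoImplicit false

open Complex Filter Topology Set MeasureTheory

namespace Pool.Agent.V7H88.DZ

open SG (hh nn dd dl ord NZ)
open SP (RHs ZZ mu wt Mk Par Eb PS chi qq tt)
open LG (fam nA yp ae prs QT tm IsQ)

open Classical in
theorem gcd_split (P : Par) (B1 : ℕ) (X r θ : ℝ) (n : ℕ) :
    ∑ q ∈ (fam P B1 X ×ˢ fam P B1 X).filter (fun q => near r θ n q), pw q ≤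
    (∑ U ∈ fam P B1 X, 1 / (nA U : ℝ)) *
      ∑ q ∈ (fam P B1 X ×ˢ fam P B1 X).filter (fun q => Disjoint q.1 q.2 ∧ near r θ n q), pw q := by
  set F := fam P B1 X with hF
  set φ : Finset ℕ × Finset ℕ → Finset ℕ × (Finset ℕ × Finset ℕ) := fun q =>
    (q.1 ∩ q.2, (q.1 \ q.2, q.2 \ q.1)) with hφ
  set f : Finset ℕ × (Finset ℕ × Finset ℕ) → ℝ := fun z => 1 / (nA z.1 : ℝ) * pw z.2 with hf
  have hn : ∀ A B : Finset ℕ, nA A = nA (A ∩ B) * nA (A \ B) := by
    intro A B
    unfold LG.nA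
    exact (Finset.prod_inter_mul_prod_sdiff A B (fun p => p)).symm
  have hinj : Set.InjOn φ (((F ×ˢ F).filter (fun q => near r θ n q) : Finset _) :
      Set (Finset ℕ × Finset ℕ)) := by
    intro q _ q' _ h
    simp only [hφ, Prod.mk.injEq] at h
    obtain ⟨h1, h2, h3⟩ := h
    apply Prod.ext
    · rw [← Finset.sdiff_union_inter q.1 q.2, ← Finset.sdiff_union_inter q'.1 q'.2, h1, h2]
    · rw [← Finset.sdiff_union_inter q.2 q.1, ← Finset.sdiff_union_inter q'.2 q'.1,
        Finset.inter_comm q.2 q.1, Finset.inter_comm q'.2 q'.1, h1, h3]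
  have hval : ∀ q ∈ (F ×ˢ F).filter (fun q => near r θ n q), pw q = f (φ q) := by
    intro q hq
    rw [Finset.mem_filter, Finset.mem_product] at hq
    have hU : q.1 ∩ q.2 ∈ F := fam_sub hq.1.1 Finset.inter_subset_left
    have hU0 : (0 : ℝ) < nA (q.1 ∩ q.2) := by exact_mod_cast nA_one_le hU
    have e1 := hn q.1 q.2
    have e2 := hn q.2 q.1
    rw [Finset.inter_comm q.2 q.1] at e2
    simp only [hf, hφ]
    unfold pw
    rw [e1, e2]
    push_cast
    rw [Real.sqrt_mul hU0.le, Real.sqrt_mul hU0.le]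
    have e3 : Real.sqrt (nA (q.1 ∩ q.2) : ℝ) * Real.sqrt (nA (q.1 ∩ q.2)) = nA (q.1 ∩ q.2) :=
      Real.mul_self_sqrt hU0.le
    have e4 : 1 / (nA (q.1 ∩ q.2) : ℝ) = 1 / (Real.sqrt (nA (q.1 ∩ q.2) : ℝ) *
        Real.sqrt (nA (q.1 ∩ q.2))) := by rw [e3]
    rw [e4]
    simp only [one_div, mul_inv]
    ring
  rw [Finset.sum_congr rfl hval, ← Finset.sum_image (f := f) hinj]
  have hprod : (∑ U ∈ F, 1 / (nA U : ℝ)) *
      ∑ q ∈ (F ×ˢ F).filter (fun q => Disjoint q.1 q.2 ∧ near r θ n q), pw q =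
      ∑ z ∈ F ×ˢ ((F ×ˢ F).filter (fun q => Disjoint q.1 q.2 ∧ near r θ n q)), f z := by
    rw [Finset.sum_product, Finset.sum_mul_sum]
  rw [hprod]
  apply Finset.sum_le_sum_of_subset_of_nonneg
  · intro z hz
    rw [Finset.mem_image] at hz
    obtain ⟨q, hq, rfl⟩ := hz
    rw [Finset.mem_filter, Finset.mem_product] at hq
    rw [Finset.mem_product, Finset.mem_filter, Finset.mem_product]
    refine ⟨fam_sub hq.1.1 Finset.inter_subset_left, ⟨fam_sub hq.1.1 Finset.sdiff_subset,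
      fam_sub hq.1.2 Finset.sdiff_subset⟩, ?_, ?_⟩
    · exact Finset.disjoint_of_subset_right Finset.sdiff_subset Finset.sdiff_disjoint
    · have hq2 := hq.2
      unfold near at hq2 ⊢
      have hU : q.1 ∩ q.2 ∈ F := fam_sub hq.1.1 Finset.inter_subset_left
      have h1 : (nA (q.1 ∩ q.2) : ℝ) ≠ 0 := by
        have := nA_one_le hU
        exact_mod_cast (by omega : nA (q.1 ∩ q.2) ≠ 0)
      have h2 : (nA (q.1 \ q.2) : ℝ) ≠ 0 := by
        have := nA_one_le (fam_sub hq.1.1 (A' := q.1 \ q.2) Finset.sdiff_subset)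
        exact_mod_cast (by omega : nA (q.1 \ q.2) ≠ 0)
      have h3 : (nA (q.2 \ q.1) : ℝ) ≠ 0 := by
        have := nA_one_le (fam_sub hq.1.2 (A' := q.2 \ q.1) Finset.sdiff_subset)
        exact_mod_cast (by omega : nA (q.2 \ q.1) ≠ 0)
      have e1 := hn q.1 q.2
      have e2 := hn q.2 q.1
      rw [Finset.inter_comm q.2 q.1] at e2
      rw [e1, e2] at hq2
      push_cast at hq2
      rw [Real.log_mul h1 h2, Real.log_mul h1 h3] at hq2
      simp only [hφ]
      have e3 : Real.log (nA (q.1 ∩ q.2)) + Real.log (nA (q.1 \ q.2)) -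
          (Real.log (nA (q.1 ∩ q.2)) + Real.log (nA (q.2 \ q.1))) =
          Real.log (nA (q.1 \ q.2)) - Real.log (nA (q.2 \ q.1)) := by ring
      rw [e3] at hq2
      exact hq2
  · intro z _ _
    simp only [hf]
    exact mul_nonneg (by positivity) (pw_nn _)

open Classical in
theorem nc_all {P : Par} {B0 B1 : ℕ} {δ : ℝ} (hP : Dat P B0 B1 δ) (r : ℝ) (hr : 1 < r)
    (hδr : δ * (r + 1) / 2 < 1 - P.κ / 2) : ∃ C T0 : ℝ, 0 < C ∧ 10 ≤ T0 ∧
    ∀ T : ℝ, T0 ≤ T → ∀ θ : ℝ, 0 ≤ θ → θ ≤ 3 * Real.log T / dd P.κ T → ∀ N1 : ℕ,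
    Real.log N1 ≤ Real.log 3 + r * (δ * Real.log (r * T)) →
    ∑ n ∈ Finset.Icc 2 N1, ArithmeticFunction.vonMangoldt n / Real.sqrt n *
      ∑ q ∈ (fam P B1 (r * T) ×ˢ fam P B1 (r * T)).filter (fun q => near r θ n q), pw q ≤
    C * Real.sqrt (Real.log T) := by
  have hr0 : 0 < r := by linarith
  have hδ0 := hP.hδ0
  have hδ1 := hP.hδ1
  have hκ := P.hκ
  have hκ1 := P.hκ1
  obtain ⟨C1, T1, hC1, hT1, h1⟩ := nc_disj P B1 r hr
  obtain ⟨C2, T2, hC2, hT2, h2⟩ := Gd_le P B1
  obtain ⟨C3, hC3, h3⟩ := lam_mert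
  set g : ℝ := 1 - P.κ / 2 - (r + 1) / 2 * δ with hg
  have hg0 : 0 < g := by
    rw [hg]
    linarith
  have ev : ∀ᶠ T : ℝ in atTop, 3 * Real.log T ^ 2 * Real.exp ((r + 1) / 2 * (δ * Real.log (r * T))) /
      dd P.κ T ≤ 1 ∧ 3 * Real.log T / dd P.κ T ≤ min (1 / 2) (2 / (r - 1)) ∧
      1 ≤ Real.log T ∧ Real.log r ≤ Real.log T := by
    have e1 : Tendsto (fun L : ℝ => 3 * Real.exp ((r + 1) / 2 * (δ * Real.log r)) *
        (L ^ (2 : ℝ) * Real.exp (-g * L))) atTop (𝓝 0) := by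
      have := (tendsto_rpow_mul_exp_neg_mul_atTop_nhds_zero 2 g hg0).const_mul
        (3 * Real.exp ((r + 1) / 2 * (δ * Real.log r)))
      simpa using this
    have e2 : Tendsto (fun L : ℝ => 3 * (L ^ (1 : ℝ) * Real.exp (-(1 - P.κ / 2) * L)))
        atTop (𝓝 0) := by
      have := (tendsto_rpow_mul_exp_neg_mul_atTop_nhds_zero 1 (1 - P.κ / 2)
        (by linarith)).const_mul 3
      simpa using this
    have hpos : 0 < min (1 / 2) (2 / (r - 1)) := by
      have : 0 < r - 1 := by linarith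
      positivity
    have hlog := Real.tendsto_log_atTop
    filter_upwards [(e1.comp hlog).eventually_lt_const one_pos,
      (e2.comp hlog).eventually_lt_const hpos, hlog.eventually_ge_atTop 1,
      hlog.eventually_ge_atTop (Real.log r), eventually_gt_atTop 0] with T x1 x2 x3 x4 x5
    simp only [Function.comp] at x1 x2
    have hdd : dd P.κ T = Real.exp ((1 - P.κ / 2) * Real.log T) := by
      change T ^ (1 - P.κ / 2) = _
      rw [Real.rpow_def_of_pos x5, mul_comm]
    refine ⟨?_, ?_, x3, x4⟩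
    · rw [hdd, Real.log_mul hr0.ne' x5.ne', div_eq_mul_inv, ← Real.exp_neg]
      refine le_trans (le_of_eq ?_) x1.le
      have e3 : Real.log T ^ (2 : ℝ) = Real.log T ^ 2 := by
        rw [← Real.rpow_natCast]
        norm_num
      rw [e3]
      have e4 : Real.exp ((r + 1) / 2 * (δ * (Real.log r + Real.log T))) =
          Real.exp ((r + 1) / 2 * (δ * Real.log r)) *
            Real.exp ((r + 1) / 2 * δ * Real.log T) := by
        rw [← Real.exp_add]
        congr 1
        ring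
      have e5 : Real.exp (-g * Real.log T) = Real.exp ((r + 1) / 2 * δ * Real.log T) *
          Real.exp (-((1 - P.κ / 2) * Real.log T)) := by
        rw [← Real.exp_add]
        congr 1
        rw [hg]
        ring
      rw [e4, e5]
      ring
    · rw [hdd, div_eq_mul_inv, ← Real.exp_neg]
      refine le_trans (le_of_eq ?_) x2.le
      rw [Real.rpow_one, neg_mul]
      ring
  obtain ⟨T3, hT3⟩ := Filter.eventually_atTop.1 ev
  refine ⟨C2 * (2 * (C1 * (2 + 2 * r)) + 78 * (C3 * (3 + 2 * r))), max (max T1 T2) T3,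
    by positivity, hT1.trans ((le_max_left _ _).trans (le_max_left _ _)), ?_⟩
  intro T hT θ hθ hθ2 N1 hN1
  simp only [max_le_iff] at hT
  obtain ⟨⟨hTT1, hTT2⟩, hTT3⟩ := hT
  obtain ⟨y1, y2, y3, y4⟩ := hT3 T hTT3
  have hT10 : 10 ≤ T := hT1.trans hTT1
  have hTp : 0 < T := by linarith
  have hX : T ≤ r * T := by nlinarith
  have hX10 : 10 ≤ r * T := hT10.trans hX
  set X := r * T with hXd
  set L := Real.log T with hL
  have hL0 : 0 < L := by linarith
  have hlogX : Real.log X = Real.log r + L := Real.log_mul hr0.ne' hTp.ne'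
  have hlogr : 0 ≤ Real.log r := Real.log_nonneg hr.le
  have hXL : L ≤ Real.log X := by linarith
  have hX2L : Real.log X ≤ 2 * L := by linarith
  set N : ℝ := X ^ δ with hN
  have hN1' : 1 ≤ N := Real.one_le_rpow (by linarith) hδ0.le
  have hlogN : Real.log N = δ * Real.log X := Real.log_rpow (by linarith) _
  set Lm : ℝ := Real.log 3 + r * (δ * Real.log X) with hLm
  have hl3 : 0 < Real.log 3 := Real.log_pos (by norm_num)
  have hl3' : Real.log 3 ≤ 2 := by
    have := Real.log_le_sub_one_of_pos (show (0 : ℝ) < 3 by norm_num)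
    linarith
  have hX0 : 0 ≤ Real.log X := by linarith
  have hδ2 : δ ≤ 1 := by linarith
  have hLm0 : 0 ≤ Lm := by positivity
  have hLm1 : Lm ≤ (2 + 2 * r) * L := by
    have h4 : r * (δ * Real.log X) ≤ r * (1 * (2 * L)) := by gcongr
    have : Real.log 3 ≤ 2 * L := by linarith
    rw [hLm]
    linarith
  set K : ℝ := Real.sqrt L with hK
  have hK0 : 0 < K := Real.sqrt_pos.2 hL0
  have hK1 : 1 ≤ K := by
    rw [hK]
    apply Real.le_sqrt_of_sq_le
    linarith
  have hKK : K * K = L := Real.mul_self_sqrt hL0.le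
  have hθ3 : θ ≤ min (1 / 2) (2 / (r - 1)) := hθ2.trans y2
  have hθ4 : θ ≤ 1 / 2 := hθ3.trans (min_le_left _ _)
  have hθ5 : (r - 1) / 2 * θ ≤ 1 := by
    have h5 : θ ≤ 2 / (r - 1) := hθ3.trans (min_le_right _ _)
    rw [le_div_iff₀ (by linarith)] at h5
    linarith
  have hmain := h1 X (hTT1.trans hX) θ K N Lm N1 hθ hθ4 hθ5 hK0 hN1'
    (fun A hA => nA_le P B1 δ X hP.hδ hX10 hA) hN1 hLm0
  have hΛ0 : ∀ n : ℕ, 0 ≤ ArithmeticFunction.vonMangoldt n / Real.sqrt n := fun n => by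
    have := ArithmeticFunction.vonMangoldt_nonneg (n := n)
    positivity
  set F := fam P B1 X with hF
  have hsum := (h2 X (hTT2.trans hX)).2
  rw [← hF] at hsum
  set W := ∑ n ∈ Finset.Icc 2 N1, ArithmeticFunction.vonMangoldt n / Real.sqrt n *
      ∑ q ∈ (F ×ˢ F).filter (fun q => Disjoint q.1 q.2 ∧ near r θ n q), pw q with hW
  have hW0 : 0 ≤ W := Finset.sum_nonneg fun n _ => mul_nonneg (hΛ0 n)
    (Finset.sum_nonneg fun q _ => pw_nn q)
  have hstep1 : ∑ n ∈ Finset.Icc 2 N1, ArithmeticFunction.vonMangoldt n / Real.sqrt n *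
      ∑ q ∈ (F ×ˢ F).filter (fun q => near r θ n q), pw q ≤ C2 * W := by
    calc _ ≤ ∑ n ∈ Finset.Icc 2 N1, C2 * (ArithmeticFunction.vonMangoldt n / Real.sqrt n *
        ∑ q ∈ (F ×ˢ F).filter (fun q => Disjoint q.1 q.2 ∧ near r θ n q), pw q) := by
          refine Finset.sum_le_sum fun n _ => ?_
          have h4 := gcd_split P B1 X r θ n
          rw [← hF] at h4
          have h5 : 0 ≤ ∑ q ∈ (F ×ˢ F).filter (fun q => Disjoint q.1 q.2 ∧ near r θ n q), pw q :=
            Finset.sum_nonneg fun q _ => pw_nn q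
          have h6 := mul_le_mul_of_nonneg_right hsum h5
          have h7 := mul_le_mul_of_nonneg_left (h4.trans h6) (hΛ0 n)
          refine h7.trans (le_of_eq ?_)
          ring
      _ = C2 * W := by rw [hW, Finset.mul_sum]
  -- the small quantity
  set E := Real.exp ((r + 1) / 2 * (δ * Real.log X)) with hE
  have hE0 : 0 < E := Real.exp_pos _
  have hsmall : L * θ * E ≤ 1 := by
    refine le_trans ?_ y1
    calc L * θ * E ≤ L * (3 * L / dd P.κ T) * E := by gcongr
      _ = 3 * L ^ 2 * E / dd P.κ T := by ring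
  have hΛsum := h3 N1 Lm hN1 hLm0
  set S := ∑ n ∈ Finset.Icc 2 N1, ArithmeticFunction.vonMangoldt n / (n : ℝ) with hS
  have hS1 : S ≤ C3 * (3 + 2 * r) * L := by
    refine hΛsum.trans ?_
    have : 1 + Lm ≤ (3 + 2 * r) * L := by linarith
    calc C3 * (1 + Lm) ≤ C3 * ((3 + 2 * r) * L) := by gcongr
      _ = _ := by ring
  have hS0 : 0 ≤ S := Finset.sum_nonneg fun n _ => by
    have := ArithmeticFunction.vonMangoldt_nonneg (n := n)
    positivity
  rw [hlogN, ← hE] at hmain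
  have t1 : Lm * K / Real.log X ≤ (2 + 2 * r) * K := by
    rw [div_le_iff₀ (by linarith)]
    calc Lm * K ≤ ((2 + 2 * r) * L) * K := by gcongr
      _ = (2 + 2 * r) * K * L := by ring
      _ ≤ (2 + 2 * r) * K * Real.log X := by gcongr
  have t2 : Lm * θ * E ≤ (2 + 2 * r) * K := by
    calc Lm * θ * E ≤ ((2 + 2 * r) * L) * θ * E := by gcongr
      _ = (2 + 2 * r) * (L * θ * E) := by ring
      _ ≤ (2 + 2 * r) * 1 := by gcongr
      _ ≤ (2 + 2 * r) * K := by gcongr
  have t3 : N * Real.exp ((r - 1) / (2 * r) * Lm) ≤ 3 * E := by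
    have e1 : N = Real.exp (δ * Real.log X) := by
      rw [hN, Real.rpow_def_of_pos (by linarith), mul_comm]
    have e2 : ∀ z : ℝ, 3 * Real.exp z = Real.exp (Real.log 3 + z) := by
      intro z
      rw [Real.exp_add, Real.exp_log (by norm_num)]
    rw [e1, hE, e2, ← Real.exp_add]
    apply Real.exp_le_exp.2
    have e3 : (r - 1) / (2 * r) * Lm = (r - 1) / (2 * r) * Real.log 3 +
        (r - 1) / 2 * (δ * Real.log X) := by
      rw [hLm]
      field_simp
    have e4 : (r - 1) / (2 * r) ≤ 1 := by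
      rw [div_le_one (by linarith)]
      linarith
    have e5 : (r - 1) / (2 * r) * Real.log 3 ≤ 1 * Real.log 3 := by gcongr
    rw [e3]
    have e6 : (r + 1) / 2 * (δ * Real.log X) = δ * Real.log X + (r - 1) / 2 * (δ * Real.log X) := by
      ring
    rw [e6]
    linarith
  have t4 : (6 / K + 24 * N * θ * Real.exp ((r - 1) / (2 * r) * Lm)) * S ≤
      78 * (C3 * (3 + 2 * r)) * K := by
    have e1 : 6 / K * L = 6 * K := by
      rw [← hKK]
      field_simp
    have e2 : 24 * N * θ * Real.exp ((r - 1) / (2 * r) * Lm) * L ≤ 72 * K := by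
      calc 24 * N * θ * Real.exp ((r - 1) / (2 * r) * Lm) * L =
          24 * (θ * L) * (N * Real.exp ((r - 1) / (2 * r) * Lm)) := by ring
        _ ≤ 24 * (θ * L) * (3 * E) := by gcongr
        _ = 72 * (L * θ * E) := by ring
        _ ≤ 72 * 1 := by gcongr
        _ ≤ 72 * K := by gcongr
    have e3 : 0 ≤ 6 / K + 24 * N * θ * Real.exp ((r - 1) / (2 * r) * Lm) := by positivity
    calc (6 / K + 24 * N * θ * Real.exp ((r - 1) / (2 * r) * Lm)) * S
        ≤ (6 / K + 24 * N * θ * Real.exp ((r - 1) / (2 * r) * Lm)) *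
          (C3 * (3 + 2 * r) * L) := mul_le_mul_of_nonneg_left hS1 e3
      _ = (C3 * (3 + 2 * r)) * (6 / K * L + 24 * N * θ * Real.exp ((r - 1) / (2 * r) * Lm) * L) := by
          ring
      _ ≤ (C3 * (3 + 2 * r)) * (6 * K + 72 * K) := by
          apply mul_le_mul_of_nonneg_left _ (by positivity)
          linarith
      _ = _ := by ring
  refine hstep1.trans ?_
  calc C2 * W ≤ C2 * (C1 * (Lm * K / Real.log X + Lm * θ * E) +
        (6 / K + 24 * N * θ * Real.exp ((r - 1) / (2 * r) * Lm)) * S) :=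
        mul_le_mul_of_nonneg_left hmain hC2.le
    _ ≤ C2 * (C1 * ((2 + 2 * r) * K + (2 + 2 * r) * K) + 78 * (C3 * (3 + 2 * r)) * K) := by
        gcongr
    _ = _ := by ring

end Pool.Agent.V7H88.DZ
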