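import Pool.Agent.V7H88.DZ.F4

/-! Gaussian mean values of generalised trigonometric polynomials. -/

set_option autoImplicit false

open Complex Filter Topology Set MeasureTheory

namespace Pool.Agent.V7H88.DZ

open SG (hh nn dd dl ord NZ)
open SP (RHs ZZ mu wt Mk Par Eb PS chi qq tt)
open LG (fam nA yp ae prs QT tm IsQ)

theorem full_gen {ι : Type} (F : Finset ι) (c : ι → ℂ) (l : ι → ℝ) (t0 D v : ℝ) (hD : 0 < D) :
    ∫ t : ℝ, ((wt t0 D t * ‖PP F c l t‖ ^ 2 : ℝ) : ℂ) * cexp (-(I * ((t * v : ℝ) : ℂ))) =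
      ∑ i ∈ F, ∑ j ∈ F, (c i * (starRingEnd ℂ) (c j)) * (((D * Real.sqrt (2 * Real.pi) : ℝ) : ℂ) *
        (cexp (I * ((l i - l j - v : ℝ) : ℂ) * t0) *
          ((Real.exp (-(D ^ 2 * (l i - l j - v) ^ 2 / 2)) : ℝ) : ℂ))) := by
  have h0 : ∀ t : ℝ, ((wt t0 D t * ‖PP F c l t‖ ^ 2 : ℝ) : ℂ) * cexp (-(I * ((t * v : ℝ) : ℂ))) =
      ∑ i ∈ F, ∑ j ∈ F, (c i * (starRingEnd ℂ) (c j)) *
        ((Real.exp (-(t - t0) ^ 2 / (2 * D ^ 2)) : ℂ) *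
          cexp (I * ((l i - l j - v : ℝ) : ℂ) * t)) := by
    intro t
    rw [Complex.ofReal_mul, PP_sq, mul_assoc, Finset.sum_mul, Finset.mul_sum]
    refine Finset.sum_congr rfl fun i _ => ?_
    rw [Finset.sum_mul, Finset.mul_sum]
    refine Finset.sum_congr rfl fun j _ => ?_
    have e : cexp (I * ((l i - l j - v : ℝ) : ℂ) * t) = cexp (I * ((l i - l j : ℝ) : ℂ) * t) *
        cexp (-(I * ((t * v : ℝ) : ℂ))) := by
      rw [← Complex.exp_add]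
      congr 1
      push_cast
      ring
    rw [e, wt]
    ring
  simp_rw [h0]
  rw [integral_finsetSum _ fun i _ => integrable_finsetSum _ fun j _ =>
    (SG.MVaux.ek_int D t0 _ hD).const_mul _]
  refine Finset.sum_congr rfl fun i _ => ?_
  rw [integral_finsetSum _ fun j _ => (SG.MVaux.ek_int D t0 _ hD).const_mul _]
  refine Finset.sum_congr rfl fun j _ => ?_
  rw [integral_const_mul, SG.MVaux.ek_val D t0 _ hD]

theorem norm_osc' (x t0 : ℝ) : ‖cexp (I * (x : ℂ) * (t0 : ℂ))‖ = 1 := by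
  rw [mul_assoc, ← Complex.ofReal_mul, norm_e]

theorem full_norm {ι : Type} (F : Finset ι) (c : ι → ℂ) (l : ι → ℝ) (t0 D v : ℝ) (hD : 0 < D) :
    ‖∫ t : ℝ, ((wt t0 D t * ‖PP F c l t‖ ^ 2 : ℝ) : ℂ) * cexp (-(I * ((t * v : ℝ) : ℂ)))‖ ≤
      Real.sqrt (2 * Real.pi) * D * ∑ i ∈ F, ∑ j ∈ F, ‖c i‖ * ‖c j‖ *
        Real.exp (-(D ^ 2 * (l i - l j - v) ^ 2 / 2)) := by
  rw [full_gen F c l t0 D v hD, Finset.mul_sum]
  refine norm_sum_le_of_le _ fun i _ => ?_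
  rw [Finset.mul_sum]
  refine norm_sum_le_of_le _ fun j _ => ?_
  rw [norm_mul, norm_mul, norm_mul, norm_mul, RCLike.norm_conj, norm_osc', Complex.norm_real,
    Complex.norm_real, Real.norm_of_nonneg (by positivity), Real.norm_of_nonneg (by positivity)]
  exact le_of_eq (by ring)

/-- the mean square -/
theorem full_sq {ι : Type} [DecidableEq ι] (F : Finset ι) (c : ι → ℂ) (l : ι → ℝ) (t0 D x : ℝ)
    (hD : 0 < D) (hx : 0 ≤ x) (hl : ∀ i ∈ F, ∀ j ∈ F, i ≠ j → x ≤ |l i - l j|) :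
    |(∫ t : ℝ, wt t0 D t * ‖PP F c l t‖ ^ 2) - Real.sqrt (2 * Real.pi) * D * ∑ i ∈ F, ‖c i‖ ^ 2| ≤
      Real.sqrt (2 * Real.pi) * D * ((∑ i ∈ F, ‖c i‖) ^ 2 * Real.exp (-(D ^ 2 * x ^ 2 / 2))) := by
  have h := full_gen F c l t0 D 0 hD
  have e1 : (∫ t : ℝ, ((wt t0 D t * ‖PP F c l t‖ ^ 2 : ℝ) : ℂ) *
      cexp (-(I * ((t * 0 : ℝ) : ℂ)))) = ((∫ t : ℝ, wt t0 D t * ‖PP F c l t‖ ^ 2 : ℝ) : ℂ) := by
    rw [← integral_complex_ofReal]
    congr 1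
    funext t
    simp
  rw [e1] at h
  rw [← Real.norm_eq_abs, ← Complex.norm_real, Complex.ofReal_sub, h]
  have e2 : ((Real.sqrt (2 * Real.pi) * D * ∑ i ∈ F, ‖c i‖ ^ 2 : ℝ) : ℂ) =
      ∑ i ∈ F, ∑ j ∈ F, if j = i then
        ((Real.sqrt (2 * Real.pi) * D * ‖c i‖ ^ 2 : ℝ) : ℂ) else 0 := by
    simp_rw [Finset.sum_ite_eq']
    rw [Finset.mul_sum]
    push_cast
    refine Finset.sum_congr rfl fun i hi => ?_
    rw [if_pos hi]
  rw [e2, ← Finset.sum_sub_distrib]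
  have e3 : Real.sqrt (2 * Real.pi) * D * ((∑ i ∈ F, ‖c i‖) ^ 2 *
      Real.exp (-(D ^ 2 * x ^ 2 / 2))) = ∑ i ∈ F, ∑ j ∈ F, Real.sqrt (2 * Real.pi) * D *
        (‖c i‖ * ‖c j‖ * Real.exp (-(D ^ 2 * x ^ 2 / 2))) := by
    rw [sq, Finset.sum_mul_sum, Finset.sum_mul, Finset.mul_sum]
    refine Finset.sum_congr rfl fun i _ => ?_
    rw [Finset.sum_mul, Finset.mul_sum]
  rw [e3]
  refine norm_sum_le_of_le _ fun i hi => ?_
  rw [← Finset.sum_sub_distrib]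
  refine norm_sum_le_of_le _ fun j hj => ?_
  by_cases hij : j = i
  · subst hij
    rw [if_pos rfl]
    have e4 : (c j * (starRingEnd ℂ) (c j)) * (((D * Real.sqrt (2 * Real.pi) : ℝ) : ℂ) *
        (cexp (I * ((l j - l j - 0 : ℝ) : ℂ) * t0) *
          ((Real.exp (-(D ^ 2 * (l j - l j - 0) ^ 2 / 2)) : ℝ) : ℂ))) =
        ((Real.sqrt (2 * Real.pi) * D * ‖c j‖ ^ 2 : ℝ) : ℂ) := by
      rw [Complex.mul_conj, Complex.normSq_eq_norm_sq]
      simp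
      ring
    rw [e4, sub_self, norm_zero]
    positivity
  · rw [if_neg hij, sub_zero, norm_mul, norm_mul, norm_mul, norm_mul, RCLike.norm_conj, norm_osc',
      Complex.norm_real, Complex.norm_real, Real.norm_of_nonneg (by positivity),
      Real.norm_of_nonneg (by positivity), sub_zero]
    have h3 := hl i hi j hj (fun h => hij h.symm)
    have h4 : Real.exp (-(D ^ 2 * (l i - l j) ^ 2 / 2)) ≤ Real.exp (-(D ^ 2 * x ^ 2 / 2)) := by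
      apply Real.exp_le_exp.2
      have h5 : x ^ 2 ≤ (l i - l j) ^ 2 := by
        rw [← sq_abs (l i - l j)]
        exact pow_le_pow_left₀ hx h3 2
      have h6 : D ^ 2 * x ^ 2 ≤ D ^ 2 * (l i - l j) ^ 2 := by gcongr
      linarith
    calc ‖c i‖ * ‖c j‖ * (D * Real.sqrt (2 * Real.pi) *
          (1 * Real.exp (-(D ^ 2 * (l i - l j) ^ 2 / 2))))
        = Real.sqrt (2 * Real.pi) * D * (‖c i‖ * ‖c j‖ *
          Real.exp (-(D ^ 2 * (l i - l j) ^ 2 / 2))) := by ring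
      _ ≤ _ := by gcongr

/-- truncation of the integrals -/
theorem trunc_gen {ι : Type} (F : Finset ι) (c : ι → ℂ) (l : ι → ℝ) (t0 D V1 V2 R v : ℝ)
    (hD : 0 < D) (hR : 0 ≤ R) (hV : V1 ≤ V2) (h1 : V1 + R ≤ t0) (h2 : t0 + R ≤ V2) :
    ‖(∫ t in V1..V2, ((wt t0 D t * ‖PP F c l t‖ ^ 2 : ℝ) : ℂ) * cexp (-(I * ((t * v : ℝ) : ℂ)))) -
      ∫ t : ℝ, ((wt t0 D t * ‖PP F c l t‖ ^ 2 : ℝ) : ℂ) * cexp (-(I * ((t * v : ℝ) : ℂ)))‖ ≤
      (∑ i ∈ F, ‖c i‖) ^ 2 * (4 * D) * Real.exp (-(R ^ 2 / (4 * D ^ 2))) := by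
  apply LG.MeanAux.tail_int _ t0 D V1 V2 R _ hD hR hV h1 h2 _ (sq_nonneg _)
  · intro t
    rw [norm_mul, LG.MeanAux.norm_osc, mul_one, Complex.norm_real, Real.norm_eq_abs,
      abs_mul, abs_of_pos (LG.MeanAux.wt_pos t0 D t), abs_of_nonneg (sq_nonneg _), mul_comm]
    apply mul_le_mul_of_nonneg_right _ (LG.MeanAux.wt_pos t0 D t).le
    exact pow_le_pow_left₀ (norm_nonneg _) (PP_le _ _ _ t) 2
  · have h3 := LG.MeanAux.wt_cont t0 D
    have h4 := PP_cont F c l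
    fun_prop

/-- the same for the mean square -/
theorem trunc_gen_sq {ι : Type} (F : Finset ι) (c : ι → ℂ) (l : ι → ℝ) (t0 D V1 V2 R : ℝ)
    (hD : 0 < D) (hR : 0 ≤ R) (hV : V1 ≤ V2) (h1 : V1 + R ≤ t0) (h2 : t0 + R ≤ V2) :
    |(∫ t in V1..V2, wt t0 D t * ‖PP F c l t‖ ^ 2) - ∫ t : ℝ, wt t0 D t * ‖PP F c l t‖ ^ 2| ≤
      (∑ i ∈ F, ‖c i‖) ^ 2 * (4 * D) * Real.exp (-(R ^ 2 / (4 * D ^ 2))) := by
  have h := trunc_gen F c l t0 D V1 V2 R 0 hD hR hV h1 h2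
  have e1 : (∫ t : ℝ, ((wt t0 D t * ‖PP F c l t‖ ^ 2 : ℝ) : ℂ) *
      cexp (-(I * ((t * 0 : ℝ) : ℂ)))) = ((∫ t : ℝ, wt t0 D t * ‖PP F c l t‖ ^ 2 : ℝ) : ℂ) := by
    rw [← integral_complex_ofReal]
    congr 1
    funext t
    simp
  have e2 : (∫ t in V1..V2, ((wt t0 D t * ‖PP F c l t‖ ^ 2 : ℝ) : ℂ) *
      cexp (-(I * ((t * 0 : ℝ) : ℂ)))) = ((∫ t in V1..V2, wt t0 D t * ‖PP F c l t‖ ^ 2 : ℝ) : ℂ) := by
    rw [← intervalIntegral.integral_ofReal]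
    congr 1
    funext t
    simp
  rw [e1, e2, ← Complex.ofReal_sub, Complex.norm_real, Real.norm_eq_abs] at h
  exact h

theorem ph_le2 (Λ : ℝ) (hΛ : 0 ≤ Λ) (n : ℕ) :
    ph Λ n ≤ 3 * (ArithmeticFunction.vonMangoldt n / Real.sqrt n) := by
  rcases Nat.eq_zero_or_pos n with h | h
  · subst h
    simp [ph]
  have hn : (0 : ℝ) < n := by exact_mod_cast h
  unfold ph
  have h1 : (n : ℝ) ^ (-(1 / 2) : ℝ) = 1 / Real.sqrt n := by
    rw [Real.rpow_neg hn.le, ← Real.sqrt_eq_rpow, one_div]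
  have h2 : ∫ u in (0 : ℝ)..Λ, Real.exp (-(u - Real.log n) ^ 2 / 2) ≤ 3 := by
    have h3 : ∫ u in (0 : ℝ)..Λ, Real.exp (-(u - Real.log n) ^ 2 / 2) ≤
        ∫ u : ℝ, Real.exp (-(u - Real.log n) ^ 2 / 2) := by
      rw [intervalIntegral.integral_of_le hΛ]
      exact setIntegral_le_integral (g1_int.comp_sub_right _)
        (Eventually.of_forall fun u => (Real.exp_pos _).le)
    have h4 : ∫ u : ℝ, Real.exp (-(u - Real.log n) ^ 2 / 2) = Real.sqrt (2 * Real.pi) := by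
      rw [integral_sub_right_eq_self (fun u : ℝ => Real.exp (-u ^ 2 / 2)) (Real.log n)]
      exact g1_val
    rw [h4] at h3
    exact h3.trans s2pi_le
  have h5 := ArithmeticFunction.vonMangoldt_nonneg (n := n)
  rw [h1]
  calc _ ≤ ArithmeticFunction.vonMangoldt n * (1 / Real.sqrt n) * 3 := by gcongr
    _ = _ := by ring

end Pool.Agent.V7H88.DZ
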