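import Pool.Agent.V7H88.DZ.G2

/-! The sum over the zeros at the smaller height. -/

set_option autoImplicit false

open Complex Filter Topology Set MeasureTheory

namespace Pool.Agent.V7H88.DZ

open SG (hh nn dd dl ord NZ)
open SP (RHs ZZ mu wt Mk Par Eb PS chi qq tt)
open LG (fam nA yp ae prs QT tm IsQ)

open Classical in
theorem mu_gen (hRH : RHs) {P : Par} {B0 B1 : ℕ} {δ : ℝ} (hP : Dat P B0 B1 δ) (r : ℝ) (hr : 1 < r)
    (hδr : δ * (r + 1) / 2 < 1 - P.κ / 2) : ∃ C T0 : ℝ, 0 < C ∧ 10 ≤ T0 ∧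
    ∀ T : ℝ, T0 ≤ T → ∀ β : ℝ, 1 ≤ β → β ≤ Real.log T ^ 2 → ∀ c : Finset ℕ → ℂ,
    (∀ A ∈ fam P B1 (r * T), ‖c A‖ ≤ β / Real.sqrt (nA A)) → ∀ t0 D : ℝ,
    dd P.κ T / 3 ≤ D → D ≤ dd P.κ T → T + Real.log T + T / 20 ≤ t0 →
    t0 + T / 20 ≤ 2 * T - Real.log T →
    |Real.pi * (∑ᶠ s ∈ ZZ T, (mu s : ℝ) * (wt t0 D s.im *
      ‖PP (fam P B1 (r * T)) c (fun A => r * Real.log (nA A)) s.im‖ ^ 2)) -
      Real.sqrt (2 * Real.pi) * D * (Real.log T / 2) * ∑ A ∈ fam P B1 (r * T), ‖c A‖ ^ 2| ≤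
      C * D * β ^ 2 * Real.sqrt (Real.log T) := by
  have hr0 : 0 < r := by linarith
  have hδ0 := hP.hδ0
  have hδ1 := hP.hδ1
  have hκ := P.hκ
  have hκ1 := P.hκ1
  set σ : ℝ := (δ + (1 - P.κ)) / 2 with hσ
  have hσ1 : δ < σ := by linarith
  have hσ2 : σ < 1 - P.κ := by linarith
  have hσ0 : 0 < σ := by linarith
  obtain ⟨C1, T1, hC1, hT1, hloc⟩ := loc hRH P.κ σ (2 * r) hκ (by linarith) hσ2 (by positivity)
  obtain ⟨C2, T2, hC2, hT2, hsum⟩ := Gd_le P B1
  obtain ⟨C3, T3, hC3, hT3, hnc⟩ := nc_all hP r hr hδr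
  obtain ⟨C4, hC4, htot⟩ := ph_tot
  set m : ℝ := σ + 1 + 4 * (2 * r + 1) with hm
  have hm0 : 0 ≤ m := by positivity
  obtain ⟨T5, hT5, hev⟩ := ev_mu P.κ δ r m (min (1 / (8 * C4)) (1 / 8)) hκ hδ0 hδ1 hr hm0
    (by positivity)
  have ev : ∀ᶠ T : ℝ in atTop, 4 * Real.log T ^ 4 * (r * T) ^ δ ≤ T ^ σ ∧
      1 ≤ Real.log T ∧ Real.log r ≤ Real.log T ∧ 40 * Real.log T ≤ T ∧
      3 * Real.log T ≤ dd P.κ T := by
    have h1 := isLittleO_log_rpow_atTop (show 0 < (σ - δ) / 4 by linarith)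
    rw [Asymptotics.isLittleO_iff] at h1
    set e : ℝ := Real.sqrt (Real.sqrt (1 / (4 * r ^ δ))) with he
    have he0 : 0 < e := Real.sqrt_pos.2 (Real.sqrt_pos.2 (by positivity))
    have he2 : e ^ 4 = 1 / (4 * r ^ δ) := by
      have e1 : e ^ 4 = (e ^ 2) ^ 2 := by ring
      rw [e1, he, Real.sq_sqrt (Real.sqrt_nonneg _), Real.sq_sqrt (by positivity)]
    have h4 := Real.isLittleO_log_id_atTop
    rw [Asymptotics.isLittleO_iff] at h4
    have h6 := isLittleO_log_rpow_atTop (show 0 < 1 - P.κ / 2 by linarith)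
    rw [Asymptotics.isLittleO_iff] at h6
    filter_upwards [h1 he0, eventually_ge_atTop 1, Real.tendsto_log_atTop.eventually_ge_atTop 1,
      Real.tendsto_log_atTop.eventually_ge_atTop (Real.log r),
      h4 (show (0 : ℝ) < 1 / 40 by norm_num), h6 (show (0 : ℝ) < 1 / 3 by norm_num)]
      with T x1 x2 x3 x4 x5 x6
    have hT0 : 0 < T := by linarith
    rw [Real.norm_of_nonneg (Real.log_nonneg x2),
      Real.norm_of_nonneg (Real.rpow_nonneg (by linarith) _)] at x6
    have x7 : 3 * Real.log T ≤ dd P.κ T := by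
      change 3 * Real.log T ≤ T ^ (1 - P.κ / 2)
      linarith
    rw [Real.norm_of_nonneg (Real.log_nonneg x2),
      Real.norm_of_nonneg (Real.rpow_nonneg (by linarith) _)] at x1
    simp only [id] at x5
    rw [Real.norm_of_nonneg (Real.log_nonneg x2), Real.norm_of_nonneg (by linarith)] at x5
    refine ⟨?_, x3, x4, by linarith, x7⟩
    have h5 := pow_le_pow_left₀ (Real.log_nonneg x2) x1 4
    rw [mul_pow, he2, ← Real.rpow_natCast (T ^ ((σ - δ) / 4)), ← Real.rpow_mul hT0.le] at h5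
    have e1 : (σ - δ) / 4 * ((4 : ℕ) : ℝ) = σ - δ := by push_cast; ring
    rw [e1] at h5
    rw [Real.mul_rpow hr0.le hT0.le]
    calc 4 * Real.log T ^ 4 * (r ^ δ * T ^ δ)
        ≤ 4 * (1 / (4 * r ^ δ) * T ^ (σ - δ)) * (r ^ δ * T ^ δ) := by gcongr
      _ = T ^ (σ - δ) * T ^ δ := by
          have : r ^ δ ≠ 0 := by positivity
          field_simp
      _ = T ^ σ := by
          rw [← Real.rpow_add hT0]
          congr 1
          ring
  obtain ⟨T6, hT6⟩ := Filter.eventually_atTop.1 ev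
  refine ⟨C1 * (3 * C2 + 3) + 9 * C3 + 2, max (max (max T1 T2) (max T3 T5)) T6, by positivity,
    hT1.trans ((le_max_left _ _).trans ((le_max_left _ _).trans (le_max_left _ _))), ?_⟩
  intro T hT β hβ1 hβ2 c hc t0 D hD1 hD2 ht1 ht2
  simp only [max_le_iff] at hT
  obtain ⟨⟨⟨hTT1, hTT2⟩, hTT3, hTT5⟩, hTT6⟩ := hT
  obtain ⟨y1, y2, y3, y4, y5⟩ := hT6 T hTT6
  have hT10 : 10 ≤ T := hT1.trans hTT1
  have hTp : 0 < T := by linarith
  have hX : T ≤ r * T := le_mul_of_one_le_left hTp.le hr.le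
  have hX10 : 10 ≤ r * T := hT10.trans hX
  have hdd0 : 0 < dd P.κ T := Real.rpow_pos_of_pos hTp _
  have hD0 : 0 < D := by linarith
  have hβ0 : 0 ≤ β := by linarith
  obtain ⟨z1, z2, z3⟩ := hev T hTT5 D hD1 hD2
  set L := Real.log T with hL
  have hL0 : 0 < L := by linarith
  have hlogX : Real.log (r * T) = Real.log r + L := Real.log_mul hr0.ne' hTp.ne'
  have hlogr : 0 ≤ Real.log r := Real.log_nonneg hr.le
  have hX2L : Real.log (r * T) ≤ 2 * L := by linarith
  have hlogX0 : 0 ≤ Real.log (r * T) := by linarith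
  set F := fam P B1 (r * T) with hF
  set l : Finset ℕ → ℝ := fun A => r * Real.log (nA A) with hl
  set M := (∑ A ∈ F, ‖c A‖) ^ 2 with hM
  have hM0 : 0 ≤ M := sq_nonneg _
  have hMσ : M ≤ T ^ σ := by
    refine (c_sum P B1 δ (r * T) β hP.hδ hX10 hβ0 c hc).trans (le_trans ?_ y1)
    have h4 : β ^ 2 ≤ L ^ 4 := by
      have := pow_le_pow_left₀ hβ0 hβ2 2
      calc β ^ 2 ≤ (L ^ 2) ^ 2 := this
        _ = L ^ 4 := by ring
    gcongr
  have hV : T + L ≤ 2 * T - L := by linarith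
  have hnA : ∀ A ∈ F, (1 : ℝ) ≤ nA A := fun A hA => by exact_mod_cast nA_one_le hA
  have hlogA : ∀ A ∈ F, 0 ≤ Real.log (nA A) ∧ Real.log (nA A) ≤ δ * Real.log (r * T) :=
    fun A hA => log_nA_bd2 P B1 δ (r * T) hP.hδ hX10 hA
  have hlK : ∀ A ∈ F, ∀ A' ∈ F, |l A - l A'| ≤ 2 * r * L := by
    intro A hA A' hA'
    have h4 := hlogA A hA
    have h5 := hlogA A' hA'
    have h6 : δ * Real.log (r * T) ≤ 2 * L := by
      calc δ * Real.log (r * T) ≤ 1 * (2 * L) := by
            gcongr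
            linarith
        _ = 2 * L := one_mul _
    rw [hl]
    simp only
    rw [← mul_sub, abs_mul, abs_of_pos hr0]
    have h7 : |Real.log (nA A) - Real.log (nA A')| ≤ 2 * L := by
      rw [abs_le]
      constructor <;> linarith
    calc r * |Real.log (nA A) - Real.log (nA A')| ≤ r * (2 * L) := by gcongr
      _ = _ := by ring
  have hmain := hloc T hTT1 (Finset ℕ) F c l t0 D hMσ hlK hD1 hD2 ht1 ht2
  rw [← hL] at hmain
  set s := Real.sqrt (2 * Real.pi) with hs
  have hs2 : 2 ≤ s := s2pi_ge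
  have hs3 : s ≤ 3 := s2pi_le
  set G := ∑ A ∈ F, ‖c A‖ ^ 2 with hG
  have hG0 : 0 ≤ G := Finset.sum_nonneg fun A _ => sq_nonneg _
  have hG1 : G ≤ β ^ 2 * C2 := by
    calc G ≤ ∑ A ∈ F, β ^ 2 * (1 / (nA A : ℝ)) := by
          refine Finset.sum_le_sum fun A hA => ?_
          have h4 := pow_le_pow_left₀ (norm_nonneg _) (hc A hA) 2
          rw [div_pow, Real.sq_sqrt (by positivity)] at h4
          rw [mul_one_div]
          exact h4
      _ = β ^ 2 * ∑ A ∈ F, 1 / (nA A : ℝ) := by rw [Finset.mul_sum]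
      _ ≤ β ^ 2 * C2 := by
          gcongr
          exact (hsum (r * T) (hTT2.trans hX)).2
  set I0 := ∫ t in (T + L)..(2 * T - L), wt t0 D t * ‖PP F c l t‖ ^ 2 with hI0
  set Z := Real.pi * (∑ᶠ s ∈ ZZ T, (mu s : ℝ) * (wt t0 D s.im * ‖PP F c l s.im‖ ^ 2)) with hZ
  clear_value Z
  clear hloc hsum
  set E1 := Real.exp (-(L ^ 2 / 2)) with hE1
  set E2 := Real.exp (-((T / 20) ^ 2 / (4 * D ^ 2))) with hE2
  set E3 := Real.exp (-(D ^ 2 * (1 / (r * T) ^ δ) ^ 2 / 2)) with hE3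
  have hE10 : 0 < E1 := Real.exp_pos _
  have hE20 : 0 < E2 := Real.exp_pos _
  have hE30 : 0 < E3 := Real.exp_pos _
  have hTpow : ∀ x : ℝ, 0 ≤ x → 1 ≤ T ^ x := fun x hx => Real.one_le_rpow (by linarith) hx
  have hTm : T ^ m = T ^ σ * T * T ^ (4 * (2 * r + 1)) := by
    rw [hm, Real.rpow_add hTp, Real.rpow_add hTp, Real.rpow_one]
  have hT4 : 1 ≤ T ^ (4 * (2 * r + 1)) := hTpow _ (by positivity)
  have hLT : L ≤ T := by linarith
  have hTσ0 : 0 < T ^ σ := by positivity
  -- the mean square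
  have hI : L / 2 * |I0 - s * D * G| ≤ D := by
    have h4 := trunc_gen_sq F c l t0 D (T + L) (2 * T - L) (T / 20) hD0 (by positivity) hV ht1 ht2
    have h5 := full_sq F c l t0 D (1 / (r * T) ^ δ) hD0 (by positivity) (by
      intro A hA A' hA' hne
      have h6 := log_dist (nA A) (nA A') ((r * T) ^ δ) (nA_one_le hA) (nA_one_le hA')
        (fun h => hne (nA_inj P B1 (r * T) hA hA' h)) (nA_le P B1 δ (r * T) hP.hδ hX10 hA)
        (nA_le P B1 δ (r * T) hP.hδ hX10 hA')
      rw [hl]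
      simp only
      rw [← mul_sub, abs_mul, abs_of_pos hr0]
      exact h6.trans (le_mul_of_one_le_left (abs_nonneg _) hr.le))
    have h6 : |I0 - s * D * G| ≤ M * (4 * D) * E2 + s * D * (M * E3) :=
      (abs_sub_le _ _ _).trans (add_le_add h4 h5)
    have h7 : L / 2 * (M * (4 * D) * E2 + s * D * (M * E3)) ≤ D := by
      have h8 : M * L * E2 ≤ 1 / 8 := by
        refine le_trans ?_ (z2.trans (min_le_right _ _))
        rw [hTm]
        calc M * L * E2 ≤ T ^ σ * T * 1 * E2 := by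
              rw [mul_one]
              gcongr
          _ ≤ T ^ σ * T * T ^ (4 * (2 * r + 1)) * E2 := by gcongr
      have h9 : M * L * E3 ≤ 1 / 8 := by
        refine le_trans ?_ (z3.trans (min_le_right _ _))
        rw [hTm]
        calc M * L * E3 ≤ T ^ σ * T * 1 * E3 := by
              rw [mul_one]
              gcongr
          _ ≤ T ^ σ * T * T ^ (4 * (2 * r + 1)) * E3 := by gcongr
      calc L / 2 * (M * (4 * D) * E2 + s * D * (M * E3))
          = 2 * D * (M * L * E2) + s / 2 * D * (M * L * E3) := by ring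
        _ ≤ 2 * D * (1 / 8) + 3 / 2 * D * (1 / 8) := by gcongr
        _ ≤ D := by linarith
    exact (mul_le_mul_of_nonneg_left h6 (by positivity)).trans h7
  have hI2 : I0 ≤ s * D * G + 2 * D := by
    have h4 := le_abs_self (I0 - s * D * G)
    have h5 : |I0 - s * D * G| ≤ 2 * D := by
      have h6 := abs_nonneg (I0 - s * D * G)
      have h7 : 1 / 2 * |I0 - s * D * G| ≤ L / 2 * |I0 - s * D * G| :=
        mul_le_mul_of_nonneg_right (by linarith only [y2]) h6
      linarith only [h7, hI]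
    linarith
  -- the prime side
  clear_value I0 G
  set Λ := (2 * r + 1) * L with hΛ
  have hΛ0 : 0 ≤ Λ := by positivity
  have hph0 := ph_nn Λ hΛ0
  have hphs := ph_sum Λ hΛ0
  set J := JJ F c l t0 D (T + L) (2 * T - L) with hJ
  set nr : ℕ → ℝ := fun n => ∑ q ∈ (F ×ˢ F).filter (fun q => near r (L / D) n q), pw q with hnr
  have hnr0 : ∀ n, 0 ≤ nr n := fun n => Finset.sum_nonneg fun q _ => pw_nn q
  set er := M * (3 * E1 + 4 * E2) with her
  have her0 : 0 ≤ er := mul_nonneg hM0 (add_nonneg (mul_nonneg (by norm_num) hE10.le)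
    (mul_nonneg (by norm_num) hE20.le))
  have hJn : ∀ n, ‖J n‖ ≤ 3 * D * (β ^ 2 * nr n) + D * er := fun n =>
    JJ_bound F c r t0 D (T + L) (2 * T - L) (T / 20) β L hD0 (by positivity) hV ht1 ht2 hβ0 hL0.le
      hc n
  clear_value J
  have hθ : L / D ≤ 3 * L / dd P.κ T := by
    rw [div_le_div_iff₀ hD0 hdd0]
    have h4 : L * dd P.κ T ≤ L * (3 * D) :=
      mul_le_mul_of_nonneg_left (by linarith only [hD1]) hL0.le
    linarith only [h4]
  have hθ1 : L / D ≤ 1 := by
    rw [div_le_one hD0]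
    linarith
  set N1 : ℕ := ⌊Real.exp (Real.log 3 + r * (δ * Real.log (r * T)))⌋₊ with hN1
  have hsupp : ∀ n ∉ Finset.Icc 2 N1, ph Λ n * nr n = 0 := by
    intro n hn
    rw [Finset.mem_Icc, not_and_or] at hn
    rcases Nat.lt_or_ge n 2 with h | h
    · have : ph Λ n = 0 := by
        unfold ph
        interval_cases n <;> simp
      rw [this, zero_mul]
    · have hn2 : N1 < n := by
        rcases hn with hn | hn
        · exact absurd h hn
        · omega
      have : nr n = 0 := by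
        apply Finset.sum_eq_zero
        intro q hq
        exfalso
        rw [Finset.mem_filter, Finset.mem_product] at hq
        have h4 := (abs_le.1 hq.2).1
        have h5 := hlogA _ hq.1.1
        have h6 := hlogA _ hq.1.2
        have h7 : Real.exp (Real.log 3 + r * (δ * Real.log (r * T))) < n :=
          Nat.lt_of_floor_lt hn2
        have hn0 : (0 : ℝ) < n := by exact_mod_cast (by omega : 0 < n)
        rw [← Real.lt_log_iff_exp_lt hn0] at h7
        have h8 : r * (Real.log (nA q.1) - Real.log (nA q.2)) ≤ r * (δ * Real.log (r * T)) := by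
          gcongr
          linarith
        have h9 : 1 ≤ Real.log 3 := by
          rw [Real.le_log_iff_exp_le (by norm_num)]
          have := Real.exp_one_lt_d9
          linarith
        linarith
      rw [this, mul_zero]
  have hlogN1 : Real.log N1 ≤ Real.log 3 + r * (δ * Real.log (r * T)) := by
    rcases Nat.eq_zero_or_pos N1 with h | h
    · rw [h]
      simp
      have : 0 < Real.log 3 := Real.log_pos (by norm_num)
      positivity
    · rw [Real.log_le_iff_le_exp (by exact_mod_cast h)]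
      exact Nat.floor_le (Real.exp_pos _).le
  have hnear : ∑' n, ph Λ n * nr n ≤ 3 * (C3 * Real.sqrt L) := by
    rw [tsum_eq_sum hsupp]
    calc ∑ n ∈ Finset.Icc 2 N1, ph Λ n * nr n ≤ ∑ n ∈ Finset.Icc 2 N1,
          3 * (ArithmeticFunction.vonMangoldt n / Real.sqrt n * nr n) := by
          refine Finset.sum_le_sum fun n _ => ?_
          have := mul_le_mul_of_nonneg_right (ph_le2 Λ hΛ0 n) (hnr0 n)
          linarith
      _ = 3 * ∑ n ∈ Finset.Icc 2 N1, ArithmeticFunction.vonMangoldt n / Real.sqrt n * nr n := by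
          rw [Finset.mul_sum]
      _ ≤ _ := by
          gcongr
          exact hnc T hTT3 (L / D) (div_pos hL0 hD0).le hθ N1 hlogN1
  have hsn : Summable (fun n => ph Λ n * nr n) := summable_of_ne_finset_zero (s := Finset.Icc 2 N1) hsupp
  clear_value nr N1
  clear hsupp hlogN1 hnc hθ hθ1
  have htotal : (∑' n, ph Λ n) * er ≤ 1 := by
    have h1 := htot Λ hΛ0
    have h2 : Real.exp (4 * Λ) = T ^ (4 * (2 * r + 1)) := by
      rw [Real.rpow_def_of_pos hTp, hΛ]
      congr 1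
      rw [← hL]
      ring
    rw [h2] at h1
    have h3 : C4 * (T ^ m * E1) ≤ 1 / 8 := by
      calc C4 * (T ^ m * E1) ≤ C4 * (1 / (8 * C4)) := by
            gcongr
            exact z1.trans (min_le_left _ _)
        _ = 1 / 8 := by field_simp
    have h4 : C4 * (T ^ m * E2) ≤ 1 / 8 := by
      calc C4 * (T ^ m * E2) ≤ C4 * (1 / (8 * C4)) := by
            gcongr
            exact z2.trans (min_le_left _ _)
        _ = 1 / 8 := by field_simp
    have h5 : T ^ σ * T ^ (4 * (2 * r + 1)) ≤ T ^ m := by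
      rw [hTm]
      have : T ^ σ * 1 * T ^ (4 * (2 * r + 1)) ≤ T ^ σ * T * T ^ (4 * (2 * r + 1)) := by
        gcongr
        linarith
      rwa [mul_one] at this
    calc (∑' n, ph Λ n) * er ≤ (C4 * T ^ (4 * (2 * r + 1))) * (T ^ σ * (3 * E1 + 4 * E2)) := by
          rw [her]
          refine mul_le_mul h1 (mul_le_mul_of_nonneg_right hMσ ?_) (mul_nonneg hM0 ?_) ?_
          · exact add_nonneg (mul_nonneg (by norm_num) hE10.le) (mul_nonneg (by norm_num) hE20.le)
          · exact add_nonneg (mul_nonneg (by norm_num) hE10.le) (mul_nonneg (by norm_num) hE20.le)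
          · exact mul_nonneg hC4.le (by linarith only [hT4])
      _ = (C4 * (3 * E1 + 4 * E2)) * (T ^ σ * T ^ (4 * (2 * r + 1))) := by ring
      _ ≤ (C4 * (3 * E1 + 4 * E2)) * T ^ m :=
          mul_le_mul_of_nonneg_left h5 (mul_nonneg hC4.le (add_nonneg (mul_nonneg (by norm_num)
            hE10.le) (mul_nonneg (by norm_num) hE20.le)))
      _ = 3 * (C4 * (T ^ m * E1)) + 4 * (C4 * (T ^ m * E2)) := by ring
      _ ≤ 3 * (1 / 8) + 4 * (1 / 8) := by gcongr
      _ ≤ 1 := by norm_num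
  clear_value er
  have hre : |(∑' n : ℕ, (ph Λ n : ℂ) * J n).re| ≤ 9 * D * β ^ 2 * C3 * Real.sqrt L + D := by
    refine (Complex.abs_re_le_norm _).trans ?_
    have h1 : ∀ n, ‖(ph Λ n : ℂ) * J n‖ ≤ 3 * D * β ^ 2 * (ph Λ n * nr n) + ph Λ n * (D * er) := by
      intro n
      rw [norm_mul, Complex.norm_real, Real.norm_of_nonneg (hph0 n)]
      have := mul_le_mul_of_nonneg_left (hJn n) (hph0 n)
      linarith
    have h2 : Summable (fun n => 3 * D * β ^ 2 * (ph Λ n * nr n) + ph Λ n * (D * er)) :=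
      (hsn.mul_left _).add (hphs.mul_right _)
    have h3 := tsum_of_norm_bounded h2.hasSum h1
    refine h3.trans ?_
    rw [(hsn.mul_left _).tsum_add (hphs.mul_right _), tsum_mul_left, tsum_mul_right]
    calc 3 * D * β ^ 2 * ∑' n, ph Λ n * nr n + (∑' n, ph Λ n) * (D * er)
        = 3 * D * β ^ 2 * ∑' n, ph Λ n * nr n + D * ((∑' n, ph Λ n) * er) := by ring
      _ ≤ 3 * D * β ^ 2 * (3 * (C3 * Real.sqrt L)) + D * 1 :=
          add_le_add (mul_le_mul_of_nonneg_left hnear (mul_nonneg (mul_nonneg (by norm_num)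
            hD0.le) (sq_nonneg _))) (mul_le_mul_of_nonneg_left htotal hD0.le)
      _ = _ := by ring
  -- assembly
  set R0 := (∑' n : ℕ, (ph Λ n : ℂ) * J n).re with hR0
  clear_value R0 M
  have hK1 : 1 ≤ Real.sqrt L := by
    apply Real.le_sqrt_of_sq_le
    linarith
  set K := Real.sqrt L with hK
  have hβ3 : 1 ≤ β ^ 2 := one_le_pow₀ hβ1
  have hu : 1 ≤ β ^ 2 * K := one_le_mul_of_one_le_of_one_le hβ3 hK1
  have ha1 : |1 / s * R0| ≤ 9 * D * β ^ 2 * C3 * K + D := by
    rw [abs_mul, abs_of_nonneg (by positivity)]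
    have : 1 / s ≤ 1 := by
      rw [div_le_one (by linarith)]
      linarith
    calc 1 / s * |R0| ≤ 1 * |R0| := by gcongr
      _ ≤ _ := by rw [one_mul]; exact hre
  have e1 : Z - s * D * (L / 2) * G = (Z - (L / 2 * I0 - 1 / s * R0)) +
      L / 2 * (I0 - s * D * G) - 1 / s * R0 := by ring
  rw [e1]
  have h8 : |(Z - (L / 2 * I0 - 1 / s * R0)) + L / 2 * (I0 - s * D * G) - 1 / s * R0| ≤
      C1 * (I0 + D) + D + (9 * D * β ^ 2 * C3 * K + D) := by
    refine (abs_sub _ _).trans (add_le_add ((abs_add_le _ _).trans (add_le_add hmain ?_)) ha1)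
    rw [abs_mul, abs_of_nonneg (by positivity)]
    exact hI
  refine h8.trans ?_
  set u := D * (β ^ 2 * K) with hud
  have hDu : D ≤ u := by
    rw [hud]
    exact le_mul_of_one_le_right hD0.le hu
  have h9 : I0 + D ≤ (3 * C2 + 3) * u := by
    have h10 : s * D * G ≤ 3 * D * (β ^ 2 * C2) := by gcongr
    have h11 : 3 * D * (β ^ 2 * C2) ≤ 3 * C2 * u := by
      rw [hud]
      have h12 : β ^ 2 * 1 ≤ β ^ 2 * K := by gcongr
      rw [mul_one] at h12
      calc 3 * D * (β ^ 2 * C2) = 3 * C2 * (D * β ^ 2) := by ring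
        _ ≤ 3 * C2 * (D * (β ^ 2 * K)) := by gcongr
    linarith
  have h13 : C1 * (I0 + D) ≤ C1 * ((3 * C2 + 3) * u) := by gcongr
  have h14 : 9 * D * β ^ 2 * C3 * K = 9 * C3 * u := by
    rw [hud]
    ring
  have h15 : (C1 * (3 * C2 + 3) + 9 * C3 + 2) * D * β ^ 2 * K =
      (C1 * (3 * C2 + 3) + 9 * C3 + 2) * u := by
    rw [hud]
    ring
  rw [h14, h15]
  linarith

end Pool.Agent.V7H88.DZ
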