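import Pool.Agent.V7H88.DZ.E2
import Pool.Agent.H382P.ExpMom

/-! Pointwise bounds: slow variation of `Mk` and the bound for the resonator. -/

set_option autoImplicit false

open Complex Filter Topology Set MeasureTheory

namespace Pool.Agent.V7H88.DZ

open SG (hh nn dd dl ord NZ)
open SP (RHs ZZ mu wt Mk Par Eb PS chi qq tt)
open LG (fam nA yp ae prs QT tm IsQ)

theorem mk_term (L x h : ℝ) (hL : 4 ≤ L) (hh : |h| ≤ 1 / L) (hx : |x| ≤ L) :
    Real.exp (-(x + h) ^ 2 / 2) / (1 + (L * (x + h) / 1) ^ 2) ≤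
      9 * (Real.exp (-x ^ 2 / 2) / (1 + (L * x / 1) ^ 2)) := by
  have hL0 : 0 < L := by linarith
  have h1 : |x| * |h| ≤ 1 := by
    calc |x| * |h| ≤ L * (1 / L) := by gcongr
      _ = 1 := by field_simp
  have h2 : L * |h| ≤ 1 := by
    rw [le_div_iff₀ hL0] at hh
    linarith
  have h3 : -(x * h) ≤ 1 := by
    have := neg_abs_le (x * h)
    rw [abs_mul] at this
    linarith
  have e1 : Real.exp (-(x + h) ^ 2 / 2) ≤ 3 * Real.exp (-x ^ 2 / 2) := by
    calc Real.exp (-(x + h) ^ 2 / 2) ≤ Real.exp (1 + -x ^ 2 / 2) := by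
          apply Real.exp_le_exp.2
          nlinarith [sq_nonneg h]
      _ = Real.exp 1 * Real.exp (-x ^ 2 / 2) := Real.exp_add _ _
      _ ≤ 3 * Real.exp (-x ^ 2 / 2) := by
          gcongr
          have := Real.exp_one_lt_d9
          linarith
  have e2 : 1 + (L * x / 1) ^ 2 ≤ 3 * (1 + (L * (x + h) / 1) ^ 2) := by
    have h4 : (L * h) ^ 2 ≤ 1 := by
      rw [← sq_abs, abs_mul, abs_of_pos hL0]
      exact pow_le_one₀ (by positivity) h2
    nlinarith [sq_nonneg (L * (x + h) + L * h)]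
  rw [div_le_iff₀ (by positivity)]
  calc Real.exp (-(x + h) ^ 2 / 2) ≤ 3 * Real.exp (-x ^ 2 / 2) := e1
    _ = 3 * (Real.exp (-x ^ 2 / 2) / (1 + (L * x / 1) ^ 2)) * (1 + (L * x / 1) ^ 2) := by
        field_simp
    _ ≤ 3 * (Real.exp (-x ^ 2 / 2) / (1 + (L * x / 1) ^ 2)) *
        (3 * (1 + (L * (x + h) / 1) ^ 2)) := by gcongr
    _ = _ := by ring

/-- slow variation -/
theorem mk_slow : ∃ T0 : ℝ, 10 ≤ T0 ∧ ∀ T : ℝ, T0 ≤ T → ∀ t t' : ℝ,
    |t - t'| ≤ 1 / Real.log T → Mk T 1 t ≤ 9 * Mk T 1 t' + 1 := by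
  obtain ⟨C, T1, hC, hT1, hcount⟩ := ZZ_count
  have ev : ∀ᶠ T : ℝ in atTop, 4 ≤ Real.log T ∧ C * (T * Real.log T) *
      Real.exp (-(Real.log T ^ 2 / 8)) ≤ 1 := by
    filter_upwards [Real.tendsto_log_atTop.eventually_ge_atTop 24, eventually_ge_atTop C,
      eventually_gt_atTop 1] with T h1 h2 h3
    have hT0 : 0 < T := by linarith
    refine ⟨by linarith, ?_⟩
    have h4 : Real.exp (-(Real.log T ^ 2 / 8)) ≤ T ^ (-3 : ℝ) := by
      rw [Real.rpow_def_of_pos hT0]
      apply Real.exp_le_exp.2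
      have h5 : 0 < Real.log T := Real.log_pos h3
      nlinarith
    have h5 : Real.log T ≤ T := by
      have := Real.log_le_sub_one_of_pos hT0
      linarith
    have h6 : T ^ (-3 : ℝ) = 1 / T ^ 3 := by
      rw [Real.rpow_neg hT0.le, one_div]
      norm_num
    calc C * (T * Real.log T) * Real.exp (-(Real.log T ^ 2 / 8)) ≤ T * (T * T) * T ^ (-3 : ℝ) := by
          gcongr
      _ = 1 := by
          rw [h6]
          field_simp
  obtain ⟨T2, hT2⟩ := Filter.eventually_atTop.1 ev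
  refine ⟨max T1 T2, hT1.trans (le_max_left _ _), fun T hT t t' ht => ?_⟩
  obtain ⟨hL4, hev⟩ := hT2 T ((le_max_right _ _).trans hT)
  have hTT1 : T1 ≤ T := (le_max_left _ _).trans hT
  have hT10 : 10 ≤ T := hT1.trans hTT1
  have hT1' : (1 : ℝ) ≤ T := by linarith
  set L := Real.log T with hL
  have hL0 : 0 < L := by linarith
  rw [SP.ExpAux.Mk_eq hT1' 1 t, SP.ExpAux.Mk_eq hT1' 1 t']
  have hsum : ∑ s ∈ (SP.ExpAux.ZZ_finite hT1').toFinset, (mu s : ℝ) ≤ C * (T * L) := by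
    rw [← finsum_mem_eq_finite_toFinset_sum _ (SP.ExpAux.ZZ_finite hT1')]
    exact hcount T hTT1
  calc ∑ s ∈ (SP.ExpAux.ZZ_finite hT1').toFinset,
        (mu s : ℝ) * Real.exp (-(s.im - t) ^ 2 / 2) / (1 + (L * (s.im - t) / 1) ^ 2)
      ≤ ∑ s ∈ (SP.ExpAux.ZZ_finite hT1').toFinset,
        (9 * ((mu s : ℝ) * Real.exp (-(s.im - t') ^ 2 / 2) / (1 + (L * (s.im - t') / 1) ^ 2)) +
          (mu s : ℝ) * Real.exp (-(L ^ 2 / 8))) := by
        refine Finset.sum_le_sum fun s _ => ?_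
        have hmu : (0 : ℝ) ≤ (mu s : ℝ) := by positivity
        rcases le_or_gt |s.im - t'| L with hx | hx
        · have h1 := mk_term L (s.im - t') (t' - t) hL4 (by rw [abs_sub_comm]; exact ht) hx
          have e1 : s.im - t' + (t' - t) = s.im - t := by ring
          rw [e1] at h1
          have h2 := mul_le_mul_of_nonneg_left h1 hmu
          have h3 : 0 ≤ (mu s : ℝ) * Real.exp (-(L ^ 2 / 8)) := by positivity
          calc (mu s : ℝ) * Real.exp (-(s.im - t) ^ 2 / 2) / (1 + (L * (s.im - t) / 1) ^ 2)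
              = (mu s : ℝ) * (Real.exp (-(s.im - t) ^ 2 / 2) / (1 + (L * (s.im - t) / 1) ^ 2)) := by
                ring
            _ ≤ _ := h2
            _ = 9 * ((mu s : ℝ) * Real.exp (-(s.im - t') ^ 2 / 2) /
                  (1 + (L * (s.im - t') / 1) ^ 2)) := by ring
            _ ≤ _ := by linarith
        · have h1 : L / 2 ≤ |s.im - t| := by
            have h4 : |s.im - t'| ≤ |s.im - t| + |t - t'| := by
              have := abs_add_le (s.im - t) (t - t')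
              rwa [show s.im - t + (t - t') = s.im - t' by ring] at this
            have h5 : 1 / L ≤ 1 := by
              rw [div_le_one hL0]
              linarith
            linarith
          have h2 : L ^ 2 / 4 ≤ (s.im - t) ^ 2 := by
            rw [← sq_abs (s.im - t)]
            have := mul_self_le_mul_self (by positivity) h1
            nlinarith
          have h3 : Real.exp (-(s.im - t) ^ 2 / 2) ≤ Real.exp (-(L ^ 2 / 8)) := by
            apply Real.exp_le_exp.2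
            linarith
          have h4 : (mu s : ℝ) * Real.exp (-(s.im - t) ^ 2 / 2) / (1 + (L * (s.im - t) / 1) ^ 2) ≤
              (mu s : ℝ) * Real.exp (-(L ^ 2 / 8)) := by
            refine le_trans (div_le_self (by positivity) ?_) (by gcongr)
            nlinarith [sq_nonneg (L * (s.im - t) / 1)]
          have h5 : 0 ≤ (mu s : ℝ) * Real.exp (-(s.im - t') ^ 2 / 2) /
              (1 + (L * (s.im - t') / 1) ^ 2) := by positivity
          linarith
    _ = 9 * (∑ s ∈ (SP.ExpAux.ZZ_finite hT1').toFinset,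
          (mu s : ℝ) * Real.exp (-(s.im - t') ^ 2 / 2) / (1 + (L * (s.im - t') / 1) ^ 2)) +
        (∑ s ∈ (SP.ExpAux.ZZ_finite hT1').toFinset, (mu s : ℝ)) * Real.exp (-(L ^ 2 / 8)) := by
        rw [Finset.sum_add_distrib, Finset.mul_sum, Finset.sum_mul]
    _ ≤ _ := by
        have h1 := mul_le_mul_of_nonneg_right hsum (Real.exp_pos (-(L ^ 2 / 8))).le
        linarith

theorem qn_eq (P : Par) (B1 : ℕ) (T t : ℝ) : Qn P B1 T t =
    ∑ n ∈ Finset.range (B1 + 1), qq (PS P T) (Eb P T) (LG.MomA.ww P 1 T t) n := by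
  have h0 : (∅ : Finset ℕ) ∈ fam P B1 T := by
    rw [mem_fam]
    simp
  have h1 := LG.MomA.DC_eq P B1 1 (fun _ => 1) T t ∅ h0
  have h2 : LG.MomA.DC P B1 1 (fun _ => 1) T t ∅ = Qn P B1 T t := by
    unfold LG.MomA.DC Qn PP
    rw [Finset.filter_true_of_mem (fun A _ => Finset.empty_subset A)]
    refine Finset.sum_congr rfl fun A hA => ?_
    rw [LG.MomA.zz_eq (mem_fam.1 hA).1]
    congr 2
    unfold LG.ae av
    rw [one_mul]
  rw [← h2, h1]
  have h3 : LG.MomA.en P T ∅ = 0 := by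
    unfold LG.MomA.en
    simp
  rw [h3]
  simp

/-- the resonator is bounded by a power of the local number of zeros -/
theorem qn_bound (hRH : RHs) {P : Par} {B0 B1 : ℕ} {δ : ℝ} (hP : Dat P B0 B1 δ) :
    ∃ C T0 : ℝ, 1 ≤ C ∧ 10 ≤ T0 ∧ ∀ T : ℝ, T0 ≤ T → ∀ t : ℝ,
    T + 2 * Real.log T ≤ t → t ≤ 2 * T - 2 * Real.log T →
    ‖Qn P B1 T t‖ ≤ C * (1 + Mk T 1 t) ^ B1 := by
  obtain ⟨K, T1, hK, hT1, h1⟩ := LG.MomA.tt_bound hRH P B0 hP.hB 1 one_pos
  refine ⟨(B1 + 1) * K ^ B1, T1, ?_, hT1, ?_⟩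
  · have h2 : 1 ≤ K ^ B1 := one_le_pow₀ hK
    have h3 : (0 : ℝ) ≤ B1 := by positivity
    nlinarith
  intro T hT t ht ht'
  set M := Mk T 1 t with hM
  have hM0 : 0 ≤ M := SP.DpB_Mk_nonneg _ _ _
  have hKM : 1 ≤ K * (1 + M) := by nlinarith
  have hE : ∀ p ∈ PS P T, 1 ≤ Eb P T p := by
    intro p hp
    have := (LG.MomA.prime_of_mem hp).2
    omega
  obtain ⟨hq0, hq⟩ := SP.newton (PS P T) (Eb P T) hE (LG.MomA.ww P 1 T t)
  have h0 : (∅ : Finset ℕ) ∈ fam P B0 T := by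
    rw [mem_fam]
    simp
  have hqn := SP.DpB.newton_growth (qq (PS P T) (Eb P T) (LG.MomA.ww P 1 T t))
      (tt (PS P T) (Eb P T) (LG.MomA.ww P 1 T t)) (K * (1 + M)) hKM B1 hq0
      (fun m hm hmB => by
        have := h1 T hT t ht ht' ∅ h0 m hm (hmB.trans hP.hB1)
        rwa [Finset.sdiff_empty] at this) hq
  rw [qn_eq]
  calc _ ≤ ∑ n ∈ Finset.range (B1 + 1), ‖qq (PS P T) (Eb P T) (LG.MomA.ww P 1 T t) n‖ :=
        norm_sum_le _ _
    _ ≤ ∑ n ∈ Finset.range (B1 + 1), (K * (1 + M)) ^ B1 := by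
      apply Finset.sum_le_sum
      intro n hn
      rw [Finset.mem_range] at hn
      exact le_trans (hqn n (by omega)) (pow_le_pow_right₀ hKM (by omega))
    _ = (B1 + 1) * K ^ B1 * (1 + M) ^ B1 := by
      rw [Finset.sum_const, Finset.card_range, nsmul_eq_mul, mul_pow]
      push_cast
      ring

end Pool.Agent.V7H88.DZ
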