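import Pool.Agent.V7H88.DZ.H1

/-! Fourth moments over the zeros. -/

set_option autoImplicit false

open Complex Filter Topology Set MeasureTheory

namespace Pool.Agent.V7H88.DZ

open SG (hh nn dd dl ord NZ)
open SP (RHs ZZ mu wt Mk Ya Par Eb PS chi qq tt)
open LG (fam nA yp prs QT tm IsQ)

theorem wt_near (t0 D x y h K : ℝ) (hD : 0 < D) (hxy : |x - y| ≤ h)
    (hx : |x - t0| ≤ K) (hy : |y - t0| ≤ K) :
    wt t0 D x ≤ Real.exp (h * K / D ^ 2) * wt t0 D y := by
  unfold wt
  rw [← Real.exp_add, Real.exp_le_exp]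
  have h1 : (y - t0) ^ 2 - (x - t0) ^ 2 ≤ 2 * (h * K) := by
    have e : (y - t0) ^ 2 - (x - t0) ^ 2 = (y - x) * ((y - t0) + (x - t0)) := by ring
    rw [e]
    have h0 : 0 ≤ h := (abs_nonneg _).trans hxy
    have hK : 0 ≤ K := (abs_nonneg _).trans hx
    calc (y - x) * ((y - t0) + (x - t0)) ≤ |y - x| * |(y - t0) + (x - t0)| := by
          rw [← abs_mul]
          exact le_abs_self _
      _ ≤ h * (2 * K) := by
          have h2 : |(y - t0) + (x - t0)| ≤ 2 * K := by
            have := abs_add_le (y - t0) (x - t0)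
            linarith
          rw [abs_sub_comm y x]
          gcongr
      _ = 2 * (h * K) := by ring
  have h3 : ((y - t0) ^ 2 - (x - t0) ^ 2) / (2 * D ^ 2) ≤ 2 * (h * K) / (2 * D ^ 2) := by gcongr
  have e1 : 2 * (h * K) / (2 * D ^ 2) = h * K / D ^ 2 := by field_simp
  rw [e1, sub_div] at h3
  have e2 : -(x - t0) ^ 2 / (2 * D ^ 2) = -((x - t0) ^ 2 / (2 * D ^ 2)) := by ring
  have e3 : -(y - t0) ^ 2 / (2 * D ^ 2) = -((y - t0) ^ 2 / (2 * D ^ 2)) := by ring
  rw [e2, e3]
  linarith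

theorem wt_mono (t0 D D' x : ℝ) (hD : 0 < D) (h : D ≤ D') : wt t0 D x ≤ wt t0 D' x := by
  unfold wt
  rw [Real.exp_le_exp, neg_div, neg_div, neg_le_neg_iff]
  gcongr

theorem wt_scale (t0 D x r c : ℝ) (hr : 0 < r) : wt t0 (D / r) x = wt (r * t0 + c) D (r * x + c) := by
  unfold wt
  congr 1
  have e : r * x + c - (r * t0 + c) = r * (x - t0) := by ring
  rw [e, mul_pow, div_pow]
  rcases eq_or_ne D 0 with h | h
  · simp [h]
  · field_simp

/-- facts about the windows -/
theorem ev_win (κ r c : ℝ) (hκ : 0 < κ) (hκ1 : κ < 1 / 2) (hr : 1 < r) (hr3 : r < 3) :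
    ∃ T0 : ℝ, 100 ≤ T0 ∧ ∀ T : ℝ, T0 ≤ T → 4 ≤ Real.log T ∧ Real.log T ≤ Real.log (r * T) ∧
    Real.log (r * T) ≤ 2 * Real.log T ∧ 1000 * Real.log T + 1000 * (|c| + 1) ≤ T ∧
    dd κ T / 3 ≤ dd κ (r * T) / r ∧ dd κ (r * T) / r ≤ dd κ T ∧ 1000 * T ≤ dd κ T ^ 2 ∧
    0 < dd κ T := by
  have h1 := Real.isLittleO_log_id_atTop
  rw [Asymptotics.isLittleO_iff] at h1
  have h3 : 0 < 1 - κ := by linarith
  have ev : ∀ᶠ T : ℝ in atTop, 100 ≤ T ∧ 4 ≤ Real.log T ∧ Real.log r ≤ Real.log T ∧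
      2000 * Real.log T ≤ T ∧ 2000 * (|c| + 1) ≤ T ∧ 1000 ≤ T ^ (1 - κ) := by
    filter_upwards [eventually_ge_atTop 100, Real.tendsto_log_atTop.eventually_ge_atTop 4,
      Real.tendsto_log_atTop.eventually_ge_atTop (Real.log r),
      h1 (show (0 : ℝ) < 1 / 2000 by norm_num), eventually_ge_atTop (2000 * (|c| + 1)),
      (tendsto_rpow_atTop h3).eventually_ge_atTop 1000] with T x1 x2 x3 x4 x5 x6
    simp only [id] at x4
    rw [Real.norm_of_nonneg (by linarith), Real.norm_of_nonneg (by linarith)] at x4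
    exact ⟨x1, x2, x3, by linarith, x5, x6⟩
  obtain ⟨T0, hT0⟩ := Filter.eventually_atTop.1 ev
  refine ⟨max T0 100, le_max_right _ _, fun T hT => ?_⟩
  obtain ⟨x1, x2, x3, x4, x5, x6⟩ := hT0 T ((le_max_left _ _).trans hT)
  have hTp : 0 < T := by linarith
  have hr0 : 0 < r := by linarith
  have e1 : Real.log (r * T) = Real.log r + Real.log T := Real.log_mul hr0.ne' hTp.ne'
  have hlr : 0 ≤ Real.log r := Real.log_nonneg hr.le
  have hd : dd κ (r * T) / r = r ^ (-(κ / 2)) * dd κ T := by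
    unfold dd
    rw [Real.mul_rpow hr0.le hTp.le]
    have : r ^ (1 - κ / 2) = r ^ (-(κ / 2)) * r := by
      rw [← Real.rpow_add_one hr0.ne']
      congr 1
      ring
    rw [this]
    field_simp
  have hdp : 0 < dd κ T := by
    unfold dd
    positivity
  refine ⟨x2, by rw [e1]; linarith, by rw [e1]; linarith, by linarith, ?_, ?_, ?_, hdp⟩
  · rw [hd]
    have h4 : 1 / 3 ≤ r ^ (-(κ / 2)) := by
      calc (1 : ℝ) / 3 ≤ 1 / r := by gcongr
        _ = r ^ (-1 : ℝ) := by rw [Real.rpow_neg_one, one_div]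
        _ ≤ r ^ (-(κ / 2)) := Real.rpow_le_rpow_of_exponent_le hr.le (by linarith)
    have := mul_le_mul_of_nonneg_right h4 hdp.le
    linarith
  · rw [hd]
    have h4 : r ^ (-(κ / 2)) ≤ 1 := Real.rpow_le_one_of_one_le_of_nonpos hr.le (by linarith)
    have := mul_le_mul_of_nonneg_right h4 hdp.le
    linarith
  · have h5 : dd κ T ^ 2 = T ^ (1 - κ) * T := by
      unfold dd
      rw [← Real.rpow_natCast, ← Real.rpow_mul hTp.le, ← Real.rpow_add_one hTp.ne']
      congr 1
      push_cast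
      ring
    rw [h5]
    have := mul_le_mul_of_nonneg_right x6 hTp.le
    linarith

/-- the exponential moment of the local numbers of zeros at the two heights -/
theorem mom_cont (hRH : RHs) (κ : ℝ) (hκ : 0 < κ) (hκ1 : κ < 1 / 2) (r c q : ℝ) (hr : 1 < r)
    (hr3 : r < 3) (hq : 0 < q) : ∃ C T0 : ℝ, 0 < C ∧ 100 ≤ T0 ∧ ∀ T : ℝ, T0 ≤ T → ∀ t0 : ℝ,
    ∫ t in (T + T / 50)..(2 * T - T / 50), wt t0 (dd κ (r * T) / r) t *
      (Real.exp (q * Mk T 1 t) * Real.exp (q * Mk (r * T) 1 (r * t + c))) ≤ C * dd κ T := by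
  obtain ⟨C1, T1, hC1, hT1, h1⟩ := SP.exp_main hRH κ 1 (2 * q) hκ hκ1 one_pos (by positivity)
  obtain ⟨T2, hT2, h2⟩ := ev_win κ r c hκ hκ1 hr hr3
  refine ⟨C1 + C1, max T1 T2, by positivity, hT2.trans (le_max_right _ _), fun T hT t0 => ?_⟩
  have hTT1 : T1 ≤ T := (le_max_left _ _).trans hT
  obtain ⟨w1, w2, w3, w4, w5, w6, w7, w8⟩ := h2 T ((le_max_right _ _).trans hT)
  have hT100 : 100 ≤ T := hT2.trans ((le_max_right _ _).trans hT)
  have hr0 : 0 < r := by linarith
  have hTp : 0 < T := by linarith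
  have hrT : T ≤ r * T := by nlinarith
  have hc0 : 0 ≤ |c| := abs_nonneg c
  have hc1 : -|c| ≤ c := neg_abs_le c
  have hc2 : c ≤ |c| := le_abs_self c
  have hV : T + T / 50 ≤ 2 * T - T / 50 := by linarith
  have hd' : 0 < dd κ (r * T) := by
    unfold dd
    positivity
  have hdr : 0 < dd κ (r * T) / r := by positivity
  have m1 := h1 T hTT1 t0 (T + T / 50) (2 * T - T / 50) hV (by linarith) (by linarith)
  have m2 := h1 (r * T) (hTT1.trans hrT) (r * t0 + c) (r * (T + T / 50) + c)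
    (r * (2 * T - T / 50) + c) (by nlinarith) (by nlinarith) (by nlinarith)
  have hT1' : (1 : ℝ) ≤ T := by linarith
  have hX1' : (1 : ℝ) ≤ r * T := by linarith
  have c1 := SP.ExpAux.Mk_cont hT1' 1
  have c2 := SP.ExpAux.Mk_cont hX1' 1
  have c3 := SP.ExpAux.Ya_cont hT1' one_pos
  have c4 := SP.ExpAux.Ya_cont hX1' one_pos
  have cw : ∀ a b : ℝ, Continuous (wt a b) := SP.ExpAux.wt_cont
  have cc : Continuous (fun t : ℝ => r * t + c) := by fun_prop
  have e0 : ∫ t in (T + T / 50)..(2 * T - T / 50), wt (r * t0 + c) (dd κ (r * T)) (r * t + c) *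
      Real.exp (2 * q * (‖Ya (r * T) 1 (r * t + c)‖ + Mk (r * T) 1 (r * t + c))) =
      r⁻¹ * ∫ u in (r * (T + T / 50) + c)..(r * (2 * T - T / 50) + c),
        wt (r * t0 + c) (dd κ (r * T)) u *
        Real.exp (2 * q * (‖Ya (r * T) 1 u‖ + Mk (r * T) 1 u)) := by
    have := intervalIntegral.integral_comp_mul_add (a := T + T / 50) (b := 2 * T - T / 50)
      (fun u => wt (r * t0 + c) (dd κ (r * T)) u *
        Real.exp (2 * q * (‖Ya (r * T) 1 u‖ + Mk (r * T) 1 u))) hr0.ne' c
    simpa [smul_eq_mul] using this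
  have cf : Continuous fun t => wt t0 (dd κ (r * T) / r) t *
      (Real.exp (q * Mk T 1 t) * Real.exp (q * Mk (r * T) 1 (r * t + c))) :=
    (cw _ _).mul ((Real.continuous_exp.comp (continuous_const.mul c1)).mul
      (Real.continuous_exp.comp (continuous_const.mul (c2.comp cc))))
  have cg1 : Continuous fun t => wt t0 (dd κ T) t *
      Real.exp (2 * q * (‖Ya T 1 t‖ + Mk T 1 t)) :=
    (cw _ _).mul (Real.continuous_exp.comp (continuous_const.mul (c3.norm.add c1)))
  have cg2 : Continuous fun t => wt (r * t0 + c) (dd κ (r * T)) (r * t + c) *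
      Real.exp (2 * q * (‖Ya (r * T) 1 (r * t + c)‖ + Mk (r * T) 1 (r * t + c))) :=
    ((cw _ _).comp cc).mul (Real.continuous_exp.comp (continuous_const.mul
      ((c4.comp cc).norm.add (c2.comp cc))))
  calc _ ≤ ∫ t in (T + T / 50)..(2 * T - T / 50), (wt t0 (dd κ T) t *
        Real.exp (2 * q * (‖Ya T 1 t‖ + Mk T 1 t)) +
        wt (r * t0 + c) (dd κ (r * T)) (r * t + c) *
          Real.exp (2 * q * (‖Ya (r * T) 1 (r * t + c)‖ + Mk (r * T) 1 (r * t + c)))) := by
        refine intervalIntegral.integral_mono_on hV (cf.intervalIntegrable _ _)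
          ((cg1.add cg2).intervalIntegrable _ _) fun t _ => ?_
        set a := Mk T 1 t with ha
        set b := Mk (r * T) 1 (r * t + c) with hb
        have hwn : 0 ≤ wt t0 (dd κ (r * T) / r) t := (Real.exp_pos _).le
        have k1 : wt t0 (dd κ (r * T) / r) t ≤ wt t0 (dd κ T) t := wt_mono _ _ _ _ hdr w6
        have k2 : wt t0 (dd κ (r * T) / r) t = wt (r * t0 + c) (dd κ (r * T)) (r * t + c) :=
          wt_scale _ _ _ _ _ hr0
        have k3 : Real.exp (q * a) * Real.exp (q * b) ≤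
            Real.exp (2 * q * a) + Real.exp (2 * q * b) := by
          have e1 : Real.exp (2 * q * a) = Real.exp (q * a) ^ 2 := by
            rw [← Real.exp_nat_mul]
            congr 1
            push_cast
            ring
          have e2 : Real.exp (2 * q * b) = Real.exp (q * b) ^ 2 := by
            rw [← Real.exp_nat_mul]
            congr 1
            push_cast
            ring
          rw [e1, e2]
          nlinarith [sq_nonneg (Real.exp (q * a) - Real.exp (q * b)),
            sq_nonneg (Real.exp (q * a)), sq_nonneg (Real.exp (q * b))]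
        have k4 : Real.exp (2 * q * a) ≤ Real.exp (2 * q * (‖Ya T 1 t‖ + a)) := by
          apply Real.exp_le_exp.2
          have := norm_nonneg (Ya T 1 t)
          nlinarith
        have k5 : Real.exp (2 * q * b) ≤
            Real.exp (2 * q * (‖Ya (r * T) 1 (r * t + c)‖ + b)) := by
          apply Real.exp_le_exp.2
          have := norm_nonneg (Ya (r * T) 1 (r * t + c))
          nlinarith
        calc wt t0 (dd κ (r * T) / r) t * (Real.exp (q * a) * Real.exp (q * b))
            ≤ wt t0 (dd κ (r * T) / r) t * (Real.exp (2 * q * a) + Real.exp (2 * q * b)) :=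
              mul_le_mul_of_nonneg_left k3 hwn
          _ = wt t0 (dd κ (r * T) / r) t * Real.exp (2 * q * a) +
              wt t0 (dd κ (r * T) / r) t * Real.exp (2 * q * b) := by ring
          _ ≤ wt t0 (dd κ T) t * Real.exp (2 * q * (‖Ya T 1 t‖ + a)) +
              wt t0 (dd κ (r * T) / r) t *
                Real.exp (2 * q * (‖Ya (r * T) 1 (r * t + c)‖ + b)) :=
              add_le_add (mul_le_mul k1 k4 (Real.exp_pos _).le (Real.exp_pos _).le)
                (mul_le_mul_of_nonneg_left k5 hwn)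
          _ = _ := by rw [k2]
    _ = (∫ t in (T + T / 50)..(2 * T - T / 50), wt t0 (dd κ T) t *
        Real.exp (2 * q * (‖Ya T 1 t‖ + Mk T 1 t))) + r⁻¹ *
          ∫ u in (r * (T + T / 50) + c)..(r * (2 * T - T / 50) + c),
        wt (r * t0 + c) (dd κ (r * T)) u *
        Real.exp (2 * q * (‖Ya (r * T) 1 u‖ + Mk (r * T) 1 u)) := by
        rw [intervalIntegral.integral_add (cg1.intervalIntegrable _ _)
          (cg2.intervalIntegrable _ _), e0]
    _ ≤ C1 * dd κ T + r⁻¹ * (C1 * dd κ (r * T)) :=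
        add_le_add m1 (mul_le_mul_of_nonneg_left m2 (by positivity))
    _ ≤ (C1 + C1) * dd κ T := by
        have : r⁻¹ * (C1 * dd κ (r * T)) = C1 * (dd κ (r * T) / r) := by
          field_simp
        rw [this]
        nlinarith

end Pool.Agent.V7H88.DZ
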