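import Pool.Agent.V7H88.DZ.H2

/-! Matching of zeros: the combinatorial and the Sobolev part. -/

set_option autoImplicit false

open Complex Filter Topology Set MeasureTheory

namespace Pool.Agent.V7H88.DZ

open SG (hh nn dd dl ord NZ)
open SP (RHs ZZ mu wt Mk Ya Par Eb PS chi qq tt)
open LG (fam nA yp prs QT tm IsQ)

/-- sums over points with multiplicities under an injective map of the copies -/
theorem match_sum (A B : Finset ℂ) (m : ℂ → ℕ) (σ : ℂ × ℕ → ℂ × ℕ) (f g e : ℂ → ℝ)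
    (hg : ∀ s ∈ B, 0 ≤ g s)
    (hinj : ∀ s ∈ A, ∀ j < m s, ∀ s' ∈ A, ∀ j' < m s', σ (s, j) = σ (s', j') → s = s' ∧ j = j')
    (hσ : ∀ s ∈ A, ∀ j < m s, (σ (s, j)).1 ∈ B ∧ (σ (s, j)).2 < m (σ (s, j)).1 ∧
      f s ≤ g (σ (s, j)).1 + e s) :
    ∑ s ∈ A, (m s : ℝ) * f s ≤ ∑ s ∈ B, (m s : ℝ) * g s + ∑ s ∈ A, (m s : ℝ) * e s := by
  classical
  have h1 : ∀ (E : Finset ℂ) (u : ℂ → ℝ), ∑ s ∈ E, (m s : ℝ) * u s =
      ∑ p ∈ E.sigma (fun s => Finset.range (m s)), u p.1 := by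
    intro E u
    rw [Finset.sum_sigma]
    refine Finset.sum_congr rfl fun s _ => ?_
    simp
  rw [h1, h1, h1]
  set AS := A.sigma (fun s => Finset.range (m s)) with hAS
  set BS := B.sigma (fun s => Finset.range (m s)) with hBS
  have hmemA : ∀ p ∈ AS, p.1 ∈ A ∧ p.2 < m p.1 := by
    intro p hp
    rw [hAS, Finset.mem_sigma, Finset.mem_range] at hp
    exact hp
  set φ : (Σ _ : ℂ, ℕ) → (Σ _ : ℂ, ℕ) := fun p => ⟨(σ (p.1, p.2)).1, (σ (p.1, p.2)).2⟩ with hφ
  have hφB : ∀ p ∈ AS, φ p ∈ BS := by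
    intro p hp
    obtain ⟨k1, k2⟩ := hmemA p hp
    obtain ⟨k3, k4, -⟩ := hσ p.1 k1 p.2 k2
    rw [hBS, Finset.mem_sigma, Finset.mem_range]
    exact ⟨k3, k4⟩
  have hφi : Set.InjOn φ AS := by
    rintro ⟨s, j⟩ hp ⟨s', j'⟩ hp' h
    obtain ⟨k1, k2⟩ := hmemA _ hp
    obtain ⟨k3, k4⟩ := hmemA _ hp'
    simp only [hφ, Sigma.mk.injEq, heq_eq_eq] at h
    obtain ⟨k5, k6⟩ := hinj s k1 j k2 s' k3 j' k4 (Prod.ext h.1 h.2)
    rw [k5, k6]
  have h2 : ∑ p ∈ AS, g (φ p).1 ≤ ∑ p ∈ BS, g p.1 := by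
    rw [← Finset.sum_image (f := fun p : (Σ _ : ℂ, ℕ) => g p.1) hφi]
    refine Finset.sum_le_sum_of_subset_of_nonneg ?_ fun p hp _ => ?_
    · intro p hp
      rw [Finset.mem_image] at hp
      obtain ⟨p', hp', rfl⟩ := hp
      exact hφB p' hp'
    · rw [hBS, Finset.mem_sigma] at hp
      exact hg _ hp.1
  calc ∑ p ∈ AS, f p.1 ≤ ∑ p ∈ AS, (g (φ p).1 + e p.1) := by
        refine Finset.sum_le_sum fun p hp => ?_
        obtain ⟨k1, k2⟩ := hmemA p hp
        exact (hσ p.1 k1 p.2 k2).2.2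
    _ = ∑ p ∈ AS, g (φ p).1 + ∑ p ∈ AS, e p.1 := Finset.sum_add_distrib
    _ ≤ _ := by linarith

/-- the derivative of a trigonometric polynomial -/
theorem PP_deriv {ι : Type*} (F : Finset ι) (c : ι → ℂ) (l : ι → ℝ) (t : ℝ) :
    HasDerivAt (PP F c l) (I * PP F (fun i => c i * (l i : ℂ)) l t) t := by
  unfold PP
  have h : ∀ i ∈ F, HasDerivAt (fun t : ℝ => c i * cexp (I * ((t * l i : ℝ) : ℂ)))
      (c i * (cexp (I * ((t * l i : ℝ) : ℂ)) * (I * (l i : ℂ)))) t := by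
    intro i _
    have h1 : HasDerivAt (fun t : ℝ => I * ((t * l i : ℝ) : ℂ)) (I * (l i : ℂ)) t := by
      have h2 : HasDerivAt (fun t : ℝ => ((t * l i : ℝ) : ℂ)) (l i : ℂ) t := by
        have := ((hasDerivAt_id t).mul_const (l i)).ofReal_comp
        simpa using this
      exact h2.const_mul I
    exact (h1.cexp).const_mul (c i)
  have := HasDerivAt.fun_sum h
  refine this.congr_deriv ?_
  rw [Finset.mul_sum]
  refine Finset.sum_congr rfl fun i _ => ?_
  ring

theorem cs_int (f : ℝ → ℝ) (hf : Continuous f) (h : ℝ) (hh : 0 < h) :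
    (∫ x in (-h)..h, f x) ^ 2 ≤ 2 * h * ∫ x in (-h)..h, f x ^ 2 := by
  set m := ∫ x in (-h)..h, f x with hm
  set a := m / (2 * h) with ha
  have i1 : IntervalIntegrable (fun x => f x ^ 2 - 2 * a * f x) volume (-h) h :=
    Continuous.intervalIntegrable (by fun_prop) _ _
  have i2 : IntervalIntegrable (fun x => f x ^ 2) volume (-h) h :=
    Continuous.intervalIntegrable (by fun_prop) _ _
  have i3 : IntervalIntegrable (fun x => 2 * a * f x) volume (-h) h :=
    Continuous.intervalIntegrable (by fun_prop) _ _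
  have i4 : IntervalIntegrable (fun _ : ℝ => a ^ 2) volume (-h) h :=
    Continuous.intervalIntegrable (by fun_prop) _ _
  have k0 : 0 ≤ ∫ x in (-h)..h, (f x - a) ^ 2 :=
    intervalIntegral.integral_nonneg (by linarith) fun x _ => sq_nonneg _
  have k1 : ∫ x in (-h)..h, (f x - a) ^ 2 = (∫ x in (-h)..h, f x ^ 2) - 2 * a * m +
      2 * h * a ^ 2 := by
    calc ∫ x in (-h)..h, (f x - a) ^ 2 = ∫ x in (-h)..h, ((f x ^ 2 - 2 * a * f x) + a ^ 2) :=
          intervalIntegral.integral_congr fun x _ => by ring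
      _ = (∫ x in (-h)..h, (f x ^ 2 - 2 * a * f x)) + ∫ _x in (-h)..h, a ^ 2 :=
          intervalIntegral.integral_add i1 i4
      _ = ((∫ x in (-h)..h, f x ^ 2) - ∫ x in (-h)..h, 2 * a * f x) + ∫ _x in (-h)..h, a ^ 2 := by
          rw [intervalIntegral.integral_sub i2 i3]
      _ = _ := by
          rw [intervalIntegral.integral_const_mul, intervalIntegral.integral_const, smul_eq_mul]
          ring
  rw [k1] at k0
  have k2 : m = 2 * h * a := by
    rw [ha]
    field_simp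
  have k3 : 0 ≤ (∫ x in (-h)..h, f x ^ 2) - 2 * h * a ^ 2 := by
    have : (∫ x in (-h)..h, f x ^ 2) - 2 * a * m + 2 * h * a ^ 2 =
        (∫ x in (-h)..h, f x ^ 2) - 2 * h * a ^ 2 := by
      rw [k2]
      ring
    rwa [this] at k0
  have k4 : m ^ 2 = 2 * h * (2 * h * a ^ 2) := by
    rw [k2]
    ring
  rw [k4]
  exact mul_le_mul_of_nonneg_left (by linarith) (by positivity)

/-- the Sobolev inequality -/
theorem PP_sob {ι : Type*} (F : Finset ι) (c : ι → ℂ) (l : ι → ℝ) (t v h : ℝ) (hh : 0 < h)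
    (hv : |v - t| ≤ h) :
    ‖PP F c l t - PP F c l v‖ ^ 2 ≤
      2 * h * ∫ x in (-h)..h, ‖PP F (fun i => c i * (l i : ℂ)) l (t + x)‖ ^ 2 := by
  set G := PP F (fun i => c i * (l i : ℂ)) l with hG
  have hGc : Continuous G := PP_cont _ _ _
  have hGc' : Continuous fun x => ‖G (t + x)‖ := by fun_prop
  have h1 : PP F c l v - PP F c l t = ∫ x in (0 : ℝ)..(v - t), I * G (t + x) := by
    have h2 : PP F c l v - PP F c l t = ∫ x in t..v, I * G x := by
      rw [intervalIntegral.integral_eq_sub_of_hasDerivAt (fun x _ => PP_deriv F c l x)]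
      exact (continuous_const.mul hGc).intervalIntegrable _ _
    rw [h2, intervalIntegral.integral_comp_add_left (fun x => I * G x) t]
    congr 1 <;> ring
  have h2 : ‖PP F c l v - PP F c l t‖ ≤ ∫ x in (-h)..h, ‖G (t + x)‖ := by
    rw [h1]
    refine intervalIntegral.norm_integral_le_integral_norm_uIoc.trans ?_
    rw [intervalIntegral.integral_of_le (by linarith)]
    have e1 : ∀ x : ℝ, ‖I * G (t + x)‖ = ‖G (t + x)‖ := fun x => by
      rw [norm_mul, Complex.norm_I, one_mul]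
    simp_rw [e1]
    refine setIntegral_mono_set ?_ (Filter.Eventually.of_forall fun x => norm_nonneg _) ?_
    · exact (hGc'.integrableOn_Icc (a := -h) (b := h)).mono_set Ioc_subset_Icc_self
    · apply HasSubset.Subset.eventuallyLE
      have h3 := abs_le.1 hv
      rw [uIoc]
      apply Ioc_subset_Ioc
      · exact le_min (by linarith) h3.1
      · exact max_le hh.le h3.2
  rw [norm_sub_rev]
  calc ‖PP F c l v - PP F c l t‖ ^ 2 ≤ (∫ x in (-h)..h, ‖G (t + x)‖) ^ 2 :=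
        pow_le_pow_left₀ (norm_nonneg _) h2 2
    _ ≤ _ := cs_int _ hGc' h hh

end Pool.Agent.V7H88.DZ
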