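import Pool.Agent.V7H88.DZ.G3
import Pool.Agent.V7H88.DZ.I1

/-! The error sums of the comparison. -/

set_option autoImplicit false

open Complex Filter Topology Set MeasureTheory

namespace Pool.Agent.V7H88.DZ

open SG (hh nn dd dl ord NZ)
open SP (RHs ZZ mu wt Mk Ya Par Eb PS chi qq tt)
open LG (fam nA yp prs QT tm IsQ)

/-- the derivative of the resonator up to a factor `I` -/
noncomputable def Qd (P : Par) (B1 : ℕ) (T t : ℝ) : ℂ :=
  PP (fam P B1 T) (fun A => (av P T A : ℂ) * (Real.log (nA A) : ℂ)) (fun A => Real.log (nA A)) t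

theorem Qd_cont (P : Par) (B1 : ℕ) (T : ℝ) : Continuous (Qd P B1 T) := PP_cont _ _ _

/-- change of the argument -/
theorem PP_affine {ι : Type*} (F : Finset ι) (a : ι → ℂ) (l : ι → ℝ) (r y u : ℝ) :
    PP F a l (r * u + y) = PP F (fun i => a i * cexp (I * ((y * l i : ℝ) : ℂ)))
      (fun i => r * l i) u := by
  unfold PP
  refine Finset.sum_congr rfl fun i _ => ?_
  rw [mul_assoc, ← Complex.exp_add]
  congr 2
  push_cast
  ring

theorem ZZ_toF {T : ℝ} (hT : 1 ≤ T) (f : ℂ → ℝ) :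
    ∑ᶠ s ∈ ZZ T, f s = ∑ s ∈ (ZZ_fin hT).toFinset, f s :=
  finsum_mem_eq_finite_toFinset_sum _ (ZZ_fin hT)

/-- mean square of the derivative over the zeros -/
theorem der_sum (hRH : RHs) {P : Par} {B0 B1 : ℕ} {δ : ℝ} (hP : Dat P B0 B1 δ) (r : ℝ)
    (hr : 1 < r) (hr3 : r < 3) (hδr : δ * (r + 1) / 2 < 1 - P.κ / 2) : ∃ C T0 : ℝ, 0 < C ∧
    100 ≤ T0 ∧ ∀ T : ℝ, T0 ≤ T → ∀ t0 D y : ℝ,
    dd P.κ T / 3 ≤ D → D ≤ dd P.κ T → T + Real.log T + T / 20 ≤ t0 →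
    t0 + T / 20 ≤ 2 * T - Real.log T →
    ∑ᶠ s ∈ ZZ T, (mu s : ℝ) * (wt t0 D s.im * ‖Qd P B1 (r * T) (r * s.im + y)‖ ^ 2) ≤
      C * D * Real.log T ^ 3 := by
  obtain ⟨C1, T1, hC1, hT1, hmu⟩ := mu_gen hRH hP r hr hδr
  obtain ⟨C2, T2, hC2, hT2, hG⟩ := Gd_le P B1
  obtain ⟨T3, hT3, hav⟩ := av_facts P B1
  obtain ⟨T4, hT4, hwin⟩ := ev_win P.κ r 0 P.hκ P.hκ1 hr hr3
  have ev : ∀ᶠ T : ℝ in atTop, (2 : ℝ) ^ B1 * 2 ≤ Real.log T :=
    Real.tendsto_log_atTop.eventually_ge_atTop _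
  obtain ⟨T5, hT5⟩ := Filter.eventually_atTop.1 ev
  refine ⟨6 * C2 + 4 * (2 ^ B1) ^ 2 * C1, max (max (max T1 T2) (max T3 T4)) T5, by positivity,
    hT4.trans ((le_max_right _ _).trans ((le_max_right _ _).trans (le_max_left _ _))), ?_⟩
  intro T hT t0 D y hD1 hD2 ht1 ht2
  simp only [max_le_iff] at hT
  obtain ⟨⟨⟨hTT1, hTT2⟩, hTT3, hTT4⟩, hTT5⟩ := hT
  obtain ⟨w1, w2, w3, w4, w5, w6, w7, w8⟩ := hwin T hTT4
  have w9 := hT5 T hTT5
  have hT100 : 100 ≤ T := hT4.trans hTT4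
  have hr0 : 0 < r := by linarith
  have hTp : 0 < T := by linarith
  have hrT : T ≤ r * T := le_mul_of_one_le_left hTp.le hr.le
  have hD0 : 0 < D := by linarith
  have hδ0 := hP.hδ0
  have hδ1 : δ < 1 := by linarith [hP.hδ1, P.hκ]
  set L := Real.log T with hL
  have hL0 : 0 < L := by linarith
  set b : ℝ := 2 ^ B1 with hb
  have hb1 : 1 ≤ b := one_le_pow₀ (by norm_num)
  have hb0 : 0 < b := by linarith
  set c : Finset ℕ → ℂ := fun A => (av P (r * T) A : ℂ) * (Real.log (nA A) : ℂ) *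
    cexp (I * ((y * Real.log (nA A) : ℝ) : ℂ)) with hc
  have hlog : ∀ A ∈ fam P B1 (r * T), 0 ≤ Real.log (nA A) ∧ Real.log (nA A) ≤ 2 * L := by
    intro A hA
    have h1 := log_nA_bd2 P B1 δ (r * T) hP.hδ (by linarith) hA
    refine ⟨h1.1, h1.2.trans ?_⟩
    have h2 : δ * Real.log (r * T) ≤ 1 * Real.log (r * T) :=
      mul_le_mul_of_nonneg_right hδ1.le (by linarith)
    linarith
  have hcn : ∀ A ∈ fam P B1 (r * T), ‖c A‖ = av P (r * T) A * Real.log (nA A) := by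
    intro A hA
    rw [hc]
    simp only
    rw [norm_mul, norm_e, mul_one, norm_mul, Complex.norm_real, Complex.norm_real,
      Real.norm_of_nonneg (hav (r * T) (hTT3.trans hrT) A hA).1,
      Real.norm_of_nonneg (hlog A hA).1]
  have hcb : ∀ A ∈ fam P B1 (r * T), ‖c A‖ ≤ b * (2 * L) / Real.sqrt (nA A) := by
    intro A hA
    obtain ⟨k1, k2⟩ := hav (r * T) (hTT3.trans hrT) A hA
    obtain ⟨k3, k4⟩ := hlog A hA
    rw [hcn A hA]
    calc av P (r * T) A * Real.log (nA A) ≤ 2 ^ B1 / Real.sqrt (nA A) * (2 * L) :=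
          mul_le_mul k2 k4 k3 (by positivity)
      _ = _ := by
          rw [hb]
          ring
  have h1 := hmu T hTT1 (b * (2 * L)) (by nlinarith) (by nlinarith) c hcb t0 D hD1 hD2 ht1 ht2
  have h2 := (abs_le.1 h1).2
  have hsum : ∑ A ∈ fam P B1 (r * T), ‖c A‖ ^ 2 ≤ 4 * L ^ 2 * C2 := by
    calc ∑ A ∈ fam P B1 (r * T), ‖c A‖ ^ 2 ≤ ∑ A ∈ fam P B1 (r * T), (2 * L) ^ 2 * wA P (r * T) A := by
          refine Finset.sum_le_sum fun A hA => ?_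
          obtain ⟨k3, k4⟩ := hlog A hA
          rw [hcn A hA, mul_pow, av_sq, mul_comm]
          exact mul_le_mul_of_nonneg_right (pow_le_pow_left₀ k3 k4 2) (wA_nn _ _ _)
      _ = (2 * L) ^ 2 * Gd P B1 (r * T) := by
          unfold Gd
          rw [Finset.mul_sum]
      _ ≤ (2 * L) ^ 2 * C2 := by
          have := (hG (r * T) (hTT2.trans hrT)).1
          gcongr
      _ = _ := by ring
  have he : ∀ s : ℂ, Qd P B1 (r * T) (r * s.im + y) =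
      PP (fam P B1 (r * T)) c (fun A => r * Real.log (nA A)) s.im := by
    intro s
    unfold Qd
    rw [PP_affine]
  have hZ : ∑ᶠ s ∈ ZZ T, (mu s : ℝ) * (wt t0 D s.im * ‖Qd P B1 (r * T) (r * s.im + y)‖ ^ 2) =
      ∑ᶠ s ∈ ZZ T, (mu s : ℝ) * (wt t0 D s.im *
        ‖PP (fam P B1 (r * T)) c (fun A => r * Real.log (nA A)) s.im‖ ^ 2) := by
    refine finsum_congr fun s => finsum_congr fun _ => ?_
    rw [he s]
  rw [hZ]
  set Z := ∑ᶠ s ∈ ZZ T, (mu s : ℝ) * (wt t0 D s.im *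
        ‖PP (fam P B1 (r * T)) c (fun A => r * Real.log (nA A)) s.im‖ ^ 2) with hZd
  set S := ∑ A ∈ fam P B1 (r * T), ‖c A‖ ^ 2 with hS
  have hZ0 : 0 ≤ Z := by
    rw [hZd, ZZ_toF (by linarith : (1 : ℝ) ≤ T)]
    refine Finset.sum_nonneg fun s _ => ?_
    have : 0 ≤ wt t0 D s.im := (Real.exp_pos _).le
    positivity
  have hS0 : 0 ≤ S := Finset.sum_nonneg fun A _ => sq_nonneg _
  clear_value Z S
  clear hZ he hcb hcn hlog hmu hG hav hwin hT5 ev h1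
  have h3 : Real.sqrt (2 * Real.pi) ≤ 3 := s2pi_le
  have h4 : Real.sqrt L ≤ L := by
    rw [Real.sqrt_le_left hL0.le]
    nlinarith
  have h5 : Real.sqrt (2 * Real.pi) * D * (L / 2) * S ≤ 3 * D * (L / 2) * (4 * L ^ 2 * C2) := by
    gcongr
  have h6 : C1 * D * (b * (2 * L)) ^ 2 * Real.sqrt L ≤ C1 * D * (b * (2 * L)) ^ 2 * L := by
    gcongr
  have h7 : Z ≤ Real.pi * Z := le_mul_of_one_le_left hZ0 (by linarith [Real.pi_gt_three])
  calc Z ≤ Real.pi * Z := h7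
    _ ≤ 3 * D * (L / 2) * (4 * L ^ 2 * C2) + C1 * D * (b * (2 * L)) ^ 2 * L := by linarith
    _ = _ := by ring

/-- the Sobolev error over a set of zeros -/
theorem sob_sum (hRH : RHs) {P : Par} {B0 B1 : ℕ} {δ : ℝ} (hP : Dat P B0 B1 δ) (r c : ℝ)
    (hr : 1 < r) (hr3 : r < 3) (hδr : δ * (r + 1) / 2 < 1 - P.κ / 2) : ∃ C T0 : ℝ, 0 < C ∧
    100 ≤ T0 ∧ ∀ T : ℝ, T0 ≤ T → ∀ t0 D h : ℝ, 0 < h →
    dd P.κ T / 3 ≤ D → D ≤ dd P.κ T → T + Real.log T + T / 20 ≤ t0 →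
    t0 + T / 20 ≤ 2 * T - Real.log T → ∀ A : Finset ℂ, (∀ s ∈ A, s ∈ ZZ T) →
    ∑ s ∈ A, (mu s : ℝ) * (wt t0 D s.im * (2 * h * ∫ x in (-h)..h,
      ‖Qd P B1 (r * T) (r * s.im + c + x)‖ ^ 2)) ≤ C * h ^ 2 * D * Real.log T ^ 3 := by
  obtain ⟨C, T0, hC, hT0, hd⟩ := der_sum hRH hP r hr hr3 hδr
  refine ⟨4 * C, T0, by positivity, hT0, ?_⟩
  intro T hT t0 D h hh hD1 hD2 ht1 ht2 A hA
  have hT1 : (1 : ℝ) ≤ T := by linarith
  have hw : ∀ x : ℝ, 0 ≤ wt t0 D x := fun x => (Real.exp_pos _).le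
  have hcont : ∀ s ∈ A, Continuous (fun x : ℝ => (mu s : ℝ) * (wt t0 D s.im *
      ‖Qd P B1 (r * T) (r * s.im + c + x)‖ ^ 2)) := by
    intro s _
    have := Qd_cont P B1 (r * T)
    fun_prop
  have h1 : ∑ s ∈ A, (mu s : ℝ) * (wt t0 D s.im * (2 * h * ∫ x in (-h)..h,
      ‖Qd P B1 (r * T) (r * s.im + c + x)‖ ^ 2)) = 2 * h * ∫ x in (-h)..h, ∑ s ∈ A,
        (mu s : ℝ) * (wt t0 D s.im * ‖Qd P B1 (r * T) (r * s.im + c + x)‖ ^ 2) := by
    rw [intervalIntegral.integral_finsetSum (fun s hs => (hcont s hs).intervalIntegrable _ _),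
      Finset.mul_sum]
    refine Finset.sum_congr rfl fun s _ => ?_
    rw [intervalIntegral.integral_const_mul, intervalIntegral.integral_const_mul]
    ring
  rw [h1]
  have h2 : ∀ x : ℝ, ∑ s ∈ A, (mu s : ℝ) * (wt t0 D s.im *
      ‖Qd P B1 (r * T) (r * s.im + c + x)‖ ^ 2) ≤ C * D * Real.log T ^ 3 := by
    intro x
    refine le_trans ?_ (hd T hT t0 D (c + x) hD1 hD2 ht1 ht2)
    rw [ZZ_toF hT1]
    have h3 : A ⊆ (ZZ_fin hT1).toFinset := by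
      intro s hs
      rw [Set.Finite.mem_toFinset]
      exact hA s hs
    refine le_trans (le_of_eq (Finset.sum_congr rfl fun s _ => ?_))
      (Finset.sum_le_sum_of_subset_of_nonneg h3 fun s _ _ => ?_)
    · rw [add_assoc]
    · have := hw s.im
      positivity
  have h3 : ∫ x in (-h)..h, ∑ s ∈ A,
        (mu s : ℝ) * (wt t0 D s.im * ‖Qd P B1 (r * T) (r * s.im + c + x)‖ ^ 2) ≤
      ∫ _x in (-h)..h, C * D * Real.log T ^ 3 := by
    refine intervalIntegral.integral_mono_on (by linarith)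
      ((continuous_finsetSum _ hcont).intervalIntegrable _ _) (by simp) fun x _ => h2 x
  rw [intervalIntegral.integral_const, smul_eq_mul] at h3
  calc 2 * h * ∫ x in (-h)..h, ∑ s ∈ A,
        (mu s : ℝ) * (wt t0 D s.im * ‖Qd P B1 (r * T) (r * s.im + c + x)‖ ^ 2)
      ≤ 2 * h * ((h - -h) * (C * D * Real.log T ^ 3)) := by gcongr
    _ = _ := by ring

end Pool.Agent.V7H88.DZ
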