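import Pool.Agent.V7H88.DZ.I2

/-! The far zeros, and the pointwise comparison. -/

set_option autoImplicit false

open Complex Filter Topology Set MeasureTheory

namespace Pool.Agent.V7H88.DZ

open SG (hh nn dd dl ord NZ)
open SP (RHs ZZ mu wt Mk Ya Par Eb PS chi qq tt)
open LG (fam nA yp prs QT tm IsQ)

/-- far zeros contribute nothing -/
theorem far_sum {P : Par} {B0 B1 : ℕ} {δ : ℝ} (hP : Dat P B0 B1 δ) (r c : ℝ)
    (hr : 1 < r) (hr3 : r < 3) : ∃ T0 : ℝ, 100 ≤ T0 ∧ ∀ T : ℝ, T0 ≤ T → ∀ t0 D : ℝ,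
    dd P.κ T / 3 ≤ D → D ≤ dd P.κ T → T + T / 10 ≤ t0 → t0 ≤ 2 * T - T / 10 → ∀ A : Finset ℂ,
    (∀ s ∈ A, s ∈ ZZ T ∧ (s.im < T + T / 40 ∨ 2 * T - T / 40 < s.im)) →
    ∑ s ∈ A, (mu s : ℝ) * (wt t0 D s.im * ‖Qn P B1 (r * T) (r * s.im + c)‖ ^ 2) ≤ 1 := by
  obtain ⟨T1, hT1, hev⟩ := ev_mu P.κ δ r 5 1 P.hκ hP.hδ0 hP.hδ1 hr (by norm_num) one_pos
  obtain ⟨C2, T2, hC2, hT2, hcount⟩ := ZZ_count
  obtain ⟨T3, hT3, hav⟩ := av_facts P B1
  have ev : ∀ᶠ T : ℝ in atTop, 100 ≤ T ∧ C2 ≤ T ∧ 12 * ((2 : ℝ) ^ B1) ^ 2 ≤ T := by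
    filter_upwards [eventually_ge_atTop 100, eventually_ge_atTop C2,
      eventually_ge_atTop (12 * ((2 : ℝ) ^ B1) ^ 2)] with T x1 x2 x3
    exact ⟨x1, x2, x3⟩
  obtain ⟨T4, hT4⟩ := Filter.eventually_atTop.1 ev
  refine ⟨max (max T1 T2) (max (max T3 T4) 100), (le_max_right _ _).trans (le_max_right _ _), ?_⟩
  intro T hT t0 D hD1 hD2 ht1 ht2 A hA
  simp only [max_le_iff] at hT
  obtain ⟨⟨hTT1, hTT2⟩, ⟨hTT3, hTT4⟩, hT100⟩ := hT
  obtain ⟨-, x2, x3⟩ := hT4 T hTT4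
  have hTp : 0 < T := by linarith
  have hT1' : (1 : ℝ) ≤ T := by linarith
  have hrT : T ≤ r * T := le_mul_of_one_le_left hTp.le hr.le
  have hdd0 : 0 < dd P.κ T := Real.rpow_pos_of_pos hTp _
  have hD0 : 0 < D := by linarith
  have hδ1 : δ < 1 := by linarith [hP.hδ1, P.hκ]
  obtain ⟨-, z2, -⟩ := hev T hTT1 D hD1 hD2
  have hQ : ∀ u : ℝ, ‖Qn P B1 (r * T) u‖ ^ 2 ≤ T ^ 2 := by
    intro u
    have k1 : ‖Qn P B1 (r * T) u‖ ≤ ∑ A ∈ fam P B1 (r * T), ‖(av P (r * T) A : ℂ)‖ :=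
      PP_le _ _ _ _
    have k2 := c_sum P B1 δ (r * T) (2 ^ B1) hP.hδ (by linarith) (by positivity)
      (fun A => (av P (r * T) A : ℂ)) (by
        intro A hA
        obtain ⟨k3, k4⟩ := hav (r * T) (hTT3.trans hrT) A hA
        rw [Complex.norm_real, Real.norm_of_nonneg k3]
        exact k4)
    have k3 : (r * T) ^ δ ≤ 3 * T := by
      have k4 : 1 ≤ r * T := by linarith
      calc (r * T) ^ δ ≤ (r * T) ^ (1 : ℝ) := Real.rpow_le_rpow_of_exponent_le k4 hδ1.le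
        _ = r * T := Real.rpow_one _
        _ ≤ 3 * T := by nlinarith
    calc ‖Qn P B1 (r * T) u‖ ^ 2 ≤ (∑ A ∈ fam P B1 (r * T), ‖(av P (r * T) A : ℂ)‖) ^ 2 :=
          pow_le_pow_left₀ (norm_nonneg _) k1 2
      _ ≤ 4 * (2 ^ B1) ^ 2 * (r * T) ^ δ := k2
      _ ≤ 4 * (2 ^ B1) ^ 2 * (3 * T) := by gcongr
      _ = (12 * (2 ^ B1) ^ 2) * T := by ring
      _ ≤ T * T := by gcongr
      _ = T ^ 2 := by ring
  have hw : ∀ s ∈ A, wt t0 D s.im ≤ Real.exp (-((T / 20) ^ 2 / (4 * D ^ 2))) := by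
    intro s hs
    obtain ⟨-, h1⟩ := hA s hs
    have h2 : 3 * T / 40 ≤ |s.im - t0| := by
      rw [le_abs]
      rcases h1 with h1 | h1
      · right
        linarith
      · left
        linarith
    have h3 : (3 * T / 40) ^ 2 ≤ (s.im - t0) ^ 2 := by
      rw [← sq_abs (s.im - t0)]
      exact pow_le_pow_left₀ (by positivity) h2 2
    unfold wt
    apply Real.exp_le_exp.2
    have h4 : (T / 20) ^ 2 / (4 * D ^ 2) ≤ (s.im - t0) ^ 2 / (2 * D ^ 2) := by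
      rw [div_le_div_iff₀ (by positivity) (by positivity)]
      have h5 : (T / 20) ^ 2 * (2 * D ^ 2) = (T ^ 2 / 800) * (4 * D ^ 2) := by ring
      rw [h5]
      refine mul_le_mul_of_nonneg_right (le_trans ?_ h3) (by positivity)
      nlinarith [sq_nonneg T]
    rw [neg_div]
    linarith
  have hsub : A ⊆ (ZZ_fin hT1').toFinset := by
    intro s hs
    rw [Set.Finite.mem_toFinset]
    exact (hA s hs).1
  have hmu : ∑ s ∈ A, (mu s : ℝ) ≤ T ^ 3 := by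
    have h1 := hcount T hTT2
    rw [ZZ_toF hT1'] at h1
    have h2 : Real.log T ≤ T := by
      have := Real.log_le_sub_one_of_pos hTp
      linarith
    have h3 : 0 ≤ Real.log T := Real.log_nonneg hT1'
    calc ∑ s ∈ A, (mu s : ℝ) ≤ ∑ s ∈ (ZZ_fin hT1').toFinset, (mu s : ℝ) :=
          Finset.sum_le_sum_of_subset_of_nonneg hsub fun s _ _ => by positivity
      _ ≤ C2 * (T * Real.log T) := h1
      _ ≤ T * (T * T) := by gcongr
      _ = T ^ 3 := by ring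
  calc ∑ s ∈ A, (mu s : ℝ) * (wt t0 D s.im * ‖Qn P B1 (r * T) (r * s.im + c)‖ ^ 2)
      ≤ ∑ s ∈ A, (mu s : ℝ) * (Real.exp (-((T / 20) ^ 2 / (4 * D ^ 2))) * T ^ 2) := by
        refine Finset.sum_le_sum fun s hs => ?_
        have := hw s hs
        have := hQ (r * s.im + c)
        gcongr
    _ = (∑ s ∈ A, (mu s : ℝ)) * (Real.exp (-((T / 20) ^ 2 / (4 * D ^ 2))) * T ^ 2) := by
        rw [Finset.sum_mul]
    _ ≤ T ^ 3 * (Real.exp (-((T / 20) ^ 2 / (4 * D ^ 2))) * T ^ 2) := by gcongr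
    _ = T ^ (5 : ℝ) * Real.exp (-((T / 20) ^ 2 / (4 * D ^ 2))) := by
        have : T ^ (5 : ℝ) = T ^ 5 := by
          rw [← Real.rpow_natCast]
          norm_num
        rw [this]
        ring
    _ ≤ 1 := z2

/-- the pointwise comparison -/
theorem pt_comp (ε W W' q q' d : ℝ) (hε : 0 < ε) (hW : 0 ≤ W) (hWW : W ≤ (1 + ε) * W')
    (hq : 0 ≤ q) (hq' : 0 ≤ q') (h : q ≤ q' + d) :
    W * q ^ 2 ≤ (1 + ε) ^ 2 * (W' * q' ^ 2) + (1 + 1 / ε) * (W * d ^ 2) := by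
  have h1 : q ^ 2 ≤ (1 + ε) * q' ^ 2 + (1 + 1 / ε) * d ^ 2 := by
    have h2 : q ^ 2 ≤ (q' + d) ^ 2 := pow_le_pow_left₀ hq h 2
    have h3 : 2 * q' * d ≤ ε * q' ^ 2 + 1 / ε * d ^ 2 := by
      have h4 : 0 ≤ (ε * q' - d) ^ 2 / ε := by positivity
      have h5 : (ε * q' - d) ^ 2 / ε = ε * q' ^ 2 - 2 * q' * d + 1 / ε * d ^ 2 := by
        field_simp
        ring
      linarith
    nlinarith
  calc W * q ^ 2 ≤ W * ((1 + ε) * q' ^ 2 + (1 + 1 / ε) * d ^ 2) := by gcongr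
    _ = (1 + ε) * (W * q' ^ 2) + (1 + 1 / ε) * (W * d ^ 2) := by ring
    _ ≤ (1 + ε) * (((1 + ε) * W') * q' ^ 2) + (1 + 1 / ε) * (W * d ^ 2) := by gcongr
    _ = _ := by ring

end Pool.Agent.V7H88.DZ
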