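import Pool.Agent.V7H88.DZ.I3
import Pool.Agent.V7H88.DZ.E4

/-! The zeros which cannot be matched carry a positive proportion of the mean square. -/

set_option autoImplicit false

open Complex Filter Topology Set MeasureTheory

namespace Pool.Agent.V7H88.DZ

open SG (hh nn dd dl ord NZ)
open SP (RHs ZZ mu wt Mk Ya Par Eb PS chi qq tt)
open LG (fam nA yp prs QT tm IsQ)

/-- choice of the parameters -/
theorem choose_dat (r : ℝ) (hr : 1 < r) (hr2 : r < 1 + Real.sqrt 2) :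
    ∃ (P : Par) (B0 B1 : ℕ) (δ ρ η : ℝ), Dat P B0 B1 δ ∧ δ * (r + 1) / 2 < 1 - P.κ / 2 ∧
    0 ≤ ρ ∧ ρ ≤ 1 ∧ 0 < η ∧ r * (1 - ρ + η) < 1 ∧
    ∃ T0 : ℝ, ∀ T : ℝ, T0 ≤ T → ρ * (Real.log T * Gd P B1 T) ≤ 2 * Num P B1 T := by
  have hr0 : 0 < r := by linarith
  have hs := Real.sq_sqrt (show (0 : ℝ) ≤ 2 by norm_num)
  have hs0 := Real.sqrt_nonneg 2
  have h1 : (r - 1) ^ 2 < 2 := by nlinarith
  have h2 : 1 - 1 / r < 2 / (1 + r) := by
    have h3 : 1 - 1 / r = (r - 1) / r := by field_simp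
    rw [h3, div_lt_div_iff₀ hr0 (by linarith)]
    nlinarith
  set δ : ℝ := ((1 - 1 / r) + 2 / (1 + r)) / 2 with hδ
  have hδ1 : 1 - 1 / r < δ := by linarith
  have hδ2 : δ < 2 / (1 + r) := by linarith
  have h4 : 0 < 1 - 1 / r := by
    rw [sub_pos, div_lt_one hr0]
    exact hr
  have hδ0 : 0 < δ := by linarith
  have h5 : 2 / (1 + r) < 1 := by
    rw [div_lt_one (by linarith)]
    linarith
  have hδ3 : δ < 1 := by linarith
  have hδ4 : δ * (r + 1) / 2 < 1 := by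
    rw [lt_div_iff₀ (by linarith)] at hδ2
    linarith
  set κ : ℝ := min (1 / 4) (min ((1 - δ) / 2) (1 - δ * (r + 1) / 2)) with hκ
  have hκ0 : 0 < κ := by
    rw [hκ]
    refine lt_min (by norm_num) (lt_min (by linarith) (by linarith))
  have hκ1 : κ ≤ 1 / 4 := min_le_left _ _
  have hκ2 : κ ≤ (1 - δ) / 2 := (min_le_right _ _).trans (min_le_left _ _)
  have hκ3 : κ ≤ 1 - δ * (r + 1) / 2 := (min_le_right _ _).trans (min_le_right _ _)
  set η : ℝ := (δ - (1 - 1 / r)) / 4 with hη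
  have hη0 : 0 < η := by
    rw [hη]
    linarith
  obtain ⟨P, B0, B1, hB, hPκ, hB1, hBδ, T0, hT0, hgain⟩ := gain κ δ η hκ0 (by linarith) hδ0
    (by linarith) hη0
  refine ⟨P, B0, B1, δ, δ - η, η, ⟨hB, hB1, by rw [hPκ]; exact hBδ, hδ0, by rw [hPκ]; linarith⟩,
    by rw [hPκ]; linarith, by linarith, by linarith, hη0, ?_, T0, hgain⟩
  have h6 : r * (1 - (δ - η) + η) = r * (1 - δ) + 2 * r * η := by ring
  have h7 : r * (1 / r) = 1 := by field_simp
  rw [h6, hη]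
  nlinarith

theorem fin_num (tot good far mat ZX err s D L LX G ε θ2 q r a : ℝ)
    (h1 : s * D * (L / 2) * G - q ≤ Real.pi * tot) (h2 : tot = good + mat + far)
    (h3 : far ≤ 1) (h4 : mat ≤ (1 + ε) ^ 2 * ZX + err)
    (h5 : Real.pi * ZX ≤ s * (r * D) * (LX / 2) * G * a)
    (h5' : (1 + ε) ^ 2 * (r * a) * LX ≤ θ2 * L) (h6 : Real.pi * err ≤ (1 - θ2) / 4 * (D * L))
    (h7 : q ≤ (1 - θ2) / 4 * (D * L)) (h8 : 4 ≤ (1 - θ2) / 4 * (D * L)) (hs : 2 ≤ s)
    (hG : 1 ≤ G) (hD : 0 < D) (hL : 0 < L) (hθ : θ2 < 1) :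
    (1 - θ2) / 16 * (D * L) ≤ good := by
  have hπ := Real.pi_gt_three
  have hπ4 := Real.pi_lt_four
  have k1 : Real.pi * ((1 + ε) ^ 2 * ZX) ≤ s * D * G / 2 * (θ2 * L) := by
    calc Real.pi * ((1 + ε) ^ 2 * ZX) = (1 + ε) ^ 2 * (Real.pi * ZX) := by ring
      _ ≤ (1 + ε) ^ 2 * (s * (r * D) * (LX / 2) * G * a) := by gcongr
      _ = s * D * G / 2 * ((1 + ε) ^ 2 * (r * a) * LX) := by ring
      _ ≤ s * D * G / 2 * (θ2 * L) := by gcongr
  have k2 : Real.pi * mat ≤ s * D * G / 2 * (θ2 * L) + (1 - θ2) / 4 * (D * L) := by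
    calc Real.pi * mat ≤ Real.pi * ((1 + ε) ^ 2 * ZX + err) := by gcongr
      _ = Real.pi * ((1 + ε) ^ 2 * ZX) + Real.pi * err := by ring
      _ ≤ _ := add_le_add k1 h6
  have k3 : Real.pi * far ≤ (1 - θ2) / 4 * (D * L) := by
    calc Real.pi * far ≤ Real.pi * 1 := by gcongr
      _ ≤ 4 := by linarith
      _ ≤ _ := h8
  have k4 : Real.pi * good = Real.pi * tot - Real.pi * mat - Real.pi * far := by
    rw [h2]
    ring
  have k5 : D * L * (1 - θ2) ≤ s * D * G / 2 * (L * (1 - θ2)) := by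
    have k6 : 1 ≤ s * G / 2 := by nlinarith
    have k7 : 0 ≤ D * L * (1 - θ2) := mul_nonneg (mul_nonneg hD.le hL.le) (by linarith)
    calc D * L * (1 - θ2) = 1 * (D * L * (1 - θ2)) := by ring
      _ ≤ (s * G / 2) * (D * L * (1 - θ2)) := mul_le_mul_of_nonneg_right k6 k7
      _ = _ := by ring
  have k8 : (1 - θ2) / 4 * (D * L) ≤ Real.pi * good := by
    rw [k4]
    have e1 : s * D * (L / 2) * G = s * D * G / 2 * (θ2 * L) + s * D * G / 2 * (L * (1 - θ2)) := by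
      ring
    linarith
  have k9 : 0 ≤ good := by
    have : 0 < (1 - θ2) / 4 * (D * L) := by linarith
    by_contra hneg
    push Not at hneg
    nlinarith
  have k10 : Real.pi * good ≤ 4 * good := mul_le_mul_of_nonneg_right hπ4.le k9
  linarith

end Pool.Agent.V7H88.DZ
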