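import Pool.Agent.V7H88.DZ.I4

/-! The zeros which cannot be matched carry a positive proportion of the mean square. -/

set_option autoImplicit false

open Complex Filter Topology Set MeasureTheory

namespace Pool.Agent.V7H88.DZ

open SG (hh nn dd dl ord NZ)
open SP (RHs ZZ mu wt Mk Ya Par Eb PS chi qq tt)
open LG (fam nA yp prs QT tm IsQ)

/-- the mean square of the resonator over the dilated zeros -/
theorem tot_low (hRH : RHs) {P : Par} {B0 B1 : ℕ} {δ : ℝ} (hP : Dat P B0 B1 δ) (r c : ℝ)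
    (hr : 1 < r) (hδr : δ * (r + 1) / 2 < 1 - P.κ / 2) : ∃ C T0 : ℝ, 0 < C ∧
    10 ≤ T0 ∧ ∀ T : ℝ, T0 ≤ T → ∀ t0 D : ℝ,
    dd P.κ T / 3 ≤ D → D ≤ dd P.κ T → T + Real.log T + T / 20 ≤ t0 →
    t0 + T / 20 ≤ 2 * T - Real.log T →
    Real.sqrt (2 * Real.pi) * D * (Real.log T / 2) * Gd P B1 (r * T) -
      C * D * Real.sqrt (Real.log T) ≤
    Real.pi * ∑ᶠ s ∈ ZZ T, (mu s : ℝ) * (wt t0 D s.im * ‖Qn P B1 (r * T) (r * s.im + c)‖ ^ 2) := by
  obtain ⟨C1, T1, hC1, hT1, hmu⟩ := mu_gen hRH hP r hr hδr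
  obtain ⟨T3, hT3, hav⟩ := av_facts P B1
  have ev : ∀ᶠ T : ℝ in atTop, 1 ≤ Real.log T ∧ (2 : ℝ) ^ B1 ≤ Real.log T :=
    (Real.tendsto_log_atTop.eventually_ge_atTop _).and
      (Real.tendsto_log_atTop.eventually_ge_atTop _)
  obtain ⟨T5, hT5⟩ := Filter.eventually_atTop.1 ev
  refine ⟨C1 * (2 ^ B1) ^ 2, max (max T1 T3) T5, by positivity,
    hT1.trans ((le_max_left _ _).trans (le_max_left _ _)), ?_⟩
  intro T hT t0 D hD1 hD2 ht1 ht2
  simp only [max_le_iff] at hT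
  obtain ⟨⟨hTT1, hTT3⟩, hTT5⟩ := hT
  obtain ⟨w1, w2⟩ := hT5 T hTT5
  have hT10 : 10 ≤ T := hT1.trans hTT1
  have hTp : 0 < T := by linarith
  have hrT : T ≤ r * T := le_mul_of_one_le_left hTp.le hr.le
  have hb1 : (1 : ℝ) ≤ 2 ^ B1 := one_le_pow₀ (by norm_num)
  set a : Finset ℕ → ℂ := fun A => (av P (r * T) A : ℂ) *
    cexp (I * ((c * Real.log (nA A) : ℝ) : ℂ)) with ha
  have han : ∀ A ∈ fam P B1 (r * T), ‖a A‖ = av P (r * T) A := by
    intro A hA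
    rw [ha]
    simp only
    rw [norm_mul, norm_e, mul_one, Complex.norm_real,
      Real.norm_of_nonneg (hav (r * T) (hTT3.trans hrT) A hA).1]
  have h1 := hmu T hTT1 (2 ^ B1) hb1 (w2.trans (by nlinarith)) a (fun A hA => by
    rw [han A hA]
    exact (hav (r * T) (hTT3.trans hrT) A hA).2) t0 D hD1 hD2 ht1 ht2
  have hS : ∑ A ∈ fam P B1 (r * T), ‖a A‖ ^ 2 = Gd P B1 (r * T) := by
    unfold Gd
    refine Finset.sum_congr rfl fun A hA => ?_
    rw [han A hA, av_sq]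
  have hZ : ∑ᶠ s ∈ ZZ T, (mu s : ℝ) * (wt t0 D s.im * ‖Qn P B1 (r * T) (r * s.im + c)‖ ^ 2) =
      ∑ᶠ s ∈ ZZ T, (mu s : ℝ) * (wt t0 D s.im *
        ‖PP (fam P B1 (r * T)) a (fun A => r * Real.log (nA A)) s.im‖ ^ 2) := by
    refine finsum_congr fun s => finsum_congr fun _ => ?_
    unfold Qn
    rw [PP_affine]
  rw [hZ]
  rw [hS] at h1
  have h2 := (abs_le.1 h1).1
  have e1 : C1 * D * (2 ^ B1) ^ 2 * Real.sqrt (Real.log T) =
    C1 * (2 ^ B1) ^ 2 * D * Real.sqrt (Real.log T) := by ring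
  rw [e1] at h2
  linarith

theorem mem_ZZ_of_mu (X : ℝ) (s : ℂ) (hre : s.re = 1 / 2) (h1 : X < s.im) (h2 : s.im ≤ 2 * X)
    (hm : 0 < mu s) : s ∈ ZZ X := by
  refine ⟨by rw [hre]; norm_num, by rw [hre]; norm_num, h1, h2, ?_⟩
  exact apply_eq_zero_of_analyticOrderNatAt_ne_zero hm.ne'

/-- the matched zeros -/
theorem mat_up (P : Par) (B1 : ℕ) (r c ε κ1 T t0 : ℝ) (hr : 1 < r) (hr3 : r < 3) (hε : 0 < ε)
    (hκ1 : 0 < κ1) (hκ2 : κ1 ≤ 1) (hT : 100 ≤ T) (hL : 4 ≤ Real.log T)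
    (hc : 1000 * Real.log T + 1000 * (|c| + 1) ≤ T) (hD : 0 < dd P.κ (r * T))
    (hε2 : Real.exp (4 * (r * T) / (dd P.κ (r * T)) ^ 2) ≤ 1 + ε)
    (ht1 : T + T / 10 ≤ t0) (ht2 : t0 ≤ 2 * T - T / 10) (A BX : Finset ℂ)
    (hA : ∀ s ∈ A, T + T / 40 ≤ s.im ∧ s.im ≤ 2 * T - T / 40)
    (hBX : ∀ s, s ∈ BX ↔ s ∈ ZZ (r * T)) (σ : ℂ × ℕ → ℂ × ℕ)
    (hinj : ∀ s ∈ A, ∀ j < mu s, ∀ s' ∈ A, ∀ j' < mu s', σ (s, j) = σ (s', j') → s = s' ∧ j = j')
    (hσ : ∀ s ∈ A, ∀ j < mu s, (σ (s, j)).1.re = 1 / 2 ∧ (σ (s, j)).2 < mu (σ (s, j)).1 ∧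
      |(σ (s, j)).1.im - (r * s.im + c)| ≤ κ1 / Real.log T) :
    ∑ s ∈ A, (mu s : ℝ) * (wt t0 (dd P.κ (r * T) / r) s.im *
      ‖Qn P B1 (r * T) (r * s.im + c)‖ ^ 2) ≤
    (1 + ε) ^ 2 * (∑ s ∈ BX, (mu s : ℝ) * (wt (r * t0 + c) (dd P.κ (r * T)) s.im *
      ‖Qn P B1 (r * T) s.im‖ ^ 2)) + (1 + 1 / ε) * ∑ s ∈ A, (mu s : ℝ) *
      (wt t0 (dd P.κ (r * T) / r) s.im * (2 * (κ1 / Real.log T) *
      ∫ x in (-(κ1 / Real.log T))..(κ1 / Real.log T),
      ‖Qd P B1 (r * T) (r * s.im + c + x)‖ ^ 2)) := by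
  have hr0 : 0 < r := by linarith
  have hTp : 0 < T := by linarith
  set X := r * T with hX
  set D := dd P.κ X with hDd
  set h := κ1 / Real.log T with hh
  have hh0 : 0 < h := by positivity
  have hh1 : h ≤ 1 := by
    rw [hh, div_le_one (by linarith)]
    linarith
  have hc0 : 0 ≤ |c| := abs_nonneg c
  have hc1 : -|c| ≤ c := neg_abs_le c
  have hc2 : c ≤ |c| := le_abs_self c
  have hw : ∀ a b x : ℝ, 0 ≤ wt a b x := fun a b x => (Real.exp_pos _).le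
  have hXT : T ≤ X := le_mul_of_one_le_left hTp.le hr.le
  have hXT3 : X ≤ 3 * T := by nlinarith
  refine (match_sum A BX mu σ (fun s => wt t0 (D / r) s.im * ‖Qn P B1 X (r * s.im + c)‖ ^ 2)
    (fun s => (1 + ε) ^ 2 * (wt (r * t0 + c) D s.im * ‖Qn P B1 X s.im‖ ^ 2))
    (fun s => (1 + 1 / ε) * (wt t0 (D / r) s.im * (2 * h * ∫ x in (-h)..h,
      ‖Qd P B1 X (r * s.im + c + x)‖ ^ 2))) (fun s _ => by
        have := hw (r * t0 + c) D s.im
        positivity) hinj (fun s hs j hj => ?_)).trans (le_of_eq ?_)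
  · obtain ⟨k1, k2, k3⟩ := hσ s hs j hj
    obtain ⟨m1, m2⟩ := hA s hs
    set v := (σ (s, j)).1 with hv
    have k4 := abs_le.1 k3
    have b1 : X + X / 40 ≤ r * s.im := by
      rw [hX]
      nlinarith
    have b2 : r * s.im ≤ 2 * X - X / 40 := by
      rw [hX]
      nlinarith
    have hvZ : v ∈ ZZ X := mem_ZZ_of_mu X v k1 (by linarith) (by linarith) (by omega)
    refine ⟨(hBX v).2 hvZ, k2, ?_⟩
    have b3 : |r * s.im + c - (r * t0 + c)| ≤ 2 * X := by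
      have b4 : X + X / 10 ≤ r * t0 := by
        rw [hX]
        nlinarith
      have b5 : r * t0 ≤ 2 * X - X / 10 := by
        rw [hX]
        nlinarith
      rw [abs_le]
      constructor <;> linarith
    have b6 : |v.im - (r * t0 + c)| ≤ 2 * X := by
      have b4 : X + X / 10 ≤ r * t0 := by
        rw [hX]
        nlinarith
      have b5 : r * t0 ≤ 2 * X - X / 10 := by
        rw [hX]
        nlinarith
      rw [abs_le]
      constructor <;> linarith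
    have k5 : wt t0 (D / r) s.im ≤ (1 + ε) * wt (r * t0 + c) D v.im := by
      rw [wt_scale t0 D s.im r c hr0]
      have k6 := wt_near (r * t0 + c) D (r * s.im + c) v.im h (2 * X) hD
        (by rw [abs_sub_comm]; exact k3) b3 b6
      refine k6.trans (mul_le_mul_of_nonneg_right (le_trans ?_ hε2) (hw _ _ _))
      apply Real.exp_le_exp.2
      have hX0 : 0 ≤ X := by linarith
      have : h * (2 * X) ≤ 4 * X := by nlinarith
      gcongr
    set d := Real.sqrt (2 * h * ∫ x in (-h)..h, ‖Qd P B1 X (r * s.im + c + x)‖ ^ 2) with hd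
    have hint : 0 ≤ 2 * h * ∫ x in (-h)..h, ‖Qd P B1 X (r * s.im + c + x)‖ ^ 2 := by
      have : 0 ≤ ∫ x in (-h)..h, ‖Qd P B1 X (r * s.im + c + x)‖ ^ 2 :=
        intervalIntegral.integral_nonneg (by linarith) fun x _ => sq_nonneg _
      positivity
    have hd2 : d ^ 2 = 2 * h * ∫ x in (-h)..h, ‖Qd P B1 X (r * s.im + c + x)‖ ^ 2 :=
      Real.sq_sqrt hint
    have k7 : ‖Qn P B1 X (r * s.im + c)‖ ≤ ‖Qn P B1 X v.im‖ + d := by
      have k8 := PP_sob (fam P B1 X) (fun A => (av P X A : ℂ)) (fun A => Real.log (nA A))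
        (r * s.im + c) v.im h hh0 k3
      have k9 : ‖Qn P B1 X (r * s.im + c) - Qn P B1 X v.im‖ ≤ d := by
        rw [hd]
        apply Real.le_sqrt_of_sq_le
        exact k8
      have k10 := norm_sub_norm_le (Qn P B1 X (r * s.im + c)) (Qn P B1 X v.im)
      linarith
    have k11 := pt_comp ε (wt t0 (D / r) s.im) (wt (r * t0 + c) D v.im) _ _ d hε (hw _ _ _) k5
      (norm_nonneg _) (norm_nonneg _) k7
    rw [hd2] at k11
    exact k11
  · rw [Finset.mul_sum, Finset.mul_sum]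
    congr 1
    · exact Finset.sum_congr rfl fun s _ => by ring
    · exact Finset.sum_congr rfl fun s _ => by ring

end Pool.Agent.V7H88.DZ
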