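import Pool.Agent.V7H88.DZ.I5

/-! The zeros which cannot be matched carry a positive proportion of the mean square. -/

set_option autoImplicit false

open Complex Filter Topology Set MeasureTheory

namespace Pool.Agent.V7H88.DZ

open SG (hh nn dd dl ord NZ)
open SP (RHs ZZ mu wt Mk Ya Par Eb PS chi qq tt)
open LG (fam nA yp prs QT tm IsQ)

/-- eventual inequalities -/
theorem ev_fin (κ r C1 C6 ε κ1 θ θ2 : ℝ) (hκ : 0 < κ) (hκ1 : κ < 1 / 2) (hr : 1 < r) (hr3 : r < 3)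
    (hC1 : 0 < C1) (hε : 0 < ε) (hκ0 : 0 < κ1) (hκ2 : Real.pi * ((1 + 1 / ε) * (C6 * κ1 ^ 2)) ≤
      (1 - θ2) / 4) (hθ0 : 0 ≤ θ) (hθ : (1 + ε) ^ 2 * θ < θ2) (hθ2 : θ2 < 1) :
    ∃ T0 : ℝ, 100 ≤ T0 ∧ ∀ T : ℝ, T0 ≤ T →
    Real.exp (4 * (r * T) / (dd κ (r * T)) ^ 2) ≤ 1 + ε ∧
    (1 + ε) ^ 2 * θ * Real.log (r * T) ≤ θ2 * Real.log T ∧ ∀ D : ℝ, dd κ T / 3 ≤ D →
    C1 * D * Real.sqrt (Real.log T) ≤ (1 - θ2) / 4 * (D * Real.log T) ∧
    4 ≤ (1 - θ2) / 4 * (D * Real.log T) ∧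
    Real.pi * ((1 + 1 / ε) * (C6 * (κ1 / Real.log T) ^ 2 * D * Real.log T ^ 3)) ≤
      (1 - θ2) / 4 * (D * Real.log T) := by
  have hr0 : 0 < r := by linarith
  have hg : 0 < 1 - θ2 := by linarith
  have ht : 0 < θ2 - (1 + ε) ^ 2 * θ := by linarith
  have h1 : Tendsto (fun T : ℝ => 4 * (r * T) / (dd κ (r * T)) ^ 2) atTop (𝓝 0) := by
    have h2 : Tendsto (fun X : ℝ => 4 * X ^ (-(1 - κ))) atTop (𝓝 0) := by
      have := (tendsto_rpow_neg_atTop (show 0 < 1 - κ by linarith)).const_mul 4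
      simpa using this
    have h3 : Tendsto (fun T : ℝ => r * T) atTop atTop := tendsto_id.const_mul_atTop hr0
    have h4 := h2.comp h3
    refine h4.congr' ?_
    filter_upwards [eventually_gt_atTop 0] with T hT
    have hX : 0 < r * T := by positivity
    simp only [Function.comp]
    have h5 : dd κ (r * T) ^ 2 = (r * T) ^ (1 - κ) * (r * T) := by
      unfold dd
      rw [← Real.rpow_natCast, ← Real.rpow_mul hX.le, ← Real.rpow_add_one hX.ne']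
      congr 1
      push_cast
      ring
    rw [h5, Real.rpow_neg hX.le]
    have h6 : (r * T) ^ (1 - κ) ≠ 0 := by positivity
    field_simp
  have ev1 : ∀ᶠ T : ℝ in atTop, Real.exp (4 * (r * T) / (dd κ (r * T)) ^ 2) ≤ 1 + ε := by
    have h2 := (Real.continuous_exp.tendsto 0).comp h1
    rw [Real.exp_zero] at h2
    exact (h2.eventually_lt_const (by linarith : (1 : ℝ) < 1 + ε)).mono fun T hT => hT.le
  have ev2 : ∀ᶠ T : ℝ in atTop, (1 + ε) ^ 2 * θ * Real.log r / (θ2 - (1 + ε) ^ 2 * θ) ≤ Real.log T :=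
    Real.tendsto_log_atTop.eventually_ge_atTop _
  have ev3 : ∀ᶠ T : ℝ in atTop, (4 * C1 / (1 - θ2)) ^ 2 ≤ Real.log T :=
    Real.tendsto_log_atTop.eventually_ge_atTop _
  have ev4 : ∀ᶠ T : ℝ in atTop, 48 / (1 - θ2) ≤ Real.log T :=
    Real.tendsto_log_atTop.eventually_ge_atTop _
  have ev5 : ∀ᶠ T : ℝ in atTop, 1 ≤ Real.log T := Real.tendsto_log_atTop.eventually_ge_atTop _
  obtain ⟨T0, hT0⟩ := Filter.eventually_atTop.1 (ev1.and (ev2.and (ev3.and (ev4.and ev5))))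
  refine ⟨max T0 100, le_max_right _ _, fun T hT => ?_⟩
  obtain ⟨x1, x2, x3, x4, x5⟩ := hT0 T ((le_max_left _ _).trans hT)
  have hT100 : 100 ≤ T := (le_max_right _ _).trans hT
  have hTp : 0 < T := by linarith
  have hL0 : 0 < Real.log T := by linarith
  refine ⟨x1, ?_, fun D hD => ?_⟩
  · rw [Real.log_mul hr0.ne' hTp.ne']
    rw [div_le_iff₀ ht] at x2
    nlinarith
  · have hdd1 : 1 ≤ dd κ T := by
      unfold dd
      exact Real.one_le_rpow (by linarith) (by linarith)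
    have hD1 : 1 / 3 ≤ D := by linarith
    have hD0 : 0 < D := by linarith
    refine ⟨?_, ?_, ?_⟩
    · have k1 : 4 * C1 / (1 - θ2) ≤ Real.sqrt (Real.log T) := by
        apply Real.le_sqrt_of_sq_le x3
      rw [div_le_iff₀ hg] at k1
      have k2 := Real.mul_self_sqrt hL0.le
      have k3 := Real.sqrt_nonneg (Real.log T)
      have k4 : 4 * C1 * Real.sqrt (Real.log T) ≤ (1 - θ2) * Real.log T := by
        calc 4 * C1 * Real.sqrt (Real.log T) ≤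
              (Real.sqrt (Real.log T) * (1 - θ2)) * Real.sqrt (Real.log T) := by gcongr
          _ = (1 - θ2) * (Real.sqrt (Real.log T) * Real.sqrt (Real.log T)) := by ring
          _ = _ := by rw [k2]
      have k5 := mul_le_mul_of_nonneg_left k4 hD0.le
      linarith
    · rw [div_le_iff₀ hg] at x4
      have k1 : 1 / 3 * (Real.log T * (1 - θ2)) ≤ D * (Real.log T * (1 - θ2)) := by
        gcongr
      linarith
    · have e1 : Real.pi * ((1 + 1 / ε) * (C6 * (κ1 / Real.log T) ^ 2 * D * Real.log T ^ 3)) =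
          Real.pi * ((1 + 1 / ε) * (C6 * κ1 ^ 2)) * (D * Real.log T) := by
        field_simp
      rw [e1]
      gcongr

/-- the zeros which cannot be matched carry a positive proportion of the mean square -/
theorem good_mass (hRH : RHs) (r c : ℝ) (hr : 1 < r) (hr2 : r < 1 + Real.sqrt 2) :
    ∃ (P : Par) (B0 B1 : ℕ) (δ : ℝ), Dat P B0 B1 δ ∧ ∃ c0 κ1 T0 : ℝ, 0 < c0 ∧ 0 < κ1 ∧ κ1 ≤ 1 ∧
    100 ≤ T0 ∧ ∀ T : ℝ, T0 ≤ T → ∀ t0 : ℝ, T + T / 10 ≤ t0 → t0 ≤ 2 * T - T / 10 →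
    ∀ Bk A : Finset ℂ, (∀ s, s ∈ Bk ↔ s ∈ ZZ T ∧ T + T / 40 ≤ s.im ∧ s.im ≤ 2 * T - T / 40) →
    A ⊆ Bk → ∀ σ : ℂ × ℕ → ℂ × ℕ,
    (∀ s ∈ A, ∀ j < mu s, ∀ s' ∈ A, ∀ j' < mu s', σ (s, j) = σ (s', j') → s = s' ∧ j = j') →
    (∀ s ∈ A, ∀ j < mu s, (σ (s, j)).1.re = 1 / 2 ∧ (σ (s, j)).2 < mu (σ (s, j)).1 ∧
      |(σ (s, j)).1.im - (r * s.im + c)| ≤ κ1 / Real.log T) →
    c0 * (dd P.κ T * Real.log T) ≤ ∑ s ∈ Bk \ A, (mu s : ℝ) *
      (wt t0 (dd P.κ (r * T) / r) s.im * ‖Qn P B1 (r * T) (r * s.im + c)‖ ^ 2) := by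
  classical
  obtain ⟨P, B0, B1, δ, ρ, η, hP, hδr, hρ0, hρ1, hη, hθ1, hg⟩ := choose_dat r hr hr2
  have hs2 : Real.sqrt 2 ≤ 2 := by
    rw [Real.sqrt_le_left (by norm_num)]
    norm_num
  have hr3 : r < 3 := by linarith
  have hr0 : 0 < r := by linarith
  set a : ℝ := 1 - ρ + η with ha
  have ha0 : 0 < a := by linarith
  set θ : ℝ := r * a with hθ
  have hθ0 : 0 < θ := by positivity
  set ε : ℝ := (1 - θ) / 12 with hε
  have hε0 : 0 < ε := by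
    rw [hε]
    linarith
  set θ2 : ℝ := (1 + θ) / 2 with hθ2
  have hθ21 : θ2 < 1 := by linarith
  have hε2 : (1 + ε) ^ 2 * θ < θ2 := by
    have k1 : ε ≤ 1 := by linarith
    have k2 : (1 + ε) ^ 2 ≤ 1 + 3 * ε := by nlinarith
    have k3 : (1 + ε) ^ 2 * θ ≤ (1 + 3 * ε) * θ := mul_le_mul_of_nonneg_right k2 hθ0.le
    have k4 : 3 * ε * θ ≤ 3 * ε * 1 := by gcongr
    linarith
  obtain ⟨C1, T1, hC1, hT1, hlow⟩ := tot_low hRH hP r c hr hδr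
  obtain ⟨T2, hT2, hup⟩ := nu_side hRH hP ρ hρ0 hρ1 hg η hη
  obtain ⟨T3, hT3, hfar⟩ := far_sum hP r c hr hr3
  obtain ⟨C6, T4, hC6, hT4, hsob⟩ := sob_sum hRH hP r c hr hr3 hδr
  obtain ⟨T5, hT5, hwin⟩ := ev_win P.κ r c P.hκ P.hκ1 hr hr3
  obtain ⟨κ1, hκ10, hκ11, hκ12⟩ : ∃ κ1 : ℝ, 0 < κ1 ∧ κ1 ≤ 1 ∧
      Real.pi * ((1 + 1 / ε) * (C6 * κ1 ^ 2)) ≤ (1 - θ2) / 4 := by
    have k1 : 0 < Real.pi * ((1 + 1 / ε) * C6) := by positivity
    have k2 : 0 < (1 - θ2) / 4 / (Real.pi * ((1 + 1 / ε) * C6)) := by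
      have : 0 < 1 - θ2 := by linarith
      positivity
    refine ⟨min 1 ((1 - θ2) / 4 / (Real.pi * ((1 + 1 / ε) * C6))), lt_min one_pos k2,
      min_le_left _ _, ?_⟩
    set x := min 1 ((1 - θ2) / 4 / (Real.pi * ((1 + 1 / ε) * C6))) with hx
    have hx0 : 0 < x := lt_min one_pos k2
    have hx1 : x ≤ 1 := min_le_left _ _
    have hx2 : x ≤ (1 - θ2) / 4 / (Real.pi * ((1 + 1 / ε) * C6)) := min_le_right _ _
    rw [le_div_iff₀ k1] at hx2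
    have k3 : x ^ 2 ≤ x := by nlinarith
    calc Real.pi * ((1 + 1 / ε) * (C6 * x ^ 2)) ≤ Real.pi * ((1 + 1 / ε) * (C6 * x)) := by gcongr
      _ = x * (Real.pi * ((1 + 1 / ε) * C6)) := by ring
      _ ≤ _ := hx2
  obtain ⟨T6, hT6, hfin⟩ := ev_fin P.κ r C1 C6 ε κ1 θ θ2 P.hκ P.hκ1 hr hr3 hC1 hε0 hκ10 hκ12
    hθ0.le hε2 hθ21
  refine ⟨P, B0, B1, δ, hP, (1 - θ2) / 48, κ1, max (max (max T1 T2) (max T3 T4)) (max T5 T6),
    by linarith, hκ10, hκ11, hT5.trans ((le_max_left _ _).trans (le_max_right _ _)), ?_⟩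
  intro T hT t0 ht1 ht2 Bk A hBk hAB σ hinj hσ
  simp only [max_le_iff] at hT
  obtain ⟨⟨⟨hTT1, hTT2⟩, hTT3, hTT4⟩, hTT5, hTT6⟩ := hT
  obtain ⟨w1, w2, w3, w4, w5, w6, w7, w8⟩ := hwin T hTT5
  have hT100 : 100 ≤ T := hT5.trans hTT5
  have hTp : 0 < T := by linarith
  have hT1' : (1 : ℝ) ≤ T := by linarith
  have hrT : T ≤ r * T := le_mul_of_one_le_left hTp.le hr.le
  have hX1' : (1 : ℝ) ≤ r * T := by linarith
  have hc0 : 0 ≤ |c| := abs_nonneg c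
  have hc1 : -|c| ≤ c := neg_abs_le c
  have hc2 : c ≤ |c| := le_abs_self c
  have hD' : 0 < dd P.κ (r * T) := Real.rpow_pos_of_pos (by linarith) _
  set D := dd P.κ (r * T) / r with hDd
  have hD0 : 0 < D := by positivity
  have hrD : r * D = dd P.κ (r * T) := by
    rw [hDd]
    field_simp
  obtain ⟨f1, f2, f3⟩ := hfin T hTT6
  obtain ⟨g1, g2, g3⟩ := f3 D w5
  have m1 := hlow T hTT1 t0 D w5 w6 (by linarith) (by linarith)
  have m2 := hup (r * T) (hTT2.trans hrT) (r * t0 + c) (dd P.κ (r * T)) (by linarith) le_rfl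
    (by nlinarith) (by nlinarith)
  set f : ℂ → ℝ := fun s => (mu s : ℝ) * (wt t0 D s.im *
    ‖Qn P B1 (r * T) (r * s.im + c)‖ ^ 2) with hf
  set ZT := (ZZ_fin hT1').toFinset with hZT
  have hmemT : ∀ s, s ∈ ZT ↔ s ∈ ZZ T := fun s => by rw [hZT, Set.Finite.mem_toFinset]
  have hmemX : ∀ s, s ∈ (ZZ_fin hX1').toFinset ↔ s ∈ ZZ (r * T) :=
    fun s => by rw [Set.Finite.mem_toFinset]
  have hBZ : Bk ⊆ ZT := fun s hs => (hmemT s).2 ((hBk s).1 hs).1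
  have m3 := hfar T hTT3 t0 D w5 w6 ht1 ht2 (ZT \ Bk) (fun s hs => by
    rw [Finset.mem_sdiff, hmemT, hBk] at hs
    refine ⟨hs.1, ?_⟩
    by_contra hcon
    push Not at hcon
    exact hs.2 ⟨hs.1, hcon.1, hcon.2⟩)
  have m4 := mat_up P B1 r c ε κ1 T t0 hr hr3 hε0 hκ10 hκ11 hT100 w1 w4 hD' f1 ht1 ht2 A
    (ZZ_fin hX1').toFinset (fun s hs => ((hBk s).1 (hAB hs)).2) hmemX σ hinj hσ
  have hLT : 0 < Real.log T := by linarith
  have m5 := hsob T hTT4 t0 D (κ1 / Real.log T) (by positivity) w5 w6 (by linarith) (by linarith)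
    A (fun s hs => ((hBk s).1 (hAB hs)).1)
  rw [ZZ_toF hT1'] at m1
  rw [ZZ_toF hX1'] at m2
  have m6 : ∑ s ∈ ZT, f s = ∑ s ∈ Bk \ A, f s + ∑ s ∈ A, f s + ∑ s ∈ ZT \ Bk, f s := by
    rw [Finset.sum_sdiff hAB, add_comm, Finset.sum_sdiff hBZ]
  set err := (1 + 1 / ε) * ∑ s ∈ A, (mu s : ℝ) *
      (wt t0 D s.im * (2 * (κ1 / Real.log T) *
      ∫ x in (-(κ1 / Real.log T))..(κ1 / Real.log T),
      ‖Qd P B1 (r * T) (r * s.im + c + x)‖ ^ 2)) with herr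
  have m7 : Real.pi * err ≤ (1 - θ2) / 4 * (D * Real.log T) := by
    refine le_trans ?_ g3
    rw [herr]
    gcongr
  have m8 := fin_num (∑ s ∈ ZT, f s) (∑ s ∈ Bk \ A, f s) (∑ s ∈ ZT \ Bk, f s) (∑ s ∈ A, f s)
    (∑ s ∈ (ZZ_fin hX1').toFinset, (mu s : ℝ) * (wt (r * t0 + c) (dd P.κ (r * T)) s.im *
      ‖Qn P B1 (r * T) s.im‖ ^ 2)) err (Real.sqrt (2 * Real.pi)) D (Real.log T)
    (Real.log (r * T)) (Gd P B1 (r * T)) ε θ2 (C1 * D * Real.sqrt (Real.log T)) r a m1 m6 m3 m4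
    (by rw [hrD]; exact m2) f2 m7 g1 g2 s2pi_ge (Gd_one _ _ _) hD0 hLT hθ21
  refine le_trans ?_ m8
  have k1 : dd P.κ T * Real.log T ≤ 3 * (D * Real.log T) := by
    have : dd P.κ T ≤ 3 * D := by linarith
    calc dd P.κ T * Real.log T ≤ (3 * D) * Real.log T := by gcongr
      _ = _ := by ring
  have k2 : 0 < (1 - θ2) / 48 := by linarith
  calc (1 - θ2) / 48 * (dd P.κ T * Real.log T) ≤ (1 - θ2) / 48 * (3 * (D * Real.log T)) := by
        gcongr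
    _ = _ := by ring

end Pool.Agent.V7H88.DZ
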